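import Pool.Agent.Lib.MP_745d3a_ag.PB.Rel

/-!
Acyclicity and duality.
-/

set_option autoImplicit false

section

open MvPolynomial Matrix

namespace Pool.Agent.Lib.MP_745d3a_ag.PB

variable {K : Type*} [Field K] {ι : Type*} [Fintype ι] [DecidableEq ι]

omit [Fintype ι] [DecidableEq ι] in
lemma Aa1_mem (M : ℕ) (A : Finset (Fin 5)) (a : S K) :
    a ∈ idl K M A ↔ ∀ s ∈ a.support, ∃ j ∈ A, M ≤ s j := by
  have h1 : idl K M A = Ideal.span ((fun s => monomial s (1 : K)) ''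
      ((fun j => Finsupp.single j M) '' (A : Set (Fin 5)))) := by
    unfold idl
    rw [Set.image_image]
    congr 1
    refine Set.image_congr fun j _ => ?_
    exact X_pow_eq_monomial
  rw [h1, mem_ideal_span_monomial_image]
  refine forall₂_congr fun s _ => ?_
  constructor
  · rintro ⟨t, ⟨j, hj, rfl⟩, hle⟩
    refine ⟨j, hj, ?_⟩
    simpa using hle j
  · rintro ⟨j, hj, hle⟩
    exact ⟨_, ⟨j, hj, rfl⟩, by simpa using hle⟩

lemma idl_nzd (M : ℕ) (A : Finset (Fin 5)) (j : Fin 5) (hj : j ∉ A) (a : S K)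
    (h : X j ^ M * a ∈ idl K M A) : a ∈ idl K M A := by
  rw [Aa1_mem] at h ⊢
  intro s hs
  have h1 : Finsupp.single j M + s ∈ (X j ^ M * a).support := by
    rw [mem_support_iff, X_pow_eq_monomial, coeff_monomial_mul, one_mul]
    exact mem_support_iff.mp hs
  obtain ⟨k, hk, hle⟩ := h _ h1
  refine ⟨k, hk, ?_⟩
  have hne : j ≠ k := fun e => hj (e ▸ hk)
  rwa [Finsupp.add_apply, Finsupp.single_eq_of_ne' hne, zero_add] at hle

lemma idl_insert (M : ℕ) (A : Finset (Fin 5)) (j : Fin 5) (a : S K)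
    (h : a ∈ idl K M (insert j A)) : ∃ b, a - X j ^ M * b ∈ idl K M A := by
  unfold idl at h
  rw [Finset.coe_insert, Set.image_insert_eq, Ideal.mem_span_insert] at h
  obtain ⟨b, a', ha', rfl⟩ := h
  refine ⟨b, ?_⟩
  have : b * X j ^ M + a' - X j ^ M * b = a' := by ring
  rw [this]
  exact ha'

lemma idl_mono (M : ℕ) {A B : Finset (Fin 5)} (h : A ⊆ B) : idl K M A ≤ idl K M B := by
  unfold idl
  exact Ideal.span_mono (Set.image_mono (Finset.coe_subset.mpr h))

lemma idl_empty (M : ℕ) (a : S K) (h : a ∈ idl K M ∅) : a = 0 := by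
  unfold idl at h
  simpa using h

lemma Mo.add {M : ℕ} {A : Finset (Fin 5)} {z w : ι → S K} (hz : Mo M A z) (hw : Mo M A w) :
    Mo M A (z + w) := by
  intro i
  exact Ideal.add_mem _ (hz i) (hw i)

lemma Mo.sub {M : ℕ} {A : Finset (Fin 5)} {z w : ι → S K} (hz : Mo M A z) (hw : Mo M A w) :
    Mo M A (z - w) := by
  intro i
  exact Ideal.sub_mem _ (hz i) (hw i)

lemma Mo.mulVec {M : ℕ} {A : Finset (Fin 5)} {z : ι → S K} (hz : Mo M A z)
    (N : Matrix ι ι (S K)) : Mo M A (N *ᵥ z) := by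
  intro i
  rw [Matrix.mulVec, dotProduct]
  exact Ideal.sum_mem _ fun j _ => Ideal.mul_mem_left _ _ (hz j)

lemma Mo.mono {M : ℕ} {A B : Finset (Fin 5)} (h : A ⊆ B) {z : ι → S K} (hz : Mo M A z) :
    Mo M B z := by
  intro i
  exact idl_mono M h (hz i)

lemma mo_smul {M : ℕ} {A : Finset (Fin 5)} {j : Fin 5} (hj : j ∈ A) (z : ι → S K) :
    Mo M A ((X j ^ M : S K) • z) := by
  intro i
  rw [Pi.smul_apply, smul_eq_mul]
  exact Ideal.mul_mem_right _ _ (Ideal.subset_span ⟨j, hj, rfl⟩)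

end Pool.Agent.Lib.MP_745d3a_ag.PB

end

section

open MvPolynomial Matrix

namespace Pool.Agent.Lib.MP_745d3a_ag.PB

variable {K : Type*} [Field K] {ι : Type*} [Fintype ι] [DecidableEq ι]

namespace Cx

variable {hd : ι → ℕ} {D : Matrix ι ι (S K)} {h : Fin 5 → Matrix ι ι (S K)} {M : ℕ}
  (c : Cx hd D h M)

include c

lemma at_D {k : ℕ} {z : ι → S K} (hz : At hd (k + 1) z) : At hd k (D *ᵥ z) := by
  intro i hi
  have h1 : ∑ j, D i j * z j ≠ 0 := hi
  obtain ⟨j, -, hj⟩ := Finset.exists_ne_zero_of_sum_ne_zero h1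
  have h2 := c.ddeg i j (left_ne_zero_of_mul hj)
  have h3 := hz j (right_ne_zero_of_mul hj)
  omega

lemma at_h (j : Fin 5) {k : ℕ} {z : ι → S K} (hz : At hd k z) : At hd (k + 1) (h j *ᵥ z) := by
  intro i hi
  have h1 : ∑ l, h j i l * z l ≠ 0 := hi
  obtain ⟨l, -, hl⟩ := Finset.exists_ne_zero_of_sum_ne_zero h1
  have h2 := c.hdeg j i l (left_ne_zero_of_mul hl)
  have h3 := hz l (right_ne_zero_of_mul hl)
  omega

lemma at_prodh (l : List (Fin 5)) {k : ℕ} {z : ι → S K} (hz : At hd k z) :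
    At hd (k + l.length) (prodh h l *ᵥ z) := by
  induction l with
  | nil =>
    have h1 : prodh h ([] : List (Fin 5)) = 1 := rfl
    rw [h1, Matrix.one_mulVec]
    exact hz
  | cons j l ih =>
    have h1 : prodh h (j :: l) = h j * prodh h l := by
      simp only [prodh, List.map_cons, List.prod_cons]
    rw [h1, ← Matrix.mulVec_mulVec]
    have h2 := c.at_h j ih
    have h3 : k + (j :: l).length = k + l.length + 1 := by
      simp only [List.length_cons]; omega
    rw [h3]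
    exact h2

lemma at_zero {k : ℕ} (hk : 5 < k) {z : ι → S K} (hz : At hd k z) : z = 0 := by
  funext i
  by_contra hi
  have h1 := hz i hi
  have h2 := c.le5 i
  omega

lemma D_at_zero {z : ι → S K} (hz : At hd 0 z) : D *ᵥ z = 0 := by
  funext i
  by_contra hi
  have h1 : ∑ j, D i j * z j ≠ 0 := hi
  obtain ⟨j, -, hj⟩ := Finset.exists_ne_zero_of_sum_ne_zero h1
  have h2 := c.ddeg i j (left_ne_zero_of_mul hj)
  have h3 := hz j (right_ne_zero_of_mul hj)
  omega

lemma D_prt (k : ℕ) (z : ι → S K) : D *ᵥ prt hd (k + 1) z = prt hd k (D *ᵥ z) := by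
  funext i
  have h1 : (D *ᵥ prt hd (k + 1) z) i = ∑ j, D i j * prt hd (k + 1) z j := rfl
  have h2 : prt hd k (D *ᵥ z) i = if hd i = k then ∑ j, D i j * z j else 0 := rfl
  rw [h1, h2]
  split_ifs with hk
  · refine Finset.sum_congr rfl fun j _ => ?_
    by_cases hD : D i j = 0
    · rw [hD, zero_mul, zero_mul]
    · have h3 := c.ddeg i j hD
      have h4 : hd j = k + 1 := by omega
      simp only [prt, h4, if_true]
  · refine Finset.sum_eq_zero fun j _ => ?_
    by_cases hD : D i j = 0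
    · rw [hD, zero_mul]
    · have h3 := c.ddeg i j hD
      have h4 : ¬ hd j = k + 1 := by omega
      simp only [prt, h4, if_false, mul_zero]

lemma hom_mulVec (j : Fin 5) (z : ι → S K) :
    D *ᵥ (h j *ᵥ z) = (X j ^ M : S K) • z - h j *ᵥ (D *ᵥ z) := by
  have h1 := congrArg (fun N => N *ᵥ z) (c.hom j)
  simp only [Matrix.add_mulVec, Matrix.smul_mulVec, Matrix.one_mulVec] at h1
  rw [Matrix.mulVec_mulVec, Matrix.mulVec_mulVec, eq_sub_iff_add_eq]
  exact h1

end Cx

end Pool.Agent.Lib.MP_745d3a_ag.PB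

end

section

open MvPolynomial Matrix

namespace Pool.Agent.Lib.MP_745d3a_ag.PB

variable {K : Type*} [Field K] {ι : Type*} [Fintype ι] [DecidableEq ι]

namespace Cx

variable {hd : ι → ℕ} {D : Matrix ι ι (S K)} {h : Fin 5 → Matrix ι ι (S K)} {M : ℕ}
  (c : Cx hd D h M)

include c

lemma descend (A : Finset (Fin 5)) (j : Fin 5) (hj : j ∉ A) (k : ℕ) (z w : ι → S K)
    (hz : At hd k z) (hDz : Mo M A (D *ᵥ z)) (hw : Mo M (insert j A) (h j *ᵥ z - D *ᵥ w)) :
    ∃ u, At hd (k + 1) u ∧ Mo M A (z - D *ᵥ u) := by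
  have h1 : ∀ i, ∃ b, (h j *ᵥ z - D *ᵥ w) i - X j ^ M * b ∈ idl K M A := fun i =>
    idl_insert M A j _ (hw i)
  choose u hu using h1
  have h2 : Mo M A (h j *ᵥ z - D *ᵥ w - (X j ^ M : S K) • u) := by
    intro i
    have := hu i
    simpa [Pi.sub_apply, Pi.smul_apply, smul_eq_mul] using this
  have h3 : D *ᵥ (h j *ᵥ z - D *ᵥ w - (X j ^ M : S K) • u) =
      (X j ^ M : S K) • (z - D *ᵥ u) - h j *ᵥ (D *ᵥ z) := by
    rw [Matrix.mulVec_sub, Matrix.mulVec_sub, Matrix.mulVec_mulVec w D D, c.dd, Matrix.zero_mulVec,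
      c.hom_mulVec j z, Matrix.mulVec_smul, smul_sub, sub_zero]
    abel
  have h4 : Mo M A ((X j ^ M : S K) • (z - D *ᵥ u)) := by
    have e1 : (X j ^ M : S K) • (z - D *ᵥ u) =
        D *ᵥ (h j *ᵥ z - D *ᵥ w - (X j ^ M : S K) • u) + h j *ᵥ (D *ᵥ z) := by
      rw [h3]; abel
    rw [e1]
    exact (h2.mulVec D).add (hDz.mulVec (h j))
  have h5 : Mo M A (z - D *ᵥ u) := by
    intro i
    refine idl_nzd M A j hj _ ?_
    have := h4 i
    simpa [Pi.smul_apply, smul_eq_mul] using this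
  refine ⟨prt hd (k + 1) u, ?_, ?_⟩
  · intro i hi
    by_contra hne
    exact hi (by simp [prt, hne])
  · intro i
    rw [c.D_prt k u]
    by_cases hi : hd i = k
    · have := h5 i
      simpa [prt, hi] using this
    · have hzi : z i = 0 := by
        by_contra hne
        exact hi (hz i hne)
      have e2 : (z - prt hd k (D *ᵥ u)) i = 0 := by
        simp [prt, hi, hzi]
      rw [e2]
      exact Submodule.zero_mem _

private lemma acyc_aux (n : ℕ) : ∀ (A : Finset (Fin 5)) (k : ℕ), 6 ≤ k + n → A.card < k →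
    ∀ z : ι → S K, At hd k z → Mo M A (D *ᵥ z) →
      ∃ u, At hd (k + 1) u ∧ Mo M A (z - D *ᵥ u) := by
  have base : ∀ (A : Finset (Fin 5)) (k : ℕ), 5 < k → ∀ z : ι → S K, At hd k z →
      ∃ u, At hd (k + 1) u ∧ Mo M A (z - D *ᵥ u) := by
    intro A k hk z hz
    have hz0 : z = 0 := c.at_zero hk hz
    refine ⟨0, fun i hi => absurd rfl hi, fun i => ?_⟩
    rw [hz0, Matrix.mulVec_zero, sub_zero]
    exact Submodule.zero_mem _
  induction n with
  | zero =>
    intro A k hk _ z hz _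
    exact base A k (by omega) z hz
  | succ n ih =>
    intro A k hk hA z hz hDz
    rcases Nat.lt_or_ge 5 k with h5 | h5
    · exact base A k h5 z hz
    have hj : ∃ j, j ∉ A := by
      by_contra hcon
      push Not at hcon
      have : A = Finset.univ := Finset.eq_univ_iff_forall.2 hcon
      rw [this, Finset.card_univ, Fintype.card_fin] at hA
      omega
    obtain ⟨j, hj⟩ := hj
    have hy : At hd (k + 1) (h j *ᵥ z) := c.at_h j hz
    have hDy : Mo M (insert j A) (D *ᵥ (h j *ᵥ z)) := by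
      rw [c.hom_mulVec j z]
      exact (mo_smul (Finset.mem_insert_self j A) z).sub
        ((hDz.mulVec (h j)).mono (Finset.subset_insert j A))
    obtain ⟨w, _, hw⟩ := ih (insert j A) (k + 1) (by omega)
      (by rw [Finset.card_insert_of_notMem hj]; omega) (h j *ᵥ z) hy hDy
    exact c.descend A j hj k z w hz hDz hw

lemma acyc (A : Finset (Fin 5)) (k : ℕ) (hk : A.card < k) (z : ι → S K) (hz : At hd k z)
    (hDz : Mo M A (D *ᵥ z)) : ∃ u, At hd (k + 1) u ∧ Mo M A (z - D *ᵥ u) :=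
  c.acyc_aux 6 A k (by omega) hk z hz hDz

end Cx

end Pool.Agent.Lib.MP_745d3a_ag.PB

end

section

open MvPolynomial Matrix

namespace Pool.Agent.Lib.MP_745d3a_ag.PB

variable {K : Type*} [Field K] {ι : Type*} [Fintype ι] [DecidableEq ι]

namespace Cx

variable {hd : ι → ℕ} {D : Matrix ι ι (S K)} {h : Fin 5 → Matrix ι ι (S K)} {M : ℕ}
  (c : Cx hd D h M)

include c

omit c [Fintype ι] [DecidableEq ι] in
private lemma Ac_zero (A : Finset (Fin 5)) : Mo M A (0 : ι → S K) := fun _ => Ideal.zero_mem _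

omit c in
private lemma Ac_nil (z : ι → S K) : prodh h [] *ᵥ z = z := by
  simp [prodh]

omit c in
private lemma Ac_cons (j : Fin 5) (l : List (Fin 5)) (z : ι → S K) :
    prodh h (j :: l) *ᵥ z = h j *ᵥ (prodh h l *ᵥ z) := by
  simp [prodh, Matrix.mulVec_mulVec]

omit c in
private lemma Ac_append (l₁ l₂ : List (Fin 5)) (z : ι → S K) :
    prodh h (l₁ ++ l₂) *ᵥ z = prodh h l₁ *ᵥ (prodh h l₂ *ᵥ z) := by
  simp [prodh, Matrix.mulVec_mulVec]

lemma D_prodh (l : List (Fin 5)) (z : ι → S K) (hz : At hd 0 z) :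
    Mo M l.toFinset (D *ᵥ (prodh h l *ᵥ z)) := by
  induction l with
  | nil =>
    rw [Ac_nil, c.D_at_zero hz]
    exact Ac_zero _
  | cons j l ih =>
    rw [Ac_cons, c.hom_mulVec]
    have h1 : Mo M (j :: l).toFinset ((X j ^ M : S K) • (prodh h l *ᵥ z)) :=
      mo_smul (by simp) _
    have h2 : Mo M (j :: l).toFinset (h j *ᵥ (D *ᵥ (prodh h l *ᵥ z))) :=
      (ih.mono (by intro a ha; simp at ha ⊢; exact Or.inr ha)).mulVec _
    exact h1.sub h2

private lemma Ac_comm (l : List (Fin 5)) (t : ι → S K) :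
    ∃ s : S K, Mo M Finset.univ (prodh h l *ᵥ (D *ᵥ t) - s • (D *ᵥ (prodh h l *ᵥ t))) := by
  induction l with
  | nil =>
    refine ⟨1, ?_⟩
    rw [Ac_nil, Ac_nil, one_smul, sub_self]
    exact Ac_zero _
  | cons j l ih =>
    obtain ⟨s, hs⟩ := ih
    refine ⟨-s, ?_⟩
    rw [Ac_cons, Ac_cons, c.hom_mulVec]
    have h1 := hs.mulVec (h j)
    have h2 : Mo M Finset.univ ((X j ^ M : S K) • (s • (prodh h l *ᵥ t))) :=
      mo_smul (Finset.mem_univ j) _
    have h3 := h1.add h2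
    convert h3 using 1
    rw [Matrix.mulVec_sub, Matrix.mulVec_smul, smul_sub, neg_smul, neg_smul, smul_comm s]
    abel

lemma push (l : List (Fin 5)) (k : ℕ) (hl : l.length + k = 5) (y t : ι → S K)
    (ht : At hd (k + 1) t) (hy : Mo M Finset.univ (y - D *ᵥ t)) :
    Mo M Finset.univ (prodh h l *ᵥ y) := by
  obtain ⟨s, hs⟩ := Ac_comm c l t
  have h0 : prodh h l *ᵥ t = 0 := c.at_zero (k := k + 1 + l.length) (by omega) (c.at_prodh l ht)
  rw [h0, Matrix.mulVec_zero, smul_zero, sub_zero] at hs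
  have h1 := (hy.mulVec (prodh h l)).add hs
  rwa [Matrix.mulVec_sub, sub_add_cancel] at h1

lemma swap (l₁ l₂ : List (Fin 5)) (i j : Fin 5) (hl : l₁.length + (l₂.length + 2) = 5)
    (z : ι → S K) (hz : At hd 0 z) :
    Mo M Finset.univ
      (prodh h (l₁ ++ i :: j :: l₂) *ᵥ z + prodh h (l₁ ++ j :: i :: l₂) *ᵥ z) := by
  rw [Ac_append, Ac_append, Ac_cons, Ac_cons, Ac_cons, Ac_cons, ← Matrix.mulVec_add]
  have hw : At hd l₂.length (prodh h l₂ *ᵥ z) := by
    have := c.at_prodh l₂ hz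
    rwa [zero_add] at this
  have hDw := c.D_prodh l₂ z hz
  set w := prodh h l₂ *ᵥ z with hwdef
  set y := h i *ᵥ (h j *ᵥ w) + h j *ᵥ (h i *ᵥ w) with hy
  have hyA : At hd (l₂.length + 2) y := by
    have h1 := c.at_h i (c.at_h j hw)
    have h2 := c.at_h j (c.at_h i hw)
    intro a ha
    by_contra hne
    apply ha
    have e1 : (h i *ᵥ (h j *ᵥ w)) a = 0 := by
      by_contra hh; exact hne (h1 a hh)
    have e2 : (h j *ᵥ (h i *ᵥ w)) a = 0 := by
      by_contra hh; exact hne (h2 a hh)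
    rw [hy, Pi.add_apply, e1, e2, add_zero]
  have hDy : D *ᵥ y = h i *ᵥ (h j *ᵥ (D *ᵥ w)) + h j *ᵥ (h i *ᵥ (D *ᵥ w)) := by
    rw [hy, Matrix.mulVec_add, c.hom_mulVec, c.hom_mulVec, c.hom_mulVec, c.hom_mulVec,
      Matrix.mulVec_sub, Matrix.mulVec_sub, Matrix.mulVec_smul, Matrix.mulVec_smul]
    abel
  have hMo : Mo M l₂.toFinset (D *ᵥ y) := by
    rw [hDy]
    exact ((hDw.mulVec _).mulVec _).add ((hDw.mulVec _).mulVec _)
  obtain ⟨u, hu, hyu⟩ := c.acyc l₂.toFinset (l₂.length + 2)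
    (lt_of_le_of_lt (List.toFinset_card_le l₂) (by omega)) y hyA hMo
  exact c.push l₁ (l₂.length + 2) hl y u hu (hyu.mono (Finset.subset_univ _))

lemma reversal (z : ι → S K) (hz : At hd 0 z) :
    Mo M Finset.univ (prodh h [4, 3, 2, 1, 0] *ᵥ z - prodh h [0, 1, 2, 3, 4] *ᵥ z) := by
  have h1 := c.swap [] [2, 1, 0] 4 3 rfl z hz
  have h2 := c.swap [3] [1, 0] 4 2 rfl z hz
  have h3 := c.swap [3, 2] [0] 4 1 rfl z hz
  have h4 := c.swap [3, 2, 1] [] 4 0 rfl z hz
  have h5 := c.swap [] [1, 0, 4] 3 2 rfl z hz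
  have h6 := c.swap [2] [0, 4] 3 1 rfl z hz
  have h7 := c.swap [2, 1] [4] 3 0 rfl z hz
  have h8 := c.swap [] [0, 3, 4] 2 1 rfl z hz
  have h9 := c.swap [1] [3, 4] 2 0 rfl z hz
  have h10 := c.swap [] [2, 3, 4] 1 0 rfl z hz
  simp only [List.nil_append, List.cons_append] at h1 h2 h3 h4 h5 h6 h7 h8 h9 h10
  have := ((((((((h1.sub h2).add h3).sub h4).add h5).sub h6).add h7).sub h8).add h9).sub h10
  convert this using 1
  abel

end Cx

end Pool.Agent.Lib.MP_745d3a_ag.PB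

end

section

open MvPolynomial Matrix

namespace Pool.Agent.Lib.MP_745d3a_ag.PB

variable {K : Type*} [Field K] {ι : Type*} [Fintype ι] [DecidableEq ι]

private lemma Ad_step {hd : ι → ℕ} {D : Matrix ι ι (S K)} {h : Fin 5 → Matrix ι ι (S K)} {M : ℕ}
    (c : Cx hd D h M) (L : List (Fin 5)) (j : Fin 5) (hj : j ∉ L.toFinset) (z : ι → S K)
    (hz : At hd 0 z)
    (hw : ∃ w, Mo M (j :: L).toFinset (prodh h (j :: L) *ᵥ z - D *ᵥ w)) :
    ∃ u, At hd (L.length + 1) u ∧ Mo M L.toFinset (prodh h L *ᵥ z - D *ᵥ u) := by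
  obtain ⟨w, hw⟩ := hw
  have h1 : prodh h (j :: L) *ᵥ z = h j *ᵥ (prodh h L *ᵥ z) := by
    simp [prodh, Matrix.mulVec_mulVec]
  rw [h1, List.toFinset_cons] at hw
  have h2 : At hd L.length (prodh h L *ᵥ z) := by
    have h3 := c.at_prodh L hz
    rwa [Nat.zero_add] at h3
  exact c.descend L.toFinset j hj L.length (prodh h L *ᵥ z) w h2 (c.D_prodh L z hz) hw

lemma Cx.image_iff {hd : ι → ℕ} {D : Matrix ι ι (S K)} {h : Fin 5 → Matrix ι ι (S K)} {M : ℕ}
    (c : Cx hd D h M) (z : ι → S K) (hz : At hd 0 z) :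
    (∃ w, At hd 1 w ∧ D *ᵥ w = z) ↔ Mo M Finset.univ (prodh h [4, 3, 2, 1, 0] *ᵥ z) := by
  constructor
  · rintro ⟨w, hw, hwz⟩
    refine c.push [4, 3, 2, 1, 0] 0 rfl z w hw ?_
    rw [hwz, sub_self]
    intro i
    exact Ideal.zero_mem _
  · intro hM
    have hu : (Finset.univ : Finset (Fin 5)) = ([4, 3, 2, 1, 0] : List (Fin 5)).toFinset := by
      decide
    have h5 : ∃ w : ι → S K, Mo M ([4, 3, 2, 1, 0] : List (Fin 5)).toFinset
        (prodh h [4, 3, 2, 1, 0] *ᵥ z - D *ᵥ w) := by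
      refine ⟨0, ?_⟩
      rw [Matrix.mulVec_zero, sub_zero, ← hu]
      exact hM
    obtain ⟨u4, -, h4⟩ := Ad_step c [3, 2, 1, 0] 4 (by decide) z hz h5
    obtain ⟨u3, -, h3⟩ := Ad_step c [2, 1, 0] 3 (by decide) z hz ⟨u4, h4⟩
    obtain ⟨u2, -, h2⟩ := Ad_step c [1, 0] 2 (by decide) z hz ⟨u3, h3⟩
    obtain ⟨u1, -, h1⟩ := Ad_step c [0] 1 (by decide) z hz ⟨u2, h2⟩
    obtain ⟨u0, hu0, h0⟩ := Ad_step c [] 0 (by decide) z hz ⟨u1, h1⟩
    refine ⟨u0, hu0, ?_⟩
    funext i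
    have h6 := idl_empty M _ (h0 i)
    have h7 : (prodh h [] *ᵥ z) i = z i := by
      simp [prodh]
    rw [Pi.sub_apply, h7] at h6
    exact (sub_eq_zero.mp h6).symm

end Pool.Agent.Lib.MP_745d3a_ag.PB

end

section

open MvPolynomial Matrix

namespace Pool.Agent.Lib.MP_745d3a_ag.PB

lemma dag_mul {R : Type*} [CommRing R] {τ : Type*} [Fintype τ]
    (M N : Matrix (τ ⊕ τ) (τ ⊕ τ) R) : dag (M * N) = dag N * dag M := by
  rw [← fromBlocks_toBlocks M, ← fromBlocks_toBlocks N]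
  simp only [dag, fromBlocks_multiply, toBlocks_fromBlocks₁₁, toBlocks_fromBlocks₁₂,
    toBlocks_fromBlocks₂₁, toBlocks_fromBlocks₂₂, transpose_add, transpose_mul]
  rw [fromBlocks_inj]
  refine ⟨?_, ?_, ?_, ?_⟩
  · simp only [Matrix.neg_mul, Matrix.mul_neg, neg_neg]
    abel
  · simp only [Matrix.neg_mul, Matrix.mul_neg]
    abel
  · simp only [Matrix.neg_mul, Matrix.mul_neg]
    abel
  · simp only [Matrix.neg_mul, Matrix.mul_neg, neg_neg]
    abel

lemma Ae_dag_one {R : Type*} [CommRing R] {τ : Type*} [DecidableEq τ] :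
    dag (1 : Matrix (τ ⊕ τ) (τ ⊕ τ) R) = 1 := by
  rw [dag]
  nth_rewrite 5 [← fromBlocks_one]
  rw [fromBlocks_inj]
  refine ⟨?_, ?_, ?_, ?_⟩
  · ext i j
    simp [toBlocks₂₂, Matrix.one_apply, eq_comm]
  · ext i j
    simp [toBlocks₁₂]
  · ext i j
    simp [toBlocks₂₁]
  · ext i j
    simp [toBlocks₁₁, Matrix.one_apply, eq_comm]

lemma Ae_dag_add {R : Type*} [CommRing R] {τ : Type*} (M N : Matrix (τ ⊕ τ) (τ ⊕ τ) R) :
    dag (M + N) = dag M + dag N := by
  ext x y
  rcases x with x | x <;> rcases y with y | y <;>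
    simp [dag, toBlocks₁₁, toBlocks₁₂, toBlocks₂₁, toBlocks₂₂, add_comm]

lemma Ae_dag_smul {R : Type*} [CommRing R] {τ : Type*} (c : R) (M : Matrix (τ ⊕ τ) (τ ⊕ τ) R) :
    dag (c • M) = c • dag M := by
  ext x y
  rcases x with x | x <;> rcases y with y | y <;>
    simp [dag, toBlocks₁₁, toBlocks₁₂, toBlocks₂₁, toBlocks₂₂]

lemma Ae_dag_dag {R : Type*} [CommRing R] {τ : Type*} (M : Matrix (τ ⊕ τ) (τ ⊕ τ) R) :
    dag (dag M) = M := by
  ext x y
  rcases x with x | x <;> rcases y with y | y <;>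
    simp [dag, toBlocks₁₁, toBlocks₁₂, toBlocks₂₁, toBlocks₂₂]

lemma Ae_dag_ne {R : Type*} [CommRing R] {τ : Type*} (M : Matrix (τ ⊕ τ) (τ ⊕ τ) R)
    (x y : τ ⊕ τ) (h : dag M x y ≠ 0) : M (Sum.swap y) (Sum.swap x) ≠ 0 := by
  rcases x with x | x <;> rcases y with y | y <;>
    simpa [dag, toBlocks₁₁, toBlocks₁₂, toBlocks₂₁, toBlocks₂₂] using h

lemma dag_prodh {K : Type*} [Field K] {τ : Type*} [Fintype τ] [DecidableEq τ]
    (h : Fin 5 → Matrix (τ ⊕ τ) (τ ⊕ τ) (S K)) (hh : ∀ j, dag (h j) = h j)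
    (l : List (Fin 5)) : dag (prodh h l) = prodh h l.reverse := by
  induction l with
  | nil => simp [prodh, Ae_dag_one]
  | cons j l ih =>
    have h1 : prodh h (j :: l) = h j * prodh h l := by simp [prodh]
    have h2 : prodh h (l.reverse ++ [j]) = prodh h l.reverse * h j := by simp [prodh]
    rw [h1, dag_mul, ih, hh, List.reverse_cons, h2]

lemma Ae_hdg_swap {n b₁ b₂ : ℕ} (x : PureMonad.G n b₁ b₂) :
    PureMonad.hdg n b₁ b₂ (Sum.swap x) + PureMonad.hdg n b₁ b₂ x = 5 := by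
  rcases x with (x | x | x) | (x | x | x) <;> rfl

namespace PureMonad

variable {K : Type*} [Field K] {n b₁ b₂ r p q e : ℕ} (W : PureMonad K n b₁ b₂ r p q e)

lemma dag_bd : dag W.bd = W.bd := by
  have hm : W.midᵀ = -W.mid := by
    ext1 x y
    rcases x with x | x | x <;> rcases y with y | y | y <;> simp [mid]
    exact congrFun (congrFun W.skew x) y
  rw [bd, dag]
  simp only [toBlocks_fromBlocks₁₁, toBlocks_fromBlocks₁₂,
    toBlocks_fromBlocks₂₁, toBlocks_fromBlocks₂₂, transpose_transpose, hm, neg_neg,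
    transpose_zero, neg_zero]

lemma exists_cx [IsAlgClosed K] [CharZero K] :
    ∃ (M : ℕ) (h : Fin 5 → Matrix (G n b₁ b₂) (G n b₁ b₂) (S K)),
      Cx (hdg n b₁ b₂) W.bd h M ∧ ∀ j, dag (h j) = h j := by
  obtain ⟨M, h₀, hh₀⟩ := null_homotopic (K := K) W.bd (1 : Matrix (G n b₁ b₂) (G n b₁ b₂) K)
    (by simp) (by simp) W.bd_sq (by
      intro v hv
      obtain ⟨s, hs⟩ := exists_homotopy_matrix (ev v W.bd)
        (by rw [← ev_mul, W.bd_sq, ev_zero]) (fun z hz => W.bd_exact v hv z hz)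
      exact ⟨s, by rw [hs, mul_one]⟩)
  simp only [cst_one, mul_one] at hh₀
  let hd := hdg n b₁ b₂
  let h₁ : Fin 5 → Matrix (G n b₁ b₂) (G n b₁ b₂) (S K) :=
    fun j x y => if hd x = hd y + 1 then h₀ j x y else 0
  have hd1 : ∀ x y, W.bd x y ≠ 0 → hd x + 1 = hd y := fun x y h => W.bd_hdg x y h
  have h1ne : ∀ j x y, h₁ j x y ≠ 0 → hd x = hd y + 1 := by
    intro j x y h
    by_contra hc
    exact h (if_neg hc)
  have key : ∀ j, W.bd * h₁ j + h₁ j * W.bd =
      (MvPolynomial.X j ^ M : S K) • (1 : Matrix (G n b₁ b₂) (G n b₁ b₂) (S K)) := by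
    intro j
    ext1 x y
    by_cases hxy : hd x = hd y
    · rw [← hh₀ j]
      rw [Matrix.add_apply, Matrix.add_apply, Matrix.mul_apply, Matrix.mul_apply,
        Matrix.mul_apply, Matrix.mul_apply]
      refine congrArg₂ (· + ·) (Finset.sum_congr rfl fun k _ => ?_)
        (Finset.sum_congr rfl fun k _ => ?_)
      · by_cases h0 : W.bd x k = 0
        · rw [h0, zero_mul, zero_mul]
        · have := hd1 x k h0
          have h2 : hd k = hd y + 1 := by omega
          have h3 : h₁ j k y = h₀ j k y := if_pos h2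
          rw [h3]
      · by_cases h0 : W.bd k y = 0
        · rw [h0, mul_zero, mul_zero]
        · have := hd1 k y h0
          have h2 : hd x = hd k + 1 := by omega
          have h3 : h₁ j x k = h₀ j x k := if_pos h2
          rw [h3]
    · have hne : x ≠ y := fun h => hxy (by rw [h])
      rw [Matrix.add_apply, Matrix.mul_apply, Matrix.mul_apply, Matrix.smul_apply,
        Matrix.one_apply_ne hne, smul_zero]
      rw [Finset.sum_eq_zero, Finset.sum_eq_zero, add_zero]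
      · intro k _
        by_contra hc
        have h3 := h1ne j x k (left_ne_zero_of_mul hc)
        have h4 := hd1 k y (right_ne_zero_of_mul hc)
        omega
      · intro k _
        by_contra hc
        have h3 := h1ne j k y (right_ne_zero_of_mul hc)
        have h4 := hd1 x k (left_ne_zero_of_mul hc)
        omega
  have key2 : ∀ j, W.bd * dag (h₁ j) + dag (h₁ j) * W.bd =
      (MvPolynomial.X j ^ M : S K) • (1 : Matrix (G n b₁ b₂) (G n b₁ b₂) (S K)) := by
    intro j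
    have h2 := congrArg dag (key j)
    rw [Ae_dag_add, dag_mul, dag_mul, W.dag_bd, Ae_dag_smul, Ae_dag_one] at h2
    rw [← h2, add_comm]
  refine ⟨M, fun j => (C (1 / 2 : K) : S K) • (h₁ j + dag (h₁ j)), ?_, ?_⟩
  · refine ⟨?_, W.bd_sq, fun i j h => hd1 i j h, ?_, ?_⟩
    · rintro ((i | i | i) | (i | i | i)) <;> simp [hdg]
    · intro k i j h
      by_contra hc
      apply h
      have e1 : h₁ k i j = 0 := by
        by_contra h5
        exact hc (h1ne k i j h5)
      have e2 : dag (h₁ k) i j = 0 := by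
        by_contra h5
        have h6 := h1ne k _ _ (Ae_dag_ne _ _ _ h5)
        have h7 := Ae_hdg_swap i
        have h8 := Ae_hdg_swap j
        apply hc
        change hdg n b₁ b₂ i = hdg n b₁ b₂ j + 1
        change hdg n b₁ b₂ (Sum.swap j) = hdg n b₁ b₂ (Sum.swap i) + 1 at h6
        omega
      rw [Matrix.smul_apply, Matrix.add_apply, e1, e2, add_zero, smul_zero]
    · intro k
      rw [Matrix.mul_smul, Matrix.smul_mul, ← smul_add, Matrix.mul_add, Matrix.add_mul]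
      have h3 : W.bd * h₁ k + W.bd * dag (h₁ k) + (h₁ k * W.bd + dag (h₁ k) * W.bd) =
          (MvPolynomial.X k ^ M : S K) • (1 : Matrix (G n b₁ b₂) (G n b₁ b₂) (S K)) +
          (MvPolynomial.X k ^ M : S K) • (1 : Matrix (G n b₁ b₂) (G n b₁ b₂) (S K)) := by
        nth_rewrite 1 [← key k]
        rw [← key2 k]
        abel
      rw [h3, ← two_smul (S K), smul_smul]
      have h4 : (C (1 / 2 : K) : S K) * 2 = 1 := by
        have h5 : (2 : S K) = C (2 : K) := (map_ofNat C 2).symm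
        rw [h5, ← C_mul]
        norm_num
      rw [h4, one_smul]
  · intro j
    simp only [Ae_dag_smul, Ae_dag_add, Ae_dag_dag]
    rw [add_comm]

end PureMonad

end Pool.Agent.Lib.MP_745d3a_ag.PB

end

section

open MvPolynomial Matrix

namespace Pool.Agent.Lib.MP_745d3a_ag.PB

namespace PureMonad

variable {K : Type*} [Field K] [IsAlgClosed K] [CharZero K] {n b₁ b₂ r p q e : ℕ}

omit [IsAlgClosed K] [CharZero K] in
private lemma Af1_bd0 (W : PureMonad K n b₁ b₂ r p q e) (z : G n b₁ b₂ → S K) (a : Fin n) :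
    (W.bd *ᵥ z) (.inl (.inl a)) = (W.X *ᵥ fun b => z (.inl (.inr (.inl b)))) a := by
  simp [bd, mulVec, dotProduct, Fintype.sum_sum_type, dl, mid]

omit [IsAlgClosed K] [CharZero K] in
private lemma Af1_bd1 (W : PureMonad K n b₁ b₂ r p q e) (z : G n b₁ b₂ → S K) (b : Fin b₁) :
    (W.bd *ᵥ z) (.inl (.inr (.inl b))) = (W.Y *ᵥ fun c => z (.inl (.inr (.inr c)))) b := by
  simp [bd, mulVec, dotProduct, Fintype.sum_sum_type, dl, mid]

omit [IsAlgClosed K] [CharZero K] in
private lemma Af1_bd2 (W : PureMonad K n b₁ b₂ r p q e) (z : G n b₁ b₂ → S K) (c : Fin b₂) :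
    (W.bd *ᵥ z) (.inl (.inr (.inr c))) = (W.Z *ᵥ fun c' => z (.inr (.inr (.inr c')))) c := by
  simp [bd, mulVec, dotProduct, Fintype.sum_sum_type, dl, mid]

omit [IsAlgClosed K] [CharZero K] in
private lemma Af1_bdr (W : PureMonad K n b₁ b₂ r p q e) (z : G n b₁ b₂ → S K)
    (hz : ∀ x, z (.inr x) = 0) (x : T n b₁ b₂) : (W.bd *ᵥ z) (.inr x) = 0 := by
  simp [bd, mulVec, dotProduct, Fintype.sum_sum_type, hz]

private noncomputable def Af1_z1 (n b₂ : ℕ) (y : Fin b₁ → S K) : G n b₁ b₂ → S K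
  | .inl (.inr (.inl b)) => y b
  | _ => 0

private noncomputable def Af1_z2 (n b₁ : ℕ) (y : Fin b₂ → S K) : G n b₁ b₂ → S K
  | .inl (.inr (.inr c)) => y c
  | _ => 0

private lemma Af1_core (W : PureMonad K n b₁ b₂ r p q e) (z : G n b₁ b₂ → S K) (k : ℕ)
    (hk : 0 < k) (hz : At (hdg n b₁ b₂) k z) (hD : W.bd *ᵥ z = 0) :
    ∃ u, W.bd *ᵥ u = z := by
  obtain ⟨M, h, c, -⟩ := W.exists_cx
  obtain ⟨u, -, hu⟩ := c.acyc ∅ k (by simpa using hk) z hz (by
    intro i
    rw [hD]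
    exact Ideal.zero_mem _)
  refine ⟨u, ?_⟩
  funext i
  have h1 := idl_empty M _ (hu i)
  rw [Pi.sub_apply, sub_eq_zero] at h1
  exact h1.symm

lemma exact1 (W : PureMonad K n b₁ b₂ r p q e) (y : Fin b₁ → S K) (hy : W.X *ᵥ y = 0) :
    ∃ w, W.Y *ᵥ w = y := by
  obtain ⟨u, hu⟩ := Af1_core W (Af1_z1 n b₂ y) 1 one_pos (by
      intro i hi
      match i, hi with
      | .inl (.inl _), hi => exact absurd rfl hi
      | .inl (.inr (.inl _)), _ => rfl
      | .inl (.inr (.inr _)), hi => exact absurd rfl hi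
      | .inr _, hi => exact absurd rfl hi) (by
      funext i
      match i with
      | .inl (.inl a) => rw [Af1_bd0]; exact congrFun hy a
      | .inl (.inr (.inl b)) =>
        rw [Af1_bd1]
        exact congrFun (Matrix.mulVec_zero W.Y) b
      | .inl (.inr (.inr c)) =>
        rw [Af1_bd2]
        exact congrFun (Matrix.mulVec_zero W.Z) c
      | .inr x => exact Af1_bdr W _ (fun _ => rfl) x)
  refine ⟨fun c => u (.inl (.inr (.inr c))), ?_⟩
  funext b
  rw [← Af1_bd1, hu]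
  rfl

lemma exact2 (W : PureMonad K n b₁ b₂ r p q e) (y : Fin b₂ → S K) (hy : W.Y *ᵥ y = 0) :
    ∃ w, W.Z *ᵥ w = y := by
  obtain ⟨u, hu⟩ := Af1_core W (Af1_z2 n b₁ y) 2 two_pos (by
      intro i hi
      match i, hi with
      | .inl (.inl _), hi => exact absurd rfl hi
      | .inl (.inr (.inl _)), hi => exact absurd rfl hi
      | .inl (.inr (.inr _)), _ => rfl
      | .inr _, hi => exact absurd rfl hi) (by
      funext i
      match i with
      | .inl (.inl a) =>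
        rw [Af1_bd0]
        exact congrFun (Matrix.mulVec_zero W.X) a
      | .inl (.inr (.inl b)) => rw [Af1_bd1]; exact congrFun hy b
      | .inl (.inr (.inr c)) =>
        rw [Af1_bd2]
        exact congrFun (Matrix.mulVec_zero W.Z) c
      | .inr x => exact Af1_bdr W _ (fun _ => rfl) x)
  refine ⟨fun c => u (.inr (.inr (.inr c))), ?_⟩
  funext b
  rw [← Af1_bd2, hu]
  rfl

end PureMonad

end Pool.Agent.Lib.MP_745d3a_ag.PB

end

section

open MvPolynomial Matrix

namespace Pool.Agent.Lib.MP_745d3a_ag.PB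

namespace PureMonad

variable {K : Type*} [Field K] [IsAlgClosed K] [CharZero K] {n b₁ b₂ r p q e : ℕ}

/-- extension by zero of a vector in homological degree zero -/
private noncomputable def Af2_ext (n b₁ b₂ : ℕ) (z : Fin n → S K) : G n b₁ b₂ → S K
  | .inl (.inl a) => z a
  | _ => 0

/-- extension by zero of a vector in homological degree one -/
private noncomputable def Af2_ext1 (n b₁ b₂ : ℕ) (w : Fin b₁ → S K) : G n b₁ b₂ → S K
  | .inl (.inr (.inl a)) => w a
  | _ => 0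

omit [IsAlgClosed K] [CharZero K] in
private lemma Af2_at0 (z : Fin n → S K) : At (hdg n b₁ b₂) 0 (Af2_ext n b₁ b₂ z) := by
  rintro ((a | a | a) | (a | a | a)) h <;> simp [Af2_ext, hdg] at h ⊢

omit [IsAlgClosed K] [CharZero K] in
private lemma Af2_at1 (w : Fin b₁ → S K) : At (hdg n b₁ b₂) 1 (Af2_ext1 n b₁ b₂ w) := by
  rintro ((a | a | a) | (a | a | a)) h <;> simp [Af2_ext1, hdg] at h ⊢

omit [IsAlgClosed K] [CharZero K] in
private lemma Af2_mulVec (N : Matrix (G n b₁ b₂) (G n b₁ b₂) (S K)) (z : Fin n → S K)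
    (i : G n b₁ b₂) :
    (N *ᵥ Af2_ext n b₁ b₂ z) i = ∑ b, N i (.inl (.inl b)) * z b := by
  simp [Matrix.mulVec, dotProduct, Fintype.sum_sum_type, Af2_ext]

omit [IsAlgClosed K] [CharZero K] in
private lemma Af2_bd (W : PureMonad K n b₁ b₂ r p q e) (w : G n b₁ b₂ → S K)
    (a : Fin n) :
    (W.bd *ᵥ w) (.inl (.inl a)) = (W.X *ᵥ fun b => w (.inl (.inr (.inl b)))) a := by
  simp [Matrix.mulVec, dotProduct, Fintype.sum_sum_type, bd, dl, mid]

lemma pairing (W : PureMonad K n b₁ b₂ r p q e) :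
    ∃ (M : ℕ) (C : Matrix (Fin n) (Fin n) (S K)),
      (∀ a b, C a b + C b a ∈ idl K M Finset.univ) ∧
      ∀ z : Fin n → S K, (∃ w, W.X *ᵥ w = z) ↔ ∀ a, (C *ᵥ z) a ∈ idl K M Finset.univ := by
  obtain ⟨M, h, c, hdag⟩ := W.exists_cx
  set H := prodh h [4, 3, 2, 1, 0] with hH
  refine ⟨M, fun a b => H (.inr (.inl a)) (.inl (.inl b)), ?_, ?_⟩
  · intro a b
    have h1 := c.reversal (Af2_ext n b₁ b₂ (Pi.single b 1)) (Af2_at0 _) (.inr (.inl a))
    have h2 : prodh h [0, 1, 2, 3, 4] = dag H := by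
      rw [hH, dag_prodh h hdag]
      rfl
    rw [h2, ← hH] at h1
    rw [Pi.sub_apply, Af2_mulVec, Af2_mulVec] at h1
    simpa [Pi.single_apply, dag, Matrix.toBlocks₂₁, sub_neg_eq_add] using h1
  · intro z
    have h1 := c.image_iff (Af2_ext n b₁ b₂ z) (Af2_at0 z)
    rw [← hH] at h1
    have h5 : At (hdg n b₁ b₂) 5 (H *ᵥ Af2_ext n b₁ b₂ z) := by
      have := c.at_prodh [4, 3, 2, 1, 0] (Af2_at0 (n := n) (b₁ := b₁) (b₂ := b₂) z)
      simpa using this
    have hMo : Mo M Finset.univ (H *ᵥ Af2_ext n b₁ b₂ z) ↔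
        ∀ a, ((Matrix.of fun a b => H (.inr (.inl a)) (.inl (.inl b))) *ᵥ z) a
          ∈ idl K M Finset.univ := by
      have he : ∀ a, ((Matrix.of fun a b => H (.inr (.inl a)) (.inl (.inl b))) *ᵥ z) a
          = (H *ᵥ Af2_ext n b₁ b₂ z) (.inr (.inl a)) := by
        intro a
        rw [Af2_mulVec]
        rfl
      constructor
      · intro hm a
        rw [he]
        exact hm _
      · intro hm i
        by_cases hi : (H *ᵥ Af2_ext n b₁ b₂ z) i = 0
        · rw [hi]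
          exact Ideal.zero_mem _
        · have := h5 i hi
          rcases i with ((a | a | a) | (a | a | a)) <;> simp [hdg] at this
          rw [← he]
          exact hm a
    have hX : (∃ w, At (hdg n b₁ b₂) 1 w ∧ W.bd *ᵥ w = Af2_ext n b₁ b₂ z) ↔
        ∃ w, W.X *ᵥ w = z := by
      constructor
      · rintro ⟨w, -, hw⟩
        refine ⟨fun b => w (.inl (.inr (.inl b))), ?_⟩
        funext a
        rw [← Af2_bd, hw]
        rfl
      · rintro ⟨w, hw⟩
        refine ⟨Af2_ext1 n b₁ b₂ w, Af2_at1 w, ?_⟩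
        have hat := c.at_D (k := 0) (Af2_at1 (n := n) (b₁ := b₁) (b₂ := b₂) w)
        funext i
        by_cases hi : (W.bd *ᵥ Af2_ext1 n b₁ b₂ w) i = 0
        · rw [hi]
          rcases i with ((a | a | a) | (a | a | a)) <;> try rfl
          rw [Af2_bd] at hi
          rw [← hi]
          change (W.X *ᵥ w) a = _
          rw [hw]
          rfl
        · have := hat i hi
          rcases i with ((a | a | a) | (a | a | a)) <;> simp [hdg] at this
          rw [Af2_bd]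
          change (W.X *ᵥ w) a = _
          rw [hw]
          rfl
    rw [← hX, h1, hMo]
    rfl

lemma split_ideal (W : PureMonad K 2 b₁ b₂ r p q e) :
    ∃ J : Ideal (S K), ∀ z : Fin 2 → S K, (∃ w, W.X *ᵥ w = z) ↔ z 0 ∈ J ∧ z 1 ∈ J := by
  obtain ⟨M, C, hC, hz⟩ := W.pairing
  set I := idl K M Finset.univ
  have hd : ∀ a, C a a ∈ I := by
    intro a
    have h2 := I.mul_mem_left (MvPolynomial.C (1 / 2 : K)) (hC a a)
    have h3 : (MvPolynomial.C (1 / 2 : K) : S K) * (C a a + C a a) = C a a := by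
      have h4 : (MvPolynomial.C (1 / 2 : K) : S K) + MvPolynomial.C (1 / 2 : K) = 1 := by
        rw [← MvPolynomial.C_add, add_halves, MvPolynomial.C_1]
      rw [mul_add, ← add_mul, h4, one_mul]
    rwa [h3] at h2
  refine ⟨Submodule.comap (LinearMap.mulLeft (S K) (C 0 1)) I, fun z => ?_⟩
  rw [hz, Fin.forall_fin_two]
  have e0 : (C *ᵥ z) 0 = C 0 0 * z 0 + C 0 1 * z 1 := by
    simp [Matrix.mulVec, dotProduct, Fin.sum_univ_two]
  have e1 : (C *ᵥ z) 1 = C 1 0 * z 0 + C 1 1 * z 1 := by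
    simp [Matrix.mulVec, dotProduct, Fin.sum_univ_two]
  have f0 : (C *ᵥ z) 0 ∈ I ↔ C 0 1 * z 1 ∈ I := by
    rw [e0]
    exact Ideal.add_mem_iff_right I (I.mul_mem_right _ (hd 0))
  have f1 : (C *ᵥ z) 1 ∈ I ↔ C 0 1 * z 0 ∈ I := by
    rw [e1, Ideal.add_mem_iff_left I (I.mul_mem_right _ (hd 1))]
    have h5 : C 1 0 * z 0 = (C 1 0 + C 0 1) * z 0 - C 0 1 * z 0 := by ring
    rw [h5]
    have h6 := I.mul_mem_right (z 0) (hC 1 0)
    constructor
    · intro h7
      have := I.sub_mem h6 h7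
      simpa using this
    · intro h7
      exact I.sub_mem h6 h7
  rw [f0, f1, and_comm]
  rfl

end PureMonad

end Pool.Agent.Lib.MP_745d3a_ag.PB

end
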