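import Pool.Agent.Lib.MP_745d3a_ag.PB.Hilb

/-!
The super exterior cube.
-/

set_option autoImplicit false

section

open MvPolynomial Matrix

namespace Pool.Agent.Lib.MP_745d3a_ag.PB

variable {R : Type*} [CommRing R] {ι : Type*} [Fintype ι] [DecidableEq ι]

private lemma La_mul {X : Type*} [Fintype X] [DecidableEq X] (f g : X → X) (a b : X → R)
    (A B : Matrix X X R) (hA : ∀ x y, A x y = if y = f x then a x else 0)
    (hB : ∀ x y, B x y = if y = g x then b x else 0) (x y : X) :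
    (A * B) x y = if y = g (f x) then a x * b (f x) else 0 := by
  rw [Matrix.mul_apply, Finset.sum_eq_single (f x)]
  · rw [hA, hB, if_pos rfl, mul_ite, mul_zero]
  · intro z _ hz
    rw [hA, if_neg hz, zero_mul]
  · intro h
    exact absurd (Finset.mem_univ _) h

private lemma La_swa (o : ι → Bool) (x y : I3 ι) :
    swa R o x y = if y = (x.2.1, x.1, x.2.2) then sg2 R (o x.1) (o x.2.1) else 0 := by
  unfold swa
  refine if_congr ?_ rfl rfl
  rw [Prod.ext_iff, Prod.ext_iff]
  constructor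
  · rintro ⟨h1, h2, h3⟩
    exact ⟨h2.symm, h1.symm, h3.symm⟩
  · rintro ⟨h1, h2, h3⟩
    exact ⟨h2.symm, h1.symm, h3.symm⟩

private lemma La_swb (o : ι → Bool) (x y : I3 ι) :
    swb R o x y = if y = (x.1, x.2.2, x.2.1) then sg2 R (o x.2.1) (o x.2.2) else 0 := by
  unfold swb
  refine if_congr ?_ rfl rfl
  rw [Prod.ext_iff, Prod.ext_iff]
  constructor
  · rintro ⟨h1, h2, h3⟩
    exact ⟨h1.symm, h3.symm, h2.symm⟩
  · rintro ⟨h1, h2, h3⟩
    exact ⟨h1.symm, h3.symm, h2.symm⟩

private lemma La_sg2 (a b : Bool) : sg2 R a b * sg2 R b a = 1 := by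
  cases a <;> cases b <;> simp [sg2]

lemma swa_sq (o : ι → Bool) : swa R o * swa R o = 1 := by
  ext x y
  rw [La_mul _ _ _ _ _ _ (La_swa (R := R) o) (La_swa (R := R) o), Matrix.one_apply]
  refine if_congr ?_ (La_sg2 _ _) rfl
  exact eq_comm

lemma swb_sq (o : ι → Bool) : swb R o * swb R o = 1 := by
  ext x y
  rw [La_mul _ _ _ _ _ _ (La_swb (R := R) o) (La_swb (R := R) o), Matrix.one_apply]
  refine if_congr ?_ (La_sg2 _ _) rfl
  exact eq_comm

lemma braid (o : ι → Bool) : swa R o * swb R o * swa R o = swb R o * swa R o * swb R o := by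
  ext x y
  rw [La_mul _ _ _ _ _ _ (La_mul _ _ _ _ _ _ (La_swa (R := R) o) (La_swb (R := R) o))
      (La_swa (R := R) o),
    La_mul _ _ _ _ _ _ (La_mul _ _ _ _ _ _ (La_swb (R := R) o) (La_swa (R := R) o))
      (La_swb (R := R) o)]
  refine if_congr Iff.rfl ?_ rfl
  dsimp only
  cases o x.1 <;> cases o x.2.1 <;> cases o x.2.2 <;> simp [sg2]

lemma alt3_sq (K : Type*) [Field K] [CharZero K] (o : ι → Bool) :
    alt3 K o * alt3 K o = alt3 K o := by
  have ha : swa K o * swa K o = 1 := swa_sq o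
  have hb : swb K o * swb K o = 1 := swb_sq o
  have hab : swa K o * swb K o * swa K o = swb K o * swa K o * swb K o := braid o
  unfold alt3
  generalize swa K o = a at ha hab ⊢
  generalize swb K o = b at hb hab ⊢
  have haN : a * (1 - a - b + a * b + b * a - a * b * a)
      = -(1 - a - b + a * b + b * a - a * b * a) := by
    have h1 : a * (1 - a - b + a * b + b * a - a * b * a)
        = a - a * a - a * b + a * a * b + a * b * a - a * a * b * a := by noncomm_ring
    rw [h1, ha]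
    noncomm_ring
  have hbN : b * (1 - a - b + a * b + b * a - a * b * a)
      = -(1 - a - b + a * b + b * a - a * b * a) := by
    have h1 : b * (1 - a - b + a * b + b * a - a * b * a)
        = b - b * a - b * b + b * a * b + b * b * a - b * (a * b * a) := by noncomm_ring
    have h2 : b * (b * a * b) = a * b := by
      rw [← mul_assoc, ← mul_assoc, hb, one_mul]
    rw [h1]
    conv_lhs => rw [hab, h2, hb, ← hab]
    noncomm_ring
  have hN : (1 - a - b + a * b + b * a - a * b * a) * (1 - a - b + a * b + b * a - a * b * a)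
      = (6 : K) • (1 - a - b + a * b + b * a - a * b * a) := by
    generalize hg : (1 - a - b + a * b + b * a - a * b * a) = N at haN hbN ⊢
    have h1 : N * N = N - a * N - b * N + a * (b * N) + b * (a * N) - a * (b * (a * N)) := by
      nth_rewrite 1 [← hg]
      noncomm_ring
    rw [h1, haN, hbN, mul_neg, mul_neg, mul_neg, haN, hbN, mul_neg, haN]
    have h6 : (6 : K) • N = N + N + N + N + N + N := by
      rw [show (6 : K) = 1 + 1 + 1 + 1 + 1 + 1 by norm_num]
      simp only [add_smul, one_smul]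
    rw [h6]
    noncomm_ring
  rw [smul_mul_smul_comm, hN, smul_smul]
  congr 1
  have h6 : (6 : K) ≠ 0 := by norm_num
  field_simp

end Pool.Agent.Lib.MP_745d3a_ag.PB

end

section

open MvPolynomial Matrix

namespace Pool.Agent.Lib.MP_745d3a_ag.PB

variable {R : Type*} [CommRing R] {ι : Type*} [Fintype ι] [DecidableEq ι]

private lemma Lb_swa_mul (o : ι → Bool) (M : Matrix (I3 ι) (I3 ι) R) (i j k : ι) (y : I3 ι) :
    (swa R o * M) (i, j, k) y = sg2 R (o i) (o j) * M (j, i, k) y := by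
  rw [Matrix.mul_apply, Finset.sum_eq_single (j, i, k)]
  · simp [swa]
  · rintro ⟨a, b, c⟩ - h
    have : ¬ (i = b ∧ j = a ∧ k = c) := by
      rintro ⟨rfl, rfl, rfl⟩
      exact h rfl
    simp only [swa, if_neg this, zero_mul]
  · intro h
    exact absurd (Finset.mem_univ _) h

private lemma Lb_mul_swa (o : ι → Bool) (M : Matrix (I3 ι) (I3 ι) R) (x : I3 ι) (a b c : ι) :
    (M * swa R o) x (a, b, c) = M x (b, a, c) * sg2 R (o b) (o a) := by
  rw [Matrix.mul_apply, Finset.sum_eq_single (b, a, c)]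
  · simp [swa]
  · rintro ⟨i, j, k⟩ - h
    have : ¬ (i = b ∧ j = a ∧ k = c) := by
      rintro ⟨rfl, rfl, rfl⟩
      exact h rfl
    simp only [swa, if_neg this, mul_zero]
  · intro h
    exact absurd (Finset.mem_univ _) h

private lemma Lb_swb_mul (o : ι → Bool) (M : Matrix (I3 ι) (I3 ι) R) (i j k : ι) (y : I3 ι) :
    (swb R o * M) (i, j, k) y = sg2 R (o j) (o k) * M (i, k, j) y := by
  rw [Matrix.mul_apply, Finset.sum_eq_single (i, k, j)]
  · simp [swb]
  · rintro ⟨a, b, c⟩ - h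
    have : ¬ (i = a ∧ j = c ∧ k = b) := by
      rintro ⟨rfl, rfl, rfl⟩
      exact h rfl
    simp only [swb, if_neg this, zero_mul]
  · intro h
    exact absurd (Finset.mem_univ _) h

private lemma Lb_mul_swb (o : ι → Bool) (M : Matrix (I3 ι) (I3 ι) R) (x : I3 ι) (a b c : ι) :
    (M * swb R o) x (a, b, c) = M x (a, c, b) * sg2 R (o c) (o b) := by
  rw [Matrix.mul_apply, Finset.sum_eq_single (a, c, b)]
  · simp [swb]
  · rintro ⟨i, j, k⟩ - h
    have : ¬ (i = a ∧ j = c ∧ k = b) := by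
      rintro ⟨rfl, rfl, rfl⟩
      exact h rfl
    simp only [swb, if_neg this, mul_zero]
  · intro h
    exact absurd (Finset.mem_univ _) h

omit [Fintype ι] in
private lemma Lb_bd3 (o : ι → Bool) (D : Matrix ι ι R) (i j k a b c : ι) :
    bd3 o D (i, j, k) (a, b, c) =
      D i a * ((1 : Matrix ι ι R) j b * (1 : Matrix ι ι R) k c)
      + sgM R o i a * (D j b * (1 : Matrix ι ι R) k c)
      + sgM R o i a * (sgM R o j b * D k c) := rfl

omit [Fintype ι] [DecidableEq ι] in
private lemma Lb_diag {o : ι → Bool} {D : Matrix ι ι R} (hD : Odd' o D) (i : ι) : D i i = 0 := by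
  by_contra h
  exact hD i i h rfl

private lemma Lb_sgA (a b c : Bool) (h : b ≠ c) : sg2 R a b = sg R a * sg2 R a c := by
  cases a <;> cases b <;> cases c <;> simp [sg2, sg] at h ⊢

private lemma Lb_sgB (a b c : Bool) (h : a ≠ c) : sg2 R a b * sg R b = sg2 R c b := by
  cases a <;> cases b <;> cases c <;> simp [sg2, sg] at h ⊢

lemma swa_comm (o : ι → Bool) (D : Matrix ι ι R) (hD : Odd' o D) :
    swa R o * bd3 o D = bd3 o D * swa R o := by
  ext ⟨i, j, k⟩ ⟨a, b, c⟩
  rw [Lb_swa_mul, Lb_mul_swa, Lb_bd3, Lb_bd3]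
  by_cases h1 : i = b
  · subst h1
    by_cases h2 : j = a
    · subst h2
      rw [Lb_diag hD i, Lb_diag hD j]
      ring
    · have e1 : (1 : Matrix ι ι R) j a = 0 := Matrix.one_apply_ne h2
      have e2 : sgM R o j a = 0 := Matrix.diagonal_apply_ne _ h2
      have e3 : (1 : Matrix ι ι R) i i = 1 := Matrix.one_apply_eq i
      have e4 : sgM R o i i = sg R (o i) := Matrix.diagonal_apply_eq _ i
      rw [e1, e2, e3, e4]
      by_cases h3 : D j a = 0
      · rw [h3]
        ring
      · rw [Lb_sgA (o i) (o j) (o a) (hD j a h3)]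
        ring
  · have f1 : (1 : Matrix ι ι R) i b = 0 := Matrix.one_apply_ne h1
    have f2 : sgM R o i b = 0 := Matrix.diagonal_apply_ne _ h1
    rw [f1, f2]
    by_cases h2 : j = a
    · subst h2
      have e3 : (1 : Matrix ι ι R) j j = 1 := Matrix.one_apply_eq j
      have e4 : sgM R o j j = sg R (o j) := Matrix.diagonal_apply_eq _ j
      rw [e3, e4]
      by_cases h3 : D i b = 0
      · rw [h3]
        ring
      · rw [← Lb_sgB (o i) (o j) (o b) (hD i b h3)]
        ring
    · have e1 : (1 : Matrix ι ι R) j a = 0 := Matrix.one_apply_ne h2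
      have e2 : sgM R o j a = 0 := Matrix.diagonal_apply_ne _ h2
      rw [e1, e2]
      ring

lemma swb_comm (o : ι → Bool) (D : Matrix ι ι R) (hD : Odd' o D) :
    swb R o * bd3 o D = bd3 o D * swb R o := by
  ext ⟨i, j, k⟩ ⟨a, b, c⟩
  rw [Lb_swb_mul, Lb_mul_swb, Lb_bd3, Lb_bd3]
  by_cases h1 : j = c
  · subst h1
    by_cases h2 : k = b
    · subst h2
      rw [Lb_diag hD j, Lb_diag hD k]
      ring
    · have e1 : (1 : Matrix ι ι R) k b = 0 := Matrix.one_apply_ne h2
      have e2 : sgM R o k b = 0 := Matrix.diagonal_apply_ne _ h2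
      have e3 : (1 : Matrix ι ι R) j j = 1 := Matrix.one_apply_eq j
      have e4 : sgM R o j j = sg R (o j) := Matrix.diagonal_apply_eq _ j
      rw [e1, e2, e3, e4]
      by_cases h3 : D k b = 0
      · rw [h3]
        ring
      · rw [Lb_sgA (o j) (o k) (o b) (hD k b h3)]
        ring
  · have f1 : (1 : Matrix ι ι R) j c = 0 := Matrix.one_apply_ne h1
    have f2 : sgM R o j c = 0 := Matrix.diagonal_apply_ne _ h1
    rw [f1, f2]
    by_cases h2 : k = b
    · subst h2
      have e3 : (1 : Matrix ι ι R) k k = 1 := Matrix.one_apply_eq k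
      have e4 : sgM R o k k = sg R (o k) := Matrix.diagonal_apply_eq _ k
      rw [e3, e4]
      by_cases h3 : D j c = 0
      · rw [h3]
        ring
      · rw [← Lb_sgB (o j) (o k) (o c) (hD j c h3)]
        ring
    · have e1 : (1 : Matrix ι ι R) k b = 0 := Matrix.one_apply_ne h2
      have e2 : sgM R o k b = 0 := Matrix.diagonal_apply_ne _ h2
      rw [e1, e2]
      ring

end Pool.Agent.Lib.MP_745d3a_ag.PB

end

section

set_option linter.unusedSectionVars false

open MvPolynomial Matrix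

namespace Pool.Agent.Lib.MP_745d3a_ag.PB

variable {R : Type*} [CommRing R] {K : Type*} [Field K] {ι : Type*} [Fintype ι] [DecidableEq ι]

lemma kr_add₁ (A A' B C : Matrix ι ι R) : kr (A + A') B C = kr A B C + kr A' B C := by
  ext x y
  show (A x.1 y.1 + A' x.1 y.1) * (B x.2.1 y.2.1 * C x.2.2 y.2.2) =
    A x.1 y.1 * (B x.2.1 y.2.1 * C x.2.2 y.2.2) + A' x.1 y.1 * (B x.2.1 y.2.1 * C x.2.2 y.2.2)
  ring

lemma kr_add₂ (A B B' C : Matrix ι ι R) : kr A (B + B') C = kr A B C + kr A B' C := by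
  ext x y
  show A x.1 y.1 * ((B x.2.1 y.2.1 + B' x.2.1 y.2.1) * C x.2.2 y.2.2) =
    A x.1 y.1 * (B x.2.1 y.2.1 * C x.2.2 y.2.2) + A x.1 y.1 * (B' x.2.1 y.2.1 * C x.2.2 y.2.2)
  ring

lemma kr_add₃ (A B C C' : Matrix ι ι R) : kr A B (C + C') = kr A B C + kr A B C' := by
  ext x y
  show A x.1 y.1 * (B x.2.1 y.2.1 * (C x.2.2 y.2.2 + C' x.2.2 y.2.2)) =
    A x.1 y.1 * (B x.2.1 y.2.1 * C x.2.2 y.2.2) + A x.1 y.1 * (B x.2.1 y.2.1 * C' x.2.2 y.2.2)
  ring

lemma kr_neg₁ (A B C : Matrix ι ι R) : kr (-A) B C = - kr A B C := by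
  ext x y
  show -A x.1 y.1 * (B x.2.1 y.2.1 * C x.2.2 y.2.2) =
    -(A x.1 y.1 * (B x.2.1 y.2.1 * C x.2.2 y.2.2))
  ring

lemma kr_neg₂ (A B C : Matrix ι ι R) : kr A (-B) C = - kr A B C := by
  ext x y
  show A x.1 y.1 * (-B x.2.1 y.2.1 * C x.2.2 y.2.2) =
    -(A x.1 y.1 * (B x.2.1 y.2.1 * C x.2.2 y.2.2))
  ring

lemma kr_neg₃ (A B C : Matrix ι ι R) : kr A B (-C) = - kr A B C := by
  ext x y
  show A x.1 y.1 * (B x.2.1 y.2.1 * -C x.2.2 y.2.2) =
    -(A x.1 y.1 * (B x.2.1 y.2.1 * C x.2.2 y.2.2))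
  ring

lemma kr_zero₁ (B C : Matrix ι ι R) : kr 0 B C = 0 := by
  ext x y
  show (0 : R) * (B x.2.1 y.2.1 * C x.2.2 y.2.2) = 0
  ring

lemma kr_zero₂ (A C : Matrix ι ι R) : kr A 0 C = 0 := by
  ext x y
  show A x.1 y.1 * ((0 : R) * C x.2.2 y.2.2) = 0
  ring

lemma kr_zero₃ (A B : Matrix ι ι R) : kr A B 0 = 0 := by
  ext x y
  show A x.1 y.1 * (B x.2.1 y.2.1 * (0 : R)) = 0
  ring

private lemma Lc1_kr (A B C : Matrix ι ι R) :
    kr A B C = Matrix.kroneckerMap (fun a b => a * b) A (Matrix.kroneckerMap (fun a b => a * b) B C) := rfl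

lemma kr_one : kr (1 : Matrix ι ι R) 1 1 = 1 := by
  rw [Lc1_kr]
  exact (congrArg (Matrix.kroneckerMap (fun a b => a * b) (1 : Matrix ι ι R))
    Matrix.one_kronecker_one).trans Matrix.one_kronecker_one

lemma kr_mul (A B C A' B' C' : Matrix ι ι R) :
    kr A B C * kr A' B' C' = kr (A * A') (B * B') (C * C') := by
  rw [Lc1_kr, Lc1_kr, Lc1_kr]
  rw [Matrix.mul_kronecker_mul B B' C C']
  exact (Matrix.mul_kronecker_mul A A' _ _).symm

lemma sgM_mul_self (o : ι → Bool) : sgM R o * sgM R o = 1 := by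
  unfold sgM
  rw [Matrix.diagonal_mul_diagonal]
  simp only [sg_mul_self]
  exact Matrix.diagonal_one

lemma sgM_anti (o : ι → Bool) (D : Matrix ι ι R) (hD : Odd' o D) :
    sgM R o * D = - (D * sgM R o) := by
  ext i j
  unfold sgM
  rw [Matrix.neg_apply, Matrix.diagonal_mul, Matrix.mul_diagonal]
  by_cases h : D i j = 0
  · rw [h, mul_zero, zero_mul, neg_zero]
  · have h1 := hD i j h
    cases hi : o i <;> cases hj : o j
    · exact absurd (hi.trans hj.symm) h1
    · rw [sg_false, sg_true]; ring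
    · rw [sg_false, sg_true]; ring
    · exact absurd (hi.trans hj.symm) h1

lemma bd3_sq (o : ι → Bool) (D : Matrix ι ι R) (hD : Odd' o D) (hDD : D * D = 0) :
    bd3 o D * bd3 o D = 0 := by
  have hs := sgM_anti o D hD
  unfold bd3
  have haa : kr D (1 : Matrix ι ι R) 1 * kr D 1 1 = 0 := by
    rw [kr_mul, hDD, kr_zero₁]
  have hbb : kr (sgM R o) D (1 : Matrix ι ι R) * kr (sgM R o) D 1 = 0 := by
    rw [kr_mul, hDD, kr_zero₂]
  have hcc : kr (sgM R o) (sgM R o) D * kr (sgM R o) (sgM R o) D = 0 := by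
    rw [kr_mul, hDD, kr_zero₃]
  have hab : kr (sgM R o) D (1 : Matrix ι ι R) * kr D 1 1 = -(kr D 1 1 * kr (sgM R o) D 1) := by
    rw [kr_mul, kr_mul, hs, kr_neg₁]
    simp only [Matrix.mul_one, Matrix.one_mul]
  have hac : kr (sgM R o) (sgM R o) D * kr D (1 : Matrix ι ι R) 1 =
      -(kr D 1 1 * kr (sgM R o) (sgM R o) D) := by
    rw [kr_mul, kr_mul, hs, kr_neg₁]
    simp only [Matrix.mul_one, Matrix.one_mul]
  have hbc : kr (sgM R o) (sgM R o) D * kr (sgM R o) D (1 : Matrix ι ι R) =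
      -(kr (sgM R o) D 1 * kr (sgM R o) (sgM R o) D) := by
    rw [kr_mul, kr_mul, hs, kr_neg₂]
    simp only [Matrix.mul_one, Matrix.one_mul]
  rw [Matrix.add_mul, Matrix.add_mul, Matrix.mul_add, Matrix.mul_add, Matrix.mul_add,
    Matrix.mul_add, Matrix.mul_add, Matrix.mul_add, haa, hbb, hcc, hab, hac, hbc]
  abel

private lemma Lc1_ev_kr (v : Fin 5 → K) (A B C : Matrix ι ι (S K)) :
    ev v (kr A B C) = kr (ev v A) (ev v B) (ev v C) := by
  ext x y
  show eval v (A x.1 y.1 * (B x.2.1 y.2.1 * C x.2.2 y.2.2)) = _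
  rw [map_mul, map_mul]
  rfl

private lemma Lc1_ev_sgM (v : Fin 5 → K) (o : ι → Bool) : ev v (sgM (S K) o) = sgM K o := by
  ext i j
  show eval v (sgM (S K) o i j) = sgM K o i j
  unfold sgM
  by_cases h : i = j
  · subst h
    rw [Matrix.diagonal_apply_eq, Matrix.diagonal_apply_eq]
    cases o i
    · rw [sg_false, sg_false, map_one]
    · rw [sg_true, sg_true, map_neg, map_one]
  · rw [Matrix.diagonal_apply_ne _ h, Matrix.diagonal_apply_ne _ h, map_zero]

lemma ev_bd3 (v : Fin 5 → K) (o : ι → Bool) (D : Matrix ι ι (S K)) :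
    ev v (bd3 o D) = bd3 o (ev v D) := by
  unfold bd3
  rw [ev_add, ev_add, Lc1_ev_kr, Lc1_ev_kr, Lc1_ev_kr, Lc1_ev_sgM, ev_one]

end Pool.Agent.Lib.MP_745d3a_ag.PB

end

section

open MvPolynomial Matrix

namespace Pool.Agent.Lib.MP_745d3a_ag.PB

variable {R : Type*} [CommRing R] {K : Type*} [Field K] {ι : Type*} [Fintype ι] [DecidableEq ι]

private lemma kr_apply (A B C : Matrix ι ι R) (x y : I3 ι) :
    kr A B C x y = A x.1 y.1 * (B x.2.1 y.2.1 * C x.2.2 y.2.2) := rfl

private lemma sg_isHom (b : Bool) : (sg (S K) b).IsHomogeneous 0 := by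
  cases b
  · simpa using isHomogeneous_one (Fin 5) K
  · have h : (sg (S K) true) = C (-1 : K) := by simp
    rw [h]
    exact isHomogeneous_C _ _

private lemma one_ne {i j : ι} (h : (1 : Matrix ι ι R) i j ≠ 0) : i = j := by
  by_contra hij
  exact h (Matrix.one_apply_ne hij)

private lemma sgM_ne {o : ι → Bool} {i j : ι} (h : sgM R o i j ≠ 0) : i = j := by
  by_contra hij
  exact h (Matrix.diagonal_apply_ne _ hij)

private lemma term_hom {d1 d2 : ℕ} (t : S K)
    (h : t ≠ 0 → ∃ k, d1 + k = d2 ∧ t.IsHomogeneous k) :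
    t = 0 ∨ (d1 ≤ d2 ∧ t.IsHomogeneous (d2 - d1)) := by
  by_cases ht : t = 0
  · exact Or.inl ht
  · obtain ⟨k, hk, hh⟩ := h ht
    right
    refine ⟨by omega, ?_⟩
    have : d2 - d1 = k := by omega
    rw [this]
    exact hh

lemma bd3_degZero (o : ι → Bool) (d : ι → ℕ) (D : Matrix ι ι (S K)) (hD : DegZero d D) :
    DegZero (d3 d) (bd3 o D) := by
  rintro ⟨i, j, k⟩ ⟨i', j', k'⟩ hne
  have h1 : kr D 1 1 (i, j, k) (i', j', k') ≠ 0 →
      ∃ m, d3 d (i, j, k) + m = d3 d (i', j', k') ∧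
        (kr D 1 1 (i, j, k) (i', j', k')).IsHomogeneous m := by
    intro h
    rw [kr_apply] at h ⊢
    simp only at h ⊢
    have hj := one_ne (left_ne_zero_of_mul (right_ne_zero_of_mul h))
    have hk := one_ne (right_ne_zero_of_mul (right_ne_zero_of_mul h))
    obtain ⟨m, hm, hh⟩ := hD i i' (left_ne_zero_of_mul h)
    subst hj hk
    refine ⟨m, by simp only [d3]; omega, ?_⟩
    simpa using hh
  have h2 : kr (sgM (S K) o) D 1 (i, j, k) (i', j', k') ≠ 0 →
      ∃ m, d3 d (i, j, k) + m = d3 d (i', j', k') ∧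
        (kr (sgM (S K) o) D 1 (i, j, k) (i', j', k')).IsHomogeneous m := by
    intro h
    rw [kr_apply] at h ⊢
    simp only at h ⊢
    have hi := sgM_ne (left_ne_zero_of_mul h)
    have hk := one_ne (right_ne_zero_of_mul (right_ne_zero_of_mul h))
    obtain ⟨m, hm, hh⟩ := hD j j' (left_ne_zero_of_mul (right_ne_zero_of_mul h))
    subst hi hk
    refine ⟨m, by simp only [d3]; omega, ?_⟩
    have := (sg_isHom (K := K) (o i)).mul hh
    simpa [sgM] using this
  have h3 : kr (sgM (S K) o) (sgM (S K) o) D (i, j, k) (i', j', k') ≠ 0 →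
      ∃ m, d3 d (i, j, k) + m = d3 d (i', j', k') ∧
        (kr (sgM (S K) o) (sgM (S K) o) D (i, j, k) (i', j', k')).IsHomogeneous m := by
    intro h
    rw [kr_apply] at h ⊢
    simp only at h ⊢
    have hi := sgM_ne (left_ne_zero_of_mul h)
    have hj := sgM_ne (left_ne_zero_of_mul (right_ne_zero_of_mul h))
    obtain ⟨m, hm, hh⟩ := hD k k' (right_ne_zero_of_mul (right_ne_zero_of_mul h))
    subst hi hj
    refine ⟨m, by simp only [d3]; omega, ?_⟩
    have := (sg_isHom (K := K) (o i)).mul ((sg_isHom (K := K) (o j)).mul hh)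
    simpa [sgM] using this
  have t1 := term_hom _ h1
  have t2 := term_hom _ h2
  have t3 := term_hom _ h3
  have he : bd3 o D (i, j, k) (i', j', k') = kr D 1 1 (i, j, k) (i', j', k') +
      kr (sgM (S K) o) D 1 (i, j, k) (i', j', k') +
      kr (sgM (S K) o) (sgM (S K) o) D (i, j, k) (i', j', k') := rfl
  rw [he] at hne ⊢
  have hle : d3 d (i, j, k) ≤ d3 d (i', j', k') := by
    by_contra hlt
    rcases t1 with t1 | t1
    · rcases t2 with t2 | t2
      · rcases t3 with t3 | t3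
        · exact hne (by rw [t1, t2, t3]; simp)
        · exact hlt t3.1
      · exact hlt t2.1
    · exact hlt t1.1
  have g : ∀ t : S K, (t = 0 ∨ (d3 d (i, j, k) ≤ d3 d (i', j', k') ∧
      t.IsHomogeneous (d3 d (i', j', k') - d3 d (i, j, k)))) →
      t.IsHomogeneous (d3 d (i', j', k') - d3 d (i, j, k)) := by
    rintro t (ht | ht)
    · rw [ht]; exact isHomogeneous_zero _ _ _
    · exact ht.2
  exact ⟨d3 d (i', j', k') - d3 d (i, j, k), by omega, ((g _ t1).add (g _ t2)).add (g _ t3)⟩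

lemma bd3_odd (o : ι → Bool) (D : Matrix ι ι R) (hD : Odd' o D) :
    Odd' (o3 o) (bd3 o D) := by
  rintro ⟨i, j, k⟩ ⟨i', j', k'⟩ hne
  have he : bd3 o D (i, j, k) (i', j', k') = kr D 1 1 (i, j, k) (i', j', k') +
      kr (sgM R o) D 1 (i, j, k) (i', j', k') +
      kr (sgM R o) (sgM R o) D (i, j, k) (i', j', k') := rfl
  rw [he] at hne
  have key : kr D 1 1 (i, j, k) (i', j', k') ≠ 0 ∨
      kr (sgM R o) D 1 (i, j, k) (i', j', k') ≠ 0 ∨
      kr (sgM R o) (sgM R o) D (i, j, k) (i', j', k') ≠ 0 := by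
    by_contra hc
    push Not at hc
    obtain ⟨c1, c2, c3⟩ := hc
    exact hne (by rw [c1, c2, c3]; simp)
  rcases key with h | h | h
  · rw [kr_apply] at h
    simp only at h
    have hj := one_ne (left_ne_zero_of_mul (right_ne_zero_of_mul h))
    have hk := one_ne (right_ne_zero_of_mul (right_ne_zero_of_mul h))
    have := hD i i' (left_ne_zero_of_mul h)
    subst hj hk
    simp only [o3]
    intro hc
    apply this
    generalize o i = a at *
    generalize o i' = b at *
    generalize xor (o j) (o k) = c at *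
    cases a <;> cases b <;> cases c <;> simp_all
  · rw [kr_apply] at h
    simp only at h
    have hi := sgM_ne (left_ne_zero_of_mul h)
    have hk := one_ne (right_ne_zero_of_mul (right_ne_zero_of_mul h))
    have := hD j j' (left_ne_zero_of_mul (right_ne_zero_of_mul h))
    subst hi hk
    simp only [o3]
    intro hc
    apply this
    generalize o j = a at *
    generalize o j' = b at *
    generalize o i = c at *
    generalize o k = e at *
    cases a <;> cases b <;> cases c <;> cases e <;> simp_all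
  · rw [kr_apply] at h
    simp only at h
    have hi := sgM_ne (left_ne_zero_of_mul h)
    have hj := sgM_ne (left_ne_zero_of_mul (right_ne_zero_of_mul h))
    have := hD k k' (right_ne_zero_of_mul (right_ne_zero_of_mul h))
    subst hi hj
    simp only [o3]
    intro hc
    apply this
    generalize o k = a at *
    generalize o k' = b at *
    generalize o i = c at *
    generalize o j = e at *
    cases a <;> cases b <;> cases c <;> cases e <;> simp_all

end Pool.Agent.Lib.MP_745d3a_ag.PB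

end

section

open MvPolynomial Matrix

namespace Pool.Agent.Lib.MP_745d3a_ag.PB

variable {K : Type*} [Field K] {ι : Type*} [Fintype ι] [DecidableEq ι]

section

variable {κ : Type*} {o : κ → Bool} {d : κ → ℕ}

private lemma ec_one [DecidableEq κ] : EvenConst o d (1 : Matrix κ κ K) := by
  intro i j h
  by_cases hij : i = j
  · subst hij; exact ⟨rfl, rfl⟩
  · exact absurd (Matrix.one_apply_ne hij) h

private lemma ec_add {A B : Matrix κ κ K} (hA : EvenConst o d A) (hB : EvenConst o d B) :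
    EvenConst o d (A + B) := by
  intro i j h
  by_cases h1 : A i j = 0
  · refine hB i j ?_
    intro h2
    apply h
    rw [Matrix.add_apply, h1, h2, add_zero]
  · exact hA i j h1

private lemma ec_sub {A B : Matrix κ κ K} (hA : EvenConst o d A) (hB : EvenConst o d B) :
    EvenConst o d (A - B) := by
  intro i j h
  by_cases h1 : A i j = 0
  · refine hB i j ?_
    intro h2
    apply h
    rw [Matrix.sub_apply, h1, h2, sub_zero]
  · exact hA i j h1

private lemma ec_mul [Fintype κ] {A B : Matrix κ κ K} (hA : EvenConst o d A)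
    (hB : EvenConst o d B) : EvenConst o d (A * B) := by
  intro i j h
  rw [Matrix.mul_apply] at h
  obtain ⟨k, -, hk⟩ := Finset.exists_ne_zero_of_sum_ne_zero h
  have h1 := hA i k (left_ne_zero_of_mul hk)
  have h2 := hB k j (right_ne_zero_of_mul hk)
  exact ⟨h1.1.trans h2.1, h1.2.trans h2.2⟩

private lemma ec_smul {A : Matrix κ κ K} (c : K) (hA : EvenConst o d A) :
    EvenConst o d (c • A) := by
  intro i j h
  refine hA i j ?_
  intro h2
  apply h
  rw [Matrix.smul_apply, h2, smul_zero]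

end

private lemma swa_even (o : ι → Bool) (d : ι → ℕ) : EvenConst (o3 o) (d3 d) (swa K o) := by
  intro x y h
  unfold swa at h
  split_ifs at h with hc
  · obtain ⟨h1, h2, h3⟩ := hc
    unfold o3 d3
    rw [h1, h2, h3]
    refine ⟨?_, by omega⟩
    cases o y.1 <;> cases o y.2.1 <;> cases o y.2.2 <;> rfl
  · exact absurd rfl h

private lemma swb_even (o : ι → Bool) (d : ι → ℕ) : EvenConst (o3 o) (d3 d) (swb K o) := by
  intro x y h
  unfold swb at h
  split_ifs at h with hc
  · obtain ⟨h1, h2, h3⟩ := hc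
    unfold o3 d3
    rw [h1, h2, h3]
    refine ⟨?_, by omega⟩
    cases o y.1 <;> cases o y.2.1 <;> cases o y.2.2 <;> rfl
  · exact absurd rfl h

lemma alt3_even (o : ι → Bool) (d : ι → ℕ) : EvenConst (o3 o) (d3 d) (alt3 K o) := by
  unfold alt3
  have ha := swa_even (K := K) o d
  have hb := swb_even (K := K) o d
  exact ec_smul _ (ec_sub (ec_add (ec_add (ec_sub (ec_sub ec_one ha) hb) (ec_mul ha hb))
    (ec_mul hb ha)) (ec_mul (ec_mul ha hb) ha))

private lemma cst_swa (o : ι → Bool) : cst (swa K o) = swa (S K) o := by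
  ext1 x y
  simp only [cst_apply, swa, sg2]
  split_ifs <;> simp

private lemma cst_swb (o : ι → Bool) : cst (swb K o) = swb (S K) o := by
  ext1 x y
  simp only [cst_apply, swb, sg2]
  split_ifs <;> simp

private lemma cst_smul {m n : Type*} (c : K) (A : Matrix m n K) :
    (cst (c • A) : Matrix m n (S K)) = (C c : S K) • cst A := by
  ext i j; simp

lemma cst_alt3_comm (o : ι → Bool) (D : Matrix ι ι (S K)) (hD : Odd' o D) :
    bd3 o D * cst (alt3 K o) = cst (alt3 K o) * bd3 o D := by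
  have ha : Commute (bd3 o D) (swa (S K) o) := (swa_comm o D hD).symm
  have hb : Commute (bd3 o D) (swb (S K) o) := (swb_comm o D hD).symm
  have key : Commute (bd3 o D) (cst (alt3 K o)) := by
    unfold alt3
    rw [cst_smul, cst_sub, cst_add, cst_add, cst_sub, cst_sub, cst_mul, cst_mul, cst_mul, cst_mul,
      cst_swa, cst_swb, cst_one]
    exact ((((((Commute.one_right _).sub_right ha).sub_right hb).add_right
      (ha.mul_right hb)).add_right (hb.mul_right ha)).sub_right
      ((ha.mul_right hb).mul_right ha)).smul_right _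
  exact key.eq

end Pool.Agent.Lib.MP_745d3a_ag.PB

end

section

open MvPolynomial Matrix

namespace Pool.Agent.Lib.MP_745d3a_ag.PB

variable {R : Type*} [CommRing R] {ι : Type*} [Fintype ι] [DecidableEq ι]

lemma bd3_homotopy (o : ι → Bool) (D s π : Matrix ι ι R) (hD : Odd' o D) (hs : Odd' o s)
    (hDπ : D * π = 0) (hπD : π * D = 0) (h : D * s + s * D = 1 - π) :
    ∃ H : Matrix (I3 ι) (I3 ι) R, bd3 o D * H + H * bd3 o D = 1 - kr π π π := by
  have e1 := sgM_mul_self (R := R) o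
  have e2 := sgM_anti o D hD
  have e3 := sgM_anti o s hs
  have hπ : π = 1 - (D * s + s * D) := by rw [h]; abel
  have e4 : sgM R o * π = π * sgM R o := by
    rw [hπ, mul_sub, sub_mul, mul_add, add_mul, ← mul_assoc, ← mul_assoc, e2, e3, neg_mul, neg_mul,
      mul_assoc, mul_assoc, e2, e3]
    noncomm_ring
  have f1 : D * (sgM R o * π) = 0 := by rw [e4, ← mul_assoc, hDπ, zero_mul]
  have f2 : (sgM R o * π) * D = 0 := by rw [mul_assoc, hπD, mul_zero]
  have f3 : sgM R o * (sgM R o * π) = π := by rw [← mul_assoc, e1, one_mul]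
  have f4 : (sgM R o * π) * sgM R o = π := by rw [mul_assoc, ← e4, ← mul_assoc, e1, one_mul]
  have f5 : sgM R o * s + s * sgM R o = 0 := by rw [e3]; abel
  refine ⟨kr s 1 1 + kr (sgM R o * π) s 1 + kr (sgM R o * π) (sgM R o * π) s, ?_⟩
  have g1 : kr (D * s) 1 1 + kr (s * D) 1 1 = 1 - kr π 1 1 := by
    rw [← kr_add₁, h, sub_eq_add_neg, kr_add₁, kr_neg₁, kr_one]; abel
  have g2 : kr π (D * s) 1 + kr π (s * D) 1 = kr π 1 1 - kr π π 1 := by
    rw [← kr_add₂, h, sub_eq_add_neg, kr_add₂, kr_neg₂]; abel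
  have g3 : kr π π (D * s) + kr π π (s * D) = kr π π 1 - kr π π π := by
    rw [← kr_add₃, h, sub_eq_add_neg, kr_add₃, kr_neg₃]; abel
  have g4 : ∀ B C : Matrix ι ι R, kr (sgM R o * s) B C + kr (s * sgM R o) B C = 0 := by
    intro B C; rw [← kr_add₁, f5, kr_zero₁]
  have g5 : ∀ A C : Matrix ι ι R, kr A (sgM R o * s) C + kr A (s * sgM R o) C = 0 := by
    intro A C; rw [← kr_add₂, f5, kr_zero₂]
  simp only [bd3, mul_add, add_mul, kr_mul, mul_one, one_mul, f1, f2, f3, f4, kr_zero₁, kr_zero₂,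
    kr_zero₃]
  have g4a := g4 D 1
  have g4b := g4 (sgM R o) D
  have g5a := g5 π D
  have : (1 : Matrix (I3 ι) (I3 ι) R) - kr π π π
      = (kr (D * s) 1 1 + kr (s * D) 1 1) + (kr π (D * s) 1 + kr π (s * D) 1)
        + (kr π π (D * s) + kr π π (s * D)) := by
    rw [g1, g2, g3]; abel
  rw [this]
  have k1 : kr (s * sgM R o) D 1 = - kr (sgM R o * s) D 1 := by
    rw [eq_neg_iff_add_eq_zero, add_comm]; exact g4a
  have k2 : kr (s * sgM R o) (sgM R o) D = - kr (sgM R o * s) (sgM R o) D := by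
    rw [eq_neg_iff_add_eq_zero, add_comm]; exact g4b
  have k3 : kr π (s * sgM R o) D = - kr π (sgM R o * s) D := by
    rw [eq_neg_iff_add_eq_zero, add_comm]; exact g5a
  rw [k1, k2, k3]
  abel

end Pool.Agent.Lib.MP_745d3a_ag.PB

end

section

open MvPolynomial Matrix

namespace Pool.Agent.Lib.MP_745d3a_ag.PB

variable {K : Type*} [Field K] {ι : Type*} [Fintype ι] [DecidableEq ι]

/-- no entries in columns with an odd index -/
private def LeV {T : Type*} (o : ι → Bool) (M : Matrix T (I3 ι) K) : Prop :=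
  ∀ t x, M t x ≠ 0 → o x.1 = false ∧ o x.2.1 = false ∧ o x.2.2 = false

private lemma Le_swa {T : Type*} (o : ι → Bool) (M : Matrix T (I3 ι) K) (hM : LeV o M) (t : T)
    (x : I3 ι) : (M * swa K o) t x = M t (x.2.1, x.1, x.2.2) := by
  rw [Matrix.mul_apply, Finset.sum_eq_single (x.2.1, x.1, x.2.2)]
  · have h1 : swa K o (x.2.1, x.1, x.2.2) x = sg2 K (o x.2.1) (o x.1) := by
      unfold swa
      rw [if_pos ⟨rfl, rfl, rfl⟩]
    rw [h1]
    by_cases h0 : M t (x.2.1, x.1, x.2.2) = 0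
    · rw [h0, zero_mul]
    · obtain ⟨h2, h3, -⟩ := hM _ _ h0
      rw [h2, h3]
      simp [sg2]
  · intro z _ hz
    have h1 : swa K o z x = 0 := by
      unfold swa
      rw [if_neg]
      rintro ⟨h2, h3, h4⟩
      exact hz (Prod.ext h2 (Prod.ext h3 h4))
    rw [h1, mul_zero]
  · intro h
    exact absurd (Finset.mem_univ _) h

private lemma Le_swb {T : Type*} (o : ι → Bool) (M : Matrix T (I3 ι) K) (hM : LeV o M) (t : T)
    (x : I3 ι) : (M * swb K o) t x = M t (x.1, x.2.2, x.2.1) := by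
  rw [Matrix.mul_apply, Finset.sum_eq_single (x.1, x.2.2, x.2.1)]
  · have h1 : swb K o (x.1, x.2.2, x.2.1) x = sg2 K (o x.2.2) (o x.2.1) := by
      unfold swb
      rw [if_pos ⟨rfl, rfl, rfl⟩]
    rw [h1]
    by_cases h0 : M t (x.1, x.2.2, x.2.1) = 0
    · rw [h0, zero_mul]
    · obtain ⟨-, h2, h3⟩ := hM _ _ h0
      dsimp only at h2 h3
      rw [h2, h3]
      simp [sg2]
  · intro z _ hz
    have h1 : swb K o z x = 0 := by
      unfold swb
      rw [if_neg]
      rintro ⟨h2, h3, h4⟩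
      exact hz (Prod.ext h2 (Prod.ext h3 h4))
    rw [h1, mul_zero]
  · intro h
    exact absurd (Finset.mem_univ _) h

private lemma Le_Va {T : Type*} (o : ι → Bool) (M : Matrix T (I3 ι) K) (hM : LeV o M) :
    LeV o (M * swa K o) := by
  intro t x h
  rw [Le_swa o M hM] at h
  obtain ⟨h1, h2, h3⟩ := hM _ _ h
  exact ⟨h2, h1, h3⟩

private lemma Le_Vb {T : Type*} (o : ι → Bool) (M : Matrix T (I3 ι) K) (hM : LeV o M) :
    LeV o (M * swb K o) := by
  intro t x h
  rw [Le_swb o M hM] at h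
  obtain ⟨h1, h2, h3⟩ := hM _ _ h
  exact ⟨h1, h3, h2⟩

lemma kr_alt3 (o : ι → Bool) (A : Matrix ι (Fin 2) K) (B : Matrix (Fin 2) ι K)
    (hB : ∀ t i, B t i ≠ 0 → o i = false) :
    kr (A * B) (A * B) (A * B) * alt3 K o = 0 := by
  let A3 : Matrix (I3 ι) (I3 (Fin 2)) K := fun x t => A x.1 t.1 * (A x.2.1 t.2.1 * A x.2.2 t.2.2)
  let B3 : Matrix (I3 (Fin 2)) (I3 ι) K := fun t x => B t.1 x.1 * (B t.2.1 x.2.1 * B t.2.2 x.2.2)
  have hkr : kr (A * B) (A * B) (A * B) = A3 * B3 := by
    ext x y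
    have e : (A3 * B3) x y = ∑ t : I3 (Fin 2), A3 x t * B3 t y := Matrix.mul_apply
    rw [e]
    simp only [kr, Matrix.mul_apply, A3, B3, Fintype.sum_prod_type, Fin.sum_univ_two]
    ring
  have hV : LeV o B3 := by
    intro t x h
    have h1 : B t.1 x.1 ≠ 0 := fun h0 => h (by simp only [B3, h0, zero_mul])
    have h2 : B t.2.1 x.2.1 ≠ 0 := fun h0 => h (by simp only [B3, h0, zero_mul, mul_zero])
    have h3 : B t.2.2 x.2.2 ≠ 0 := fun h0 => h (by simp only [B3, h0, mul_zero])
    exact ⟨hB _ _ h1, hB _ _ h2, hB _ _ h3⟩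
  have h0 : B3 * alt3 K o = 0 := by
    have h1 : B3 * alt3 K o = (6 : K)⁻¹ • (B3 - B3 * swa K o - B3 * swb K o
        + B3 * swa K o * swb K o + B3 * swb K o * swa K o
        - B3 * swa K o * swb K o * swa K o) := by
      unfold alt3
      rw [Matrix.mul_smul]
      congr 1
      simp only [Matrix.mul_sub, Matrix.mul_add, Matrix.mul_one, Matrix.mul_assoc]
    rw [h1]
    have h2 : (B3 - B3 * swa K o - B3 * swb K o
        + B3 * swa K o * swb K o + B3 * swb K o * swa K o
        - B3 * swa K o * swb K o * swa K o) = 0 := by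
      ext t x
      simp only [Matrix.sub_apply, Matrix.add_apply, Matrix.zero_apply]
      rw [Le_swa o _ (Le_Vb o _ (Le_Va o _ hV)), Le_swb o _ (Le_Va o _ hV),
        Le_swb o _ (Le_Va o _ hV), Le_swa o _ (Le_Vb o _ hV), Le_swb o _ hV, Le_swb o _ hV,
        Le_swa o _ hV, Le_swa o _ hV, Le_swa o _ hV]
      obtain ⟨p, q, r⟩ := t
      obtain ⟨i, j, k⟩ := x
      simp only [B3]
      fin_cases p <;> fin_cases q <;> fin_cases r <;> ring
    rw [h2, smul_zero]
  rw [hkr, Matrix.mul_assoc, h0, Matrix.mul_zero]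

end Pool.Agent.Lib.MP_745d3a_ag.PB

end

section

open MvPolynomial Matrix

namespace Pool.Agent.Lib.MP_745d3a_ag.PB

section
variable {K : Type*} [Field K] {ι : Type*} [Fintype ι] [DecidableEq ι]

private lemma Lf_sg2_self (a : Bool) : sg2 K a a = sg K a := by
  cases a <;> simp [sg2, sg]

private lemma Lf_swa_mul (o : ι → Bool) (M : Matrix (I3 ι) (I3 ι) K) (x y : I3 ι) :
    (swa K o * M) x y = sg2 K (o x.1) (o x.2.1) * M (x.2.1, x.1, x.2.2) y := by
  rw [Matrix.mul_apply, Finset.sum_eq_single (x.2.1, x.1, x.2.2)]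
  · simp [swa]
  · intro z _ hz
    have : ¬ (x.1 = z.2.1 ∧ x.2.1 = z.1 ∧ x.2.2 = z.2.2) := by
      rintro ⟨h1, h2, h3⟩
      apply hz
      ext <;> simp [h1, h2, h3]
    simp [swa, this]
  · intro h
    exact absurd (Finset.mem_univ _) h

private lemma Lf_swb_mul (o : ι → Bool) (M : Matrix (I3 ι) (I3 ι) K) (x y : I3 ι) :
    (swb K o * M) x y = sg2 K (o x.2.1) (o x.2.2) * M (x.1, x.2.2, x.2.1) y := by
  rw [Matrix.mul_apply, Finset.sum_eq_single (x.1, x.2.2, x.2.1)]
  · simp [swb]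
  · intro z _ hz
    have : ¬ (x.1 = z.1 ∧ x.2.1 = z.2.2 ∧ x.2.2 = z.2.1) := by
      rintro ⟨h1, h2, h3⟩
      apply hz
      ext <;> simp [h1, h2, h3]
    simp [swb, this]
  · intro h
    exact absurd (Finset.mem_univ _) h

private lemma Lf_swa_diag (o : ι → Bool) (i j k : ι) :
    swa K o (i, j, k) (i, j, k) = if i = j then sg K (o i) else 0 := by
  by_cases h : i = j
  · subst h; simp [swa, Lf_sg2_self]
  · simp [swa, h]

private lemma Lf_swb_diag (o : ι → Bool) (i j k : ι) :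
    swb K o (i, j, k) (i, j, k) = if j = k then sg K (o j) else 0 := by
  by_cases h : j = k
  · subst h; simp [swb, Lf_sg2_self]
  · simp [swb, h]

private lemma Lf_ab_diag (o : ι → Bool) (i j k : ι) :
    (swa K o * swb K o) (i, j, k) (i, j, k) = if i = j then (if j = k then 1 else 0) else 0 := by
  rw [Lf_swa_mul]
  by_cases h : i = j
  · subst h
    by_cases h' : i = k
    · subst h'
      simp [swb, Lf_sg2_self, sg_mul_self]
    · simp [swb, h']
  · have : ¬ j = i := fun h' => h h'.symm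
    simp [swb, h, this]

private lemma Lf_ba_diag (o : ι → Bool) (i j k : ι) :
    (swb K o * swa K o) (i, j, k) (i, j, k) = if i = j then (if j = k then 1 else 0) else 0 := by
  rw [Lf_swb_mul]
  by_cases h : i = j
  · subst h
    by_cases h' : i = k
    · subst h'
      simp [swa, Lf_sg2_self, sg_mul_self]
    · simp [swa, h']
  · simp [swa, h]

private lemma Lf_aba_diag (o : ι → Bool) (i j k : ι) :
    (swa K o * swb K o * swa K o) (i, j, k) (i, j, k) = if i = k then sg K (o i) else 0 := by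
  rw [Matrix.mul_assoc, Lf_swa_mul, Lf_swb_mul]
  by_cases h : i = k
  · subst h
    cases h1 : o i <;> cases h2 : o j <;> simp [swa, sg2, sg, h1, h2]
  · simp [swa, h]

private lemma Lf_sg_o3 (o : ι → Bool) (i j k : ι) :
    sg K (o3 o (i, j, k)) = sg K (o i) * sg K (o j) * sg K (o k) := by
  cases h1 : o i <;> cases h2 : o j <;> cases h3 : o k <;> simp [o3, sg, h1, h2, h3]

private lemma Lf_alt3_diag (o : ι → Bool) (i j k : ι) :
    alt3 K o (i, j, k) (i, j, k) = (6 : K)⁻¹ * (1 - (if i = j then sg K (o i) else 0)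
      - (if j = k then sg K (o j) else 0)
      + 2 * (if i = j then (if j = k then 1 else 0) else 0)
      - (if i = k then sg K (o i) else 0)) := by
  simp only [alt3, Matrix.smul_apply, Matrix.sub_apply, Matrix.add_apply, smul_eq_mul]
  rw [Lf_swa_diag, Lf_swb_diag, Lf_ab_diag, Lf_ba_diag, Lf_aba_diag, Matrix.one_apply_eq]
  ring

end

variable {K : Type*} [Field K] [CharZero K] {ι : Type*} [Fintype ι] [DecidableEq ι]

lemma str_alt3 (o : ι → Bool) (d : ι → ℕ) (F : K → K)
    (h : ∑ x : I3 ι, sg K (o3 o x) * alt3 K o x x * F (d3 d x : ℕ) = 0) :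
    ∑ i, ∑ j, ∑ k, sg K (o i) * sg K (o j) * sg K (o k) * F (d i + d j + d k)
      - 3 * ∑ i, ∑ j, sg K (o i) * sg K (o j) * F (2 * d i + d j)
      + 2 * ∑ i, sg K (o i) * F (3 * d i) = 0 := by
  have hs : ∀ i, sg K (o i) * sg K (o i) = 1 := fun i => sg_mul_self K (o i)
  -- the four sums
  have hA1 : ∑ i, ∑ j, ∑ k, (if i = j then sg K (o i) * sg K (o j) * sg K (o k) * sg K (o i)
      * F ((d i + (d j + d k) : ℕ) : K) else 0)
      = ∑ i, ∑ j, sg K (o i) * sg K (o j) * F (2 * d i + d j) := by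
    refine Finset.sum_congr rfl fun i _ => ?_
    rw [Finset.sum_comm]
    refine Finset.sum_congr rfl fun k _ => ?_
    rw [Finset.sum_ite_eq, if_pos (Finset.mem_univ _)]
    have e : ((d i + (d i + d k) : ℕ) : K) = 2 * (d i : K) + d k := by push_cast; ring
    rw [e]
    linear_combination (sg K (o i) * sg K (o k) * F (2 * (d i : K) + d k)) * hs i
  have hA2 : ∑ i, ∑ j, ∑ k, (if j = k then sg K (o i) * sg K (o j) * sg K (o k) * sg K (o j)
      * F ((d i + (d j + d k) : ℕ) : K) else 0)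
      = ∑ i, ∑ j, sg K (o i) * sg K (o j) * F (2 * d i + d j) := by
    rw [Finset.sum_comm]
    refine Finset.sum_congr rfl fun j _ => ?_
    refine Finset.sum_congr rfl fun i _ => ?_
    rw [Finset.sum_ite_eq, if_pos (Finset.mem_univ _)]
    have e : ((d i + (d j + d j) : ℕ) : K) = 2 * (d j : K) + d i := by push_cast; ring
    rw [e]
    linear_combination (sg K (o j) * sg K (o i) * F (2 * (d j : K) + d i)) * hs j
  have hA3 : ∑ i, ∑ j, ∑ k, (if i = k then sg K (o i) * sg K (o j) * sg K (o k) * sg K (o i)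
      * F ((d i + (d j + d k) : ℕ) : K) else 0)
      = ∑ i, ∑ j, sg K (o i) * sg K (o j) * F (2 * d i + d j) := by
    refine Finset.sum_congr rfl fun i _ => ?_
    refine Finset.sum_congr rfl fun j _ => ?_
    rw [Finset.sum_ite_eq, if_pos (Finset.mem_univ _)]
    have e : ((d i + (d j + d i) : ℕ) : K) = 2 * (d i : K) + d j := by push_cast; ring
    rw [e]
    linear_combination (sg K (o i) * sg K (o j) * F (2 * (d i : K) + d j)) * hs i
  have hB : ∑ i, ∑ j, ∑ k, (if i = j then (if j = k then sg K (o i) * sg K (o j) * sg K (o k)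
      * F ((d i + (d j + d k) : ℕ) : K) else 0) else 0)
      = ∑ i, sg K (o i) * F (3 * d i) := by
    refine Finset.sum_congr rfl fun i _ => ?_
    rw [Finset.sum_comm]
    have e : ((d i + (d i + d i) : ℕ) : K) = 3 * (d i : K) := by push_cast; ring
    simp only [Finset.sum_ite_eq, Finset.mem_univ, if_true, e]
    linear_combination (sg K (o i) * F (3 * (d i : K))) * hs i
  have hT : ∑ i, ∑ j, ∑ k, sg K (o i) * sg K (o j) * sg K (o k)
      * F ((d i + (d j + d k) : ℕ) : K)
      = ∑ i, ∑ j, ∑ k, sg K (o i) * sg K (o j) * sg K (o k) * F (d i + d j + d k) := by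
    refine Finset.sum_congr rfl fun i _ => ?_
    refine Finset.sum_congr rfl fun j _ => ?_
    refine Finset.sum_congr rfl fun k _ => ?_
    congr 2
    push_cast; ring
  -- the hypothesis
  have h6 : (6 : K) ≠ 0 := by norm_num
  have key : ∑ x : I3 ι, sg K (o3 o x) * alt3 K o x x * F (d3 d x : ℕ) = (6 : K)⁻¹ *
      (∑ i, ∑ j, ∑ k, sg K (o i) * sg K (o j) * sg K (o k) * F ((d i + (d j + d k) : ℕ) : K)
      - ∑ i, ∑ j, ∑ k, (if i = j then sg K (o i) * sg K (o j) * sg K (o k) * sg K (o i)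
        * F ((d i + (d j + d k) : ℕ) : K) else 0)
      - ∑ i, ∑ j, ∑ k, (if j = k then sg K (o i) * sg K (o j) * sg K (o k) * sg K (o j)
        * F ((d i + (d j + d k) : ℕ) : K) else 0)
      + 2 * ∑ i, ∑ j, ∑ k, (if i = j then (if j = k then sg K (o i) * sg K (o j) * sg K (o k)
        * F ((d i + (d j + d k) : ℕ) : K) else 0) else 0)
      - ∑ i, ∑ j, ∑ k, (if i = k then sg K (o i) * sg K (o j) * sg K (o k) * sg K (o i)
        * F ((d i + (d j + d k) : ℕ) : K) else 0)) := by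
    simp only [Finset.mul_sum, ← Finset.sum_sub_distrib, ← Finset.sum_add_distrib]
    rw [Fintype.sum_prod_type]
    refine Finset.sum_congr rfl fun i _ => ?_
    rw [Fintype.sum_prod_type]
    refine Finset.sum_congr rfl fun j _ => ?_
    refine Finset.sum_congr rfl fun k _ => ?_
    rw [Lf_sg_o3, Lf_alt3_diag]
    simp only [d3]
    split_ifs <;> ring
  rw [key, hA1, hA2, hA3, hB, hT] at h
  have h' := (mul_eq_zero.1 h).resolve_left (inv_ne_zero h6)
  linear_combination h'

end Pool.Agent.Lib.MP_745d3a_ag.PB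

end

section

open MvPolynomial Matrix

namespace Pool.Agent.Lib.MP_745d3a_ag.PB

variable {K : Type*} [Field K] {ι : Type*} [Fintype ι] [DecidableEq ι]

/-- contractions onto a space of superdimension (2 | 0) -/
def Two (o : ι → Bool) (D : Matrix ι ι K) : Prop :=
  ∃ (s : Matrix ι ι K) (A : Matrix ι (Fin 2) K) (B : Matrix (Fin 2) ι K),
    Odd' o s ∧ (∀ t i, B t i ≠ 0 → o i = false) ∧ D * A = 0 ∧ B * D = 0 ∧
    D * s + s * D = 1 - A * B

theorem lam3 [IsAlgClosed K] [CharZero K] (o : ι → Bool) (d : ι → ℕ) (D : Matrix ι ι (S K))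
    (hD : DegZero d D) (hDo : Odd' o D) (hDD : D * D = 0)
    (hs : ∀ v : Fin 5 → K, v ≠ 0 → Two o (ev v D))
    (P : Polynomial K) (hP : P.natDegree ≤ 4) :
    ∑ i, ∑ j, ∑ k, sg K (o i) * sg K (o j) * sg K (o k) * P.eval ((d i : K) + d j + d k)
      - 3 * ∑ i, ∑ j, sg K (o i) * sg K (o j) * P.eval (2 * (d i : K) + d j)
      + 2 * ∑ i, sg K (o i) * P.eval (3 * (d i : K)) = 0 := by
  refine str_alt3 o d (fun x => P.eval x) ?_
  refine HS (o3 o) (d3 d) (bd3 o D) (alt3 K o) (bd3_degZero o d D hD) (bd3_odd o D hDo)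
    (alt3_even o d) (alt3_sq K o) (cst_alt3_comm o D hDo) (bd3_sq o D hDo hDD) ?_ P hP
  intro v hv
  obtain ⟨s, A, B, hso, hB, hDA, hBD, h⟩ := hs v hv
  have hDv : Odd' o (ev v D) := by
    intro i j hij
    refine hDo i j (fun h => hij ?_)
    simp [h]
  obtain ⟨H, hH⟩ := bd3_homotopy o (ev v D) s (A * B) hDv hso
    (by rw [← Matrix.mul_assoc, hDA, Matrix.zero_mul])
    (by rw [Matrix.mul_assoc, hBD, Matrix.mul_zero]) h
  refine ⟨H, ?_⟩
  rw [ev_bd3, hH, Matrix.sub_mul, kr_alt3 o A B hB, Matrix.one_mul, sub_zero]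

end Pool.Agent.Lib.MP_745d3a_ag.PB

end

section

namespace Pool.Agent.Lib.MP_745d3a_ag.PB

private lemma Lh_three {K : Type*} [Field K] {ι : Type*} [Fintype ι] (f g h : ι → K) :
    ∑ i, ∑ j, ∑ k, f i * (g j * h k) = (∑ i, f i) * ((∑ j, g j) * ∑ k, h k) := by
  simp_rw [← Finset.mul_sum, ← Finset.sum_mul]

private lemma Lh_two {K : Type*} [Field K] {ι : Type*} [Fintype ι] (f g : ι → K) :
    ∑ i, ∑ j, f i * g j = (∑ i, f i) * ∑ j, g j := by
  simp_rw [← Finset.mul_sum, ← Finset.sum_mul]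

private lemma Lh_exp3 {K : Type*} [Field K] {ι : Type*} [Fintype ι] (s y : ι → K) :
    ∑ i, ∑ j, ∑ k, s i * s j * s k * (y i + y j + y k) ^ 4
      = 3 * ((∑ i, s i * y i ^ 4) * ((∑ i, s i) * ∑ i, s i))
        + 24 * ((∑ i, s i * y i ^ 3) * ((∑ i, s i * y i) * ∑ i, s i))
        + 18 * ((∑ i, s i * y i ^ 2) * ((∑ i, s i * y i ^ 2) * ∑ i, s i))
        + 36 * ((∑ i, s i * y i ^ 2) * ((∑ i, s i * y i) * ∑ i, s i * y i)) := by
  have hexp : ∀ i j k, s i * s j * s k * (y i + y j + y k) ^ 4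
      = (s i * y i ^ 4) * (s j * s k) + s i * ((s j * y j ^ 4) * s k)
        + s i * (s j * (s k * y k ^ 4))
        + 4 * ((s i * y i ^ 3) * ((s j * y j) * s k)) + 4 * ((s i * y i ^ 3) * (s j * (s k * y k)))
        + 4 * ((s i * y i) * ((s j * y j ^ 3) * s k)) + 4 * (s i * ((s j * y j ^ 3) * (s k * y k)))
        + 4 * ((s i * y i) * (s j * (s k * y k ^ 3))) + 4 * (s i * ((s j * y j) * (s k * y k ^ 3)))
        + 6 * ((s i * y i ^ 2) * ((s j * y j ^ 2) * s k))
        + 6 * ((s i * y i ^ 2) * (s j * (s k * y k ^ 2)))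
        + 6 * (s i * ((s j * y j ^ 2) * (s k * y k ^ 2)))
        + 12 * ((s i * y i ^ 2) * ((s j * y j) * (s k * y k)))
        + 12 * ((s i * y i) * ((s j * y j ^ 2) * (s k * y k)))
        + 12 * ((s i * y i) * ((s j * y j) * (s k * y k ^ 2))) := by
    intro i j k; ring
  simp_rw [hexp, Finset.sum_add_distrib, ← Finset.mul_sum, ← Finset.sum_mul]
  ring

private lemma Lh_exp2 {K : Type*} [Field K] {ι : Type*} [Fintype ι] (s y : ι → K) :
    ∑ i, ∑ j, s i * s j * (2 * y i + y j) ^ 4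
      = 17 * ((∑ i, s i * y i ^ 4) * ∑ i, s i)
        + 40 * ((∑ i, s i * y i ^ 3) * ∑ i, s i * y i)
        + 24 * ((∑ i, s i * y i ^ 2) * ∑ i, s i * y i ^ 2) := by
  have hexp : ∀ i j, s i * s j * (2 * y i + y j) ^ 4
      = 16 * ((s i * y i ^ 4) * s j) + 32 * ((s i * y i ^ 3) * (s j * y j))
        + 24 * ((s i * y i ^ 2) * (s j * y j ^ 2)) + 8 * ((s i * y i) * (s j * y j ^ 3))
        + s i * (s j * y j ^ 4) := by
    intro i j; ring
  simp_rw [hexp, Finset.sum_add_distrib, ← Finset.mul_sum, ← Finset.sum_mul]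
  ring

lemma quartic {K : Type*} [Field K] [CharZero K] {ι : Type*} [Fintype ι]
    (o : ι → Bool) (d : ι → ℕ) (e : K)
    (H : ∀ P : Polynomial K, P.natDegree ≤ 4 →
      ∑ i, ∑ j, ∑ k, sg K (o i) * sg K (o j) * sg K (o k) * P.eval ((d i : K) + d j + d k)
        - 3 * ∑ i, ∑ j, sg K (o i) * sg K (o j) * P.eval (2 * (d i : K) + d j)
        + 2 * ∑ i, sg K (o i) * P.eval (3 * (d i : K)) = 0)
    (h0 : ∑ i, sg K (o i) = 2) (h1 : ∑ i, sg K (o i) * (2 * (d i : K) - e) = 0) :
    2 * ∑ i, sg K (o i) * (2 * (d i : K) - e) ^ 4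
      = (∑ i, sg K (o i) * (2 * (d i : K) - e) ^ 2) ^ 2 := by
  set P : Polynomial K := (Polynomial.C 2 * Polynomial.X - Polynomial.C (3 * e)) ^ 4 with hP
  have hdeg : P.natDegree ≤ 4 := by
    rw [hP]
    compute_degree
  have hev : ∀ t : K, P.eval t = (2 * t - 3 * e) ^ 4 := by
    intro t
    rw [hP]
    simp
  have hH := H P hdeg
  simp only [hev] at hH
  have e3 : ∑ i, ∑ j, ∑ k, sg K (o i) * sg K (o j) * sg K (o k)
        * (2 * ((d i : K) + d j + d k) - 3 * e) ^ 4
      = ∑ i, ∑ j, ∑ k, (fun i => sg K (o i)) i * (fun i => sg K (o i)) j * (fun i => sg K (o i)) k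
        * ((fun i => 2 * (d i : K) - e) i + (fun i => 2 * (d i : K) - e) j
          + (fun i => 2 * (d i : K) - e) k) ^ 4 := by
    refine Finset.sum_congr rfl fun i _ => Finset.sum_congr rfl fun j _ =>
      Finset.sum_congr rfl fun k _ => ?_
    have : (2 * ((d i : K) + d j + d k) - 3 * e)
        = (2 * (d i : K) - e) + (2 * (d j : K) - e) + (2 * (d k : K) - e) := by ring
    rw [this]
  have e2 : ∑ i, ∑ j, sg K (o i) * sg K (o j) * (2 * (2 * (d i : K) + d j) - 3 * e) ^ 4
      = ∑ i, ∑ j, (fun i => sg K (o i)) i * (fun i => sg K (o i)) j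
        * (2 * (fun i => 2 * (d i : K) - e) i + (fun i => 2 * (d i : K) - e) j) ^ 4 := by
    refine Finset.sum_congr rfl fun i _ => Finset.sum_congr rfl fun j _ => ?_
    have : (2 * (2 * (d i : K) + d j) - 3 * e)
        = 2 * (2 * (d i : K) - e) + (2 * (d j : K) - e) := by ring
    rw [this]
  have e1 : ∑ i, sg K (o i) * (2 * (3 * (d i : K)) - 3 * e) ^ 4
      = 81 * ∑ i, sg K (o i) * (2 * (d i : K) - e) ^ 4 := by
    rw [Finset.mul_sum]
    refine Finset.sum_congr rfl fun i _ => ?_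
    ring
  rw [e3, e2, e1, Lh_exp3, Lh_exp2] at hH
  simp only [h0, h1] at hH
  set q4 := ∑ i, sg K (o i) * (2 * (d i : K) - e) ^ 4 with hq4
  set q2 := ∑ i, sg K (o i) * (2 * (d i : K) - e) ^ 2 with hq2
  have h36 : (36 : K) ≠ 0 := by norm_num
  have : (36 : K) * (2 * q4) = 36 * q2 ^ 2 := by linear_combination hH
  exact mul_left_cancel₀ h36 this

end Pool.Agent.Lib.MP_745d3a_ag.PB

end
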