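import Mathlib

/-!
Definitions.
-/

set_option autoImplicit false

noncomputable section

open MvPolynomial Matrix

namespace Pool.Agent.Lib.MP_745d3a_ag.PB

/-- the polynomial ring in five variables -/
abbrev S (K : Type*) [Field K] := MvPolynomial (Fin 5) K

section

variable {K : Type*} [Field K] {l m n : Type*}

/-- the value of a matrix of polynomials at a point -/
def ev (v : Fin 5 → K) (A : Matrix m n (S K)) : Matrix m n K := A.map (eval v)

/-- a constant matrix as a matrix of polynomials -/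
def cst (A : Matrix m n K) : Matrix m n (S K) := A.map C

/-- all entries are forms of degree k -/
def Forms (A : Matrix m n (S K)) (k : ℕ) : Prop := ∀ i j, (A i j).IsHomogeneous k

/-- substitution of five polynomials for the variables -/
def subst (f : Fin 5 → S K) (A : Matrix m n (S K)) : Matrix m n (S K) :=
  A.map (bind₁ f)

@[simp] lemma ev_apply (v : Fin 5 → K) (A : Matrix m n (S K)) (i : m) (j : n) :
    ev v A i j = eval v (A i j) := rfl

@[simp] lemma cst_apply (A : Matrix m n K) (i : m) (j : n) :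
    (cst A : Matrix m n (S K)) i j = C (A i j) := rfl

@[simp] lemma subst_apply (f : Fin 5 → S K) (A : Matrix m n (S K)) (i : m) (j : n) :
    subst f A i j = bind₁ f (A i j) := rfl

lemma ev_mul [Fintype m] (v : Fin 5 → K) (A : Matrix l m (S K)) (B : Matrix m n (S K)) :
    ev v (A * B) = ev v A * ev v B := by
  ext i j; simp [Matrix.mul_apply]

lemma ev_add (v : Fin 5 → K) (A B : Matrix m n (S K)) : ev v (A + B) = ev v A + ev v B := by
  ext i j; simp

lemma ev_sub (v : Fin 5 → K) (A B : Matrix m n (S K)) : ev v (A - B) = ev v A - ev v B := by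
  ext i j; simp

lemma ev_neg (v : Fin 5 → K) (A : Matrix m n (S K)) : ev v (-A) = - ev v A := by
  ext i j; simp

@[simp] lemma ev_zero (v : Fin 5 → K) : ev v (0 : Matrix m n (S K)) = 0 := by
  ext i j; simp

@[simp] lemma ev_one [DecidableEq m] (v : Fin 5 → K) : ev v (1 : Matrix m m (S K)) = 1 := by
  ext i j; by_cases h : i = j <;> simp [Matrix.one_apply, h]

@[simp] lemma ev_cst (v : Fin 5 → K) (A : Matrix m n K) : ev v (cst A) = A := by
  ext i j; simp

lemma ev_transpose (v : Fin 5 → K) (A : Matrix m n (S K)) : ev v Aᵀ = (ev v A)ᵀ := rfl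

lemma ev_smul (v : Fin 5 → K) (f : S K) (A : Matrix m n (S K)) :
    ev v (f • A) = eval v f • ev v A := by
  ext i j; simp

lemma ev_mulVec [Fintype n] (v : Fin 5 → K) (A : Matrix m n (S K)) (z : n → S K) :
    (fun i => eval v ((A *ᵥ z) i)) = ev v A *ᵥ (fun j => eval v (z j)) := by
  ext i; simp [Matrix.mulVec, dotProduct]

lemma cst_mul [Fintype m] (A : Matrix l m K) (B : Matrix m n K) :
    (cst (A * B) : Matrix l n (S K)) = cst A * cst B := by
  ext i j; simp [Matrix.mul_apply]

lemma cst_add (A B : Matrix m n K) : (cst (A + B) : Matrix m n (S K)) = cst A + cst B := by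
  ext i j; simp

lemma cst_sub (A B : Matrix m n K) : (cst (A - B) : Matrix m n (S K)) = cst A - cst B := by
  ext i j; simp

lemma cst_neg (A : Matrix m n K) : (cst (-A) : Matrix m n (S K)) = - cst A := by
  ext i j; simp

@[simp] lemma cst_zero : (cst (0 : Matrix m n K) : Matrix m n (S K)) = 0 := by
  ext i j; simp

@[simp] lemma cst_one [DecidableEq m] : (cst (1 : Matrix m m K) : Matrix m m (S K)) = 1 := by
  ext i j; by_cases h : i = j <;> simp [Matrix.one_apply, h]

lemma cst_transpose (A : Matrix m n K) : (cst Aᵀ : Matrix n m (S K)) = (cst A)ᵀ := rfl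

lemma cst_injective : Function.Injective (cst : Matrix m n K → Matrix m n (S K)) := by
  intro A B h
  ext i j
  have := congrFun (congrFun h i) j
  simpa using this

lemma subst_mul [Fintype m] (f : Fin 5 → S K) (A : Matrix l m (S K)) (B : Matrix m n (S K)) :
    subst f (A * B) = subst f A * subst f B := by
  ext i j; simp [Matrix.mul_apply]

end

/-- The data of the monad of a rank 2 bundle on P^4 with pure H^2_*. -/
structure PureMonad (K : Type*) [Field K] (n b₁ b₂ r p q e : ℕ) where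
  X : Matrix (Fin n) (Fin b₁) (S K)
  Y : Matrix (Fin b₁) (Fin b₂) (S K)
  Z : Matrix (Fin b₂) (Fin b₂) (S K)
  U : Matrix (Fin b₂) (Fin r) K
  hp : 0 < p
  hpq : p < q
  hqe : 2 * q < e
  degX : Forms X p
  degY : Forms Y (q - p)
  degZ : Forms Z (e - 2 * q)
  skew : Zᵀ = -Z
  XY : X * Y = 0
  YZ : Y * Z = 0
  isotropic : (cst U)ᵀ * Z * cst U = 0
  rankX : ∀ v : Fin 5 → K, v ≠ 0 → (ev v X).rank = n
  rankY : ∀ v : Fin 5 → K, v ≠ 0 → n + (ev v Y).rank = b₁
  rankYZ : ∀ v : Fin 5 → K, v ≠ 0 → (ev v Y).rank + (ev v Z).rank = b₂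
  rankZ : ∀ v : Fin 5 → K, v ≠ 0 → (ev v Z).rank = 2 * r + 2
  rankZU : ∀ v : Fin 5 → K, v ≠ 0 → (ev v Z * U).rank = r

/-! ### The Hilbert series lemma -/

section

variable {K : Type*} [Field K] {ι : Type*}

/-- the sign of a parity -/
def sg (R : Type*) [Ring R] (b : Bool) : R := if b then -1 else 1

@[simp] lemma sg_false (R : Type*) [Ring R] : sg R false = 1 := rfl

@[simp] lemma sg_true (R : Type*) [Ring R] : sg R true = -1 := rfl

lemma sg_mul_self (R : Type*) [Ring R] (b : Bool) : sg R b * sg R b = 1 := by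
  cases b <;> simp

/-- a homogeneous endomorphism (of degree zero) of a graded free module with basis of
degrees `d` -/
def DegZero (d : ι → ℕ) (D : Matrix ι ι (S K)) : Prop :=
  ∀ i j, D i j ≠ 0 → ∃ k, d i + k = d j ∧ (D i j).IsHomogeneous k

/-- an odd matrix for the parities `o` -/
def Odd' {R : Type*} [Zero R] (o : ι → Bool) (D : Matrix ι ι R) : Prop :=
  ∀ i j, D i j ≠ 0 → o i ≠ o j

/-- an even constant endomorphism of degree zero -/
def EvenConst (o : ι → Bool) (d : ι → ℕ) (ε : Matrix ι ι K) : Prop :=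
  ∀ i j, ε i j ≠ 0 → o i = o j ∧ d i = d j

/-- a vector of degree `k` (where all `d i ≤ k`) -/
def InDeg (d : ι → ℕ) (k : ℕ) (z : ι → S K) : Prop := ∀ i, (z i).IsHomogeneous (k - d i)

/-- the component of degree `k` of a vector -/
def comp (d : ι → ℕ) (k : ℕ) (z : ι → S K) : ι → S K :=
  fun i => if d i ≤ k then homogeneousComponent (k - d i) (z i) else 0

/-- the exponents of degree m -/
abbrev Mon (m : ℕ) := {s : Fin 5 →₀ ℕ // s ∈ Finset.finsuppAntidiag (Finset.univ : Finset (Fin 5)) m}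

/-- index set of the natural basis of the part of degree k -/
abbrev DegIdx (d : ι → ℕ) (k : ℕ) := Σ i : ι, Mon (k - d i)

/-- the vector of degree k with given coefficients -/
def vec (d : ι → ℕ) (k : ℕ) : (DegIdx d k → K) →ₗ[K] (ι → S K) where
  toFun c := fun i => ∑ s : Mon (k - d i), monomial s.1 (c ⟨i, s⟩)
  map_add' c c' := by ext1 i; simp [Finset.sum_add_distrib]
  map_smul' a c := by ext1 i; simp [Finset.smul_sum, smul_monomial]

/-- the coefficients of the part of degree k of a vector -/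
def cf (d : ι → ℕ) (k : ℕ) : (ι → S K) →ₗ[K] (DegIdx d k → K) where
  toFun z := fun x => coeff x.2.1 (z x.1)
  map_add' c c' := by ext1 i; simp
  map_smul' a c := by ext1 i; simp

/-- the action of a matrix on the part of degree k -/
def opk [Fintype ι] (d : ι → ℕ) (k : ℕ) (A : Matrix ι ι (S K)) :
    (DegIdx d k → K) →ₗ[K] (DegIdx d k → K) :=
  cf d k ∘ₗ (A.mulVecLin.restrictScalars K) ∘ₗ vec d k

end

/-! ### The super exterior cube -/

section

variable {R : Type*} [CommRing R] {ι : Type*} [DecidableEq ι]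

/-- triples -/
abbrev I3 (ι : Type*) := ι × (ι × ι)

/-- the Kronecker product of three matrices -/
def kr (A B C : Matrix ι ι R) : Matrix (I3 ι) (I3 ι) R :=
  fun x y => A x.1 y.1 * (B x.2.1 y.2.1 * C x.2.2 y.2.2)

/-- the parity operator -/
def sgM (R : Type*) [CommRing R] (o : ι → Bool) : Matrix ι ι R :=
  Matrix.diagonal (fun i => sg R (o i))

/-- the differential of the third tensor power -/
def bd3 (o : ι → Bool) (D : Matrix ι ι R) : Matrix (I3 ι) (I3 ι) R :=
  kr D 1 1 + kr (sgM R o) D 1 + kr (sgM R o) (sgM R o) D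

/-- the sign of the exchange of two basis elements -/
def sg2 (R : Type*) [CommRing R] (a b : Bool) : R := if a && b then -1 else 1

/-- exchange of the first two factors -/
def swa (R : Type*) [CommRing R] (o : ι → Bool) : Matrix (I3 ι) (I3 ι) R := fun x y =>
  if x.1 = y.2.1 ∧ x.2.1 = y.1 ∧ x.2.2 = y.2.2 then sg2 R (o x.1) (o x.2.1) else 0

/-- exchange of the last two factors -/
def swb (R : Type*) [CommRing R] (o : ι → Bool) : Matrix (I3 ι) (I3 ι) R := fun x y =>
  if x.1 = y.1 ∧ x.2.1 = y.2.2 ∧ x.2.2 = y.2.1 then sg2 R (o x.2.1) (o x.2.2) else 0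

/-- the antisymmetrizer -/
def alt3 [Fintype ι] (K : Type*) [Field K] (o : ι → Bool) : Matrix (I3 ι) (I3 ι) K :=
  (6 : K)⁻¹ • (1 - swa K o - swb K o + swa K o * swb K o + swb K o * swa K o
    - swa K o * swb K o * swa K o)

/-- parity of a triple -/
def o3 (o : ι → Bool) : I3 ι → Bool := fun x => xor (o x.1) (xor (o x.2.1) (o x.2.2))

/-- degree of a triple -/
def d3 (d : ι → ℕ) : I3 ι → ℕ := fun x => d x.1 + (d x.2.1 + d x.2.2)

end

/-! ### The two complexes of a monad -/

namespace PureMonad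

variable {K : Type*} [Field K] {n b₁ b₂ r p q e : ℕ}

/-- half of the index set of the resolution -/
abbrev T (n b₁ b₂ : ℕ) := Fin n ⊕ (Fin b₁ ⊕ Fin b₂)

/-- the full index set of the resolution, in homological degrees 0,1,2 and 5,4,3 -/
abbrev G (n b₁ b₂ : ℕ) := T n b₁ b₂ ⊕ T n b₁ b₂

/-- first half of the differential -/
def dl (W : PureMonad K n b₁ b₂ r p q e) : Matrix (T n b₁ b₂) (T n b₁ b₂) (S K)
  | .inl a, .inr (.inl b) => W.X a b
  | .inr (.inl b), .inr (.inr c) => W.Y b c
  | _, _ => 0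

/-- the middle part of the differential -/
def mid (W : PureMonad K n b₁ b₂ r p q e) : Matrix (T n b₁ b₂) (T n b₁ b₂) (S K)
  | .inr (.inr c), .inr (.inr c') => W.Z c c'
  | _, _ => 0

/-- the differential of the resolution -/
def bd (W : PureMonad K n b₁ b₂ r p q e) : Matrix (G n b₁ b₂) (G n b₁ b₂) (S K) :=
  fromBlocks W.dl W.mid 0 W.dlᵀ

/-- degrees of the basis elements -/
def dg (n b₁ b₂ p q e : ℕ) : G n b₁ b₂ → ℕ
  | .inl (.inl _) => 0
  | .inl (.inr (.inl _)) => p
  | .inl (.inr (.inr _)) => q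
  | .inr (.inl _) => e
  | .inr (.inr (.inl _)) => e - p
  | .inr (.inr (.inr _)) => e - q

/-- homological degrees of the basis elements -/
def hdg (n b₁ b₂ : ℕ) : G n b₁ b₂ → ℕ
  | .inl (.inl _) => 0
  | .inl (.inr (.inl _)) => 1
  | .inl (.inr (.inr _)) => 2
  | .inr (.inl _) => 5
  | .inr (.inr (.inl _)) => 4
  | .inr (.inr (.inr _)) => 3

/-- parities of the basis elements -/
def od (n b₁ b₂ : ℕ) : G n b₁ b₂ → Bool
  | .inl (.inl _) => false
  | .inl (.inr (.inl _)) => true
  | .inl (.inr (.inr _)) => false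
  | .inr (.inl _) => true
  | .inr (.inr (.inl _)) => false
  | .inr (.inr (.inr _)) => true

/-- even part of the complex with homology the bundle -/
abbrev Ev (n b₂ : ℕ) := Fin n ⊕ Fin b₂

/-- odd part of the complex with homology the bundle -/
abbrev Od (b₁ r : ℕ) := (Fin b₁ ⊕ Fin r) ⊕ Fin r

/-- from the odd part to the even part -/
def gm (W : PureMonad K n b₁ b₂ r p q e) : Matrix (Ev n b₂) (Od b₁ r) (S K)
  | .inl a, .inl (.inl b) => W.X a b
  | .inr c, .inr t => (W.Z * cst W.U) c t
  | _, _ => 0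

/-- from the even part to the odd part -/
def fm (W : PureMonad K n b₁ b₂ r p q e) : Matrix (Od b₁ r) (Ev n b₂) (S K)
  | .inl (.inl b), .inr c => W.Y b c
  | .inl (.inr t), .inr c => C (W.U c t)
  | _, _ => 0

/-- the differential of the complex with homology the bundle -/
def bd' (W : PureMonad K n b₁ b₂ r p q e) :
    Matrix (Ev n b₂ ⊕ Od b₁ r) (Ev n b₂ ⊕ Od b₁ r) (S K) :=
  fromBlocks 0 W.gm W.fm 0

/-- degrees of the basis elements -/
def dg' (n b₁ b₂ r p q e : ℕ) : Ev n b₂ ⊕ Od b₁ r → ℕ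
  | .inl (.inl _) => 0
  | .inl (.inr _) => q
  | .inr (.inl (.inl _)) => p
  | .inr (.inl (.inr _)) => q
  | .inr (.inr _) => e - q

end PureMonad

/-- parities of a two-block index set -/
def ob {α β : Type*} : α ⊕ β → Bool
  | .inl _ => false
  | .inr _ => true

end Pool.Agent.Lib.MP_745d3a_ag.PB

end

noncomputable section

open MvPolynomial Matrix

namespace Pool.Agent.Lib.MP_745d3a_ag.PB

variable {K : Type*} [Field K] {ι : Type*}

/-- a complex of length 5 and contractions of the M-th powers of the variables -/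
structure Cx [Fintype ι] [DecidableEq ι] (hd : ι → ℕ) (D : Matrix ι ι (S K))
    (h : Fin 5 → Matrix ι ι (S K)) (M : ℕ) : Prop where
  le5 : ∀ i, hd i ≤ 5
  dd : D * D = 0
  ddeg : ∀ i j, D i j ≠ 0 → hd i + 1 = hd j
  hdeg : ∀ k i j, h k i j ≠ 0 → hd i = hd j + 1
  hom : ∀ k, D * h k + h k * D = (X k ^ M : S K) • (1 : Matrix ι ι (S K))

/-- a vector of homological degree k -/
def At (hd : ι → ℕ) (k : ℕ) (z : ι → S K) : Prop := ∀ i, z i ≠ 0 → hd i = k

/-- the part of homological degree k of a vector -/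
def prt (hd : ι → ℕ) (k : ℕ) (z : ι → S K) : ι → S K := fun i => if hd i = k then z i else 0

/-- the ideal generated by some powers of variables -/
def idl (K : Type*) [Field K] (M : ℕ) (A : Finset (Fin 5)) : Ideal (S K) :=
  Ideal.span ((fun j => (X j ^ M : S K)) '' (A : Set (Fin 5)))

/-- a vector with entries in such an ideal -/
def Mo (M : ℕ) (A : Finset (Fin 5)) (z : ι → S K) : Prop := ∀ i, z i ∈ idl K M A

/-- the product of the contractions with indices in a list -/
def prodh [Fintype ι] [DecidableEq ι] (h : Fin 5 → Matrix ι ι (S K)) (l : List (Fin 5)) :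
    Matrix ι ι (S K) := (l.map h).prod

/-- the adjoint of an endomorphism of the sum of a space and its dual -/
def dag {τ : Type*} {R : Type*} [Neg R] (N : Matrix (τ ⊕ τ) (τ ⊕ τ) R) :
    Matrix (τ ⊕ τ) (τ ⊕ τ) R :=
  fromBlocks N.toBlocks₂₂ᵀ (-N.toBlocks₁₂ᵀ) (-N.toBlocks₂₁ᵀ) N.toBlocks₁₁ᵀ

end Pool.Agent.Lib.MP_745d3a_ag.PB

end

noncomputable section

open MvPolynomial Matrix

namespace Pool.Agent.Lib.MP_745d3a_ag.PB

variable {K : Type*} [Field K]

/-- a matrix with entries in the span of five polynomials -/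
def lin {m n : Type*} (f : Fin 5 → S K) (A : Fin 5 → Matrix m n K) : Matrix m n (S K) :=
  ∑ i, f i • cst (A i)

/-- the ten pairs i < j -/
def pr : Fin 10 → Fin 5 × Fin 5 :=
  ![(0, 1), (0, 2), (0, 3), (0, 4), (1, 2), (1, 3), (1, 4), (2, 3), (2, 4), (3, 4)]

/-- the ten triples i < j < k -/
def tr : Fin 10 → Fin 5 × Fin 5 × Fin 5 :=
  ![(0, 1, 2), (0, 1, 3), (0, 1, 4), (0, 2, 3), (0, 2, 4), (0, 3, 4), (1, 2, 3), (1, 2, 4),
    (1, 3, 4), (2, 3, 4)]

/-- the second Koszul matrix: column (i, l) is `f l e i - f i e l`; coefficient of `f m` -/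
def k2 (m : Fin 5) : Matrix (Fin 5) (Fin 10) ℤ := fun a t =>
  (if m = (pr t).2 ∧ a = (pr t).1 then 1 else 0) - (if m = (pr t).1 ∧ a = (pr t).2 then 1 else 0)

/-- the third Koszul matrix: column (i, l, k) is `f i e (l,k) - f l e (i,k) + f k e (i,l)`;
coefficient of `f m` -/
def k3 (m : Fin 5) : Matrix (Fin 10) (Fin 10) ℤ := fun a t =>
  (if m = (tr t).1 ∧ pr a = ((tr t).2.1, (tr t).2.2) then 1 else 0)
    - (if m = (tr t).2.1 ∧ pr a = ((tr t).1, (tr t).2.2) then 1 else 0)
    + (if m = (tr t).2.2 ∧ pr a = ((tr t).1, (tr t).2.1) then 1 else 0)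

/-- two copies of a matrix -/
def two {m n R : Type*} [Zero R] (A : Matrix m n R) : Matrix (Fin 2 × m) (Fin 2 × n) R :=
  fun x y => if x.1 = y.1 then A x.2 y.2 else 0

/-- the first Koszul map: two copies of the row `f` -/
def kk1 (f : Fin 5 → S K) : Matrix (Fin 2) (Fin 2 × Fin 5) (S K) :=
  fun a y => if a = y.1 then f y.2 else 0

/-- the second Koszul map -/
def kk2 (f : Fin 5 → S K) : Matrix (Fin 2 × Fin 5) (Fin 2 × Fin 10) (S K) :=
  lin f (fun m => two ((k2 m).map (Int.cast : ℤ → K)))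

/-- the third Koszul map -/
def kk3 (f : Fin 5 → S K) : Matrix (Fin 2 × Fin 10) (Fin 2 × Fin 10) (S K) :=
  lin f (fun m => two ((k3 m).map (Int.cast : ℤ → K)))

end Pool.Agent.Lib.MP_745d3a_ag.PB

end
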