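import Pool.Agent.Lib.MP_745d3a_ag.PB.Defs

/-!
The Hilbert series lemma.
-/

set_option autoImplicit false

section

open MvPolynomial Matrix

namespace Pool.Agent.Lib.MP_745d3a_ag.PB

variable {K : Type*} [Field K]

lemma exists_homotopy {V : Type*} [AddCommGroup V] [Module K V] (D ε : V →ₗ[K] V)
    (hDD : D ∘ₗ D = 0) (hDε : D ∘ₗ ε = ε ∘ₗ D) (hεε : ε ∘ₗ ε = ε)
    (hex : ∀ z, D z = 0 → ε z = z → ∃ w, D w = z) :
    ∃ h : V →ₗ[K] V, D ∘ₗ h + h ∘ₗ D = ε := by
  have hDD' : ∀ v, D (D v) = 0 := fun v => LinearMap.congr_fun hDD v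
  have hDε' : ∀ v, D (ε v) = ε (D v) := fun v => LinearMap.congr_fun hDε v
  have hεε' : ∀ v, ε (ε v) = ε v := fun v => LinearMap.congr_fun hεε v
  let V' : Submodule K V := LinearMap.ker (ε - LinearMap.id)
  let W : Submodule K V := LinearMap.ker D ⊓ V'
  have hV' : ∀ v, v ∈ V' ↔ ε v = v := by
    intro v
    simp [V', LinearMap.mem_ker, sub_eq_zero]
  have hW : ∀ v, v ∈ W ↔ D v = 0 ∧ ε v = v := by
    intro v
    rw [Submodule.mem_inf, LinearMap.mem_ker, hV']
  let D' : V' →ₗ[K] W := (D ∘ₗ V'.subtype).codRestrict W (by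
    intro x
    rw [hW]
    refine ⟨hDD' _, ?_⟩
    change ε (D x) = D x
    rw [← hDε', (hV' _).1 x.2])
  have hsurj : Function.Surjective D' := by
    rintro ⟨z, hz⟩
    obtain ⟨hz1, hz2⟩ := (hW z).1 hz
    obtain ⟨w, hw⟩ := hex z hz1 hz2
    refine ⟨⟨ε w, (hV' _).2 (hεε' w)⟩, Subtype.ext ?_⟩
    change D (ε w) = z
    rw [hDε', hw, hz2]
  obtain ⟨g, hg⟩ := D'.exists_rightInverse_of_surjective (LinearMap.range_eq_top.2 hsurj)
  have hg1 : ∀ w : W, D (g w : V) = w := fun w =>
    congrArg Subtype.val (LinearMap.congr_fun hg w)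
  have hg2 : ∀ w : W, ε (g w : V) = g w := fun w => (hV' _).1 (g w).2
  let Q : V →ₗ[K] W := (D ∘ₗ ε).codRestrict W (by
    intro x
    rw [hW]
    refine ⟨hDD' _, ?_⟩
    change ε (D (ε x)) = D (ε x)
    rw [← hDε', hεε'])
  let P : V →ₗ[K] W := (ε - V'.subtype ∘ₗ g ∘ₗ Q).codRestrict W (by
    intro x
    rw [hW]
    change D (ε x - (g (Q x) : V)) = 0 ∧ ε (ε x - (g (Q x) : V)) = ε x - (g (Q x) : V)
    rw [map_sub, map_sub, hg1, hg2, hεε']
    exact ⟨sub_self _, rfl⟩)
  refine ⟨V'.subtype ∘ₗ g ∘ₗ P, LinearMap.ext fun x => ?_⟩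
  change D (g (P x) : V) + (g (P (D x)) : V) = ε x
  have h1 : D (g (P x) : V) = ε x - (g (Q x) : V) := hg1 (P x)
  have h2 : P (D x) = Q x := by
    apply Subtype.ext
    change ε (D x) - (g (Q (D x)) : V) = D (ε x)
    have h3 : Q (D x) = 0 := by
      apply Subtype.ext
      change D (ε (D x)) = 0
      rw [hDε', hDD', map_zero]
    rw [h3, map_zero, hDε']
    simp
  rw [h1, h2, sub_add_cancel]

lemma trace_eq_zero {V : Type*} [AddCommGroup V] [Module K V] [FiniteDimensional K V]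
    (D ε σ h : V →ₗ[K] V) (hσD : σ ∘ₗ D = -(D ∘ₗ σ)) (hh : D ∘ₗ h + h ∘ₗ D = ε) :
    LinearMap.trace K V (σ ∘ₗ ε) = 0 := by
  have h1 : σ ∘ₗ ε = (σ * D : Module.End K V) * h + (σ * h : Module.End K V) * D := by
    rw [← hh]
    refine LinearMap.ext fun v => ?_
    simp [Module.End.mul_apply]
  rw [h1, map_add, LinearMap.trace_mul_comm K (σ * h) D, ← map_add]
  have h2 : (σ * D : Module.End K V) * h + D * (σ * h) = 0 := by
    have h3 : (σ * D : Module.End K V) = -(D * σ) := hσD
    rw [h3, neg_mul, mul_assoc, neg_add_cancel]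
  rw [h2, map_zero]

lemma exists_homotopy_matrix {ι : Type*} [Fintype ι] [DecidableEq ι] (D : Matrix ι ι K)
    (hDD : D * D = 0) (hex : ∀ z : ι → K, D *ᵥ z = 0 → ∃ w, D *ᵥ w = z) :
    ∃ s : Matrix ι ι K, D * s + s * D = 1 := by
  obtain ⟨h, hh⟩ := exists_homotopy (K := K) D.mulVecLin (LinearMap.id)
    (by rw [← Matrix.mulVecLin_mul, hDD, Matrix.mulVecLin_zero]) (by rfl) (by rfl)
    (fun z hz _ => by
      obtain ⟨w, hw⟩ := hex z hz
      exact ⟨w, hw⟩)
  refine ⟨LinearMap.toMatrix' h, ?_⟩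
  have h1 : LinearMap.toMatrix' (D.mulVecLin ∘ₗ h + h ∘ₗ D.mulVecLin) = 1 := by
    rw [hh, LinearMap.toMatrix'_id]
  have h2 : LinearMap.toMatrix' D.mulVecLin = D := by
    rw [← Matrix.toLin'_apply', LinearMap.toMatrix'_toLin']
  rw [map_add, LinearMap.toMatrix'_comp, LinearMap.toMatrix'_comp, h2] at h1
  exact h1

end Pool.Agent.Lib.MP_745d3a_ag.PB

end

section

open MvPolynomial Matrix

namespace Pool.Agent.Lib.MP_745d3a_ag.PB

variable {K : Type*} [Field K]

lemma adj_trick {ι : Type*} [Fintype ι] [DecidableEq ι] (D : Matrix ι ι (S K))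
    (ε : Matrix ι ι K) (hεε : ε * ε = ε) (hDε : D * cst ε = cst ε * D) (hDD : D * D = 0)
    (v : Fin 5 → K) (s : Matrix ι ι K) (hs : (ev v D * s + s * ev v D) * ε = ε) :
    ∃ (f : S K) (h : Matrix ι ι (S K)), eval v f ≠ 0 ∧ (D * h + h * D) * cst ε = f • cst ε := by
  obtain ⟨E, hE⟩ : ∃ E : Matrix ι ι (S K), E = cst ε := ⟨_, rfl⟩
  obtain ⟨s', hs'⟩ : ∃ s' : Matrix ι ι (S K), s' = cst s := ⟨_, rfl⟩
  have hEE : E * E = E := by rw [hE, ← cst_mul, hεε]
  rw [← hE] at hDε ⊢
  obtain ⟨L, hL⟩ : ∃ L : Matrix ι ι (S K), L = (D * s' + s' * D) * E + (1 - E) := ⟨_, rfl⟩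
  have hevL : ev v L = 1 := by
    rw [hL, ev_add, ev_mul, ev_add, ev_mul, ev_mul, ev_sub, ev_one, hE, hs', ev_cst, ev_cst, hs]
    abel
  have hdet : eval v L.det = 1 := by
    have h1 : (eval v) L.det = ((eval v).mapMatrix L).det := RingHom.map_det (eval v) L
    have h2 : (eval v).mapMatrix L = ev v L := rfl
    rw [h1, h2, hevL, Matrix.det_one]
  have hf0 : L.det ≠ 0 := by
    intro h0
    rw [h0, map_zero] at hdet
    exact zero_ne_one hdet
  have hDL : D * L = L * D := by
    have h1 : D * L = D * (s' * D) * E + D * (1 - E) := by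
      rw [hL, mul_add, ← mul_assoc, mul_add, ← mul_assoc, hDD, zero_mul, zero_add]
    have h2 : L * D = D * (s' * D) * E + D * (1 - E) := by
      rw [hL, add_mul, mul_assoc, ← hDε, ← mul_assoc, add_mul, mul_assoc s' D D, hDD, mul_zero,
        add_zero, sub_mul, one_mul, ← hDε, mul_sub, mul_one, mul_assoc D s' D]
    rw [h1, h2]
  have hAL : L.adjugate * L = L.det • (1 : Matrix ι ι (S K)) := Matrix.adjugate_mul L
  have hLA : L * L.adjugate = L.det • (1 : Matrix ι ι (S K)) := Matrix.mul_adjugate L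
  obtain ⟨A, hA⟩ : ∃ A : Matrix ι ι (S K), A = L.adjugate := ⟨_, rfl⟩
  rw [← hA] at hAL hLA
  have hAD : A * D = D * A := by
    have h1 : L.det • (A * D) = L.det • (D * A) := by
      calc L.det • (A * D) = A * D * (L.det • (1 : Matrix ι ι (S K))) := by
            rw [Matrix.mul_smul, mul_one]
        _ = A * (D * L) * A := by rw [← hLA]; simp only [mul_assoc]
        _ = A * (L * D) * A := by rw [hDL]
        _ = (A * L) * (D * A) := by simp only [mul_assoc]
        _ = L.det • (D * A) := by rw [hAL, Matrix.smul_mul, one_mul]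
    ext1 i j
    have h2 := congrFun (congrFun h1 i) j
    rw [Matrix.smul_apply, Matrix.smul_apply, smul_eq_mul, smul_eq_mul] at h2
    exact mul_left_cancel₀ hf0 h2
  refine ⟨L.det, A * s', by rw [hdet]; exact one_ne_zero, ?_⟩
  have h3 : D * (A * s') + A * s' * D = A * (D * s' + s' * D) := by
    rw [mul_add, ← mul_assoc D A s', ← hAD, mul_assoc A D s', mul_assoc A s' D]
  have h5 : (D * s' + s' * D) * E = L * E := by
    generalize D * s' + s' * D = T at hL
    have h6 : (1 - E) * E = 0 := by rw [sub_mul, one_mul, hEE, sub_self]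
    rw [hL, add_mul, h6, add_zero, mul_assoc, hEE]
  rw [h3, mul_assoc, h5, ← mul_assoc, hAL, Matrix.smul_mul, one_mul]

end Pool.Agent.Lib.MP_745d3a_ag.PB

end

section

open MvPolynomial Matrix

namespace Pool.Agent.Lib.MP_745d3a_ag.PB

variable {K : Type*} [Field K] [IsAlgClosed K]

lemma null_homotopic {ι : Type*} [Fintype ι] [DecidableEq ι] (D : Matrix ι ι (S K))
    (ε : Matrix ι ι K) (hεε : ε * ε = ε) (hDε : D * cst ε = cst ε * D) (hDD : D * D = 0)
    (hs : ∀ v : Fin 5 → K, v ≠ 0 → ∃ s : Matrix ι ι K, (ev v D * s + s * ev v D) * ε = ε) :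
    ∃ (M : ℕ) (h : Fin 5 → Matrix ι ι (S K)),
      ∀ j, (D * h j + h j * D) * cst ε = (X j ^ M : S K) • cst ε := by
  classical
  let J : Ideal (S K) :=
    { carrier := {f | ∃ h : Matrix ι ι (S K), (D * h + h * D) * cst ε = f • cst ε}
      zero_mem' := ⟨0, by simp⟩
      add_mem' := by
        rintro f g ⟨h, hh⟩ ⟨k, hk⟩
        refine ⟨h + k, ?_⟩
        have e1 : D * (h + k) + (h + k) * D = (D * h + h * D) + (D * k + k * D) := by
          rw [mul_add, add_mul]; abel
        rw [e1, add_mul, hh, hk, add_smul]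
      smul_mem' := by
        rintro a f ⟨h, hh⟩
        refine ⟨a • h, ?_⟩
        have e1 : D * (a • h) + (a • h) * D = a • (D * h + h * D) := by
          rw [Matrix.mul_smul, Matrix.smul_mul, smul_add]
        rw [e1, Matrix.smul_mul, hh, smul_smul, smul_eq_mul] }
  have hJ : ∀ f, f ∈ J ↔ ∃ h : Matrix ι ι (S K), (D * h + h * D) * cst ε = f • cst ε :=
    fun f => Iff.rfl
  have hz : ∀ x ∈ zeroLocus K J, x = 0 := by
    intro x hx
    by_contra hne
    obtain ⟨s, hs'⟩ := hs x hne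
    obtain ⟨f, h, hf, hh⟩ := adj_trick D ε hεε hDε hDD x s hs'
    refine hf ?_
    have := hx f ((hJ f).2 ⟨h, hh⟩)
    simpa [aeval_eq_eval] using this
  have hX : ∀ j, ∃ n : ℕ, (X j : S K) ^ n ∈ J := by
    intro j
    have h1 : (X j : S K) ∈ J.radical := by
      rw [← vanishingIdeal_zeroLocus_eq_radical (K := K) J, mem_vanishingIdeal_iff]
      intro x hx
      rw [hz x hx]
      simp
    exact h1
  choose n hn using hX
  refine ⟨∑ j, n j, ?_⟩
  have hX2 : ∀ j, (X j : S K) ^ (∑ i, n i) ∈ J := by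
    intro j
    have hle : n j ≤ ∑ i, n i := Finset.single_le_sum (fun _ _ => Nat.zero_le _)
      (Finset.mem_univ j)
    obtain ⟨c, hc⟩ := Nat.exists_eq_add_of_le hle
    rw [hc, pow_add]
    exact J.mul_mem_right _ (hn j)
  choose h hh using fun j => (hJ _).1 (hX2 j)
  exact ⟨h, hh⟩

end Pool.Agent.Lib.MP_745d3a_ag.PB

end

section

open MvPolynomial Matrix

namespace Pool.Agent.Lib.MP_745d3a_ag.PB

variable {K : Type*} [Field K] {ι : Type*} [Fintype ι]

private lemma HSd_hc_mul {a b : S K} {m : ℕ} (ha : a.IsHomogeneous m) (N : ℕ) :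
    homogeneousComponent N (a * b)
      = if m ≤ N then a * homogeneousComponent (N - m) b else 0 := by
  have h : ∀ i ∈ Finset.range (b.totalDegree + 1),
      homogeneousComponent N (a * homogeneousComponent i b)
        = if N = m + i then a * homogeneousComponent i b else 0 := fun i _ =>
    homogeneousComponent_of_mem
      ((mem_homogeneousSubmodule _ _).mpr (ha.mul (homogeneousComponent_isHomogeneous i b)))
  have h0 : homogeneousComponent N (a * b)
      = ∑ i ∈ Finset.range (b.totalDegree + 1),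
        homogeneousComponent N (a * homogeneousComponent i b) := by
    rw [← map_sum, ← Finset.mul_sum, sum_homogeneousComponent]
  rw [h0, Finset.sum_congr rfl h]
  by_cases hmN : m ≤ N
  · rw [if_pos hmN]
    by_cases hr : N - m ∈ Finset.range (b.totalDegree + 1)
    · rw [Finset.sum_eq_single (N - m)]
      · rw [if_pos (by omega)]
      · intro i _ hi
        rw [if_neg (by omega)]
      · intro h'
        exact absurd hr h'
    · rw [Finset.mem_range, not_lt] at hr
      rw [homogeneousComponent_eq_zero _ _ (by omega : b.totalDegree < N - m), mul_zero]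
      refine Finset.sum_eq_zero fun i hi => ?_
      rw [Finset.mem_range] at hi
      rw [if_neg (by omega)]
  · rw [if_neg hmN]
    refine Finset.sum_eq_zero fun i _ => ?_
    rw [if_neg (by omega)]

private lemma HSd_sum_hc (a : S K) {M : ℕ} (hM : a.totalDegree + 1 ≤ M) :
    ∑ i ∈ Finset.range M, homogeneousComponent i a = a := by
  rw [← Finset.sum_subset (Finset.range_subset_range.mpr hM), sum_homogeneousComponent]
  intro i _ hi
  rw [Finset.mem_range, not_lt] at hi
  exact homogeneousComponent_eq_zero _ _ (by omega)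

lemma comp_inDeg (d : ι → ℕ) (k : ℕ) (z : ι → S K) : InDeg d k (comp d k z) := by
  intro i
  unfold comp
  by_cases h : d i ≤ k
  · rw [if_pos h]
    exact homogeneousComponent_isHomogeneous _ _
  · rw [if_neg h]
    exact isHomogeneous_zero _ _ _

lemma comp_add (d : ι → ℕ) (k : ℕ) (z w : ι → S K) :
    comp d k (z + w) = comp d k z + comp d k w := by
  funext i
  simp only [comp, Pi.add_apply]
  by_cases h : d i ≤ k
  · simp only [if_pos h, map_add]
  · simp only [if_neg h, add_zero]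

lemma comp_sum {β : Type*} (s : Finset β) (d : ι → ℕ) (k : ℕ) (z : β → ι → S K) :
    comp d k (∑ b ∈ s, z b) = ∑ b ∈ s, comp d k (z b) := by
  funext i
  simp only [comp, Finset.sum_apply]
  by_cases h : d i ≤ k
  · simp only [if_pos h, map_sum]
  · simp only [if_neg h, Finset.sum_const_zero]

lemma comp_mulVec (d : ι → ℕ) (k : ℕ) (D : Matrix ι ι (S K)) (hD : DegZero d D)
    (z : ι → S K) : comp d k (D *ᵥ z) = D *ᵥ comp d k z := by
  funext i
  have key : ∀ j, (if d i ≤ k then homogeneousComponent (k - d i) (D i j * z j) else 0)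
      = D i j * (if d j ≤ k then homogeneousComponent (k - d j) (z j) else 0) := by
    intro j
    by_cases h0 : D i j = 0
    · rw [h0, zero_mul, map_zero, zero_mul, ite_self]
    obtain ⟨m, hm, hh⟩ := hD i j h0
    by_cases hi : d i ≤ k
    · rw [if_pos hi, HSd_hc_mul hh]
      by_cases hj : d j ≤ k
      · rw [if_pos hj, if_pos (by omega), show k - d i - m = k - d j by omega]
      · rw [if_neg hj, if_neg (by omega), mul_zero]
    · rw [if_neg hi, if_neg (by omega : ¬ d j ≤ k), mul_zero]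
  have e1 : comp d k (D *ᵥ z) i
      = ∑ j, (if d i ≤ k then homogeneousComponent (k - d i) (D i j * z j) else 0) := by
    show (if d i ≤ k then homogeneousComponent (k - d i) (∑ j, D i j * z j) else 0) = _
    by_cases hi : d i ≤ k
    · simp only [if_pos hi, map_sum]
    · simp only [if_neg hi, Finset.sum_const_zero]
  rw [e1, Finset.sum_congr rfl (fun j _ => key j)]
  rfl

lemma comp_smul (d : ι → ℕ) (k l : ℕ) (a : S K) (z : ι → S K) :
    comp d k (a • comp d l z)
      = if l ≤ k then homogeneousComponent (k - l) a • comp d l z else 0 := by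
  funext i
  have e1 : comp d k (a • comp d l z) i
      = if d i ≤ k then homogeneousComponent (k - d i) (a * comp d l z i) else 0 := rfl
  have e2 : (if l ≤ k then homogeneousComponent (k - l) a • comp d l z else 0 : ι → S K) i
      = if l ≤ k then homogeneousComponent (k - l) a * comp d l z i else 0 := by
    by_cases h : l ≤ k
    · rw [if_pos h, if_pos h]
      rfl
    · rw [if_neg h, if_neg h]
      rfl
  rw [e1, e2]
  by_cases hil : d i ≤ l
  · have hg : (comp d l z i).IsHomogeneous (l - d i) := comp_inDeg d l z i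
    by_cases hik : d i ≤ k
    · rw [if_pos hik, mul_comm, HSd_hc_mul hg]
      by_cases hlk : l ≤ k
      · rw [if_pos hlk, if_pos (by omega), mul_comm, show k - d i - (l - d i) = k - l by omega]
      · rw [if_neg hlk, if_neg (by omega)]
    · rw [if_neg hik, if_neg (by omega : ¬ l ≤ k)]
  · have hg : comp d l z i = 0 := by
      show (if d i ≤ l then _ else _) = _
      rw [if_neg hil]
    rw [hg, mul_zero, mul_zero, map_zero, ite_self, ite_self]

lemma sum_comp (d : ι → ℕ) (z : ι → S K) : ∃ N, z = ∑ k ∈ Finset.range N, comp d k z := by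
  refine ⟨Finset.univ.sup (fun i => d i + (z i).totalDegree) + 1, ?_⟩
  funext i
  have hle : d i + (z i).totalDegree ≤ Finset.univ.sup (fun i => d i + (z i).totalDegree) :=
    Finset.le_sup (f := fun i => d i + (z i).totalDegree) (Finset.mem_univ i)
  obtain ⟨M, hM⟩ : ∃ M, Finset.univ.sup (fun i => d i + (z i).totalDegree) + 1 = d i + M :=
    ⟨Finset.univ.sup (fun i => d i + (z i).totalDegree) + 1 - d i, by omega⟩
  rw [hM, Finset.sum_apply, Finset.sum_range_add]
  have e1 : ∑ x ∈ Finset.range (d i), comp d x z i = 0 := by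
    refine Finset.sum_eq_zero fun x hx => ?_
    rw [Finset.mem_range] at hx
    show (if d i ≤ x then _ else _) = _
    rw [if_neg (by omega)]
  have e2 : ∀ x ∈ Finset.range M, comp d (d i + x) z i = homogeneousComponent x (z i) := by
    intro x _
    show (if d i ≤ d i + x then _ else _) = _
    rw [if_pos (by omega), Nat.add_sub_cancel_left]
  rw [e1, zero_add, Finset.sum_congr rfl e2, HSd_sum_hc _ (by omega)]

lemma comp_of_inDeg (d : ι → ℕ) (k : ℕ) (hk : ∀ i, d i ≤ k) (z : ι → S K)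
    (hz : InDeg d k z) : comp d k z = z := by
  funext i
  show (if d i ≤ k then _ else _) = _
  rw [if_pos (hk i), homogeneousComponent_eq_self (hz i)]

lemma mulVec_inDeg (d : ι → ℕ) (k : ℕ) (hk : ∀ i, d i ≤ k) (D : Matrix ι ι (S K))
    (hD : DegZero d D) (z : ι → S K) (hz : InDeg d k z) : InDeg d k (D *ᵥ z) := by
  intro i
  refine IsHomogeneous.sum _ _ _ fun j _ => ?_
  show IsHomogeneous (D i j * z j) (k - d i)
  by_cases h0 : D i j = 0
  · rw [h0, zero_mul]
    exact isHomogeneous_zero _ _ _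
  obtain ⟨m, hm, hh⟩ := hD i j h0
  have h1 := hh.mul (hz j)
  have h2 := hk j
  rwa [show m + (k - d j) = k - d i by omega] at h1

end Pool.Agent.Lib.MP_745d3a_ag.PB

end

section

open MvPolynomial Matrix

namespace Pool.Agent.Lib.MP_745d3a_ag.PB

variable {K : Type*} [Field K] {ι : Type*} [Fintype ι]

/-- forms of large degree lie in the ideal of the powers of the variables -/
private lemma HSe_pow (M m : ℕ) (hm : 5 * M + 1 ≤ m) (b : S K) (hb : b.IsHomogeneous m) :
    ∃ c : Fin 5 → S K, b = ∑ j, c j * X j ^ M := by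
  have h1 : b ∈ Submodule.span (S K) (Set.range (fun j : Fin 5 => (X j ^ M : S K))) := by
    rw [← b.support_sum_monomial_coeff]
    refine Submodule.sum_mem _ fun s hs => ?_
    have h2 : s.degree = m := by
      have h3 := hb (mem_support_iff.mp hs)
      rw [← h3, Finsupp.degree_eq_weight_one]
      rfl
    have h4 : ∃ j, M ≤ s j := by
      by_contra hcon
      push Not at hcon
      have h5 : s.degree = ∑ j, s j := by
        rw [Finsupp.degree_eq_sum]
      have h6 : ∑ j : Fin 5, s j ≤ ∑ j : Fin 5, M := Finset.sum_le_sum fun j _ => (hcon j).le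
      simp only [Finset.sum_const, Finset.card_univ, Fintype.card_fin, smul_eq_mul] at h6
      omega
    obtain ⟨j, hj⟩ := h4
    have h7 : (monomial s (coeff s b) : S K)
        = monomial (s - Finsupp.single j M) (coeff s b) * X j ^ M := by
      rw [X_pow_eq_monomial, monomial_mul, mul_one]
      rw [tsub_add_cancel_of_le (by rwa [Finsupp.single_le_iff])]
    rw [h7, ← smul_eq_mul]
    exact Submodule.smul_mem _ _ (Submodule.subset_span ⟨j, rfl⟩)
  obtain ⟨c, hc⟩ := (Submodule.mem_span_range_iff_exists_fun (S K)).mp h1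
  exact ⟨c, hc.symm⟩

omit [Fintype ι] in
private lemma HSe_comp_zero (d : ι → ℕ) (k : ℕ) : comp d k (0 : ι → S K) = 0 := by
  funext i
  simp [comp]

lemma graded_large (d : ι → ℕ) (P : Submodule (S K) (ι → S K))
    (hP : ∀ z ∈ P, ∀ k, comp d k z ∈ P) (M : ℕ) :
    ∃ k0, (∀ i, d i ≤ k0) ∧ ∀ k, k0 ≤ k → ∀ z ∈ P, InDeg d k z →
      ∃ c : Fin 5 → (ι → S K), (∀ j, c j ∈ P) ∧ z = ∑ j, (X j ^ M : S K) • c j := by
  classical
  obtain ⟨G, hG⟩ : P.FG := IsNoetherian.noetherian P
  choose N hN using fun g : ι → S K => sum_comp d g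
  let T := Σ g : G, Fin (N g.1)
  let gt : T → (ι → S K) := fun t => comp d t.2.1 t.1.1
  have hgt : ∀ t, gt t ∈ P := fun t =>
    hP _ (hG ▸ Submodule.subset_span t.1.2) _
  have hspan : P ≤ Submodule.span (S K) (Set.range gt) := by
    rw [← hG, Submodule.span_le]
    intro g hg
    have h1 : g = ∑ k ∈ Finset.range (N g), comp d k g := hN g
    rw [SetLike.mem_coe, h1]
    refine Submodule.sum_mem _ fun k hk => ?_
    exact Submodule.subset_span ⟨⟨⟨g, hg⟩, ⟨k, Finset.mem_range.mp hk⟩⟩, rfl⟩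
  refine ⟨(∑ g ∈ G, N g) + (5 * M + 1) + ∑ i, d i, fun i => ?_, fun k hk z hz hzk => ?_⟩
  · have := Finset.single_le_sum (f := d) (fun i _ => Nat.zero_le _) (Finset.mem_univ i)
    omega
  have hdk : ∀ i, d i ≤ k := fun i => by
    have := Finset.single_le_sum (f := d) (fun i _ => Nat.zero_le _) (Finset.mem_univ i)
    omega
  obtain ⟨a, ha⟩ := (Submodule.mem_span_range_iff_exists_fun (S K)).mp (hspan hz)
  have hlt : ∀ t : T, t.2.1 + (5 * M + 1) ≤ k := fun t => by
    have h1 := Finset.single_le_sum (f := N) (fun i _ => Nat.zero_le _) t.1.2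
    have h2 := t.2.2
    omega
  have hb : ∀ t : T, ∃ c : Fin 5 → S K,
      homogeneousComponent (k - t.2.1) (a t) = ∑ j, c j * X j ^ M := fun t =>
    HSe_pow M (k - t.2.1) (by have := hlt t; omega) _
      (homogeneousComponent_isHomogeneous _ _)
  choose c hc using hb
  refine ⟨fun j => ∑ t, c t j • gt t, fun j => ?_, ?_⟩
  · exact Submodule.sum_mem _ fun t _ => Submodule.smul_mem _ _ (hgt t)
  · have h1 : z = ∑ t, homogeneousComponent (k - t.2.1) (a t) • gt t := by
      rw [← comp_of_inDeg d k hdk z hzk, ← ha, comp_sum]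
      refine Finset.sum_congr rfl fun t _ => ?_
      show comp d k (a t • comp d t.2.1 t.1.1) = _
      rw [comp_smul, if_pos (by have := hlt t; omega)]
    rw [h1]
    simp only [hc, Finset.sum_smul, Finset.smul_sum, smul_smul]
    rw [Finset.sum_comm]
    refine Finset.sum_congr rfl fun j _ => Finset.sum_congr rfl fun t _ => ?_
    rw [mul_comm]

lemma exact_large [DecidableEq ι] (d : ι → ℕ) (D : Matrix ι ι (S K)) (ε : Matrix ι ι K)
    (hD : DegZero d D) (hε : DegZero d (cst ε)) (M : ℕ) (h : Fin 5 → Matrix ι ι (S K))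
    (hh : ∀ j, (D * h j + h j * D) * cst ε = (X j ^ M : S K) • cst ε) :
    ∃ k0, (∀ i, d i ≤ k0) ∧ ∀ k, k0 ≤ k → ∀ z, InDeg d k z → D *ᵥ z = 0 → cst ε *ᵥ z = z →
      ∃ w, InDeg d k w ∧ D *ᵥ w = z := by
  let P : Submodule (S K) (ι → S K) :=
    { carrier := {z | D *ᵥ z = 0 ∧ cst ε *ᵥ z = z}
      add_mem' := by
        rintro x y ⟨hx1, hx2⟩ ⟨hy1, hy2⟩
        exact ⟨by rw [mulVec_add, hx1, hy1, add_zero], by rw [mulVec_add, hx2, hy2]⟩
      zero_mem' := ⟨mulVec_zero _, mulVec_zero _⟩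
      smul_mem' := by
        rintro a x ⟨hx1, hx2⟩
        exact ⟨by rw [mulVec_smul, hx1, smul_zero], by rw [mulVec_smul, hx2]⟩ }
  have hP : ∀ z ∈ P, ∀ k, comp d k z ∈ P := by
    rintro z ⟨h1, h2⟩ k
    refine ⟨?_, ?_⟩
    · rw [← comp_mulVec d k D hD, h1, HSe_comp_zero]
    · rw [← comp_mulVec d k (cst ε) hε, h2]
  obtain ⟨k0, hk0, H⟩ := graded_large d P hP M
  refine ⟨k0, hk0, fun k hk z hz h1 h2 => ?_⟩
  obtain ⟨c, hcP, hcz⟩ := H k hk z ⟨h1, h2⟩ hz
  have key : ∀ j, D *ᵥ (h j *ᵥ c j) = (X j ^ M : S K) • c j := by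
    intro j
    obtain ⟨hc1, hc2⟩ := hcP j
    have h3 := congrArg (fun A : Matrix ι ι (S K) => A *ᵥ c j) (hh j)
    simp only [smul_mulVec, hc2] at h3
    rw [← h3, ← mulVec_mulVec, hc2, add_mulVec, ← mulVec_mulVec, ← mulVec_mulVec, hc1,
      mulVec_zero, add_zero]
  refine ⟨comp d k (∑ j, h j *ᵥ c j), comp_inDeg d k _, ?_⟩
  rw [← comp_mulVec d k D hD, mulVec_sum]
  simp only [key]
  rw [← hcz]
  exact comp_of_inDeg d k (fun i => (hk0 i).trans hk) z hz

end Pool.Agent.Lib.MP_745d3a_ag.PB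

end

section

open MvPolynomial Matrix

namespace Pool.Agent.Lib.MP_745d3a_ag.PB

variable {K : Type*} [Field K] {ι : Type*} [Fintype ι]

lemma HSf_mon_iff (m : ℕ) (s : Fin 5 →₀ ℕ) :
    s ∈ Finset.finsuppAntidiag (Finset.univ : Finset (Fin 5)) m ↔ s.degree = m := by
  rw [Finset.mem_finsuppAntidiag, Finsupp.degree_eq_sum]
  simp

lemma card_mon (m : ℕ) : Fintype.card (Mon m) = (m + 4).choose 4 := by
  rw [Fintype.card_coe, Finset.card_finsuppAntidiag_nat_eq_choose]
  rw [Finset.card_univ, Fintype.card_fin]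
  have h : 5 + m - 1 = m + 4 := by omega
  rw [h]
  exact (Nat.choose_symm_add).symm ▸ rfl

lemma vec_inDeg (d : ι → ℕ) (k : ℕ) (c : DegIdx d k → K) : InDeg d k (vec d k c) := by
  intro i
  change (∑ s : Mon (k - d i), monomial s.1 (c ⟨i, s⟩)).IsHomogeneous (k - d i)
  refine IsHomogeneous.sum _ _ _ fun s _ => isHomogeneous_monomial _ ?_
  exact (HSf_mon_iff _ _).1 s.2

lemma HSf_coeff (d : ι → ℕ) (k : ℕ) (c : DegIdx d k → K) (i : ι) (s : Mon (k - d i)) :
    coeff s.1 (vec d k c i) = c ⟨i, s⟩ := by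
  change coeff s.1 (∑ s : Mon (k - d i), monomial s.1 (c ⟨i, s⟩)) = _
  rw [coeff_sum, Finset.sum_eq_single s]
  · rw [coeff_monomial, if_pos rfl]
  · intro b _ hb
    rw [coeff_monomial, if_neg (fun h => hb (Subtype.ext h))]
  · intro h
    exact absurd (Finset.mem_univ s) h

lemma cf_vec (d : ι → ℕ) (k : ℕ) (c : DegIdx d k → K) : cf d k (vec d k c) = c := by
  ext ⟨i, s⟩
  exact HSf_coeff d k c i s

lemma vec_cf (d : ι → ℕ) (k : ℕ) (z : ι → S K) (hz : InDeg d k z) :
    vec d k (cf d k z) = z := by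
  ext i s
  by_cases hs : s.degree = k - d i
  · exact HSf_coeff d k (cf d k z) i ⟨s, (HSf_mon_iff _ _).2 hs⟩
  · rw [(hz i).coeff_eq_zero hs, (vec_inDeg d k (cf d k z) i).coeff_eq_zero hs]

lemma opk_mul (d : ι → ℕ) (k : ℕ) (A B : Matrix ι ι (S K))
    (hB : ∀ z, InDeg d k z → InDeg d k (B *ᵥ z)) :
    opk d k (A * B) = opk d k A ∘ₗ opk d k B := by
  apply LinearMap.ext
  intro c
  change cf d k ((A * B) *ᵥ vec d k c) = cf d k (A *ᵥ vec d k (cf d k (B *ᵥ vec d k c)))
  rw [vec_cf d k _ (hB _ (vec_inDeg d k c)), Matrix.mulVec_mulVec]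

lemma trace_opk [DecidableEq ι] (d : ι → ℕ) (k : ℕ) (A : Matrix ι ι K) :
    LinearMap.trace K (DegIdx d k → K) (opk d k (cst A))
      = ∑ i, A i i * ((k - d i + 4).choose 4 : K) := by
  rw [LinearMap.trace_eq_matrix_trace K (Pi.basisFun K (DegIdx d k)), Matrix.trace,
    Fintype.sum_sigma]
  refine Finset.sum_congr rfl fun i _ => ?_
  have key : ∀ s : Mon (k - d i),
      (LinearMap.toMatrix (Pi.basisFun K (DegIdx d k)) (Pi.basisFun K (DegIdx d k))
        (opk d k (cst A))).diag ⟨i, s⟩ = A i i := by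
    intro s
    rw [Matrix.diag_apply, LinearMap.toMatrix_apply, Pi.basisFun_apply, Pi.basisFun_repr]
    change coeff s.1 ((cst A *ᵥ vec d k (Pi.single ⟨i, s⟩ 1)) i) = A i i
    have hv : vec d k (Pi.single (⟨i, s⟩ : DegIdx d k) (1 : K))
        = Pi.single i (monomial s.1 (1 : K)) := by
      have h1 : ∀ j, vec d k (Pi.single (⟨i, s⟩ : DegIdx d k) (1 : K)) j
          = (Pi.single i (monomial s.1 (1 : K)) : ι → S K) j := by
        intro j
        change (∑ t : Mon (k - d j), monomial t.1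
          ((Pi.single (⟨i, s⟩ : DegIdx d k) (1 : K) : DegIdx d k → K) ⟨j, t⟩)) = _
        by_cases hj : j = i
        · subst hj
          rw [Pi.single_eq_same, Finset.sum_eq_single s]
          · rw [Pi.single_eq_same]
          · intro b _ hb
            have h2 : (⟨j, b⟩ : DegIdx d k) ≠ ⟨j, s⟩ := by
              intro h
              exact hb (eq_of_heq (Sigma.mk.inj h).2)
            rw [Pi.single_eq_of_ne h2, map_zero]
          · intro h
            exact absurd (Finset.mem_univ s) h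
        · rw [Pi.single_eq_of_ne hj]
          refine Finset.sum_eq_zero fun b _ => ?_
          have h2 : (⟨j, b⟩ : DegIdx d k) ≠ ⟨i, s⟩ := by
            intro h
            exact hj (Sigma.mk.inj h).1
          rw [Pi.single_eq_of_ne h2, map_zero]
      exact funext h1
    rw [hv, Matrix.mulVec_single]
    simp [cst]
  rw [Finset.sum_congr rfl fun s _ => key s, Finset.sum_const, Finset.card_univ, card_mon,
    nsmul_eq_mul, mul_comm]

end Pool.Agent.Lib.MP_745d3a_ag.PB

end

section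

open MvPolynomial Matrix

namespace Pool.Agent.Lib.MP_745d3a_ag.PB

variable {K : Type*} [Field K] {ι : Type*} [Fintype ι] [DecidableEq ι]

private lemma HSg_degZero_cst {o : ι → Bool} {d : ι → ℕ} {ε : Matrix ι ι K}
    (hε : ∀ i j, ε i j ≠ 0 → d i = d j) : DegZero d (cst ε : Matrix ι ι (S K)) := by
  intro i j hij
  rw [cst_apply] at hij
  refine ⟨0, ?_, ?_⟩
  · rw [Nat.add_zero]
    apply hε
    intro h0
    exact hij (by rw [h0, map_zero])
  · rw [cst_apply]
    exact isHomogeneous_C _ _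

private lemma HSg_sgM_deg {o : ι → Bool} {d : ι → ℕ} :
    ∀ i j, (sgM K o) i j ≠ 0 → d i = d j := by
  intro i j hij
  by_contra hne
  apply hij
  have : i ≠ j := fun h => hne (by rw [h])
  rw [sgM, Matrix.diagonal_apply_ne _ this]

private lemma HSg_anti {o : ι → Bool} {D : Matrix ι ι (S K)} (hDo : Odd' o D) :
    (cst (sgM K o) : Matrix ι ι (S K)) * D = -(D * cst (sgM K o)) := by
  have hc : (cst (sgM K o) : Matrix ι ι (S K)) = Matrix.diagonal (fun i => sg (S K) (o i)) := by
    ext1 i j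
    by_cases h : i = j
    · subst h
      rw [cst_apply, sgM, Matrix.diagonal_apply_eq, Matrix.diagonal_apply_eq]
      cases o i <;> simp [sg]
    · rw [cst_apply, sgM, Matrix.diagonal_apply_ne _ h, Matrix.diagonal_apply_ne _ h, map_zero]
  rw [hc]
  ext1 i j
  rw [Matrix.neg_apply, Matrix.diagonal_mul, Matrix.mul_diagonal]
  by_cases h : D i j = 0
  · rw [h]; simp
  · have := hDo i j h
    cases hi : o i <;> cases hj : o j
    · exact absurd (hi.trans hj.symm) this
    · simp
    · simp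
    · exact absurd (hi.trans hj.symm) this

lemma trace_deg (o : ι → Bool) (d : ι → ℕ) (D : Matrix ι ι (S K)) (ε : Matrix ι ι K)
    (hD : DegZero d D) (hDo : Odd' o D) (hε : EvenConst o d ε) (hεε : ε * ε = ε)
    (hDε : D * cst ε = cst ε * D) (hDD : D * D = 0) (k : ℕ) (hk : ∀ i, d i ≤ k)
    (hex : ∀ z, InDeg d k z → D *ᵥ z = 0 → cst ε *ᵥ z = z → ∃ w, InDeg d k w ∧ D *ᵥ w = z) :
    ∑ i, sg K (o i) * ε i i * ((k - d i + 4).choose 4 : K) = 0 := by
  have hDd : ∀ z, InDeg d k z → InDeg d k (D *ᵥ z) := fun z hz => mulVec_inDeg d k hk D hD z hz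
  have hεd : ∀ z, InDeg d k z → InDeg d k ((cst ε : Matrix ι ι (S K)) *ᵥ z) := fun z hz =>
    mulVec_inDeg d k hk _ (HSg_degZero_cst (o := o) (fun i j h => (hε i j h).2)) z hz
  have hσd : ∀ z, InDeg d k z → InDeg d k ((cst (sgM K o) : Matrix ι ι (S K)) *ᵥ z) := fun z hz =>
    mulVec_inDeg d k hk _ (HSg_degZero_cst (o := o) (HSg_sgM_deg (o := o))) z hz
  have hvc : ∀ (A : Matrix ι ι (S K)) (c : DegIdx d k → K),
      (∀ z, InDeg d k z → InDeg d k (A *ᵥ z)) → vec d k (opk d k A c) = A *ᵥ vec d k c := by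
    intro A c hA
    exact vec_cf d k _ (hA _ (vec_inDeg d k c))
  have hop0 : opk d k (0 : Matrix ι ι (S K)) = 0 := by
    apply LinearMap.ext
    intro c
    change cf d k ((0 : Matrix ι ι (S K)) *ᵥ vec d k c) = 0
    rw [Matrix.zero_mulVec, map_zero]
  have hopneg : ∀ A : Matrix ι ι (S K), opk d k (-A) = -opk d k A := by
    intro A
    apply LinearMap.ext
    intro c
    change cf d k ((-A) *ᵥ vec d k c) = -(cf d k (A *ᵥ vec d k c))
    rw [Matrix.neg_mulVec, map_neg]
  have h1 : opk d k D ∘ₗ opk d k D = 0 := by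
    rw [← opk_mul d k D D hDd, hDD, hop0]
  have h2 : opk d k D ∘ₗ opk d k (cst ε) = opk d k (cst ε) ∘ₗ opk d k D := by
    rw [← opk_mul d k D _ hεd, hDε, opk_mul d k _ D hDd]
  have h3 : opk d k (cst ε) ∘ₗ opk d k (cst ε) = opk d k (cst ε : Matrix ι ι (S K)) := by
    rw [← opk_mul d k _ _ hεd, ← cst_mul, hεε]
  have h4 : opk d k (cst (sgM K o)) ∘ₗ opk d k D
      = -(opk d k D ∘ₗ opk d k (cst (sgM K o))) := by
    rw [← opk_mul d k _ D hDd, HSg_anti hDo, hopneg, opk_mul d k D _ hσd]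
  have h5 : ∀ c, opk d k D c = 0 → opk d k (cst ε) c = c → ∃ w, opk d k D w = c := by
    intro c hc1 hc2
    have e1 : D *ᵥ vec d k c = 0 := by
      rw [← hvc D c hDd, hc1, map_zero]
    have e2 : (cst ε : Matrix ι ι (S K)) *ᵥ vec d k c = vec d k c := by
      rw [← hvc _ c hεd, hc2]
    obtain ⟨w, hw, hw2⟩ := hex _ (vec_inDeg d k c) e1 e2
    refine ⟨cf d k w, ?_⟩
    change cf d k (D *ᵥ vec d k (cf d k w)) = c
    rw [vec_cf d k w hw, hw2, cf_vec]
  obtain ⟨h, hh⟩ := exists_homotopy (opk d k D) (opk d k (cst ε)) h1 h2 h3 h5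
  have h6 := trace_eq_zero (opk d k D) (opk d k (cst ε)) (opk d k (cst (sgM K o))) h h4 hh
  rw [← opk_mul d k _ _ hεd, ← cst_mul, trace_opk] at h6
  rw [← h6]
  apply Finset.sum_congr rfl
  intro i _
  rw [sgM, Matrix.diagonal_mul]

end Pool.Agent.Lib.MP_745d3a_ag.PB

end

section

namespace Pool.Agent.Lib.MP_745d3a_ag.PB

private lemma HSh_choose (m : ℕ) :
    24 * (m + 4).choose 4 = (m + 1) * (m + 2) * (m + 3) * (m + 4) := by
  have h := Nat.descFactorial_eq_factorial_mul_choose (m + 4) 4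
  have h1 : (m + 4).descFactorial 4 = (m + 1) * (m + 2) * (m + 3) * (m + 4) := by
    simp only [Nat.descFactorial_succ, Nat.descFactorial_zero]
    have e3 : m + 4 - 3 = m + 1 := by omega
    have e2 : m + 4 - 2 = m + 2 := by omega
    have e1 : m + 4 - 1 = m + 3 := by omega
    rw [e3, e2, e1, Nat.sub_zero]
    ring
  have h2 : (4 : ℕ).factorial = 24 := rfl
  rw [h1, h2] at h
  exact h.symm

lemma poly_identity {K : Type*} [Field K] [CharZero K] {ι : Type*} [Fintype ι] (c : ι → K)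
    (d : ι → ℕ) (k0 : ℕ) (hk0 : ∀ i, d i ≤ k0)
    (h : ∀ k, k0 ≤ k → ∑ i, c i * ((k - d i + 4).choose 4 : K) = 0)
    (P : Polynomial K) (hP : P.natDegree ≤ 4) : ∑ i, c i * P.eval (d i : K) = 0 := by
  classical
  let p : ℕ → K := fun j => ∑ i, c i * (d i : K) ^ j
  let F : Polynomial K := Polynomial.C (p 0) * (Polynomial.X ^ 4 + 10 * Polynomial.X ^ 3
      + 35 * Polynomial.X ^ 2 + 50 * Polynomial.X + 24)
    - Polynomial.C (p 1) * (4 * Polynomial.X ^ 3 + 30 * Polynomial.X ^ 2 + 70 * Polynomial.X + 50)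
    + Polynomial.C (p 2) * (6 * Polynomial.X ^ 2 + 30 * Polynomial.X + 35)
    - Polynomial.C (p 3) * (4 * Polynomial.X + 10) + Polynomial.C (p 4)
  have hFe : ∀ y : K, F.eval y = p 0 * (y ^ 4 + 10 * y ^ 3 + 35 * y ^ 2 + 50 * y + 24)
      - p 1 * (4 * y ^ 3 + 30 * y ^ 2 + 70 * y + 50) + p 2 * (6 * y ^ 2 + 30 * y + 35)
      - p 3 * (4 * y + 10) + p 4 := by
    intro y
    simp only [F, Polynomial.eval_add, Polynomial.eval_sub, Polynomial.eval_mul,
      Polynomial.eval_C, Polynomial.eval_pow, Polynomial.eval_X, Polynomial.eval_ofNat]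
  have hsum : ∀ y : K, F.eval y = ∑ i, c i * ((y - d i + 1) * (y - d i + 2) * (y - d i + 3) *
      (y - d i + 4)) := by
    intro y
    rw [hFe]
    simp only [p, Finset.sum_mul]
    rw [← Finset.sum_sub_distrib, ← Finset.sum_add_distrib, ← Finset.sum_sub_distrib,
      ← Finset.sum_add_distrib]
    refine Finset.sum_congr rfl fun i _ => ?_
    ring
  have hroot : ∀ k : ℕ, k0 ≤ k → F.eval (k : K) = 0 := by
    intro k hk
    rw [hsum]
    have h1 := h k hk
    have h2 : ∑ i, c i * (((k : K) - d i + 1) * ((k : K) - d i + 2) * ((k : K) - d i + 3) *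
        ((k : K) - d i + 4)) = 24 * ∑ i, c i * ((k - d i + 4).choose 4 : K) := by
      rw [Finset.mul_sum]
      refine Finset.sum_congr rfl fun i _ => ?_
      have h3 : ((24 * (k - d i + 4).choose 4 : ℕ) : K) =
          (((k - d i + 1) * (k - d i + 2) * (k - d i + 3) * (k - d i + 4) : ℕ) : K) := by
        rw [HSh_choose]
      have h4 : ((k - d i : ℕ) : K) = (k : K) - d i := Nat.cast_sub ((hk0 i).trans hk)
      push_cast [h4] at h3
      linear_combination (- c i) * h3
    rw [h2, h1, mul_zero]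
  have hF0 : F = 0 := by
    refine Polynomial.eq_zero_of_infinite_isRoot F ?_
    refine Set.infinite_of_injective_forall_mem (f := fun n : ℕ => ((k0 + n : ℕ) : K)) ?_ ?_
    · intro a b hab
      have h5 : k0 + a = k0 + b := Nat.cast_injective hab
      omega
    · intro n
      exact hroot (k0 + n) (Nat.le_add_right k0 n)
  have hF : ∀ y : K, p 0 * (y ^ 4 + 10 * y ^ 3 + 35 * y ^ 2 + 50 * y + 24)
      - p 1 * (4 * y ^ 3 + 30 * y ^ 2 + 70 * y + 50) + p 2 * (6 * y ^ 2 + 30 * y + 35)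
      - p 3 * (4 * y + 10) + p 4 = 0 := by
    intro y
    rw [← hFe, hF0, Polynomial.eval_zero]
  have f0 := hF 0
  have f1 := hF 1
  have f2 := hF 2
  have f3 := hF 3
  have f4 := hF 4
  have q0 : p 0 = 0 := by
    linear_combination (1/24 : K) * f0 - (1/6 : K) * f1 + (1/4 : K) * f2 - (1/6 : K) * f3
      + (1/24 : K) * f4
  have q1 : p 1 = 0 := by
    linear_combination (5/24 : K) * f0 - (19/24 : K) * f1 + (9/8 : K) * f2 - (17/24 : K) * f3
      + (1/6 : K) * f4
  have q2 : p 2 = 0 := by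
    linear_combination (25/24 : K) * f0 - (89/24 : K) * f1 + (119/24 : K) * f2
      - (71/24 : K) * f3 + (2/3 : K) * f4
  have q3 : p 3 = 0 := by
    linear_combination (125/24 : K) * f0 - (409/24 : K) * f1 + (171/8 : K) * f2
      - (293/24 : K) * f3 + (8/3 : K) * f4
  have q4 : p 4 = 0 := by
    linear_combination (625/24 : K) * f0 - (1829/24 : K) * f1 + (2171/24 : K) * f2
      - (1199/24 : K) * f3 + (32/3 : K) * f4
  have hq : ∀ j < 5, p j = 0 := by
    intro j hj
    interval_cases j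
    · exact q0
    · exact q1
    · exact q2
    · exact q3
    · exact q4
  have he : ∀ i, c i * P.eval (d i : K) =
      ∑ j ∈ Finset.range 5, P.coeff j * (c i * (d i : K) ^ j) := by
    intro i
    rw [Polynomial.eval_eq_sum_range' (Nat.lt_succ_of_le hP), Finset.mul_sum]
    exact Finset.sum_congr rfl fun j _ => by ring
  rw [Finset.sum_congr rfl fun i _ => he i, Finset.sum_comm]
  refine Finset.sum_eq_zero fun j hj => ?_
  rw [← Finset.mul_sum]
  have h6 : ∑ i, c i * (d i : K) ^ j = 0 := hq j (Finset.mem_range.mp hj)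
  rw [h6, mul_zero]

end Pool.Agent.Lib.MP_745d3a_ag.PB

end

section

open MvPolynomial Matrix

namespace Pool.Agent.Lib.MP_745d3a_ag.PB

variable {K : Type*} [Field K] {ι : Type*}

lemma degZero_cst {o : ι → Bool} {d : ι → ℕ} {ε : Matrix ι ι K} (hε : EvenConst o d ε) :
    DegZero d (cst ε) := by
  intro i j hij
  refine ⟨0, ?_, ?_⟩
  · have := (hε i j (fun h => hij (by simp [h]))).2
    omega
  · simpa using isHomogeneous_C (Fin 5) (ε i j)

theorem HS [IsAlgClosed K] [CharZero K] [Fintype ι] [DecidableEq ι] (o : ι → Bool) (d : ι → ℕ) (D : Matrix ι ι (S K)) (ε : Matrix ι ι K)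
    (hD : DegZero d D) (hDo : Odd' o D) (hε : EvenConst o d ε) (hεε : ε * ε = ε)
    (hDε : D * cst ε = cst ε * D) (hDD : D * D = 0)
    (hs : ∀ v : Fin 5 → K, v ≠ 0 → ∃ s : Matrix ι ι K, (ev v D * s + s * ev v D) * ε = ε)
    (P : Polynomial K) (hP : P.natDegree ≤ 4) :
    ∑ i, sg K (o i) * ε i i * P.eval (d i : K) = 0 := by
  obtain ⟨M, h, hh⟩ := null_homotopic D ε hεε hDε hDD hs
  obtain ⟨k0, hk0, hex⟩ := exact_large d D ε hD (degZero_cst hε) M h hh
  refine poly_identity _ d k0 hk0 (fun k hk => ?_) P hP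
  exact trace_deg o d D ε hD hDo hε hεε hDε hDD k (fun i => (hk0 i).trans hk) (hex k hk)

end Pool.Agent.Lib.MP_745d3a_ag.PB

end
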