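import Mathlib

/-!
The integer solutions.
-/

set_option autoImplicit false

section

namespace Pool.Agent.Lib.MP_745d3a_ag.PB

/-- the hypotheses: numerical relations of a pure monad -/
structure Num (n b₁ b₂ r x y z : ℤ) : Prop where
  hn : 0 ≤ n
  hb₁ : 0 ≤ b₁
  hb₂ : 0 ≤ b₂
  hr : 0 ≤ r
  hz : 0 < z
  hy : z < y
  hx : y < x
  a : b₂ + n = b₁ + 2 * r + 2
  b : n * x + b₂ * z = b₁ * y
  c : n * x ^ 3 + b₂ * z ^ 3 = b₁ * y ^ 3
  d : (n * x ^ 2 - b₁ * y ^ 2 + (b₂ - 2 * r) * z ^ 2) ^ 2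
      = 2 * (n * x ^ 4 - b₁ * y ^ 4 + (b₂ - 2 * r) * z ^ 4)

/-- the solved relations -/
structure Num' (n b₁ b₂ r m x y z : ℤ) : Prop where
  hn : 0 < n
  hr : 0 < r
  hm : 0 < m
  hz : 0 < z
  hy : z < y
  hx : y < x
  mb₁ : m = b₁ - n + 2
  mb₂ : m = b₂ - 2 * r
  i : n * (x ^ 2 - z ^ 2) * (x - y) = 2 * y * (x * y + z ^ 2)
  ii : m * (x ^ 2 - z ^ 2) * (y ^ 2 - z ^ 2) = 2 * x * y * (x + y) ^ 2
  iii : b₂ * z * (x + y) = m * (x * y + z ^ 2)
  v : b₁ * (y ^ 2 - z ^ 2) * (x - y) = 2 * x * (x * y + z ^ 2)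

lemma num_solve {n b₁ b₂ r x y z : ℤ} (h : Num n b₁ b₂ r x y z) :
    Num' n b₁ b₂ r (b₂ - 2 * r) x y z := by
  obtain ⟨hn, hb₁, hb₂, hr, hz, hy, hx, ha, hb, hc, hd⟩ := h
  have hy0 : 0 < y := hz.trans hy
  have hx0 : 0 < x := hy0.trans hx
  have hxy : 0 < x - y := sub_pos.2 hx
  have hyz : 0 < y - z := sub_pos.2 hy
  have hxz : 0 < x - z := by linarith
  have hx2 : 0 < x ^ 2 - z ^ 2 := by
    have : x ^ 2 - z ^ 2 = (x - z) * (x + z) := by ring
    rw [this]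
    exact mul_pos hxz (by linarith)
  have hy2 : 0 < y ^ 2 - z ^ 2 := by
    have : y ^ 2 - z ^ 2 = (y - z) * (y + z) := by ring
    rw [this]
    exact mul_pos hyz (by linarith)
  have hst : b₁ * y * (y ^ 2 - z ^ 2) = n * x * (x ^ 2 - z ^ 2) := by
    linear_combination z ^ 2 * hb - hc
  obtain ⟨m, hm⟩ : ∃ m, m = b₂ - 2 * r := ⟨_, rfl⟩
  rw [← hm] at hd ⊢
  have hm1 : m = b₁ - n + 2 := by linarith
  have hA : y * (n * x ^ 2 - b₁ * y ^ 2 + m * z ^ 2)
      = 2 * y * z ^ 2 - n * (x ^ 2 - z ^ 2) * (x - y) := by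
    rw [hm1]
    linear_combination - hst
  have hB : y * (n * x ^ 4 - b₁ * y ^ 4 + m * z ^ 4)
      = n * (x ^ 2 - z ^ 2) * (x - y) * (x * y - z ^ 2) + 2 * y * z ^ 4 := by
    rw [hm1]
    linear_combination - (y ^ 2 + z ^ 2) * hst
  have hw0 : (n * (x ^ 2 - z ^ 2) * (x - y))
      * (n * (x ^ 2 - z ^ 2) * (x - y) - 2 * y * (x * y + z ^ 2)) = 0 := by
    have h1 : (2 * y * z ^ 2 - n * (x ^ 2 - z ^ 2) * (x - y)) ^ 2
        = 2 * y * (n * (x ^ 2 - z ^ 2) * (x - y) * (x * y - z ^ 2) + 2 * y * z ^ 4) := by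
      rw [← hA, ← hB]
      linear_combination y ^ 2 * hd
    linear_combination h1
  have hnpos : 0 < n := by
    rcases hn.lt_or_eq with h0 | h0
    · exact h0
    · exfalso
      rw [← h0] at hst hb ha
      have h1 : b₁ = 0 := by
        have h2 : b₁ * (y * (y ^ 2 - z ^ 2)) = 0 := by linear_combination hst
        rcases mul_eq_zero.1 h2 with h3 | h3
        · exact h3
        · exact absurd h3 (mul_pos hy0 hy2).ne'
      rw [h1] at hb ha
      have h4 : b₂ = 0 := by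
        have h2 : b₂ * z = 0 := by linear_combination hb
        rcases mul_eq_zero.1 h2 with h3 | h3
        · exact h3
        · exact absurd h3 hz.ne'
      rw [h4] at ha
      linarith
  have hwpos : 0 < n * (x ^ 2 - z ^ 2) * (x - y) := mul_pos (mul_pos hnpos hx2) hxy
  have hi : n * (x ^ 2 - z ^ 2) * (x - y) = 2 * y * (x * y + z ^ 2) := by
    rcases mul_eq_zero.1 hw0 with h1 | h1
    · exact absurd h1 hwpos.ne'
    · linarith
  have hv : b₁ * (y ^ 2 - z ^ 2) * (x - y) = 2 * x * (x * y + z ^ 2) := by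
    have h1 : y * (b₁ * (y ^ 2 - z ^ 2) * (x - y)) = y * (2 * x * (x * y + z ^ 2)) := by
      linear_combination (x - y) * hst + x * hi
    exact mul_left_cancel₀ hy0.ne' h1
  have hii : m * (x ^ 2 - z ^ 2) * (y ^ 2 - z ^ 2) = 2 * x * y * (x + y) ^ 2 := by
    have h1 : (x - y) * (m * (x ^ 2 - z ^ 2) * (y ^ 2 - z ^ 2))
        = (x - y) * (2 * x * y * (x + y) ^ 2) := by
      rw [hm1]
      linear_combination (x ^ 2 - z ^ 2) * hv - (y ^ 2 - z ^ 2) * hi
    exact mul_left_cancel₀ hxy.ne' h1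
  have hiii : b₂ * z * (x + y) = m * (x * y + z ^ 2) := by
    have h0 : b₂ * z * (y ^ 2 - z ^ 2) = n * x * (x ^ 2 - y ^ 2) := by
      linear_combination y ^ 2 * hb - hc
    have h1 : (x ^ 2 - z ^ 2) * (y ^ 2 - z ^ 2) * (b₂ * z * (x + y))
        = (x ^ 2 - z ^ 2) * (y ^ 2 - z ^ 2) * (m * (x * y + z ^ 2)) := by
      linear_combination (x ^ 2 - z ^ 2) * (x + y) * h0 + x * (x + y) ^ 2 * hi
        - (x * y + z ^ 2) * hii
    exact mul_left_cancel₀ (mul_pos hx2 hy2).ne' h1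
  have hmpos : 0 < m := by
    have h1 : 0 < m * ((x ^ 2 - z ^ 2) * (y ^ 2 - z ^ 2)) := by
      rw [← mul_assoc, hii]
      positivity
    exact pos_of_mul_pos_left h1 (mul_pos hx2 hy2).le
  have hrpos : 0 < r := by
    have h1 : 2 * r * z * (x + y) = m * ((x - z) * (y - z)) := by
      have h2 : 2 * r = b₂ - m := by linarith
      rw [h2]
      linear_combination hiii
    have h3 : 0 < r * (2 * z * (x + y)) := by
      have h4 : r * (2 * z * (x + y)) = m * ((x - z) * (y - z)) := by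
        rw [← h1]; ring
      rw [h4]
      exact mul_pos hmpos (mul_pos hxz hyz)
    exact pos_of_mul_pos_left h3 (by positivity)
  exact ⟨hnpos, hrpos, hmpos, hz, hy, hx, hm1, hm, hi, hii, hiii, hv⟩

end Pool.Agent.Lib.MP_745d3a_ag.PB

end

section

namespace Pool.Agent.Lib.MP_745d3a_ag.PB

/-- the quantity `G` -/
def Gq (m b : ℤ) : ℤ := m * (b ^ 2 - m ^ 2 + 2 * m) ^ 2 - 8 * b ^ 2 * (b ^ 2 - m ^ 2)

namespace Num'

variable {n b₁ b₂ r m x y z : ℤ} (h : Num' n b₁ b₂ r m x y z)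

include h

lemma vi : 2 * m * (x * y) = (b₂ ^ 2 - m ^ 2) * z ^ 2 := by
  have hz := h.hz
  have hy := h.hy
  have hx := h.hx
  have hxy : (x + y) ^ 2 ≠ 0 := by
    have : 0 < x + y := by linarith
    positivity
  have key : (x + y) ^ 2 * (2 * m * (x * y)) = (x + y) ^ 2 * ((b₂ ^ 2 - m ^ 2) * z ^ 2) := by
    linear_combination (-m) * h.ii - (b₂ * z * (x + y) + m * (x * y + z ^ 2)) * h.iii
  exact mul_left_cancel₀ hxy key

lemma vii : 2 * b₂ * (x + y) = (b₂ ^ 2 - m ^ 2 + 2 * m) * z := by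
  have hvi := h.vi
  have key : z * (2 * b₂ * (x + y)) = z * ((b₂ ^ 2 - m ^ 2 + 2 * m) * z) := by
    linear_combination 2 * h.iii + hvi
  exact mul_left_cancel₀ h.hz.ne' key

lemma viii : (2 * b₂ * m * (x - y)) ^ 2 = m * Gq m b₂ * z ^ 2 := by
  have hvi := h.vi
  have hvii := h.vii
  unfold Gq
  linear_combination (m ^ 2 * (2 * b₂ * (x + y) + (b₂ ^ 2 - m ^ 2 + 2 * m) * z)) * hvii
    - 8 * b₂ ^ 2 * m * hvi

lemma ix : n * b₁ * Gq m b₂ = 8 * b₂ ^ 4 := by
  have hz := h.hz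
  have hy := h.hy
  have hx := h.hx
  have hm := h.hm
  have hy0 : 0 < y := by linarith
  have hx0 : 0 < x := by linarith
  have hviii := h.viii
  have h1 : (2 * (x * y) * (x + y) ^ 2) * (m * n * b₁ * (x - y) ^ 2)
      = (2 * (x * y) * (x + y) ^ 2) * (2 * b₂ ^ 2 * z ^ 2) := by
    linear_combination (-m * n * b₁ * (x - y) ^ 2) * h.ii
      + m ^ 2 * (b₁ * (y ^ 2 - z ^ 2) * (x - y)) * h.i
      + m ^ 2 * (2 * y * (x * y + z ^ 2)) * h.v
      - 4 * x * y * (b₂ * z * (x + y) + m * (x * y + z ^ 2)) * h.iii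
  have h0 : (2 * (x * y) * (x + y) ^ 2) ≠ 0 := by positivity
  have h2 : m * n * b₁ * (x - y) ^ 2 = 2 * b₂ ^ 2 * z ^ 2 := mul_left_cancel₀ h0 h1
  have h3 : (m ^ 2 * z ^ 2) * (n * b₁ * Gq m b₂) = (m ^ 2 * z ^ 2) * (8 * b₂ ^ 4) := by
    linear_combination (-n * b₁ * m) * hviii + 4 * b₂ ^ 2 * m ^ 2 * h2
  have h4 : (m ^ 2 * z ^ 2) ≠ 0 := by positivity
  exact mul_left_cancel₀ h4 h3

lemma delta : 2 * m < b₂ ^ 2 - m ^ 2 := by
  have hz := h.hz
  have hy := h.hy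
  have hx := h.hx
  have hm := h.hm
  have hvi := h.vi
  have hxy : z ^ 2 < x * y := by nlinarith
  have h1 : 2 * m * z ^ 2 < (b₂ ^ 2 - m ^ 2) * z ^ 2 := by
    rw [← hvi]
    exact mul_lt_mul_of_pos_left hxy (by linarith)
  exact lt_of_mul_lt_mul_right h1 (by positivity)

lemma Nu2_b_pos : 0 < b₂ := by
  have h1 := h.mb₂
  have h2 := h.hm
  have h3 := h.hr
  linarith

lemma Nu2_mG_pos : 0 < m * Gq m b₂ := by
  have hz := h.hz
  have hx := h.hx
  have hm := h.hm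
  have hb := h.Nu2_b_pos
  have hxy : 0 < x - y := by linarith
  have h1 : 0 < m * Gq m b₂ * z ^ 2 := by
    rw [← h.viii]
    positivity
  exact pos_of_mul_pos_left h1 (by positivity)

lemma m9 : 9 ≤ m := by
  have hm := h.hm
  have hd := h.delta
  have hG : 0 < Gq m b₂ := pos_of_mul_pos_right h.Nu2_mG_pos hm.le
  by_contra hlt
  have hm8 : m ≤ 8 := by omega
  have e : Gq m b₂ = (m - 8) * (b₂ ^ 2 - m ^ 2) ^ 2
      - 4 * m ^ 2 * ((b₂ ^ 2 - m ^ 2) - m) := by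
    unfold Gq; ring
  have h1 : (m - 8) * (b₂ ^ 2 - m ^ 2) ^ 2 ≤ 0 :=
    mul_nonpos_of_nonpos_of_nonneg (by linarith) (by positivity)
  have h2 : 0 < 4 * m ^ 2 * ((b₂ ^ 2 - m ^ 2) - m) :=
    mul_pos (by positivity) (by linarith)
  linarith

lemma ineq (hn : 2 ≤ n) : b₂ ^ 2 * (m ^ 2 - 8 * m - 4) ≤ m ^ 2 * (m - 2) ^ 2 := by
  have hz := h.hz
  have hy := h.hy
  have hx := h.hx
  have hm := h.hm
  have hd := h.delta
  have hy0 : 0 < y := by linarith
  have hx0 : 0 < x := by linarith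
  have hviii := h.viii
  have e1 : (n - 2) * ((x - y) * (x ^ 2 - z ^ 2)) = 2 * x * (x * y + y ^ 2 - x ^ 2 + z ^ 2) := by
    linear_combination h.i
  have hxz : 0 < x ^ 2 - z ^ 2 := by nlinarith
  have t1 : 0 ≤ x * y + y ^ 2 - x ^ 2 + z ^ 2 := by
    have h1 : 0 ≤ 2 * x * (x * y + y ^ 2 - x ^ 2 + z ^ 2) := by
      rw [← e1]
      exact mul_nonneg (by linarith) (mul_nonneg (by linarith) hxz.le)
    exact nonneg_of_mul_nonneg_right h1 (by linarith)
  have t2 : 0 ≤ x ^ 2 + x * y - y ^ 2 + z ^ 2 := by nlinarith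
  have e2 : ((x + y) ^ 2 * z ^ 2) * ((m ^ 2 * (m - 2) ^ 2 - b₂ ^ 2 * (m ^ 2 - 8 * m - 4))
        * (b₂ ^ 2 - m ^ 2))
      = 4 * m ^ 2 * b₂ ^ 2 * ((x * y + y ^ 2 - x ^ 2 + z ^ 2)
        * (x ^ 2 + x * y - y ^ 2 + z ^ 2)) := by
    have e3 : (m ^ 2 * (m - 2) ^ 2 - b₂ ^ 2 * (m ^ 2 - 8 * m - 4)) * (b₂ ^ 2 - m ^ 2)
        = 4 * b₂ ^ 4 - m * Gq m b₂ := by unfold Gq; ring
    rw [e3]
    linear_combination (x + y) ^ 2 * hviii
      + 4 * b₂ ^ 2 * (b₂ * z * (x + y) + m * (x * y + z ^ 2)) * h.iii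
  have h3 : 0 ≤ ((x + y) ^ 2 * z ^ 2) * ((m ^ 2 * (m - 2) ^ 2 - b₂ ^ 2 * (m ^ 2 - 8 * m - 4))
        * (b₂ ^ 2 - m ^ 2)) := by
    rw [e2]
    exact mul_nonneg (by positivity) (mul_nonneg t1 t2)
  have h4 : 0 ≤ (m ^ 2 * (m - 2) ^ 2 - b₂ ^ 2 * (m ^ 2 - 8 * m - 4)) * (b₂ ^ 2 - m ^ 2) :=
    nonneg_of_mul_nonneg_right h3 (by positivity)
  have h5 : 0 ≤ m ^ 2 * (m - 2) ^ 2 - b₂ ^ 2 * (m ^ 2 - 8 * m - 4) :=
    nonneg_of_mul_nonneg_left h4 (by linarith)
  linarith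

lemma sq : ∃ k : ℤ, 0 < k ∧ m * Gq m b₂ = k ^ 2 := by
  have hz := h.hz
  have hx := h.hx
  have hm := h.hm
  have hb := h.Nu2_b_pos
  have hviii := h.viii
  have h1 : z ^ 2 ∣ (2 * b₂ * m * (x - y)) ^ 2 := by
    rw [hviii]
    exact Dvd.intro_left _ rfl
  obtain ⟨k, hk⟩ := (Int.pow_dvd_pow_iff two_ne_zero).1 h1
  refine ⟨k, ?_, ?_⟩
  · have h2 : 0 < z * k := by
      rw [← hk]
      have : 0 < x - y := by linarith
      positivity
    exact pos_of_mul_pos_right h2 hz.le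
  · rw [hk] at hviii
    have h3 : z ^ 2 * (m * Gq m b₂) = z ^ 2 * k ^ 2 := by linear_combination -hviii
    exact mul_left_cancel₀ (by positivity) h3

end Num'

end Pool.Agent.Lib.MP_745d3a_ag.PB

end

section

namespace Pool.Agent.Lib.MP_745d3a_ag.PB

/-- Newton iteration for the integer square root of `q`, from an upper bound `x` -/
def Nu3_rt (q : ℕ) : ℕ → ℕ → ℕ
  | 0, x => x
  | f + 1, x => bif Nat.blt ((x + q / x) / 2) x then Nu3_rt q f ((x + q / x) / 2) else x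

/-- the quantity `Q` -/
def Nu3_Q (m : ℕ) : ℕ := m ^ 4 - (28 * m ^ 3 + 60 * m ^ 2 + 32 * m)

/-- the check at one `m` -/
def Nu3_chk (m : ℕ) : Bool :=
  Nat.ble (m ^ 4) (28 * m ^ 3 + 60 * m ^ 2 + 32 * m) ||
    (Nat.blt (Nu3_rt (Nu3_Q m) 40 (m ^ 2) ^ 2) (Nu3_Q m) &&
      Nat.blt (Nu3_Q m) ((Nu3_rt (Nu3_Q m) 40 (m ^ 2) + 1) ^ 2))

/-- the check for all `m` in an initial interval -/
def Nu3_all : ℕ → Bool
  | 0 => true
  | n + 1 => Nu3_chk n && Nu3_all n

private lemma Nu3_all_spec : ∀ n, Nu3_all n = true → ∀ m < n, Nu3_chk m = true := by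
  intro n
  induction n with
  | zero => intro _ m hm; omega
  | succ n ih =>
    intro h m hm
    simp only [Nu3_all, Bool.and_eq_true] at h
    rcases Nat.lt_succ_iff_lt_or_eq.mp hm with h1 | h1
    · exact ih h.2 m h1
    · rw [h1]; exact h.1

set_option maxRecDepth 100000 in
private lemma Nu3_all_true : Nu3_all 1827 = true := by
  decide +kernel

private lemma Nu3_nosq (m : ℕ) (hm : m < 1827) (j : ℕ)
    (h : j ^ 2 + (28 * m ^ 3 + 60 * m ^ 2 + 32 * m) = m ^ 4) (hj : 0 < j) : False := by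
  have h1 := Nu3_all_spec _ Nu3_all_true m hm
  have hq : Nu3_Q m = j ^ 2 := by unfold Nu3_Q; omega
  have hj2 : 0 < j ^ 2 := by positivity
  simp only [Nu3_chk, hq, Bool.or_eq_true, Bool.and_eq_true, Nat.ble_eq, Nat.blt_eq] at h1
  rcases h1 with h1 | ⟨h1, h2⟩
  · omega
  · have h3 := lt_of_pow_lt_pow_left₀ 2 (Nat.zero_le _) h1
    have h4 := lt_of_pow_lt_pow_left₀ 2 (Nat.zero_le _) h2
    omega

lemma no_r_one {m k : ℤ} (hm : 9 ≤ m) (hk : 0 < k) (h : m * Gq m (m + 2) = k ^ 2) : False := by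
  unfold Gq at h
  have h4 : k ^ 2 = 4 * (m ^ 4 - 28 * m ^ 3 - 60 * m ^ 2 - 32 * m) := by
    rw [← h]; ring
  have h2 : (2 : ℤ) ^ 2 ∣ k ^ 2 := ⟨m ^ 4 - 28 * m ^ 3 - 60 * m ^ 2 - 32 * m, by rw [h4]; norm_num⟩
  rw [Int.pow_dvd_pow_iff (by norm_num)] at h2
  obtain ⟨j, rfl⟩ := h2
  have hj : 0 < j := by omega
  have hQ : j ^ 2 = m ^ 4 - 28 * m ^ 3 - 60 * m ^ 2 - 32 * m := by
    have : 4 * j ^ 2 = 4 * (m ^ 4 - 28 * m ^ 3 - 60 * m ^ 2 - 32 * m) := by
      rw [← h4]; ring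
    linarith
  by_cases hs : m < 1827
  · obtain ⟨M, rfl⟩ : ∃ M : ℕ, m = M := ⟨m.toNat, by omega⟩
    obtain ⟨J, rfl⟩ : ∃ J : ℕ, j = J := ⟨j.toNat, by omega⟩
    have hM : M < 1827 := by exact_mod_cast hs
    have hJ : 0 < J := by exact_mod_cast hj
    refine Nu3_nosq M hM J ?_ hJ
    have h5 : (((J ^ 2 + (28 * M ^ 3 + 60 * M ^ 2 + 32 * M) : ℕ)) : ℤ) = ((M ^ 4 : ℕ) : ℤ) := by
      push_cast
      linarith
    exact_mod_cast h5
  · push Not at hs
    have h5 : j < m ^ 2 - 14 * m - 128 := by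
      apply lt_of_pow_lt_pow_left₀ 2 (by nlinarith)
      rw [hQ]
      have : (m ^ 2 - 14 * m - 128) ^ 2
        = (m ^ 4 - 28 * m ^ 3 - 60 * m ^ 2 - 32 * m) + (3616 * m + 16384) := by ring
      linarith
    have h6 : m ^ 2 - 14 * m - 129 < j := by
      apply lt_of_pow_lt_pow_left₀ 2 hj.le
      rw [hQ]
      have : (m ^ 2 - 14 * m - 129) ^ 2
        = (m ^ 4 - 28 * m ^ 3 - 60 * m ^ 2 - 32 * m) - (2 * m ^ 2 - 3644 * m - 16641) := by ring
      nlinarith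
    omega

end Pool.Agent.Lib.MP_745d3a_ag.PB

end

section

namespace Pool.Agent.Lib.MP_745d3a_ag.PB

private lemma Nu4_small : ∀ m < 50, 10 ≤ m → ∀ k < 70, k * k ≠ 2 * m * (m - 1) := by
  decide +kernel

private lemma Nu4_small' {m k : ℤ} (h1 : 10 ≤ m) (h2 : m ≤ 49) (h : k ^ 2 = 2 * m * (m - 1)) :
    False := by
  obtain ⟨M, rfl⟩ : ∃ M : ℕ, m = M := ⟨m.toNat, by omega⟩
  have hk : k.natAbs * k.natAbs = 2 * M * (M - 1) := by
    have h3 : ((k.natAbs * k.natAbs : ℕ) : ℤ) = ((2 * M * (M - 1) : ℕ) : ℤ) := by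
      rw [Nat.cast_mul, Int.natAbs_mul_self']
      rw [Nat.cast_mul, Nat.cast_sub (by omega)]
      push_cast
      linarith
    exact_mod_cast h3
  have hk2 : k.natAbs < 70 := by
    by_contra hc
    push Not at hc
    have h4 : 70 * 70 ≤ k.natAbs * k.natAbs := Nat.mul_le_mul hc hc
    have h5 : M ≤ 49 := by omega
    have h6 : 2 * M * (M - 1) ≤ 2 * 49 * 48 := Nat.mul_le_mul (by omega) (by omega)
    omega
  exact Nu4_small M (by omega) (by omega) k.natAbs hk2 hk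

lemma no_n_one {m b : ℤ} (hm : 9 ≤ m) (hδ : 2 * m < b ^ 2 - m ^ 2)
    (h : (m - 1) * Gq m b = 8 * b ^ 4) : False := by
  unfold Gq at h
  obtain ⟨β, hβ⟩ : ∃ β : ℤ, β = b ^ 2 := ⟨_, rfl⟩
  have h1 : m * ((m - 9) * β ^ 2 - 2 * m * (m - 1) * (m - 6) * β + m ^ 2 * (m - 1) * (m - 2) ^ 2)
      = 0 := by
    rw [hβ]; linear_combination h
  have hm0 : m ≠ 0 := by omega
  have h2 : (m - 9) * β ^ 2 - 2 * m * (m - 1) * (m - 6) * β + m ^ 2 * (m - 1) * (m - 2) ^ 2
      = 0 := by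
    rcases mul_eq_zero.mp h1 with h' | h'
    · exact absurd h' hm0
    · exact h'
  have hD : ((m - 9) * β - m * (m - 1) * (m - 6)) ^ 2 = (2 * m) ^ 2 * (2 * m * (m - 1)) := by
    linear_combination (m - 9) * h2
  rcases eq_or_lt_of_le hm with h9 | h9
  · subst h9
    norm_num at h2
    omega
  have h10 : 10 ≤ m := by omega
  have hdvd : (2 * m) ^ 2 ∣ ((m - 9) * β - m * (m - 1) * (m - 6)) ^ 2 := ⟨_, hD⟩
  rw [Int.pow_dvd_pow_iff (by norm_num)] at hdvd
  obtain ⟨k, hk⟩ := hdvd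
  have hk2 : k ^ 2 = 2 * m * (m - 1) := by
    have h3 : (2 * m) ^ 2 * k ^ 2 = (2 * m) ^ 2 * (2 * m * (m - 1)) := by
      rw [← hD, hk]; ring
    exact mul_left_cancel₀ (by positivity) h3
  by_cases h49 : m ≤ 49
  · exact Nu4_small' h10 h49 hk2
  have h50 : 50 ≤ m := by omega
  have hβ2 : 2 * m < β - m ^ 2 := by rw [hβ]; exact hδ
  rcases le_or_gt k 0 with hk0 | hk0
  · -- k ≤ 0
    have hk12 : k ≤ -12 := by
      by_contra hc
      push Not at hc
      have e1 : 0 ≤ (k + 12) * (-k) := mul_nonneg (by omega) (by omega)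
      have e2 : 0 ≤ (m - 50) * (m + 49) := mul_nonneg (by omega) (by omega)
      linarith only [e1, e2, hk2, hc, hk0, h50]
    have h5 : (m - 9) * β ≤ (m - 9) * (m ^ 2 + 2 * m) := by
      have e3 : 0 ≤ m * (-(k + 12)) := mul_nonneg (by omega) (by omega)
      linarith only [e3, hk]
    have h6 : β ≤ m ^ 2 + 2 * m := le_of_mul_le_mul_left h5 (by omega)
    omega
  · have hkm : m ≤ k := by
      by_contra hc
      push Not at hc
      have e1 : 0 ≤ (m - k) * k := mul_nonneg (by omega) (by omega)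
      have e2 : 0 ≤ (m - k) * m := mul_nonneg (by omega) (by omega)
      have e3 : 0 ≤ m * (m - 3) := mul_nonneg (by omega) (by omega)
      linarith only [e1, e2, e3, hk2, h50]
    have h5 : (m - 9) * (m + 2) ^ 2 < (m - 9) * β := by
      have e1 : 0 ≤ m * (k - m) := mul_nonneg (by omega) (by omega)
      linarith only [e1, hk, h50]
    have h6 : (m + 2) ^ 2 < β := lt_of_mul_lt_mul_left h5 (by omega)
    have h7 : 2 * m * k < 4 * m ^ 2 - 51 * m - 81 := by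
      have h8 : 0 ≤ 4 * m ^ 2 - 51 * m - 81 := by
        have e1 : 0 ≤ m * (m - 50) := mul_nonneg (by omega) (by omega)
        linarith only [e1, h50]
      have h9' : (2 * m * k) ^ 2 < (4 * m ^ 2 - 51 * m - 81) ^ 2 := by
        have h10' : (2 * m * k) ^ 2 = 8 * m ^ 3 * (m - 1) := by
          linear_combination (2 * m) ^ 2 * hk2
        rw [h10']
        obtain ⟨t, ht⟩ : ∃ t : ℤ, m = 50 + t := ⟨m - 50, by ring⟩
        have ht0 : 0 ≤ t := by omega
        subst ht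
        have e : (4 * (50 + t) ^ 2 - 51 * (50 + t) - 81) ^ 2 - 8 * (50 + t) ^ 3 * (50 + t - 1)
            = 8 * t ^ 4 + 1200 * t ^ 3 + 61953 * t ^ 2 + 1203562 * t + 5302161 := by ring
        linarith only [pow_nonneg ht0 2, pow_nonneg ht0 3, pow_nonneg ht0 4, e, ht0]
      exact lt_of_pow_lt_pow_left₀ 2 h8 h9'
    have h8 : (m - 9) * β < (m - 9) * (m + 3) ^ 2 := by
      linarith only [h7, hk]
    have h9' : β < (m + 3) ^ 2 := lt_of_mul_lt_mul_left h8 (by omega)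
    have h10' : m + 2 < |b| := by
      apply lt_of_pow_lt_pow_left₀ 2 (abs_nonneg b)
      rw [sq_abs, ← hβ]; exact h6
    have h11 : |b| < m + 3 := by
      apply lt_of_pow_lt_pow_left₀ 2 (by omega)
      rw [sq_abs, ← hβ]; exact h9'
    omega

end Pool.Agent.Lib.MP_745d3a_ag.PB

end

section

namespace Pool.Agent.Lib.MP_745d3a_ag.PB

private lemma Nu5_nosq {k N s : ℤ} (hk : 0 < k) (h : N = k ^ 2) (hs : 0 ≤ s) (h1 : s ^ 2 < N)
    (h2 : N < (s + 1) ^ 2) : False := by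
  have h3 : s < k := by nlinarith
  have h4 : k < s + 1 := by nlinarith
  omega

lemma m_pairs {m b r k : ℤ} (hm : 9 ≤ m) (hr : 2 ≤ r) (hb : m = b - 2 * r) (hk : 0 < k)
    (h : m * Gq m b = k ^ 2) (hi : b ^ 2 * (m ^ 2 - 8 * m - 4) ≤ m ^ 2 * (m - 2) ^ 2) :
    (m = 10 ∧ b = 20) ∨ (m = 9 ∧ b = 21) := by
  have hb' : b = m + 2 * r := by linarith
  subst hb'
  clear hb
  have hm16 : m ≤ 16 := by
    by_contra hc
    have hc' : 17 ≤ m := by omega
    have hpos : 0 ≤ m ^ 2 - 8 * m - 4 := by nlinarith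
    have h1 : (m + 4) ^ 2 ≤ (m + 2 * r) ^ 2 := by nlinarith
    have h2 : (m + 4) ^ 2 * (m ^ 2 - 8 * m - 4) ≤ m ^ 2 * (m - 2) ^ 2 :=
      le_trans (mul_le_mul_of_nonneg_right h1 hpos) hi
    have h3 : 0 ≤ (m - 17) * (m ^ 2 + 3 * m + 11) := by
      apply mul_nonneg <;> nlinarith
    nlinarith
  interval_cases m
  · -- m = 9
    have hr' : r ≤ 9 := by nlinarith
    interval_cases r
    · exfalso; norm_num [Gq] at h; nlinarith [sq_nonneg k]
    · exfalso; norm_num [Gq] at h; nlinarith [sq_nonneg k]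
    · exfalso; norm_num [Gq] at h; nlinarith [sq_nonneg k]
    · exfalso; norm_num [Gq] at h; nlinarith [sq_nonneg k]
    · norm_num
    · exfalso; norm_num [Gq] at h; exact Nu5_nosq (s := 725) hk h (by norm_num) (by norm_num) (by norm_num)
    · exfalso; norm_num [Gq] at h; exact Nu5_nosq (s := 1050) hk h (by norm_num) (by norm_num) (by norm_num)
    · exfalso; norm_num [Gq] at h; exact Nu5_nosq (s := 1384) hk h (by norm_num) (by norm_num) (by norm_num)
  · -- m = 10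
    have hr' : r ≤ 5 := by nlinarith
    interval_cases r
    · exfalso; norm_num [Gq] at h; nlinarith [sq_nonneg k]
    · exfalso; norm_num [Gq] at h; nlinarith [sq_nonneg k]
    · exfalso; norm_num [Gq] at h; exact Nu5_nosq (s := 384) hk h (by norm_num) (by norm_num) (by norm_num)
    · norm_num
  · -- m = 11
    have hr' : r ≤ 3 := by nlinarith
    interval_cases r
    · exfalso; norm_num [Gq] at h; nlinarith [sq_nonneg k]
    · exfalso; norm_num [Gq] at h; exact Nu5_nosq (s := 309) hk h (by norm_num) (by norm_num) (by norm_num)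
  · -- m = 12
    have hr' : r ≤ 3 := by nlinarith
    interval_cases r
    · exfalso; norm_num [Gq] at h; nlinarith [sq_nonneg k]
    · exfalso; norm_num [Gq] at h; exact Nu5_nosq (s := 627) hk h (by norm_num) (by norm_num) (by norm_num)
  · -- m = 13
    have hr' : r ≤ 2 := by nlinarith
    interval_cases r
    · exfalso; norm_num [Gq] at h; nlinarith [sq_nonneg k]
  · -- m = 14
    have hr' : r ≤ 2 := by nlinarith
    interval_cases r
    · exfalso; norm_num [Gq] at h; exact Nu5_nosq (s := 353) hk h (by norm_num) (by norm_num) (by norm_num)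
  · -- m = 15
    have hr' : r ≤ 2 := by nlinarith
    interval_cases r
    · exfalso; norm_num [Gq] at h; exact Nu5_nosq (s := 555) hk h (by norm_num) (by norm_num) (by norm_num)
  · -- m = 16
    have hr' : r ≤ 2 := by nlinarith
    interval_cases r
    · exfalso; norm_num [Gq] at h; exact Nu5_nosq (s := 746) hk h (by norm_num) (by norm_num) (by norm_num)

lemma num_main {n b₁ b₂ r x y z : ℤ} (h : Num n b₁ b₂ r x y z) :
    (n = 2 ∧ b₁ = 10 ∧ b₂ = 20 ∧ r = 5 ∧ x = 5 * z ∧ y = 3 * z) ∨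
    (n = 7 ∧ b₁ = 14 ∧ b₂ = 21 ∧ r = 6 ∧ x = 5 * z ∧ y = 4 * z) := by
  have h' := num_solve h
  obtain ⟨k, hk, hk2⟩ := h'.sq
  have hm9 := h'.m9
  have hδ := h'.delta
  have hn := h'.hn
  have hr := h'.hr
  have hix := h'.ix
  have hmb₁ := h'.mb₁
  have hr2 : 2 ≤ r := by
    by_contra hc
    have hr1 : r = 1 := by omega
    subst hr1
    have e : b₂ = (b₂ - 2 * 1) + 2 := by ring
    refine no_r_one hm9 hk (?_ : (b₂ - 2 * 1) * Gq (b₂ - 2 * 1) ((b₂ - 2 * 1) + 2) = k ^ 2)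
    rw [← e]
    exact hk2
  have hn2 : 2 ≤ n := by
    by_contra hc
    have hn1 : n = 1 := by omega
    subst hn1
    have e : b₁ = (b₂ - 2 * r) - 1 := by linarith
    refine no_n_one hm9 hδ ?_
    rw [← e]
    linarith
  have hin := h'.ineq hn2
  have hz := h'.hz
  have hy := h'.hy
  have hx := h'.hx
  have hvi := h'.vi
  have hvii := h'.vii
  rcases m_pairs hm9 hr2 rfl hk hk2 hin with ⟨e1, e2⟩ | ⟨e1, e2⟩
  · left
    have er : r = 5 := by linarith
    rw [e1] at hmb₁ hix hvi hvii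
    subst e2 er
    have eb : b₁ = n + 8 := by linarith
    subst eb
    norm_num [Gq] at hix hvi hvii
    have e3 : n = 2 := by nlinarith
    subst e3
    have e4 : x + y = 8 * z := by linarith
    have e5 : x * y = 15 * z ^ 2 := by linarith
    have e6 : (x - 3 * z) * (x - 5 * z) = 0 := by
      have : y = 8 * z - x := by linarith
      subst this
      linarith
    rcases mul_eq_zero.1 e6 with e7 | e7
    · exfalso
      linarith
    · refine ⟨rfl, by norm_num, rfl, rfl, by linarith, by linarith⟩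
  · right
    have er : r = 6 := by linarith
    rw [e1] at hmb₁ hix hvi hvii
    subst e2 er
    have eb : b₁ = n + 7 := by linarith
    subst eb
    norm_num [Gq] at hix hvi hvii
    have e3 : n = 7 := by nlinarith
    subst e3
    have e4 : x + y = 9 * z := by linarith
    have e5 : x * y = 20 * z ^ 2 := by linarith
    have e6 : (x - 4 * z) * (x - 5 * z) = 0 := by
      have : y = 9 * z - x := by linarith
      subst this
      linarith
    rcases mul_eq_zero.1 e6 with e7 | e7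
    · exfalso
      linarith
    · refine ⟨rfl, by norm_num, rfl, rfl, by linarith, by linarith⟩

end Pool.Agent.Lib.MP_745d3a_ag.PB

end
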