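import Pool.Agent.Lib.MP_745d3a_ag.PB.Acyc

/-!
Koszul matrices and the monad over the base.
-/

set_option autoImplicit false

section

open MvPolynomial Matrix

namespace Pool.Agent.Lib.MP_745d3a_ag.PB

variable {K : Type*} [Field K]

lemma lin_mul_cst {l m n : Type*} [Fintype m] (f : Fin 5 → S K) (A : Fin 5 → Matrix l m K)
    (B : Matrix m n K) : lin f A * cst B = lin f (fun i => A i * B) := by
  simp only [lin, Matrix.sum_mul, Matrix.smul_mul, cst_mul]

lemma cst_mul_lin {l m n : Type*} [Fintype m] (f : Fin 5 → S K) (B : Matrix l m K)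
    (A : Fin 5 → Matrix m n K) : cst B * lin f A = lin f (fun i => B * A i) := by
  simp only [lin, Matrix.mul_sum, Matrix.mul_smul, cst_mul]

lemma Ba1_lin_mul_lin {l m n : Type*} [Fintype m] (f : Fin 5 → S K) (A : Fin 5 → Matrix l m K)
    (B : Fin 5 → Matrix m n K) :
    lin f A * lin f B = ∑ i, ∑ j, (f i * f j) • (cst (A i * B j) : Matrix l n (S K)) := by
  rw [lin, lin, Matrix.sum_mul]
  refine Finset.sum_congr rfl fun i _ => ?_
  rw [Matrix.mul_sum]
  refine Finset.sum_congr rfl fun j _ => ?_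
  rw [Matrix.smul_mul, Matrix.mul_smul, smul_smul, cst_mul]

lemma Ba1_lin_mul_lin_zero [CharZero K] {l m n : Type*} [Fintype m] (f : Fin 5 → S K)
    (A : Fin 5 → Matrix l m K) (B : Fin 5 → Matrix m n K)
    (h : ∀ i j, A i * B j = -(A j * B i)) : lin f A * lin f B = 0 := by
  have h1 : lin f A * lin f B = -(lin f A * lin f B) := by
    conv_lhs => rw [Ba1_lin_mul_lin, Finset.sum_comm]
    rw [Ba1_lin_mul_lin, ← Finset.sum_neg_distrib]
    refine Finset.sum_congr rfl fun i _ => ?_
    rw [← Finset.sum_neg_distrib]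
    refine Finset.sum_congr rfl fun j _ => ?_
    rw [h j i, cst_neg, smul_neg, mul_comm]
  ext1 x y
  have h2 := congrFun (congrFun h1 x) y
  rw [Matrix.neg_apply] at h2
  have h3 : (2 : S K) * (lin f A * lin f B) x y = 0 := by
    rw [two_mul]
    nth_rewrite 1 [h2]
    ring
  rcases mul_eq_zero.mp h3 with h4 | h4
  · exact absurd h4 two_ne_zero
  · exact h4

/-- coefficients of the first Koszul map -/
def Ba1_k1 (K : Type*) [Field K] (i : Fin 5) : Matrix (Fin 2) (Fin 2 × Fin 5) K :=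
  fun a y => if a = y.1 ∧ i = y.2 then 1 else 0

lemma Ba1_kk1 (f : Fin 5 → S K) : kk1 f = lin f (Ba1_k1 K) := by
  ext1 a y
  simp only [kk1, lin, Matrix.sum_apply, Matrix.smul_apply, cst_apply, smul_eq_mul, Ba1_k1]
  by_cases h : a = y.1
  · rw [if_pos h, Finset.sum_eq_single y.2]
    · simp [h]
    · intro b _ hb
      simp [hb]
    · intro h'
      exact absurd (Finset.mem_univ _) h'
  · simp [h]

lemma Ba1_k2_anti (i a : Fin 5) (t : Fin 10) : k2 i a t = -k2 a i t := by
  have h1 : (if i = (pr t).2 ∧ a = (pr t).1 then (1 : ℤ) else 0)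
      = if a = (pr t).1 ∧ i = (pr t).2 then 1 else 0 := if_congr and_comm rfl rfl
  have h2 : (if i = (pr t).1 ∧ a = (pr t).2 then (1 : ℤ) else 0)
      = if a = (pr t).2 ∧ i = (pr t).1 then 1 else 0 := if_congr and_comm rfl rfl
  change (if i = (pr t).2 ∧ a = (pr t).1 then (1 : ℤ) else 0)
      - (if i = (pr t).1 ∧ a = (pr t).2 then (1 : ℤ) else 0)
    = -((if a = (pr t).2 ∧ i = (pr t).1 then (1 : ℤ) else 0)
      - (if a = (pr t).1 ∧ i = (pr t).2 then (1 : ℤ) else 0))
  rw [h1, h2, neg_sub]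

lemma Ba1_k1_mul (i j : Fin 5) :
    Ba1_k1 K i * two ((k2 j).map (Int.cast : ℤ → K))
      = Matrix.of (fun a y => if a = y.1 then ((k2 j i y.2 : ℤ) : K) else 0) := by
  ext1 a y
  simp only [Matrix.mul_apply, Ba1_k1, two, Fintype.sum_prod_type, Matrix.of_apply]
  rw [Finset.sum_eq_single a]
  · rw [Finset.sum_eq_single i]
    · simp
    · intro b _ hb
      simp [Ne.symm hb]
    · intro h'
      exact absurd (Finset.mem_univ _) h'
  · intro b _ hb
    refine Finset.sum_eq_zero fun c _ => ?_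
    simp [Ne.symm hb]
  · intro h'
    exact absurd (Finset.mem_univ _) h'

lemma kk12 [CharZero K] (f : Fin 5 → S K) : kk1 f * kk2 f = 0 := by
  rw [Ba1_kk1, kk2]
  refine Ba1_lin_mul_lin_zero f _ _ fun i j => ?_
  rw [Ba1_k1_mul, Ba1_k1_mul]
  ext1 a y
  rw [Matrix.neg_apply, Matrix.of_apply, Matrix.of_apply]
  by_cases h : a = y.1
  · simp only [if_pos h]
    rw [Ba1_k2_anti j i, Int.cast_neg]
  · simp only [if_neg h, neg_zero]

lemma Ba1_two_mul {l m n : Type*} [Fintype m] (A : Matrix l m K) (B : Matrix m n K) :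
    two A * two B = two (A * B) := by
  ext1 x y
  simp only [Matrix.mul_apply, two, Fintype.sum_prod_type]
  rw [Finset.sum_eq_single x.1]
  · by_cases h : x.1 = y.1
    · simp [h]
    · simp [h]
  · intro b _ hb
    refine Finset.sum_eq_zero fun c _ => ?_
    simp [Ne.symm hb]
  · intro h'
    exact absurd (Finset.mem_univ _) h'

lemma Ba1_k23 : ∀ (i j : Fin 5) (a : Fin 5) (t : Fin 10),
    ∑ s, k2 i a s * k3 j s t = -∑ s, k2 j a s * k3 i s t := by
  decide +kernel

lemma kk23 [CharZero K] (f : Fin 5 → S K) : kk2 f * kk3 f = 0 := by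
  rw [kk2, kk3]
  refine Ba1_lin_mul_lin_zero f _ _ fun i j => ?_
  rw [Ba1_two_mul, Ba1_two_mul]
  have h1 : ∀ i j : Fin 5, (k2 i).map (Int.cast : ℤ → K) * (k3 j).map (Int.cast : ℤ → K)
      = (k2 i * k3 j).map (Int.cast : ℤ → K) := by
    intro i j
    ext1 a t
    simp only [Matrix.mul_apply, Matrix.map_apply, Int.cast_sum, Int.cast_mul]
  have h2 : ((k2 i * k3 j).map (Int.cast : ℤ → K)) = -((k2 j * k3 i).map (Int.cast : ℤ → K)) := by
    ext1 a t
    rw [Matrix.neg_apply, Matrix.map_apply, Matrix.map_apply, Matrix.mul_apply,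
      Matrix.mul_apply, Ba1_k23 i j a t, Int.cast_neg]
  rw [h1, h1, h2]
  ext1 x y
  rw [Matrix.neg_apply]
  simp only [two]
  by_cases h : x.1 = y.1
  · simp only [if_pos h, Matrix.neg_apply]
  · simp only [if_neg h, neg_zero]

end Pool.Agent.Lib.MP_745d3a_ag.PB

end

section

open MvPolynomial Matrix

namespace Pool.Agent.Lib.MP_745d3a_ag.PB

variable {K : Type*} [Field K]

lemma Ba2_lin_mulVec {m n : Type*} [Fintype n] (f : Fin 5 → S K)
    (A : Fin 5 → Matrix m n K) (c : n → K) (i : m) :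
    (lin f A *ᵥ (fun i => C (c i))) i = ∑ k, ((A k *ᵥ c) i) • f k := by
  simp only [lin, Matrix.sum_apply, Matrix.mulVec, dotProduct, Matrix.smul_apply, cst_apply,
    smul_eq_mul, Finset.sum_mul]
  rw [Finset.sum_comm]
  refine Finset.sum_congr rfl fun k _ => ?_
  rw [Finset.sum_smul]
  refine Finset.sum_congr rfl fun j _ => ?_
  rw [smul_eq_C_mul, C_mul]
  ring

lemma Ba2_zero {m n : Type*} [Fintype n] (f : Fin 5 → S K) (hf : LinearIndependent K f)
    (A : Fin 5 → Matrix m n K) (c : n → K) (h : lin f A *ᵥ (fun i => C (c i)) = 0) (k : Fin 5)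
    (i : m) : (A k *ᵥ c) i = 0 := by
  have h1 := Ba2_lin_mulVec f A c i
  rw [h] at h1
  exact (Fintype.linearIndependent_iff.mp hf) _ h1.symm k

lemma Ba2_two {m n : Type*} [Fintype n] [DecidableEq n] (B : Matrix m n ℤ) (c : Fin 2 × n → K)
    (b : Fin 2) (a : m) (t : n) (h : (two (B.map (Int.cast : ℤ → K)) *ᵥ c) (b, a) = 0)
    (h1 : B a t = 1 ∨ B a t = -1) (h2 : ∀ t', t' ≠ t → B a t' = 0) : c (b, t) = 0 := by
  have e : (two (B.map (Int.cast : ℤ → K)) *ᵥ c) (b, a) = (B a t : K) * c (b, t) := by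
    simp only [Matrix.mulVec, dotProduct, Fintype.sum_prod_type, two, Matrix.map_apply]
    rw [Finset.sum_eq_single b]
    · rw [Finset.sum_eq_single t]
      · simp
      · intro t' _ ht'
        simp [h2 t' ht']
      · simp
    · intro b' _ hb'
      simp [hb'.symm]
    · simp
  rw [e] at h
  rcases h1 with h1 | h1 <;> rw [h1] at h <;> simpa using h

lemma kk2_inj [CharZero K] (f : Fin 5 → S K) (hf : LinearIndependent K f)
    (c : Fin 2 × Fin 10 → K) (h : kk2 f *ᵥ (fun i => C (c i)) = 0) : c = 0 := by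
  funext y
  obtain ⟨b, t⟩ := y
  have key : ∀ t : Fin 10, ∃ m a, (k2 m a t = 1 ∨ k2 m a t = -1) ∧
      ∀ t', t' ≠ t → k2 m a t' = 0 := by
    unfold k2
    decide
  obtain ⟨m, a, h1, h2⟩ := key t
  exact Ba2_two (k2 m) c b a t (Ba2_zero f hf _ c h m (b, a)) h1 h2

lemma kk3_inj [CharZero K] (f : Fin 5 → S K) (hf : LinearIndependent K f)
    (c : Fin 2 × Fin 10 → K) (h : kk3 f *ᵥ (fun i => C (c i)) = 0) : c = 0 := by
  funext y
  obtain ⟨b, t⟩ := y
  have key : ∀ t : Fin 10, ∃ m a, (k3 m a t = 1 ∨ k3 m a t = -1) ∧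
      ∀ t', t' ≠ t → k3 m a t' = 0 := by
    unfold k3
    decide
  obtain ⟨m, a, h1, h2⟩ := key t
  exact Ba2_two (k3 m) c b a t (Ba2_zero f hf _ c h m (b, a)) h1 h2

end Pool.Agent.Lib.MP_745d3a_ag.PB

end

section

open MvPolynomial Matrix

namespace Pool.Agent.Lib.MP_745d3a_ag.PB

section

variable {K : Type*} [Field K]

private lemma Bb_hc_mul (P w : S K) (k : ℕ) (hP : P.IsHomogeneous k) :
    homogeneousComponent k (P * w) = P * C (coeff 0 w) := by
  conv_lhs => rw [← sum_homogeneousComponent w, Finset.mul_sum, map_sum]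
  rw [Finset.sum_eq_single 0]
  · rw [homogeneousComponent_zero]
    exact homogeneousComponent_eq_self (by simpa using hP.mul (isHomogeneous_C _ _))
  · intro i _ hi
    rw [homogeneousComponent_of_mem (hP.mul (homogeneousComponent_isHomogeneous i w)),
      if_neg (by omega)]
  · simp

private lemma Bb_const_sol {m n : Type*} [Fintype n] (Y : Matrix m n (S K)) (k : ℕ)
    (hY : Forms Y k) (y : m → S K) (hy : ∀ i, (y i).IsHomogeneous k) (w : n → S K)
    (h : Y *ᵥ w = y) : Y *ᵥ (fun j => C (coeff 0 (w j))) = y := by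
  ext1 i
  rw [← homogeneousComponent_eq_self (hy i), ← h]
  simp only [mulVec, dotProduct, map_sum]
  exact Finset.sum_congr rfl fun j _ => (Bb_hc_mul _ _ _ (hY i j)).symm

end

namespace PureMonad

variable {K : Type*} [Field K] [IsAlgClosed K] [CharZero K] {b₂ r p q e : ℕ}

lemma exists_forms (W : PureMonad K 2 10 b₂ r p q e) (J : Ideal (S K))
    (hJ : ∀ z : Fin 2 → S K, (∃ w, W.X *ᵥ w = z) ↔ z 0 ∈ J ∧ z 1 ∈ J) :
    ∃ (f : Fin 5 → S K) (G : Matrix (Fin 2 × Fin 5) (Fin 10) K)
      (G' : Matrix (Fin 10) (Fin 2 × Fin 5) K),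
      (∀ i, (f i).IsHomogeneous p) ∧ LinearIndependent K f ∧ G * G' = 1 ∧ G' * G = 1 ∧
      W.X = kk1 f * cst G := by
  classical
  -- the space of forms
  let V : Submodule K (S K) := homogeneousSubmodule (Fin 5) K p ⊓ J.restrictScalars K
  have hmem : ∀ (c : Fin 10 → K) (a : Fin 2), (W.X *ᵥ (fun j => C (c j))) a ∈ V := by
    intro c a
    refine ⟨?_, ?_⟩
    · show (W.X *ᵥ (fun j => C (c j))) a ∈ homogeneousSubmodule (Fin 5) K p
      rw [mem_homogeneousSubmodule]
      simp only [mulVec, dotProduct]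
      refine IsHomogeneous.sum _ _ _ fun j _ => ?_
      simpa using (W.degX a j).mul (isHomogeneous_C (Fin 5) (c j))
    · have h := (hJ (W.X *ᵥ (fun j => C (c j)))).1 ⟨_, rfl⟩
      show (W.X *ᵥ (fun j => C (c j))) a ∈ J
      fin_cases a
      · exact h.1
      · exact h.2
  let φ : (Fin 10 → K) →ₗ[K] (Fin 2 → V) :=
    { toFun := fun c a => ⟨(W.X *ᵥ (fun j => C (c j))) a, hmem c a⟩
      map_add' := by
        intro c d
        ext1 a
        apply Subtype.ext
        simp [mulVec, dotProduct, mul_add, Finset.sum_add_distrib]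
      map_smul' := by
        intro t c
        ext1 a
        apply Subtype.ext
        simp only [mulVec, dotProduct, Pi.smul_apply, smul_eq_mul, map_mul, RingHom.id_apply,
          Submodule.coe_smul, smul_eq_C_mul, Finset.mul_sum]
        exact Finset.sum_congr rfl fun j _ => by ring }
  have hinj : Function.Injective φ := by
    rw [injective_iff_map_eq_zero]
    intro c hc
    have h0 : W.X *ᵥ (fun j => C (c j)) = 0 := by
      ext1 a
      have := congrArg Subtype.val (congrFun hc a)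
      simpa [φ] using this
    obtain ⟨w, hw⟩ := W.exact1 _ h0
    ext1 i
    have h1 := congrArg constantCoeff (congrFun hw i)
    have h2 : constantCoeff ((W.Y *ᵥ w) i) = 0 := by
      simp only [mulVec, dotProduct, map_sum, map_mul]
      refine Finset.sum_eq_zero fun j _ => ?_
      have h3 : constantCoeff (W.Y i j) = 0 := by
        rw [constantCoeff_eq]
        apply (W.degY i j).coeff_eq_zero
        have := W.hpq
        simp only [map_zero]
        omega
      rw [h3, zero_mul]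
    rw [h2] at h1
    simpa using h1.symm
  have hsurj : Function.Surjective φ := by
    intro g
    obtain ⟨w, hw⟩ := (hJ (fun a => (g a : S K))).2 ⟨(g 0).2.2, (g 1).2.2⟩
    refine ⟨fun j => coeff 0 (w j), ?_⟩
    have h := Bb_const_sol W.X p W.degX _ (fun i => (g i).2.1) w hw
    ext1 a
    apply Subtype.ext
    exact congrFun h a
  let e : (Fin 10 → K) ≃ₗ[K] (Fin 2 → V) := LinearEquiv.ofBijective φ ⟨hinj, hsurj⟩
  have hfin : Module.Finite K V :=
    Module.Finite.of_surjective ((LinearMap.proj (0 : Fin 2) : (Fin 2 → V) →ₗ[K] V).comp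
      e.toLinearMap) (by
        intro v
        obtain ⟨c, hc⟩ := e.surjective (fun _ => v)
        exact ⟨c, by simpa using congrFun hc 0⟩)
  have hdim : Module.finrank K V = 5 := by
    have h := e.finrank_eq
    rw [Module.finrank_fin_fun, Module.finrank_pi_fintype] at h
    simp at h
    omega
  let b : Module.Basis (Fin 5) K V := Module.finBasisOfFinrankEq K V hdim
  let B : Module.Basis (Fin 2 × Fin 5) K (Fin 2 → V) :=
    (Pi.basis (fun _ : Fin 2 => b)).reindex (Equiv.sigmaEquivProd (Fin 2) (Fin 5))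
  let E := Pi.basisFun K (Fin 10)
  refine ⟨fun i => (b i : S K), LinearMap.toMatrix E B e.toLinearMap,
    LinearMap.toMatrix B E e.symm.toLinearMap, fun i => (b i).2.1, ?_, ?_, ?_, ?_⟩
  · exact b.linearIndependent.map' V.subtype (Submodule.ker_subtype V)
  · rw [← LinearMap.toMatrix_comp B E B]
    simp
  · rw [← LinearMap.toMatrix_comp E B E]
    simp
  · ext1 a j
    rw [Matrix.mul_apply, Fintype.sum_prod_type, Finset.sum_eq_single a]
    · have h1 : ∀ i : Fin 5, kk1 (fun i => (b i : S K)) a (a, i) *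
          (cst (LinearMap.toMatrix E B e.toLinearMap) : Matrix _ _ (S K)) (a, i) j
          = ((b.repr (e (E j) a) i) • (b i : S K)) := by
        intro i
        rw [cst_apply, LinearMap.toMatrix_apply, kk1, if_pos rfl, smul_eq_C_mul, mul_comm]
        congr 2
      rw [Finset.sum_congr rfl fun i _ => h1 i]
      have h2 := congrArg (fun v : V => (v : S K)) (b.sum_repr (e (E j) a))
      simp only [Submodule.coe_sum, Submodule.coe_smul] at h2
      rw [h2]
      show W.X a j = (W.X *ᵥ (fun l => C (E j l))) a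
      simp [E, mulVec, dotProduct, Pi.single_apply, apply_ite (C : K → S K)]
    · intro a' _ ha'
      refine Finset.sum_eq_zero fun i _ => ?_
      rw [kk1, if_neg (Ne.symm ha'), zero_mul]
    · simp

end PureMonad

end Pool.Agent.Lib.MP_745d3a_ag.PB

end

section

open MvPolynomial Matrix

namespace Pool.Agent.Lib.MP_745d3a_ag.PB

variable {K : Type*} [Field K] {m n n' : Type*} [Fintype m] [Fintype n] [Fintype n']
  [DecidableEq m] [DecidableEq n] [DecidableEq n']

private lemma Bc_comp {a w : S K} {k : ℕ} (ha : a.IsHomogeneous k) :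
    homogeneousComponent k (a * w) = a * C (coeff 0 w) := by
  have hw : w = ∑ s ∈ Finset.range (w.totalDegree + 1), homogeneousComponent s w :=
    (sum_homogeneousComponent w).symm
  have h1 : ∀ s, homogeneousComponent k (a * homogeneousComponent s w)
      = if s = 0 then a * C (coeff 0 w) else 0 := by
    intro s
    have hm : (a * homogeneousComponent s w) ∈ homogeneousSubmodule (Fin 5) K (k + s) :=
      (mem_homogeneousSubmodule _ _).2 (ha.mul (homogeneousComponent_isHomogeneous s w))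
    rw [homogeneousComponent_of_mem hm]
    by_cases hs : s = 0
    · subst hs
      rw [if_pos (by simp), if_pos rfl, homogeneousComponent_zero]
    · rw [if_neg (by omega), if_neg hs]
  conv_lhs => rw [hw]
  rw [Finset.mul_sum, map_sum, Finset.sum_congr rfl (fun s _ => h1 s), Finset.sum_ite_eq',
    if_pos (Finset.mem_range.2 (Nat.succ_pos _))]

lemma const_sol (Y : Matrix m n (S K)) (k : ℕ) (hY : Forms Y k) (y : m → S K)
    (hy : ∀ i, (y i).IsHomogeneous k) (w : n → S K) (h : Y *ᵥ w = y) :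
    Y *ᵥ (fun j => C (coeff 0 (w j))) = y := by
  ext1 i
  have hi : (Y *ᵥ w) i = y i := congrFun h i
  have h1 : homogeneousComponent k (y i) = y i := by
    rw [homogeneousComponent_of_mem ((mem_homogeneousSubmodule _ _).2 (hy i)), if_pos rfl]
  rw [← h1, ← hi]
  simp only [Matrix.mulVec, dotProduct]
  rw [map_sum]
  exact Finset.sum_congr rfl (fun j _ => (Bc_comp (hY i j)).symm)

lemma transfer (Y : Matrix m n (S K)) (k : ℕ) (hY : Forms Y k) (κ : Matrix m n' (S K))
    (hκ : Forms κ k) (hcard : Fintype.card n' = Fintype.card n)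
    (hinj : ∀ c : n' → K, κ *ᵥ (fun i => C (c i)) = 0 → c = 0)
    (hsol : ∀ t, ∃ w, Y *ᵥ w = fun i => κ i t) :
    ∃ (Cm : Matrix n n' K) (Cm' : Matrix n' n K), Cm * Cm' = 1 ∧ Cm' * Cm = 1 ∧
      κ = Y * cst Cm ∧ Y = κ * cst Cm' := by
  choose w hw using hsol
  obtain ⟨Cm, hCm⟩ : ∃ Cm : Matrix n n' K, ∀ j t, Cm j t = coeff 0 (w t j) :=
    ⟨fun j t => coeff 0 (w t j), fun _ _ => rfl⟩
  have hκY : κ = Y * cst Cm := by
    ext1 i t
    have h1 := congrFun (const_sol Y k hY _ (fun i => hκ i t) (w t) (hw t)) i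
    rw [← h1, Matrix.mul_apply]
    simp only [Matrix.mulVec, dotProduct, cst_apply, hCm]
  have hf : Function.Injective Cm.mulVecLin := by
    rw [← LinearMap.ker_eq_bot, LinearMap.ker_eq_bot']
    intro c hc
    apply hinj
    have h2 : (cst Cm : Matrix n n' (S K)) *ᵥ (fun i => C (c i)) = 0 := by
      ext1 j
      have h3 : (Cm *ᵥ c) j = 0 := congrFun hc j
      have h4 : (C ((Cm *ᵥ c) j) : S K) = 0 := by rw [h3, C_0]
      rw [Pi.zero_apply, ← h4]
      simp only [Matrix.mulVec, dotProduct, cst_apply, map_sum, map_mul]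
    rw [hκY, ← Matrix.mulVec_mulVec, h2, Matrix.mulVec_zero]
  have hdim : Module.finrank K (n' → K) = Module.finrank K (n → K) := by
    rw [Module.finrank_fintype_fun_eq_card, Module.finrank_fintype_fun_eq_card, hcard]
  obtain ⟨e, he⟩ : ∃ e : (n' → K) ≃ₗ[K] (n → K), ∀ v, e v = Cm *ᵥ v :=
    ⟨LinearMap.linearEquivOfInjective Cm.mulVecLin hf hdim, fun v => rfl⟩
  obtain ⟨Cm', hCm'⟩ : ∃ Cm' : Matrix n' n K, ∀ v, Cm' *ᵥ v = e.symm v :=
    ⟨LinearMap.toMatrix' (e.symm : (n → K) →ₗ[K] (n' → K)), fun v => by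
      rw [LinearMap.toMatrix'_mulVec]; rfl⟩
  have h1 : Cm * Cm' = 1 := by
    apply Matrix.toLin'.injective
    refine LinearMap.ext (fun v => ?_)
    rw [Matrix.toLin'_apply, Matrix.toLin'_apply, ← Matrix.mulVec_mulVec, hCm', ← he,
      e.apply_symm_apply, Matrix.one_mulVec]
  have h2 : Cm' * Cm = 1 := by
    apply Matrix.toLin'.injective
    refine LinearMap.ext (fun v => ?_)
    rw [Matrix.toLin'_apply, Matrix.toLin'_apply, ← Matrix.mulVec_mulVec, ← he, hCm',
      e.symm_apply_apply, Matrix.one_mulVec]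
  refine ⟨Cm, Cm', h1, h2, hκY, ?_⟩
  conv_rhs => rw [hκY]
  rw [Matrix.mul_assoc, ← cst_mul, h1, cst_one, Matrix.mul_one]

end Pool.Agent.Lib.MP_745d3a_ag.PB

end

section

open MvPolynomial Matrix

namespace Pool.Agent.Lib.MP_745d3a_ag.PB

namespace PureMonad

variable {K : Type*} [Field K]

private lemma Bd_lin_forms {m n : Type*} (f : Fin 5 → S K) (A : Fin 5 → Matrix m n K) (p : ℕ)
    (hf : ∀ i, (f i).IsHomogeneous p) : Forms (lin f A) p := by
  intro i j
  unfold lin
  rw [Matrix.sum_apply]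
  apply IsHomogeneous.sum
  intro k _
  rw [Matrix.smul_apply, smul_eq_mul, cst_apply]
  have h := (hf k).mul (isHomogeneous_C (Fin 5) (A k i j))
  rwa [add_zero] at h

private def Bd_E (K : Type*) [Field K] (i : Fin 5) : Matrix (Fin 2) (Fin 2 × Fin 5) K :=
  fun a y => if a = y.1 ∧ i = y.2 then 1 else 0

private lemma Bd_kk1 (f : Fin 5 → S K) : kk1 f = lin f (Bd_E K) := by
  ext1 a y
  unfold kk1 lin
  rw [Matrix.sum_apply]
  by_cases h : a = y.1
  · rw [if_pos h, Finset.sum_eq_single y.2]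
    · rw [Matrix.smul_apply, cst_apply, Bd_E, if_pos ⟨h, rfl⟩]
      simp
    · intro i _ hi
      rw [Matrix.smul_apply, cst_apply, Bd_E, if_neg (fun h' => hi h'.2)]
      simp
    · intro h'
      exact absurd (Finset.mem_univ _) h'
  · rw [if_neg h]
    symm
    apply Finset.sum_eq_zero
    intro i _
    rw [Matrix.smul_apply, cst_apply, Bd_E, if_neg (fun h' => h h'.1)]
    simp

private lemma Bd_col {m n l : Type*} [Fintype m] [Fintype n] (A : Matrix l m (S K))
    (B : Matrix m n (S K)) (h : A * B = 0) (t : n) : A *ᵥ (fun i => B i t) = 0 := by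
  ext1 i
  have := congrFun (congrFun h i) t
  simpa [Matrix.mul_apply, Matrix.mulVec, dotProduct] using this

variable [IsAlgClosed K] [CharZero K] {r p q e : ℕ}

lemma all_lin (W : PureMonad K 2 10 20 r p q e) (hq : q - p = p) (he : e - 2 * q = p)
    (f : Fin 5 → S K) (G : Matrix (Fin 2 × Fin 5) (Fin 10) K)
    (G' : Matrix (Fin 10) (Fin 2 × Fin 5) K) (hf : ∀ i, (f i).IsHomogeneous p)
    (hfi : LinearIndependent K f) (hG : G * G' = 1) (hG' : G' * G = 1)
    (hX : W.X = kk1 f * cst G) :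
    (∃ A, W.X = lin f A) ∧ (∃ A, W.Y = lin f A) ∧ (∃ A, W.Z = lin f A) := by
  have hXl : ∃ A, W.X = lin f A := by
    refine ⟨fun i => Bd_E K i * G, ?_⟩
    rw [hX, Bd_kk1, lin_mul_cst]
  -- the second matrix
  set κ : Matrix (Fin 10) (Fin 2 × Fin 10) (S K) := cst G' * kk2 f with hκ
  have hκl : κ = lin f (fun m => G' * two ((k2 m).map (Int.cast : ℤ → K))) := by
    rw [hκ]
    unfold kk2
    rw [cst_mul_lin]
  have hXκ : W.X * κ = 0 := by
    rw [hX, hκ, Matrix.mul_assoc, ← Matrix.mul_assoc (cst G), ← cst_mul, hG, cst_one,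
      Matrix.one_mul, kk12]
  have hκf : Forms κ p := by
    rw [hκl]
    exact Bd_lin_forms f _ p hf
  have hYp : Forms W.Y p := by
    have := W.degY
    rwa [hq] at this
  have hκinj : ∀ c : Fin 2 × Fin 10 → K, κ *ᵥ (fun i => C (c i)) = 0 → c = 0 := by
    intro c hc
    apply kk2_inj f hfi c
    have h1 : kk2 f = cst G * κ := by
      rw [hκ, ← Matrix.mul_assoc, ← cst_mul, hG, cst_one, Matrix.one_mul]
    rw [h1, ← Matrix.mulVec_mulVec, hc, Matrix.mulVec_zero]
  obtain ⟨Cm, Cm', h1, h2, h3, h4⟩ := transfer W.Y p hYp κ hκf (by simp) hκinj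
    (fun t => exact1 W _ (Bd_col W.X κ hXκ t))
  have hYl : ∃ A, W.Y = lin f A := by
    refine ⟨fun i => (G' * two ((k2 i).map (Int.cast : ℤ → K))) * Cm', ?_⟩
    rw [h4, hκl, lin_mul_cst]
  -- the third matrix
  set κ' : Matrix (Fin 20) (Fin 2 × Fin 10) (S K) := cst Cm * kk3 f with hκ'
  have hκ'l : κ' = lin f (fun m => Cm * two ((k3 m).map (Int.cast : ℤ → K))) := by
    rw [hκ']
    unfold kk3
    rw [cst_mul_lin]
  have hYκ : W.Y * κ' = 0 := by
    rw [h4, hκ', Matrix.mul_assoc, ← Matrix.mul_assoc (cst Cm'), ← cst_mul, h2, cst_one,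
      Matrix.one_mul, hκ, Matrix.mul_assoc, kk23, Matrix.mul_zero]
  have hκ'f : Forms κ' p := by
    rw [hκ'l]
    exact Bd_lin_forms f _ p hf
  have hZp : Forms W.Z p := by
    have := W.degZ
    rwa [he] at this
  have hκ'inj : ∀ c : Fin 2 × Fin 10 → K, κ' *ᵥ (fun i => C (c i)) = 0 → c = 0 := by
    intro c hc
    apply kk3_inj f hfi c
    have h1 : kk3 f = cst Cm' * κ' := by
      rw [hκ', ← Matrix.mul_assoc, ← cst_mul, h2, cst_one, Matrix.one_mul]
    rw [h1, ← Matrix.mulVec_mulVec, hc, Matrix.mulVec_zero]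
  obtain ⟨Dm, Dm', h5, h6, h7, h8⟩ := transfer W.Z p hZp κ' hκ'f (by simp) hκ'inj
    (fun t => exact2 W _ (Bd_col W.Y κ' hYκ t))
  have hZl : ∃ A, W.Z = lin f A := by
    refine ⟨fun i => (Cm * two ((k3 i).map (Int.cast : ℤ → K))) * Dm', ?_⟩
    rw [h8, hκ'l, lin_mul_cst]
  exact ⟨hXl, hYl, hZl⟩

end PureMonad

end Pool.Agent.Lib.MP_745d3a_ag.PB

end

section

open MvPolynomial Matrix

namespace Pool.Agent.Lib.MP_745d3a_ag.PB

variable {K : Type*} [Field K] [IsAlgClosed K]

omit [IsAlgClosed K] in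
open Classical in
private lemma be_ker (s : Set (Fin 5)) :
    RingHom.ker (aeval (fun i => if i ∈ s then (0 : S K) else X i) : S K →ₐ[K] S K).toRingHom =
      Ideal.span ((X : Fin 5 → S K) '' s) := by
  have hsub : ∀ a : S K, a - aeval (fun i => if i ∈ s then (0 : S K) else X i) a ∈
      Ideal.span ((X : Fin 5 → S K) '' s) := by
    intro a
    induction a using MvPolynomial.induction_on with
    | C c => simp
    | add a b ha hb =>
      rw [map_add, add_sub_add_comm]
      exact Ideal.add_mem _ ha hb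
    | mul_X a i ha =>
      rw [map_mul, aeval_X]
      by_cases hi : i ∈ s
      · rw [if_pos hi, mul_zero, sub_zero]
        exact Ideal.mul_mem_left _ _ (Ideal.subset_span ⟨i, hi, rfl⟩)
      · rw [if_neg hi, ← sub_mul]
        exact Ideal.mul_mem_right _ _ ha
  apply le_antisymm
  · intro a ha
    have h1 : aeval (fun i => if i ∈ s then (0 : S K) else X i) a = 0 := ha
    have h2 := hsub a
    rwa [h1, sub_zero] at h2
  · rw [Ideal.span_le]
    rintro _ ⟨i, hi, rfl⟩
    show aeval _ (X i) = 0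
    rw [aeval_X, if_pos hi]

omit [IsAlgClosed K] in
private lemma be_prime (s : Set (Fin 5)) :
    (Ideal.span ((X : Fin 5 → S K) '' s)).IsPrime := by
  rw [← be_ker s]
  exact RingHom.ker_isPrime _

omit [IsAlgClosed K] in
open Classical in
private lemma be_mem (s : Set (Fin 5)) (i : Fin 5) :
    (X i : S K) ∈ Ideal.span ((X : Fin 5 → S K) '' s) ↔ i ∈ s := by
  constructor
  · intro h
    by_contra hi
    rw [← be_ker s] at h
    have h1 : aeval (fun i => if i ∈ s then (0 : S K) else X i) (X i : S K) = 0 := h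
    rw [aeval_X, if_neg hi] at h1
    exact X_ne_zero i h1
  · intro h
    exact Ideal.subset_span ⟨i, h, rfl⟩

omit [IsAlgClosed K] in
private lemma be_height (k : ℕ) (hk : k ≤ 5) :
    (k : ℕ∞) ≤ (Ideal.span ((X : Fin 5 → S K) '' {i | (i : ℕ) < k})).height := by
  induction k with
  | zero => simp
  | succ k ih =>
    have h1 := ih (by omega)
    have := be_prime (K := K) {i | (i : ℕ) < k}
    have := be_prime (K := K) {i | (i : ℕ) < k + 1}
    have hlt : Ideal.span ((X : Fin 5 → S K) '' {i | (i : ℕ) < k}) <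
        Ideal.span ((X : Fin 5 → S K) '' {i | (i : ℕ) < k + 1}) := by
      refine lt_of_le_of_ne (Ideal.span_mono (Set.image_mono fun i hi => ?_)) fun he => ?_
      · simp only [Set.mem_ofPred_eq] at hi ⊢; omega
      · have h2 : (X (⟨k, by omega⟩ : Fin 5) : S K) ∈
            Ideal.span ((X : Fin 5 → S K) '' {i | (i : ℕ) < k + 1}) := by
          rw [be_mem]; simp
        rw [← he, be_mem] at h2
        simp at h2
    have h3 := Ideal.height_add_one_le_of_lt_of_isPrime hlt
    calc ((k + 1 : ℕ) : ℕ∞) = (k : ℕ∞) + 1 := by push_cast; rfl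
      _ ≤ _ + 1 := by gcongr
      _ ≤ _ := h3

omit [IsAlgClosed K] in
private lemma be_scale (p : ℕ) (f : S K) (hf : f.IsHomogeneous p) (t : K) (v : Fin 5 → K) :
    eval (fun i => t * v i) f = t ^ p * eval v f := by
  rw [eval_eq, eval_eq, Finset.mul_sum]
  refine Finset.sum_congr rfl fun d hd => ?_
  have h1 : ∑ i ∈ d.support, d i = p := by
    have h2 := hf (mem_support_iff.mp hd)
    rw [Finsupp.weight_apply] at h2
    simpa [Finsupp.sum] using h2
  simp only [mul_pow, Finset.prod_mul_distrib]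
  rw [Finset.prod_pow_eq_pow_sum, h1]
  ring

lemma common_zero (p : ℕ) (hp : 0 < p) (g : Fin 4 → S K) (hg : ∀ i, (g i).IsHomogeneous p) :
    ∃ v : Fin 5 → K, v ≠ 0 ∧ ∀ i, eval v (g i) = 0 := by
  classical
  by_contra hcon
  push Not at hcon
  have hz : ∀ i, eval (0 : Fin 5 → K) (g i) = 0 := by
    intro i
    have h1 := be_scale p (g i) (hg i) 0 0
    rw [zero_pow hp.ne', zero_mul] at h1
    have e : (fun i => (0 : K) * (0 : Fin 5 → K) i) = 0 := by
      funext j
      simp
    rwa [e] at h1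
  obtain ⟨I, hI⟩ : ∃ I, I = Ideal.span (Set.range g) := ⟨_, rfl⟩
  have hne : I ≠ ⊤ := by
    intro h
    have h1 : I ≤ RingHom.ker (eval (0 : Fin 5 → K)) := by
      rw [hI, Ideal.span_le]
      rintro _ ⟨i, rfl⟩
      exact hz i
    have h2 : (1 : S K) ∈ RingHom.ker (eval (0 : Fin 5 → K)) := h1 (by rw [h]; trivial)
    rw [RingHom.mem_ker, map_one] at h2
    exact one_ne_zero h2
  have hrad : ∀ i, (X i : S K) ∈ I.radical := by
    intro i
    rw [← vanishingIdeal_zeroLocus_eq_radical (K := K), mem_vanishingIdeal_iff]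
    intro v hv
    have hv0 : v = 0 := by
      by_contra hv0
      obtain ⟨j, hj⟩ := hcon v hv0
      apply hj
      have h1 := hv (g j) (by rw [hI]; exact Ideal.subset_span ⟨j, rfl⟩)
      exact h1
    rw [hv0, aeval_X]
    rfl
  obtain ⟨P, hP⟩ := Ideal.nonempty_minimalPrimes hne
  have hPp : P.IsPrime := hP.isPrime
  have hle : I ≤ P := hP.1.2
  have hall : ∀ i, (X i : S K) ∈ P := fun i => hPp.radical_le_iff.mpr hle (hrad i)
  have h1 : P.height ≤ 4 := by
    have hs : ((Finset.univ.image g : Finset (S K)) : Set (S K)) = Set.range g := by simp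
    rw [hI, ← hs] at hP
    refine (Ideal.height_le_card_of_mem_minimalPrimes_span_finset hP).trans ?_
    have : (Finset.univ.image g).card ≤ 4 := by
      refine Finset.card_image_le.trans ?_
      simp
    exact_mod_cast this
  have h2 := be_height (K := K) 5 le_rfl
  have h3 : Ideal.span ((X : Fin 5 → S K) '' {i | (i : ℕ) < 5}) ≤ P := by
    rw [Ideal.span_le]
    rintro _ ⟨i, -, rfl⟩
    exact hall i
  have h4 := Ideal.height_mono h3
  have h5 : ((5 : ℕ) : ℕ∞) ≤ (4 : ℕ∞) := h2.trans (h4.trans h1)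
  exact absurd (by exact_mod_cast h5 : (5 : ℕ) ≤ 4) (by omega)

lemma surj_points (p : ℕ) (hp : 0 < p) (f : Fin 5 → S K) (hf : ∀ i, (f i).IsHomogeneous p)
    (h0 : ∀ v : Fin 5 → K, v ≠ 0 → ∃ i, eval v (f i) ≠ 0) (w : Fin 5 → K) :
    ∃ v : Fin 5 → K, ∀ i, eval v (f i) = w i := by
  classical
  by_cases hw : w = 0
  · refine ⟨0, fun i => ?_⟩
    have h1 := be_scale p (f i) (hf i) 0 0
    rw [zero_pow hp.ne', zero_mul] at h1
    have e : (fun i => (0 : K) * (0 : Fin 5 → K) i) = 0 := by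
      funext j
      simp
    rw [e] at h1
    rw [hw, Pi.zero_apply, h1]
  obtain ⟨j, hj⟩ : ∃ j, w j ≠ 0 := by
    by_contra h
    push Not at h
    exact hw (funext h)
  obtain ⟨v, hv, hv'⟩ := common_zero p hp
    (fun i => C (w j) * f (j.succAbove i) - C (w (j.succAbove i)) * f j) (fun i => by
      have h1 := (isHomogeneous_C (Fin 5) (w j)).mul (hf (j.succAbove i))
      have h2 := (isHomogeneous_C (Fin 5) (w (j.succAbove i))).mul (hf j)
      rw [zero_add] at h1 h2
      exact h1.sub h2)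
  have h1 : ∀ i, w j * eval v (f i) = w i * eval v (f j) := by
    intro i
    by_cases hij : i = j
    · rw [hij]
    · obtain ⟨i', rfl⟩ := Fin.exists_succAbove_eq hij
      have h2 := hv' i'
      simp only [map_sub, map_mul, eval_C] at h2
      exact sub_eq_zero.mp h2
  obtain ⟨c, hc⟩ : ∃ c, c = eval v (f j) / w j := ⟨_, rfl⟩
  have h2 : ∀ i, eval v (f i) = c * w i := by
    intro i
    rw [hc, div_mul_eq_mul_div, eq_div_iff hj, mul_comm, h1 i, mul_comm]
  have hc0 : c ≠ 0 := by
    rintro h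
    obtain ⟨i, hi⟩ := h0 v hv
    exact hi (by rw [h2 i, h, zero_mul])
  obtain ⟨t, ht⟩ := IsAlgClosed.exists_pow_nat_eq c⁻¹ hp
  refine ⟨fun i => t * v i, fun i => ?_⟩
  rw [be_scale p (f i) (hf i), h2 i, ht, ← mul_assoc, inv_mul_cancel₀ hc0, one_mul]

end Pool.Agent.Lib.MP_745d3a_ag.PB

end

section

open MvPolynomial Matrix

namespace Pool.Agent.Lib.MP_745d3a_ag.PB

section

variable {K : Type*} [Field K] {m n : Type*}

lemma Bf_subst_lin (f : Fin 5 → S K) (A : Fin 5 → Matrix m n K) :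
    subst f (lin MvPolynomial.X A) = lin f A := by
  ext1 i j
  simp only [lin, subst_apply, Matrix.sum_apply, Matrix.smul_apply, cst_apply, smul_eq_mul,
    map_sum, map_mul, bind₁_X_right, bind₁_C_right]

lemma Bf_ev_lin (v w : Fin 5 → K) (f : Fin 5 → S K) (hw : ∀ i, eval v (f i) = w i)
    (A : Fin 5 → Matrix m n K) : ev v (lin f A) = ev w (lin MvPolynomial.X A) := by
  ext1 i j
  simp only [lin, ev_apply, Matrix.sum_apply, Matrix.smul_apply, cst_apply, smul_eq_mul,
    map_sum, map_mul, eval_X, eval_C, hw]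

lemma Bf_ev_lin_zero (A : Fin 5 → Matrix m n K) :
    ev (0 : Fin 5 → K) (lin MvPolynomial.X A) = 0 := by
  ext1 i j
  simp only [lin, ev_apply, Matrix.sum_apply, Matrix.smul_apply, cst_apply, smul_eq_mul,
    map_sum, map_mul, eval_X, eval_C, Pi.zero_apply, zero_mul, Finset.sum_const_zero,
    Matrix.zero_apply]

lemma Bf_forms (A : Fin 5 → Matrix m n K) :
    Forms (lin (MvPolynomial.X : Fin 5 → S K) A) 1 := by
  intro i j
  have h1 : (lin (MvPolynomial.X : Fin 5 → S K) A) i j
      = ∑ k, MvPolynomial.X k * C (A k i j) := by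
    simp only [lin, Matrix.sum_apply, Matrix.smul_apply, cst_apply, smul_eq_mul]
  rw [h1]
  refine IsHomogeneous.sum _ _ _ fun k _ => ?_
  have := (isHomogeneous_X K k).mul (isHomogeneous_C (Fin 5) (A k i j))
  simpa using this

lemma Bf_ext [Infinite K] {A B : Matrix m n (S K)} (h : ∀ v, ev v A = ev v B) : A = B := by
  ext1 i j
  refine MvPolynomial.funext fun v => ?_
  exact congrFun (congrFun (h v) i) j

lemma Bf_eval_zero {k : ℕ} (hk : 0 < k) {g : S K} (hg : g.IsHomogeneous k) :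
    eval (0 : Fin 5 → K) g = 0 := by
  rw [MvPolynomial.eval_zero, constantCoeff_eq]
  exact hg.coeff_eq_zero (by simpa using hk.ne)

end

namespace PureMonad

variable {K : Type*} [Field K] [IsAlgClosed K] [CharZero K] {r p q e : ℕ}

lemma descend_monad (W : PureMonad K 2 10 20 r p q e) (f : Fin 5 → S K)
    (hf : ∀ i, (f i).IsHomogeneous p)
    (hX : ∃ A, W.X = lin f A) (hY : ∃ A, W.Y = lin f A) (hZ : ∃ A, W.Z = lin f A) :
    (∀ v : Fin 5 → K, v ≠ 0 → ∃ i, eval v (f i) ≠ 0) ∧
    ∃ W₀ : PureMonad K 2 10 20 r 1 2 5, W.X = subst f W₀.X ∧ W.Y = subst f W₀.Y ∧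
      W.Z = subst f W₀.Z ∧ W.U = W₀.U := by
  have : Infinite K := IsAlgClosed.instInfinite
  obtain ⟨A, hA⟩ := hX
  obtain ⟨B, hB⟩ := hY
  obtain ⟨D, hD⟩ := hZ
  have h0 : ∀ v : Fin 5 → K, v ≠ 0 → ∃ i, eval v (f i) ≠ 0 := by
    intro v hv
    by_contra hcon
    push Not at hcon
    have h1 := W.rankX v hv
    rw [hA, Bf_ev_lin v 0 f (fun i => by simpa using hcon i), Bf_ev_lin_zero,
      Matrix.rank_zero] at h1
    omega
  refine ⟨h0, ?_⟩
  have hsurj : ∀ w : Fin 5 → K, ∃ v : Fin 5 → K, (w ≠ 0 → v ≠ 0) ∧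
      ev v W.X = ev w (lin MvPolynomial.X A) ∧ ev v W.Y = ev w (lin MvPolynomial.X B) ∧
      ev v W.Z = ev w (lin MvPolynomial.X D) := by
    intro w
    obtain ⟨v, hv⟩ := surj_points p W.hp f hf h0 w
    refine ⟨v, ?_, ?_, ?_, ?_⟩
    · rintro hw rfl
      refine hw (funext fun i => ?_)
      rw [← hv i, Bf_eval_zero W.hp (hf i), Pi.zero_apply]
    · rw [hA, Bf_ev_lin v w f hv]
    · rw [hB, Bf_ev_lin v w f hv]
    · rw [hD, Bf_ev_lin v w f hv]
  refine ⟨{ X := lin MvPolynomial.X A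
            Y := lin MvPolynomial.X B
            Z := lin MvPolynomial.X D
            U := W.U
            hp := by omega
            hpq := by omega
            hqe := by omega
            degX := Bf_forms A
            degY := Bf_forms B
            degZ := Bf_forms D
            skew := ?_
            XY := ?_
            YZ := ?_
            isotropic := ?_
            rankX := ?_
            rankY := ?_
            rankYZ := ?_
            rankZ := ?_
            rankZU := ?_ }, ?_, ?_, ?_, rfl⟩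
  · refine Bf_ext fun w => ?_
    obtain ⟨v, -, -, -, h3⟩ := hsurj w
    rw [ev_transpose, ev_neg, ← h3, ← ev_transpose, ← ev_neg, W.skew]
  · refine Bf_ext fun w => ?_
    obtain ⟨v, -, h1, h2, -⟩ := hsurj w
    rw [ev_mul, ← h1, ← h2, ← ev_mul, W.XY, ev_zero, ev_zero]
  · refine Bf_ext fun w => ?_
    obtain ⟨v, -, -, h2, h3⟩ := hsurj w
    rw [ev_mul, ← h2, ← h3, ← ev_mul, W.YZ, ev_zero, ev_zero]
  · refine Bf_ext fun w => ?_
    obtain ⟨v, -, -, -, h3⟩ := hsurj w
    have h4 := congrArg (ev v) W.isotropic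
    rw [ev_mul, ev_mul, ev_transpose, ev_cst, ev_zero] at h4
    rw [ev_mul, ev_mul, ev_transpose, ev_cst, ← h3, h4, ev_zero]
  · intro w hw
    obtain ⟨v, hv, h1, h2, h3⟩ := hsurj w
    rw [← h1]
    exact W.rankX v (hv hw)
  · intro w hw
    obtain ⟨v, hv, h1, h2, h3⟩ := hsurj w
    rw [← h2]
    exact W.rankY v (hv hw)
  · intro w hw
    obtain ⟨v, hv, h1, h2, h3⟩ := hsurj w
    rw [← h2, ← h3]
    exact W.rankYZ v (hv hw)
  · intro w hw
    obtain ⟨v, hv, h1, h2, h3⟩ := hsurj w
    rw [← h3]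
    exact W.rankZ v (hv hw)
  · intro w hw
    obtain ⟨v, hv, h1, h2, h3⟩ := hsurj w
    rw [← h3]
    exact W.rankZU v (hv hw)
  · rw [Bf_subst_lin, hA]
  · rw [Bf_subst_lin, hB]
  · rw [Bf_subst_lin, hD]

end PureMonad

end Pool.Agent.Lib.MP_745d3a_ag.PB

end
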