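import Pool.Agent.Lib.MP_745d3a_ag.PB.Kos
import Pool.Agent.Lib.MP_745d3a_ag.PB.Ints

/-!
The main theorem.
-/

set_option autoImplicit false

section

open MvPolynomial Matrix

namespace Pool.Agent.Lib.MP_745d3a_ag.PB

namespace PureMonad

variable {K : Type*} [Field K] [IsAlgClosed K] [CharZero K] {n b₁ b₂ r p q e : ℕ}

lemma num (W : PureMonad K n b₁ b₂ r p q e) :
    Num n b₁ b₂ r (e : ℤ) (e - 2 * p) (e - 2 * q) where
  hn := by positivity
  hb₁ := by positivity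
  hb₂ := by positivity
  hr := by positivity
  hz := by have := W.hqe; omega
  hy := by have := W.hpq; omega
  hx := by have := W.hp; omega
  a := by have := W.rel_a; omega
  b := W.rel_bc.1
  c := W.rel_bc.2
  d := W.rel_d

theorem main (W : PureMonad K n b₁ b₂ r p q e) :
    (n = 2 ∧ b₁ = 10 ∧ b₂ = 20 ∧ r = 5 ∧ q = 2 * p ∧ e = 5 * p ∧
      ∃ (f : Fin 5 → S K) (W₀ : PureMonad K n b₁ b₂ r 1 2 5),
        (∀ i, (f i).IsHomogeneous p) ∧ (∀ v : Fin 5 → K, v ≠ 0 → ∃ i, eval v (f i) ≠ 0) ∧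
        W.X = subst f W₀.X ∧ W.Y = subst f W₀.Y ∧ W.Z = subst f W₀.Z ∧ W.U = W₀.U) ∨
    (n = 7 ∧ b₁ = 14 ∧ b₂ = 21 ∧ r = 6 ∧ q = 4 * p ∧ e = 10 * p) := by
  rcases num_main W.num with ⟨h1, h2, h3, h4, h5, h6⟩ | ⟨h1, h2, h3, h4, h5, h6⟩
  · left
    have e1 : n = 2 := by omega
    have e2 : b₁ = 10 := by omega
    have e3 : b₂ = 20 := by omega
    have e4 : r = 5 := by omega
    have hqe := W.hqe
    have hpq := W.hpq
    have e5 : q = 2 * p := by omega
    have e6 : e = 5 * p := by omega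
    subst e1 e2 e3 e4
    refine ⟨rfl, rfl, rfl, rfl, e5, e6, ?_⟩
    obtain ⟨J, hJ⟩ := W.split_ideal
    obtain ⟨f, G, G', hf, hfi, hG, hG', hX⟩ := W.exists_forms J hJ
    obtain ⟨hA, hB, hC⟩ := W.all_lin (by omega) (by omega) f G G' hf hfi hG hG' hX
    obtain ⟨h0, W₀, h⟩ := W.descend_monad f hf hA hB hC
    exact ⟨f, W₀, hf, h0, h⟩
  · right
    have hqe := W.hqe
    have hpq := W.hpq
    refine ⟨by omega, by omega, by omega, by omega, by omega, by omega⟩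

end PureMonad

end Pool.Agent.Lib.MP_745d3a_ag.PB

end
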