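import Pool.Agent.Lib.MP_745d3a_ag.PFFin

/-!
Self-maps of projective four-space: freeness of the polynomial ring, semilinear projections.
-/

set_option autoImplicit false
set_option linter.unusedSectionVars false
set_option linter.unusedSimpArgs false
set_option linter.unusedVariables false

/-!
Pull-backs of rank two modules under self-maps of projective four-space: definitions.
-/

open MvPolynomial

namespace Pool.Agent.Lib.MP_745d3a_ag.PF.PB

/-- The polynomial ring in five variables. -/
abbrev P5 := MvPolynomial (Fin 5) ℂ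

/-- The forms `f i` of degree `d` define a self-map of projective four-space. -/
structure SM (d : ℕ) (f : Fin 5 → P5) : Prop where
  hom : ∀ i, (f i).IsHomogeneous d
  nz : ∀ z : Fin 5 → ℂ, (∀ i, eval z (f i) = 0) → z = 0

/-- The substitution `x i ↦ f i`. -/
noncomputable def sb (f : Fin 5 → P5) : P5 →+* P5 := (aeval f : P5 →ₐ[ℂ] P5).toRingHom

lemma sb_apply (f : Fin 5 → P5) (a : P5) : sb f a = aeval f a := rfl

/-- `t` is a basis of `S'` over `S` along `ψ`. -/
structure FB {S S' I : Type*} [CommRing S] [CommRing S'] (ψ : S →+* S') (t : I → S') :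
    Prop where
  span : ∀ s, ∃ c : I →₀ S, s = c.sum fun e a => ψ a * t e
  ind : ∀ c : I →₀ S, (c.sum fun e a => ψ a * t e) = 0 → c = 0

/-- `E` is the extension of scalars of `F` along `ψ`, by the map `j`. -/
structure BC {S S' F E : Type*} [CommRing S] [CommRing S'] (ψ : S →+* S') [AddCommGroup F]
    [Module S F] [AddCommGroup E] [Module S' E] (j : F →+ E) : Prop where
  sl : ∀ (a : S) (m : F), j (a • m) = ψ a • j m
  gen : Submodule.span S' (Set.range j) = ⊤
  rel : ∀ (k : ℕ) (m : Fin k → F) (c : Fin k → S'), ∑ i, c i • j (m i) = 0 →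
    c ∈ Submodule.span S' {v : Fin k → S' | ∃ r : Fin k → S, ∑ i, r i • m i = 0 ∧
      v = fun i => ψ (r i)}

/-- `Dt` is the derivation `D` of the coefficients. -/
structure CD (D : Derivation ℤ ℂ ℂ) (Dt : P5 →+ P5) : Prop where
  mul : ∀ a b, Dt (a * b) = Dt a * b + a * Dt b
  coeff : ∀ e p, MvPolynomial.coeff e (Dt p) = D (MvPolynomial.coeff e p)

/-- Vectors of polynomials with homogeneous entries of degree `b - a i`. -/
def HV {p : ℕ} (a : Fin p → ℤ) (b : ℤ) (v : Fin p → P5) : Prop :=
  ∀ i, IsWeightedHomogeneous (fun _ : Fin 5 => (1 : ℤ)) (v i) (b - a i)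

/-- `M` has generators `n i` of degree `d * a i + k` and the relations `r j (f)`, where the
entries of `r j` are homogeneous of degree `b j - a i`: `M` is (up to a shift) the pull-back under
`f` of the module with generators of degree `a i` and relations `r j`. -/
def PullBack {M : Type*} [AddCommGroup M] [Module P5 M] (𝓜 : ℤ → AddSubgroup M) (d : ℕ) (k : ℤ)
    {p q : ℕ} (a : Fin p → ℤ) (b : Fin q → ℤ) (f : Fin 5 → P5) (r : Fin q → Fin p → P5) : Prop :=
  (∀ j, HV a (b j) (r j)) ∧ ∃ n : Fin p → M, (∀ i, n i ∈ 𝓜 (d * a i + k)) ∧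
    Submodule.span P5 (Set.range n) = ⊤ ∧
    ∀ c : Fin p → P5, ∑ i, c i • n i = 0 ↔
      c ∈ Submodule.span P5 (Set.range fun (j : Fin q) (i : Fin p) => sb f (r j i))

/-- The sequence `u` has bounded degree. -/
def Bdd (u : ℕ → P5) : Prop := ∃ B, ∀ n, (u n).totalDegree ≤ B

/-- `p` is the limit of the sequence `u` with respect to `θ`. -/
def IsTh (θ : (ℕ → ℂ) →+* ℂ) (u : ℕ → P5) (p : P5) : Prop :=
  ∀ e, coeff e p = θ (fun n => coeff e (u n))

/-- A limit `θ`: evaluation in the ultrapower, identified with the complex numbers. -/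
structure Lim (U : Ultrafilter ℕ) (θ : (ℕ → ℂ) →+* ℂ) : Prop where
  surj : Function.Surjective θ
  zero : ∀ z, θ z = 0 ↔ ∀ᶠ n in (U : Filter ℕ), z n = 0
  free : ∀ s : Set ℕ, s.Finite → sᶜ ∈ U

/-- The constants of the limit. -/
noncomputable def tau (θ : (ℕ → ℂ) →+* ℂ) : ℂ →+* ℂ := θ.comp (Pi.constRingHom ℕ ℂ)

end Pool.Agent.Lib.MP_745d3a_ag.PF.PB

/-!
Powers of the variables are in the ideal of a self-map; a regular sequence does not have the
origin as an associated prime.

* `SM.pow_mem`: the common zeros of the `f i` are `{0}` (all `f i` vanish at `0` because `d ≥ 1`) or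
  empty, so by the Nullstellensatz (`MvPolynomial.vanishingIdeal_zeroLocus_eq_radical`) every `X i` is
  in the radical of the ideal of the `f i`; take the largest of the five exponents.
-/

open MvPolynomial

namespace Pool.Agent.Lib.MP_745d3a_ag.PF.PB

theorem SM.pow_mem {d : ℕ} (hd : 1 ≤ d) {f : Fin 5 → P5} (hf : SM d f) :
    ∃ N : ℕ, ∀ i, (X i : P5) ^ N ∈ Ideal.span (Set.range f) := by
  have h : ∀ i, ∃ n : ℕ, (X i : P5) ^ n ∈ Ideal.span (Set.range f) := by
    intro i
    have h1 : (X i : P5) ∈ vanishingIdeal ℂ (zeroLocus ℂ (Ideal.span (Set.range f))) := by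
      rw [mem_vanishingIdeal_iff]
      intro z hz
      have h2 : z = 0 := hf.nz z fun j => by
        have := (mem_zeroLocus_iff.1 hz) (f j) (Ideal.subset_span ⟨j, rfl⟩)
        rwa [aeval_eq_eval] at this
      rw [h2, aeval_X]
      rfl
    rw [vanishingIdeal_zeroLocus_eq_radical] at h1
    exact h1
  choose n hn using h
  refine ⟨∑ i, n i, fun i => ?_⟩
  have h3 : n i ≤ ∑ i, n i := Finset.single_le_sum (fun j _ => Nat.zero_le (n j)) (Finset.mem_univ i)
  rw [← Nat.add_sub_of_le h3, pow_add]
  exact Ideal.mul_mem_right _ _ (hn i)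

end Pool.Agent.Lib.MP_745d3a_ag.PF.PB

/-!
Powers of the variables are in the ideal of a self-map; a regular sequence does not have the
origin as an associated prime.

* `not_ass`: let `m = Ideal.span (range X)`. The sequence `X 0, …, X 4` is regular
  (`List.ofFn X`; `P5 / (X 0, .., X (k-1))` is a domain in which `X k` is not zero; or any other regular
  sequence of length five in `m`), so by the Rees theorem
  (`ModuleCat.exists_isRegular_tfae`, `ModuleCat.subsingleton_ext_of_exists_isRegular`,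
  RingTheory/Depth/Rees.lean) `Ext (P5 / m) P5 i = 0` for `i < 5`. By induction on the list
  `rs`: `Ext (P5 / m) (P5 / (rs)) i = 0` for `i < 5 - rs.length`, from the exact sequence
  `0 → N → N → N / r N → 0` (`IsSMulRegular.smulShortComplex_shortExact`,
  `Ext.covariant_sequence_exact₃'`, exactly as in the proof of
  `exists_isRegular_of_exists_subsingleton_ext`; it may be convenient to do the induction for general
  modules `N` : if `Ext (P5 / m) N i = 0` for `i < n` and `rs` is regular on `N` with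
  `rs.length < n` then every `u ∈ N` with `m u ⊆ (rs) N` is in `(rs) N`). For `i = 0`:
  `Hom (P5 / m, P5 / (rs)) = 0`, i.e. no nonzero element of `P5 / (rs)` is killed by `m`.
-/

open MvPolynomial

namespace Pool.Agent.Lib.MP_745d3a_ag.PF.PB

open CategoryTheory CategoryTheory.Abelian CategoryTheory.Limits RingTheory.Sequence in
theorem R1b_aux {R : Type} [CommRing R] (I : Ideal R) (rs : List R) :
    ∀ (n : ℕ) (M : ModuleCat.{0} R),
      (∀ i < n, Subsingleton (Ext (ModuleCat.of R (R ⧸ I)) M i)) →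
      IsWeaklyRegular M rs → rs.length < n →
      ∀ x : M ⧸ (Ideal.ofList rs • (⊤ : Submodule R M)), (∀ a ∈ I, a • x = 0) → x = 0 := by
  induction rs with
  | nil =>
    intro n M hE _ hl x hx
    have hbot : (Ideal.ofList ([] : List R)) • (⊤ : Submodule R M) = ⊥ := by
      rw [Ideal.ofList_nil, Submodule.bot_smul]
    have e := Submodule.quotEquivOfEqBot _ hbot
    have h0 := hE 0 (by simpa using hl)
    have h1 : Subsingleton (ModuleCat.of R (R ⧸ I) ⟶ M) := Ext.addEquiv₀.subsingleton_congr.mp h0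
    have h2' : Subsingleton ((ModuleCat.of R (R ⧸ I)) →ₗ[R] M) := ModuleCat.homAddEquiv.symm.subsingleton
    have h2 : Subsingleton ((R ⧸ I) →ₗ[R] M) := h2'
    have h3 : I ≤ LinearMap.ker (LinearMap.toSpanSingleton R M (e x)) := by
      intro a ha
      rw [LinearMap.mem_ker, LinearMap.toSpanSingleton_apply, ← map_smul, hx a ha, map_zero]
    have h4 : Submodule.liftQ I (LinearMap.toSpanSingleton R M (e x)) h3 = 0 := Subsingleton.elim _ _
    have h5 := LinearMap.congr_fun h4 (Submodule.Quotient.mk (1 : R))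
    rw [Submodule.liftQ_apply, LinearMap.toSpanSingleton_apply, one_smul, LinearMap.zero_apply] at h5
    exact (LinearEquiv.map_eq_zero_iff e).1 h5
  | cons r rs ih =>
    intro n M hE hreg hl x hx
    rw [isWeaklyRegular_cons_iff] at hreg
    obtain ⟨n, rfl⟩ : ∃ k, n = k + 1 := ⟨n - 1, by have := hl; simp only [List.length_cons] at this; omega⟩
    have hE' : ∀ i < n, Subsingleton (Ext (ModuleCat.of R (R ⧸ I)) (ModuleCat.of R (QuotSMulTop r M)) i) := by
      intro i hi
      have zero1 := AddCommGrpCat.isZero_of_iff_subsingleton.mpr (hE i (by omega))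
      have zero2 := AddCommGrpCat.isZero_of_iff_subsingleton.mpr (hE (i + 1) (by omega))
      exact AddCommGrpCat.subsingleton_of_isZero <| ShortComplex.Exact.isZero_of_both_zeros
        ((Ext.covariant_sequence_exact₃' (ModuleCat.of R (R ⧸ I)) hreg.1.smulShortComplex_shortExact)
          i (i + 1) rfl)
        (zero1.eq_zero_of_src _) (zero2.eq_zero_of_tgt _)
    have e := Submodule.quotOfListConsSMulTopEquivQuotSMulTopInner M r rs
    have h := ih n (ModuleCat.of R (QuotSMulTop r M)) hE' hreg.2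
      (by have := hl; simp only [List.length_cons] at this; omega) (e x) (by
        intro a ha
        rw [← map_smul, hx a ha, map_zero])
    exact (LinearEquiv.map_eq_zero_iff e).1 h

theorem R1b_mem_X (k : ℕ) (j : Fin 5) (hj : ¬ j.val < k) (p : P5)
    (hp : X j * p ∈ Ideal.span (X '' {i : Fin 5 | i.val < k} : Set P5)) :
    p ∈ Ideal.span (X '' {i : Fin 5 | i.val < k} : Set P5) := by
  rw [mem_ideal_span_X_image] at hp ⊢
  intro m hm
  have h1 : Finsupp.single j 1 + m ∈ (X j * p).support := by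
    rw [mem_support_iff, coeff_X_mul]
    exact mem_support_iff.1 hm
  obtain ⟨i, hi, hne⟩ := hp _ h1
  refine ⟨i, hi, ?_⟩
  have hij : j ≠ i := by
    rintro rfl
    exact hj hi
  rw [Finsupp.add_apply, Finsupp.single_eq_of_ne hij.symm, zero_add] at hne
  exact hne

theorem R1b_take (k : ℕ) :
    Ideal.ofList ((List.ofFn (X : Fin 5 → P5)).take k) =
      Ideal.span (X '' {i : Fin 5 | i.val < k} : Set P5) := by
  have h : {r : P5 | r ∈ (List.ofFn (X : Fin 5 → P5)).take k} = X '' {i : Fin 5 | i.val < k} := by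
    ext r
    rw [Set.mem_ofPred_eq, List.mem_take_iff_getElem, Set.mem_image]
    constructor
    · rintro ⟨i, hi, rfl⟩
      rw [List.length_ofFn] at hi
      refine ⟨⟨i, by omega⟩, ?_, ?_⟩
      · show i < k
        omega
      · rw [List.getElem_ofFn]
    · rintro ⟨i, hi, rfl⟩
      refine ⟨i.val, ?_, ?_⟩
      · rw [List.length_ofFn]
        exact lt_min hi i.isLt
      · rw [List.getElem_ofFn]
  unfold Ideal.ofList
  rw [h]

theorem R1b_X_weaklyRegular :
    RingTheory.Sequence.IsWeaklyRegular P5 (List.ofFn (X : Fin 5 → P5)) := by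
  constructor
  intro i hi
  rw [isSMulRegular_quotient_iff_mem_of_smul_mem]
  intro p hp
  rw [Ideal.smul_top_eq_map, Submodule.restrictScalars_self, Algebra.algebraMap_self, Ideal.map_id] at hp ⊢
  rw [R1b_take] at hp ⊢
  rw [List.getElem_ofFn] at hp
  rw [List.length_ofFn] at hi
  exact R1b_mem_X i ⟨i, hi⟩ (lt_irrefl i) p hp

theorem R1b_eval (a : P5) (ha : a ∈ Ideal.span (Set.range (X : Fin 5 → P5))) :
    eval (0 : Fin 5 → ℂ) a = 0 := by
  have h : Ideal.span (Set.range (X : Fin 5 → P5)) ≤ RingHom.ker (eval (0 : Fin 5 → ℂ)) := by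
    rw [Ideal.span_le]
    rintro _ ⟨i, rfl⟩
    simp [RingHom.mem_ker]
  exact h ha

theorem R1b_X_regular :
    RingTheory.Sequence.IsRegular P5 (List.ofFn (X : Fin 5 → P5)) := by
  refine ⟨R1b_X_weaklyRegular, ?_⟩
  intro h
  have h1 : (1 : P5) ∈ Ideal.ofList (List.ofFn (X : Fin 5 → P5)) • (⊤ : Submodule P5 P5) := by
    rw [← h]
    trivial
  rw [Ideal.smul_top_eq_map, Submodule.restrictScalars_self, Algebra.algebraMap_self, Ideal.map_id] at h1
  have h2 : Ideal.ofList (List.ofFn (X : Fin 5 → P5)) ≤ Ideal.span (Set.range (X : Fin 5 → P5)) := by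
    apply Ideal.span_mono
    intro r hr
    rw [Set.mem_ofPred_eq, List.mem_ofFn] at hr
    exact hr
  have h3 := R1b_eval 1 (h2 h1)
  simp at h3

open CategoryTheory CategoryTheory.Abelian in
theorem R1b_ext (i : ℕ) (hi : i < 5) :
    Subsingleton (Ext (ModuleCat.of P5 (P5 ⧸ Ideal.span (Set.range (X : Fin 5 → P5))))
      (ModuleCat.of P5 P5) i) := by
  refine ModuleCat.subsingleton_ext_of_exists_isRegular (Ideal.span (Set.range (X : Fin 5 → P5))) _ ?_ _ ?_
    (List.ofFn (X : Fin 5 → P5)) ?_ R1b_X_regular i (by rw [List.length_ofFn]; exact hi)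
  · rw [Module.support_eq_zeroLocus, Ideal.annihilator_quotient]
  · refine lt_top_iff_ne_top.2 fun h => ?_
    have h1 : (1 : P5) ∈ Ideal.span (Set.range (X : Fin 5 → P5)) • (⊤ : Submodule P5 P5) := by
      have h2 : (1 : P5) ∈ (⊤ : Submodule P5 P5) := trivial
      rw [← h] at h2
      exact h2
    rw [Ideal.smul_top_eq_map, Submodule.restrictScalars_self, Algebra.algebraMap_self, Ideal.map_id] at h1
    have h3 := R1b_eval 1 h1
    simp at h3
  · intro r hr
    rw [List.mem_ofFn] at hr
    exact Ideal.subset_span hr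

theorem not_ass (rs : List P5) (hrs : RingTheory.Sequence.IsRegular P5 rs)
    (hm : ∀ r ∈ rs, r ∈ Ideal.span (Set.range (X : Fin 5 → P5))) (hl : rs.length < 5) (u : P5)
    (hu : ∀ i, X i * u ∈ Ideal.ofList rs) : u ∈ Ideal.ofList rs := by
  have key := R1b_aux (Ideal.span (Set.range (X : Fin 5 → P5))) rs 5 (ModuleCat.of P5 P5)
    R1b_ext hrs.toIsWeaklyRegular hl (Submodule.Quotient.mk u) (by
      intro a ha
      rw [← Submodule.Quotient.mk_smul, Submodule.Quotient.mk_eq_zero]
      show a * u ∈ Ideal.ofList rs • (⊤ : Submodule P5 P5)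
      rw [Ideal.smul_top_eq_map, Submodule.restrictScalars_self, Algebra.algebraMap_self, Ideal.map_id]
      refine Submodule.span_induction (p := fun a _ => a * u ∈ Ideal.ofList rs) ?_ ?_ ?_ ?_ ha
      · rintro _ ⟨i, rfl⟩
        exact hu i
      · rw [zero_mul]
        exact Ideal.zero_mem _
      · intro x y _ _ hx hy
        rw [add_mul]
        exact Ideal.add_mem _ hx hy
      · intro c x _ hx
        rw [smul_eq_mul, mul_assoc]
        exact Ideal.mul_mem_left _ _ hx)
  rw [Submodule.Quotient.mk_eq_zero] at key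
  have key' : u ∈ Ideal.ofList rs • (⊤ : Submodule P5 P5) := key
  rw [Ideal.smul_top_eq_map, Submodule.restrictScalars_self, Algebra.algebraMap_self, Ideal.map_id] at key'
  exact key'

end Pool.Agent.Lib.MP_745d3a_ag.PF.PB

/-!
A regular sequence of linear combinations of the `f i`: induction on the length, prime avoidance in
the `ℂ`-span of the `f i` (no associated prime of `P5 / (rs)` contains all `f i`, by `SM.pow_mem` and
`not_ass`).
-/

open MvPolynomial

namespace Pool.Agent.Lib.MP_745d3a_ag.PF.PB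

theorem R2_mem_max {d : ℕ} (hd : 1 ≤ d) {f : Fin 5 → P5} (hf : SM d f) {g : P5}
    (hg : g ∈ Submodule.span ℂ (Set.range f)) : g ∈ Ideal.span (Set.range (X : Fin 5 → P5)) := by
  have h1 : Submodule.span ℂ (Set.range f) ≤
      (Ideal.span (Set.range (X : Fin 5 → P5))).restrictScalars ℂ := by
    rw [Submodule.span_le]
    rintro _ ⟨i, rfl⟩
    have h2 := (mem_pow_idealOfVars_iff' 1 (f i)).2 (by
      intro x hx
      exact (hf.hom i).coeff_eq_zero (by omega))
    rw [pow_one] at h2
    exact h2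
  exact h1 hg

theorem R2_ne_top : (Ideal.span (Set.range (X : Fin 5 → P5))) ≠ ⊤ := by
  intro h
  have h1 : (1 : P5) ∈ Ideal.span (Set.range (X : Fin 5 → P5)) := by rw [h]; trivial
  have h2 := (mem_pow_idealOfVars_iff' (σ := Fin 5) (R := ℂ) 1 1).1 (by rw [pow_one]; exact h1) 0
    (by simp)
  simp at h2

theorem R2_mem_smul (I : Ideal P5) (a : P5) : a ∈ (I • ⊤ : Submodule P5 P5) ↔ a ∈ I := by
  rw [smul_eq_mul, Ideal.mul_top]

theorem R2_ofList_le {rs : List P5} {J : Ideal P5} (h : ∀ r ∈ rs, r ∈ J) : Ideal.ofList rs ≤ J :=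
  Ideal.span_le.2 h

theorem R2_step {d : ℕ} (hd : 1 ≤ d) {f : Fin 5 → P5} (hf : SM d f) (rs : List P5)
    (hrs : RingTheory.Sequence.IsRegular P5 rs)
    (hV : ∀ r ∈ rs, r ∈ Submodule.span ℂ (Set.range f)) (hl : rs.length < 5) :
    ∃ g ∈ Submodule.span ℂ (Set.range f), RingTheory.Sequence.IsRegular P5 (rs ++ [g]) := by
  classical
  obtain ⟨N, hN⟩ := SM.pow_mem hd hf
  have hm : ∀ r ∈ rs, r ∈ Ideal.span (Set.range (X : Fin 5 → P5)) := fun r hr =>
    R2_mem_max hd hf (hV r hr)
  -- no associated prime contains all `f i`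
  have hass : ∀ P ∈ associatedPrimes P5 (P5 ⧸ (Ideal.ofList rs • ⊤ : Submodule P5 P5)),
      ¬ ∀ i, f i ∈ P := by
    intro P hP hfP
    obtain ⟨hPp, x, hx⟩ := isAssociatedPrime_iff.1 hP
    obtain ⟨u, rfl⟩ := Submodule.Quotient.mk_surjective _ x
    have h1 : Ideal.span (Set.range f) ≤ P := Ideal.span_le.2 (by rintro _ ⟨i, rfl⟩; exact hfP i)
    have h2 : ∀ i, (X i : P5) ∈ P := fun i => hPp.mem_of_pow_mem N (h1 (hN i))
    have h3 : ∀ i, X i * u ∈ Ideal.ofList rs := by
      intro i
      have h4 := h2 i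
      rw [hx, Submodule.mem_colon_singleton, Submodule.mem_bot, ← Submodule.Quotient.mk_smul,
        Submodule.Quotient.mk_eq_zero, R2_mem_smul, smul_eq_mul] at h4
      exact h4
    have h5 := not_ass rs hrs hm hl u h3
    apply hPp.ne_top
    rw [Ideal.eq_top_iff_one, hx, Submodule.mem_colon_singleton, Submodule.mem_bot, one_smul,
      Submodule.Quotient.mk_eq_zero, R2_mem_smul]
    exact h5
  have hfin : (associatedPrimes P5 (P5 ⧸ (Ideal.ofList rs • ⊤ : Submodule P5 P5))).Finite :=
    associatedPrimes.finite _ _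
  let V := Submodule.span ℂ (Set.range f)
  let sub : Ideal P5 → Submodule ℂ V := fun P => (P.restrictScalars ℂ).comap V.subtype
  have htop : (⊤ : Submodule ℂ V) ∉ hfin.toFinset.image sub := by
    intro h
    obtain ⟨P, hP, hPt⟩ := Finset.mem_image.1 h
    apply hass P (hfin.mem_toFinset.1 hP)
    intro i
    have h1 : (⟨f i, Submodule.subset_span ⟨i, rfl⟩⟩ : V) ∈ sub P := by rw [hPt]; trivial
    exact h1
  have hne := Subspace.biUnion_ne_univ_of_top_notMem htop
  obtain ⟨g, hg⟩ := (Set.ne_univ_iff_exists_notMem _).1 hne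
  refine ⟨g.1, g.2, ?_⟩
  have hgP : ∀ P ∈ associatedPrimes P5 (P5 ⧸ (Ideal.ofList rs • ⊤ : Submodule P5 P5)),
      g.1 ∉ P := by
    intro P hP hgP
    apply hg
    rw [Set.mem_iUnion₂]
    exact ⟨sub P, Finset.mem_image.2 ⟨P, hfin.mem_toFinset.2 hP, rfl⟩, hgP⟩
  have hreg : IsSMulRegular (P5 ⧸ (Ideal.ofList rs • ⊤ : Submodule P5 P5)) g.1 := by
    by_contra hno
    have h1 : g.1 ∈ ⋃ p ∈ associatedPrimes P5 (P5 ⧸ (Ideal.ofList rs • ⊤ : Submodule P5 P5)),
        (p : Set P5) := by
      rw [biUnion_associatedPrimes_eq_compl_regular]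
      exact hno
    rw [Set.mem_iUnion₂] at h1
    obtain ⟨P, hP, hgP'⟩ := h1
    exact hgP P hP hgP'
  refine ⟨(RingTheory.Sequence.isWeaklyRegular_append_iff P5 rs [g.1]).2
    ⟨hrs.toIsWeaklyRegular, (RingTheory.Sequence.isWeaklyRegular_singleton_iff _ _).2 hreg⟩, ?_⟩
  intro h
  have h1 : Ideal.ofList (rs ++ [g.1]) ≤ Ideal.span (Set.range (X : Fin 5 → P5)) := by
    apply R2_ofList_le
    intro r hr
    rcases List.mem_append.1 hr with hr | hr
    · exact hm r hr
    · rw [List.mem_singleton.1 hr]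
      exact R2_mem_max hd hf g.2
  apply R2_ne_top
  rw [Ideal.eq_top_iff_one]
  apply h1
  rw [← R2_mem_smul, ← h]
  trivial

theorem R2_list {d : ℕ} (hd : 1 ≤ d) {f : Fin 5 → P5} (hf : SM d f) (k : ℕ) (hk : k ≤ 5) :
    ∃ rs : List P5, rs.length = k ∧ RingTheory.Sequence.IsRegular P5 rs ∧
      ∀ r ∈ rs, r ∈ Submodule.span ℂ (Set.range f) := by
  induction k with
  | zero => exact ⟨[], rfl, RingTheory.Sequence.IsRegular.nil P5 P5, fun r hr => by simp at hr⟩
  | succ k ih =>
    obtain ⟨rs, h1, h2, h3⟩ := ih (by omega)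
    obtain ⟨g, hg1, hg2⟩ := R2_step hd hf rs h2 h3 (by omega)
    refine ⟨rs ++ [g], by rw [List.length_append, h1]; rfl, hg2, ?_⟩
    intro r hr
    rcases List.mem_append.1 hr with hr | hr
    · exact h3 r hr
    · rw [List.mem_singleton.1 hr]
      exact hg1

theorem exists_regular_comb {d : ℕ} (hd : 1 ≤ d) {f : Fin 5 → P5} (hf : SM d f) :
    ∃ C : Matrix (Fin 5) (Fin 5) ℂ, IsUnit C.det ∧
      RingTheory.Sequence.IsRegular P5 (List.ofFn fun i => ∑ j, C i j • f j) := by
  obtain ⟨rs, hlen, hreg, hV⟩ := R2_list hd hf 5 le_rfl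
  have h1 : ∀ i : Fin 5, ∃ c : Fin 5 → ℂ, ∑ j, c j • f j = rs[i.1]'(by rw [hlen]; exact i.2) :=
    fun i => (Submodule.mem_span_range_iff_exists_fun ℂ).1 (hV _ (List.getElem_mem _))
  choose C hC using h1
  have hrs : rs = List.ofFn fun i : Fin 5 => ∑ j, C i j • f j := by
    apply List.ext_getElem
    · rw [hlen, List.length_ofFn]
    · intro n h1 h2
      rw [List.getElem_ofFn, hC]
  refine ⟨Matrix.of C, ?_, ?_⟩
  · rw [isUnit_iff_ne_zero]
    intro hdet
    obtain ⟨v, hv0, hv⟩ := Matrix.exists_vecMul_eq_zero_iff.2 hdet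
    -- the relation
    have hrel : ∑ i, v i • (∑ j, C i j • f j) = 0 := by
      have h2 : ∀ j, ∑ i, v i * C i j = 0 := fun j => congrFun hv j
      calc ∑ i, v i • (∑ j, C i j • f j) = ∑ j, (∑ i, v i * C i j) • f j := by
            simp only [Finset.smul_sum, Finset.sum_smul, smul_smul]
            rw [Finset.sum_comm]
        _ = 0 := by simp only [h2, zero_smul, Finset.sum_const_zero]
    -- the largest index
    have hne : (Finset.univ.filter fun i => v i ≠ 0).Nonempty := by
      obtain ⟨i, hi⟩ := Function.ne_iff.1 hv0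
      exact ⟨i, Finset.mem_filter.2 ⟨Finset.mem_univ i, hi⟩⟩
    obtain ⟨k, hk, hmax⟩ := Finset.exists_max_image _ (fun i : Fin 5 => i) hne
    have hvk : v k ≠ 0 := (Finset.mem_filter.1 hk).2
    have hkl : k.1 < rs.length := by rw [hlen]; exact k.2
    have hlow : ∀ i : Fin 5, i ≠ k → v i • (∑ j, C i j • f j) ∈ Ideal.ofList (rs.take k.1) := by
      intro i hik
      by_cases hvi : v i = 0
      · rw [hvi, zero_smul]; exact zero_mem _
      · have hlt : i < k := lt_of_le_of_ne
          (hmax i (Finset.mem_filter.2 ⟨Finset.mem_univ i, hvi⟩)) hik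
        have hmem : (∑ j, C i j • f j) ∈ Ideal.ofList (rs.take k.1) := by
          apply Ideal.subset_span
          change _ ∈ rs.take k.1
          rw [hC, List.mem_take_iff_getElem]
          exact ⟨i.1, by rw [lt_min_iff]; exact ⟨hlt, by rw [hlen]; exact i.2⟩, rfl⟩
        exact Submodule.smul_of_tower_mem _ _ hmem
    have hgk : (rs[k.1]'hkl) ∈ Ideal.ofList (rs.take k.1) := by
      have h3 : v k • (∑ j, C k j • f j) ∈ Ideal.ofList (rs.take k.1) := by
        have h4 := Finset.add_sum_erase Finset.univ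
          (fun i => v i • (∑ j, C i j • f j)) (Finset.mem_univ k)
        rw [hrel] at h4
        rw [eq_neg_of_add_eq_zero_left h4]
        apply neg_mem
        exact Submodule.sum_mem _ fun i hi => hlow i (Finset.ne_of_mem_erase hi)
      have h5 := Submodule.smul_of_tower_mem _ (v k)⁻¹ h3
      rw [smul_smul, inv_mul_cancel₀ hvk, one_smul, hC] at h5
      exact h5
    have h6 := hreg.toIsWeaklyRegular.regular_mod_prev k.1 hkl
    have h7 : (Submodule.Quotient.mk (1 : P5) :
        P5 ⧸ (Ideal.ofList (rs.take k.1) • ⊤ : Submodule P5 P5)) = 0 := by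
      apply h6
      change rs[k.1]'hkl • _ = rs[k.1]'hkl • _
      rw [smul_zero, ← Submodule.Quotient.mk_smul, Submodule.Quotient.mk_eq_zero, R2_mem_smul,
        smul_eq_mul, mul_one]
      exact hgk
    rw [Submodule.Quotient.mk_eq_zero, R2_mem_smul] at h7
    apply hreg.top_ne_smul
    symm
    rw [smul_eq_mul, Ideal.mul_top, Ideal.eq_top_iff_one]
    refine R2_ofList_le ?_ h7
    intro r hr
    exact Ideal.subset_span (List.mem_of_mem_take hr)
  · rw [hrs] at hreg
    exact hreg

end Pool.Agent.Lib.MP_745d3a_ag.PF.PB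

/-!
Freeness along a self-map: independence and generation.

* `ind_of_regular`: more generally, let `N` be a module over a commutative `ℂ`-algebra `A`,
  `f 0, …, f (n-1)` in `A` a regular sequence on `N` (a list), `t : I → N` such that no nontrivial
  `ℂ`-combination of the `t e` is in `(f) N`. Then `∑ c e (f) • t e = 0` with
  polynomials `c e` in `n` variables implies `c e = 0`. Induction on `n` (list `cons`,
  `RingTheory.Sequence.isRegular_cons_iff`, `MvPolynomial.finSuccEquiv`): write
  `c e = ∑ i, Y_0 ^ i * c_{e,i}(Y_1, ..)`. Modulo `f 0` one gets `∑ c_{e,0} (f) t e = 0` in `N / f 0 N`, so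
  `c_{e,0} = 0` for all `e` by induction; `c e = Y_0 * c' e`, `f 0 • ∑ c' e (f) • t e = 0`, so
  `∑ c' e (f) • t e = 0` (`f 0` is regular); the degrees in `Y_0` have dropped: induction on the
  largest degree in `Y_0`.
-/

open MvPolynomial

namespace Pool.Agent.Lib.MP_745d3a_ag.PF.PB

private theorem R3a_split (n : ℕ) (a : MvPolynomial (Fin (n + 1)) ℂ) :
    a = (finSuccEquiv ℂ n).symm (Polynomial.divX (finSuccEquiv ℂ n a)) * X 0 +
      rename Fin.succ ((finSuccEquiv ℂ n a).coeff 0) := by
  apply (finSuccEquiv ℂ n).injective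
  have h1 : finSuccEquiv ℂ n (rename Fin.succ ((finSuccEquiv ℂ n a).coeff 0)) =
      Polynomial.C ((finSuccEquiv ℂ n a).coeff 0) := by
    generalize (finSuccEquiv ℂ n a).coeff 0 = b
    induction b using MvPolynomial.induction_on with
    | C r =>
      rw [rename_C]
      exact (finSuccEquiv ℂ n).commutes r
    | add p q hp hq => rw [map_add, map_add, hp, hq, map_add]
    | mul_X p j hp => rw [map_mul, map_mul, hp, rename_X, finSuccEquiv_X_succ, map_mul]
  rw [map_add, map_mul, AlgEquiv.apply_symm_apply, finSuccEquiv_X_zero, h1,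
    Polynomial.divX_mul_X_add]

private theorem R3a_aeval (n : ℕ) (f : Fin (n + 1) → P5) (a : MvPolynomial (Fin (n + 1)) ℂ) :
    aeval f a = aeval f ((finSuccEquiv ℂ n).symm (Polynomial.divX (finSuccEquiv ℂ n a))) * f 0 +
      aeval (fun i : Fin n => f i.succ) ((finSuccEquiv ℂ n a).coeff 0) := by
  conv_lhs => rw [R3a_split n a]
  rw [map_add, map_mul, aeval_X, aeval_rename]
  rfl

private theorem R3a_map {N N' : Type} [AddCommGroup N] [Module P5 N] [AddCommGroup N']
    [Module P5 N'] (π : N →ₗ[P5] N') {I K : Type} [Zero K] (g : K → P5) (t : I → N) (c : I →₀ K) :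
    (c.sum fun e a => g a • π (t e)) = π (c.sum fun e a => g a • t e) := by
  rw [Finsupp.sum, Finsupp.sum, map_sum]
  apply Finset.sum_congr rfl
  intro e _
  rw [map_smul]

/-- one step of division by `X 0` -/
private theorem R3a_step {n : ℕ} {N N' : Type} [AddCommGroup N] [Module P5 N] [AddCommGroup N']
    [Module P5 N'] (f : Fin (n + 1) → P5) (hf0 : IsSMulRegular N (f 0)) (π : N →ₗ[P5] N')
    (hπ : ∀ y, π (f 0 • y) = 0) {I : Type} (t : I → N)
    (ih : ∀ c : I →₀ MvPolynomial (Fin n) ℂ,
      (c.sum fun e a => (aeval (fun i : Fin n => f i.succ) a : P5) • π (t e)) = 0 → c = 0)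
    (c : I →₀ MvPolynomial (Fin (n + 1)) ℂ)
    (hc : (c.sum fun e a => (aeval f a : P5) • t e) = 0) :
    ∃ c1 : I →₀ MvPolynomial (Fin (n + 1)) ℂ,
      (c1.sum fun e a => (aeval f a : P5) • t e) = 0 ∧ ∀ e, c e = c1 e * X 0 := by
  obtain ⟨c0, hc0⟩ : ∃ c0 : I →₀ MvPolynomial (Fin n) ℂ, c0 =
    c.mapRange (fun a => (finSuccEquiv ℂ n a).coeff 0) (by
      rw [map_zero, Polynomial.coeff_zero]) := ⟨_, rfl⟩
  obtain ⟨c1, hc1⟩ : ∃ c1 : I →₀ MvPolynomial (Fin (n + 1)) ℂ, c1 =
    c.mapRange (fun a => (finSuccEquiv ℂ n).symm (Polynomial.divX (finSuccEquiv ℂ n a))) (by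
      rw [map_zero, Polynomial.divX_zero, map_zero]) := ⟨_, rfl⟩
  have hs : (c.sum fun e a => (aeval f a : P5) • t e) =
      f 0 • (c1.sum fun e a => (aeval f a : P5) • t e) +
      (c0.sum fun e a => (aeval (fun i : Fin n => f i.succ) a : P5) • t e) := by
    rw [hc0, hc1, Finsupp.sum_mapRange_index (fun e => by rw [map_zero, zero_smul]),
      Finsupp.sum_mapRange_index (fun e => by rw [map_zero, zero_smul]),
      Finsupp.smul_sum, ← Finsupp.sum_add]
    apply Finset.sum_congr rfl
    intro e _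
    show (aeval f (c e) : P5) • t e = _
    rw [R3a_aeval n f (c e), add_smul, mul_comm _ (f 0), mul_smul]
  have h0 : c0 = 0 := by
    apply ih c0
    rw [R3a_map π (fun a => (aeval (fun i : Fin n => f i.succ) a : P5)) t c0]
    have h3 : (c0.sum fun e a => (aeval (fun i : Fin n => f i.succ) a : P5) • t e) =
        - (f 0 • (c1.sum fun e a => (aeval f a : P5) • t e)) := by
      rw [hs] at hc
      exact eq_neg_of_add_eq_zero_right hc
    rw [h3, map_neg, hπ, neg_zero]
  refine ⟨c1, ?_, ?_⟩
  · rw [hs, h0, Finsupp.sum_zero_index, add_zero] at hc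
    exact hf0 (by
      show f 0 • _ = f 0 • _
      rw [hc, smul_zero])
  · intro e
    have h1 : (finSuccEquiv ℂ n (c e)).coeff 0 = 0 := by
      have := DFunLike.congr_fun h0 e
      rw [hc0, Finsupp.mapRange_apply, Finsupp.zero_apply] at this
      exact this
    have h2 := R3a_split n (c e)
    rw [h1, map_zero, add_zero] at h2
    rw [hc1, Finsupp.mapRange_apply]
    exact h2

open RingTheory.Sequence in
private theorem R3a_ind (n : ℕ) : ∀ (N : Type) [AddCommGroup N] [Module P5 N] (f : Fin n → P5)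
    (_ : IsWeaklyRegular N (List.ofFn f)) (I : Type) (t : I → N)
    (_ : ∀ c : I →₀ ℂ, (c.sum fun e a => (C a : P5) • t e) ∈
      (Ideal.ofList (List.ofFn f) • ⊤ : Submodule P5 N) → c = 0)
    (c : I →₀ MvPolynomial (Fin n) ℂ) (_ : (c.sum fun e a => (aeval f a : P5) • t e) = 0),
    c = 0 := by
  induction n with
  | zero =>
    intro N _ _ f _ I t ht c hc
    have h1 : c.mapRange (fun a => coeff 0 a) (coeff_zero 0) = 0 := by
      apply ht
      rw [Finsupp.sum_mapRange_index (fun e => by rw [C_0, zero_smul])]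
      have h2 : (c.sum fun e a => (C (coeff 0 a) : P5) • t e) =
          c.sum fun e a => (aeval f a : P5) • t e := by
        apply Finset.sum_congr rfl
        intro e _
        show (C (coeff 0 (c e)) : P5) • t e = (aeval f (c e) : P5) • t e
        congr 1
        conv_rhs => rw [eq_C_of_isEmpty (c e)]
        rw [aeval_C]; rfl
      rw [h2, hc]
      exact Submodule.zero_mem _
    ext1 e
    rw [Finsupp.zero_apply, eq_C_of_isEmpty (c e)]
    have h3 := DFunLike.congr_fun h1 e
    rw [Finsupp.mapRange_apply, Finsupp.zero_apply] at h3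
    rw [h3, C_0]
  | succ n ih =>
    intro N _ _ f hf I t ht c hc
    rw [List.ofFn_succ, isWeaklyRegular_cons_iff] at hf
    obtain ⟨hf0, hfs⟩ := hf
    obtain ⟨π, hπd⟩ : ∃ π : N →ₗ[P5] QuotSMulTop (f 0) N, π = Submodule.mkQ _ := ⟨_, rfl⟩
    have hπs : Function.Surjective π := by rw [hπd]; exact Submodule.mkQ_surjective _
    have hπk : ∀ x, π x = 0 → x ∈ (Ideal.span {f 0} • ⊤ : Submodule P5 N) := by
      intro x hx
      rw [hπd, Submodule.mkQ_apply, Submodule.Quotient.mk_eq_zero] at hx
      rwa [Submodule.ideal_span_singleton_smul]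
    have hπ : ∀ y, π (f 0 • y) = 0 := by
      intro y
      rw [hπd, Submodule.mkQ_apply, Submodule.Quotient.mk_eq_zero]
      exact Submodule.smul_mem_pointwise_smul _ _ _ Submodule.mem_top
    have hts : ∀ c : I →₀ ℂ, (c.sum fun e a => (C a : P5) • π (t e)) ∈
        (Ideal.ofList (List.ofFn fun i : Fin n => f i.succ) • ⊤ :
          Submodule P5 (QuotSMulTop (f 0) N)) → c = 0 := by
      intro c hc
      apply ht
      have h1 : (Ideal.ofList (List.ofFn fun i : Fin n => f i.succ) • ⊤ :
          Submodule P5 (QuotSMulTop (f 0) N)) =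
          (Ideal.ofList (List.ofFn fun i : Fin n => f i.succ) • (⊤ : Submodule P5 N)).map π := by
        rw [Submodule.map_smul'', Submodule.map_top, LinearMap.range_eq_top.2 hπs]
      rw [h1, R3a_map π (fun a => (C a : P5)) t c] at hc
      obtain ⟨y, hy, hyc⟩ := hc
      have h3 : (c.sum fun e a => (C a : P5) • t e) - y ∈
          (Ideal.span {f 0} • ⊤ : Submodule P5 N) := by
        apply hπk
        rw [map_sub, hyc, sub_self]
      have h4 : (Ideal.ofList (List.ofFn f) • ⊤ : Submodule P5 N) =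
          Ideal.span {f 0} • (⊤ : Submodule P5 N) ⊔
            Ideal.ofList (List.ofFn fun i : Fin n => f i.succ) • (⊤ : Submodule P5 N) := by
        rw [List.ofFn_succ, Ideal.ofList_cons, Submodule.sup_smul]
      rw [h4, ← sub_add_cancel (c.sum fun e a => (C a : P5) • t e) y]
      exact Submodule.add_mem_sup h3 hy
    have hstep := R3a_step f hf0 π hπ t (fun c0 hc0 =>
      ih (QuotSMulTop (f 0) N) (fun i : Fin n => f i.succ) hfs I (fun e => π (t e)) hts c0 hc0)
    have hdvd : ∀ k : ℕ, ∀ c : I →₀ MvPolynomial (Fin (n + 1)) ℂ,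
        (c.sum fun e a => (aeval f a : P5) • t e) = 0 → ∀ e, X 0 ^ k ∣ c e := by
      intro k
      induction k with
      | zero =>
        intro c _ e
        rw [pow_zero]; exact one_dvd _
      | succ k ihk =>
        intro c hc e
        obtain ⟨c1, h1, h2⟩ := hstep c hc
        rw [h2 e, pow_succ]
        exact mul_dvd_mul (ihk c1 h1 e) (dvd_refl _)
    ext1 e
    rw [Finsupp.zero_apply]
    by_contra hne
    have h1 := totalDegree_le_of_dvd_of_isDomain (hdvd ((c e).totalDegree + 1) c hc e) hne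
    rw [totalDegree_X_pow] at h1
    omega

theorem ind_of_regular {f : Fin 5 → P5}
    (hr : RingTheory.Sequence.IsRegular P5 (List.ofFn f)) {I : Type} (t : I → P5)
    (ht : ∀ c : I →₀ ℂ, (c.sum fun e a => a • t e) ∈ Ideal.span (Set.range f) → c = 0)
    (c : I →₀ P5) (hc : (c.sum fun e a => sb f a * t e) = 0) : c = 0 := by
  apply R3a_ind 5 P5 f hr.toIsWeaklyRegular I t ?_ c hc
  intro c' hc'
  apply ht
  have h1 : (Ideal.ofList (List.ofFn f) • ⊤ : Submodule P5 P5) = Ideal.span (Set.range f) := by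
    rw [smul_eq_mul, Ideal.mul_top]
    show Ideal.span _ = Ideal.span _
    congr 1
    ext r
    rw [Set.mem_ofPred_eq, List.mem_ofFn]
    rfl
  rw [h1] at hc'
  have h2 : (c'.sum fun e a => a • t e) = c'.sum fun e a => (C a : P5) • t e := by
    apply Finset.sum_congr rfl
    intro e _
    show c' e • t e = (C (c' e) : P5) • t e
    rw [smul_eq_mul, smul_eq_C_mul]
  rw [h2]
  exact hc'

end Pool.Agent.Lib.MP_745d3a_ag.PF.PB

/-!
Freeness along a self-map: independence and generation.

* `span_of_homog`: it is enough to treat homogeneous `s`, by strong induction on the degree `n`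
  (`MvPolynomial.sum_homogeneousComponent`). `s = ∑ a_e • t e + ∑ f i * s i`; take the homogeneous component
  of degree `n` (`t e` and `f i` are homogeneous): the first sum keeps the terms with
  `deg (t e) = n` (or `t e = 0`), and `s i` is replaced by its component of degree `n - d` (zero if `n < d`),
  which is in the set of all `∑ sb f (c e) * t e` by induction; this set is closed under sums and
  under multiplication by `f i = sb f (X i)`.
-/

open MvPolynomial

namespace Pool.Agent.Lib.MP_745d3a_ag.PF.PB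

/-- the additive map `c ↦ ∑ c e (f) t e` -/
noncomputable def R3b_L (f : Fin 5 → P5) {I : Type} (t : I → P5) : (I →₀ P5) →+ P5 :=
  Finsupp.liftAddHom fun e => (AddMonoidHom.mulRight (t e)).comp (sb f).toAddMonoidHom

theorem R3b_L_apply (f : Fin 5 → P5) {I : Type} (t : I → P5) (c : I →₀ P5) :
    R3b_L f t c = c.sum fun e a => sb f a * t e := by
  rw [R3b_L, Finsupp.liftAddHom_apply]
  rfl

theorem R3b_mul (f : Fin 5 → P5) {I : Type} (t : I → P5) {s : P5} (a : P5)
    (hs : s ∈ (R3b_L f t).range) : s * sb f a ∈ (R3b_L f t).range := by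
  obtain ⟨c, rfl⟩ := hs
  refine ⟨c.mapRange (fun x => a * x) (mul_zero a), ?_⟩
  rw [R3b_L_apply, R3b_L_apply, Finsupp.sum_mapRange_index (fun e => by rw [map_zero, zero_mul]),
    mul_comm, Finsupp.mul_sum]
  refine Finsupp.sum_congr fun e _ => ?_
  rw [map_mul, mul_assoc]

theorem R3b_term (f : Fin 5 → P5) {I : Type} (t : I → P5) (e : I) (a : ℂ) :
    a • t e ∈ (R3b_L f t).range := by
  refine ⟨Finsupp.single e (C a), ?_⟩
  rw [R3b_L_apply, Finsupp.sum_single_index (by rw [map_zero, zero_mul]), sb_apply, aeval_C,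
    Algebra.smul_def]

theorem R3b_X (f : Fin 5 → P5) (i : Fin 5) : sb f (X i) = f i := by
  rw [sb_apply, aeval_X]

theorem R3b_comp {p : P5} {m : ℕ} (hp : p.IsHomogeneous m) (n : ℕ) :
    homogeneousComponent n p = if n = m then p else 0 :=
  homogeneousComponent_of_mem ((mem_homogeneousSubmodule m p).2 hp)

theorem R3b_homog {d : ℕ} (hd : 1 ≤ d) {f : Fin 5 → P5} (hf : ∀ i, (f i).IsHomogeneous d)
    {I : Type} (t : I → P5) (hth : ∀ e, ∃ k, (t e).IsHomogeneous k)
    (ht : ∀ s, ∃ c : I →₀ ℂ, s - (c.sum fun e a => a • t e) ∈ Ideal.span (Set.range f))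
    (n : ℕ) : ∀ s : P5, s.IsHomogeneous n → s ∈ (R3b_L f t).range := by
  induction n using Nat.strong_induction_on with
  | _ n ih =>
    intro s hs
    obtain ⟨c, hc⟩ := ht s
    obtain ⟨g, hg⟩ := Ideal.mem_span_range_iff_exists_fun.1 hc
    have h1 : s = (c.sum fun e a => a • t e) + ∑ i, g i * f i := by
      rw [hg]; ring
    have h2 : s = homogeneousComponent n (c.sum fun e a => a • t e)
        + ∑ i, homogeneousComponent n (g i * f i) := by
      have h3 : s = homogeneousComponent n s := by rw [R3b_comp hs, if_pos rfl]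
      conv_lhs => rw [h3, h1, map_add, map_sum]
    rw [h2]
    refine AddSubgroup.add_mem _ ?_ (AddSubgroup.sum_mem _ fun i _ => ?_)
    · unfold Finsupp.sum
      rw [map_sum]
      refine AddSubgroup.sum_mem _ fun e _ => ?_
      obtain ⟨k, hk⟩ := hth e
      rw [map_smul, R3b_comp hk]
      by_cases hkn : n = k
      · rw [if_pos hkn]
        exact R3b_term f t e _
      · rw [if_neg hkn, smul_zero]
        exact AddSubgroup.zero_mem _
    · have h4 : g i * f i = ∑ m ∈ Finset.range ((g i).totalDegree + 1),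
          homogeneousComponent m (g i) * f i := by
        rw [← Finset.sum_mul, sum_homogeneousComponent]
      rw [h4, map_sum]
      refine AddSubgroup.sum_mem _ fun m _ => ?_
      have h5 : (homogeneousComponent m (g i) * f i).IsHomogeneous (m + d) :=
        (homogeneousComponent_isHomogeneous m (g i)).mul (hf i)
      rw [R3b_comp h5]
      by_cases hmn : n = m + d
      · rw [if_pos hmn, ← R3b_X f i]
        exact R3b_mul f t _ (ih m (by omega) _ (homogeneousComponent_isHomogeneous m (g i)))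
      · rw [if_neg hmn]
        exact AddSubgroup.zero_mem _

theorem span_of_homog {d : ℕ} (hd : 1 ≤ d) {f : Fin 5 → P5} (hf : ∀ i, (f i).IsHomogeneous d)
    {I : Type} (t : I → P5) (hth : ∀ e, ∃ k, (t e).IsHomogeneous k)
    (ht : ∀ s, ∃ c : I →₀ ℂ, s - (c.sum fun e a => a • t e) ∈ Ideal.span (Set.range f))
    (s : P5) : ∃ c : I →₀ P5, s = c.sum fun e a => sb f a * t e := by
  have h1 : s ∈ (R3b_L f t).range := by
    rw [← sum_homogeneousComponent s]
    exact AddSubgroup.sum_mem _ fun m _ =>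
      R3b_homog hd hf t hth ht m _ (homogeneousComponent_isHomogeneous m s)
  obtain ⟨c, hc⟩ := h1
  exact ⟨c, by rw [← R3b_L_apply, hc]⟩

end Pool.Agent.Lib.MP_745d3a_ag.PF.PB

/-!
A homogeneous basis of the polynomial ring along a self-map which contains given elements.

Let `g i = ∑ j, C i j • f j` be the regular sequence of `exists_regular_comb`; `Ideal.span (range g) =
Ideal.span (range f)` because `C` is invertible. The classes of the homogeneous polynomials span
`Q := P5 / Ideal.span (range f)` over `ℂ` (every polynomial is the sum of its homogeneous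
components). Extend the independent set `G` to a maximal set `B` of homogeneous polynomials which is
independent in `Q` (`LinearIndepOn.extend`, `exists_linearIndependent_extension` for sets of vectors
in the image, or `LinearIndepOn` with `Set.subset` and Zorn: `exists_linearIndepOn_extension`); its
classes span `Q`. `ind_of_regular` and `span_of_homog` for `g` give `FB (sb g)` for `t = Subtype.val`.
Finally `sb g a = sb f (L a)` where `L a = aeval (fun i => ∑ j, C i j • X j) a` is an automorphism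
of `P5` (inverse: the matrix `C⁻¹`), so `FB (sb g) t` implies `FB (sb f) t`: replace the coefficients `c e`
by `L (c e)` (`Finsupp.mapRange`).
-/

open MvPolynomial

namespace Pool.Agent.Lib.MP_745d3a_ag.PF.PB

/-- The linear substitution of a matrix. -/
private noncomputable def R4_L (C : Matrix (Fin 5) (Fin 5) ℂ) : P5 →ₐ[ℂ] P5 :=
  aeval (fun i => ∑ j, C i j • (X j : P5))

private lemma R4_L_X (C : Matrix (Fin 5) (Fin 5) ℂ) (i : Fin 5) :
    R4_L C (X i) = ∑ j, C i j • (X j : P5) := by
  simp [R4_L]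

private lemma R4_L_comp (C C' : Matrix (Fin 5) (Fin 5) ℂ) (h : C' * C = 1) (a : P5) :
    R4_L C (R4_L C' a) = a := by
  have h1 : (R4_L C).comp (R4_L C') = AlgHom.id ℂ P5 := by
    apply MvPolynomial.algHom_ext
    intro i
    rw [AlgHom.comp_apply, R4_L_X, map_sum]
    have h2 : ∀ j, R4_L C (C' i j • (X j : P5)) = ∑ k, (C' i j * C j k) • (X k : P5) := by
      intro j
      rw [map_smul, R4_L_X, Finset.smul_sum]
      exact Finset.sum_congr rfl fun k _ => by rw [smul_smul]
    simp_rw [h2]
    rw [Finset.sum_comm]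
    have h3 : ∀ k, ∑ j, (C' i j * C j k) • (X k : P5) = ((1 : Matrix (Fin 5) (Fin 5) ℂ) i k) • (X k : P5) := by
      intro k
      rw [← Finset.sum_smul, ← h, Matrix.mul_apply]
    simp_rw [h3, Matrix.one_apply]
    simp
  have h4 := congrArg (fun φ : P5 →ₐ[ℂ] P5 => φ a) h1
  simpa using h4

private lemma R4_sb (C : Matrix (Fin 5) (Fin 5) ℂ) (f : Fin 5 → P5) (a : P5) :
    sb (fun i => ∑ j, C i j • f j) a = sb f (R4_L C a) := by
  have h1 : (aeval (fun i => ∑ j, C i j • f j) : P5 →ₐ[ℂ] P5) = (aeval f : P5 →ₐ[ℂ] P5).comp (R4_L C) := by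
    apply MvPolynomial.algHom_ext
    intro i
    rw [AlgHom.comp_apply, R4_L_X, aeval_X, map_sum]
    exact Finset.sum_congr rfl fun j _ => by rw [map_smul, aeval_X]
  rw [sb_apply, sb_apply, h1, AlgHom.comp_apply]

private lemma R4_le (C : Matrix (Fin 5) (Fin 5) ℂ) (f : Fin 5 → P5) :
    Ideal.span (Set.range fun i => ∑ j, C i j • f j) ≤ Ideal.span (Set.range f) := by
  rw [Ideal.span_le]
  rintro _ ⟨i, rfl⟩
  refine Ideal.sum_mem _ fun j _ => ?_
  rw [MvPolynomial.smul_eq_C_mul]
  exact Ideal.mul_mem_left _ _ (Ideal.subset_span ⟨j, rfl⟩)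

private lemma R4_ideal (C C' : Matrix (Fin 5) (Fin 5) ℂ) (h : C' * C = 1) (f : Fin 5 → P5) :
    Ideal.span (Set.range fun i => ∑ j, C i j • f j) = Ideal.span (Set.range f) := by
  refine le_antisymm (R4_le C f) ?_
  have h1 : (fun i => ∑ j, C' i j • (fun i => ∑ j, C i j • f j) j) = f := by
    funext i
    have h2 : ∀ j, C' i j • (∑ k, C j k • f k) = ∑ k, (C' i j * C j k) • f k := by
      intro j
      rw [Finset.smul_sum]
      exact Finset.sum_congr rfl fun k _ => by rw [smul_smul]
    simp only [h2]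
    rw [Finset.sum_comm]
    have h3 : ∀ k, ∑ j, (C' i j * C j k) • f k = ((1 : Matrix (Fin 5) (Fin 5) ℂ) i k) • f k := by
      intro k
      rw [← Finset.sum_smul, ← h, Matrix.mul_apply]
    simp_rw [h3, Matrix.one_apply]
    simp
  have h4 := R4_le C' (fun i => ∑ j, C i j • f j)
  rw [h1] at h4
  exact h4

theorem exists_fb {d : ℕ} (hd : 1 ≤ d) {f : Fin 5 → P5} (hf : SM d f) (G : Set P5)
    (hG : ∀ g ∈ G, ∃ k, g.IsHomogeneous k)
    (hi : LinearIndepOn ℂ (fun s : P5 => (Ideal.Quotient.mk (Ideal.span (Set.range f)) s)) G) :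
    ∃ B : Set P5, G ⊆ B ∧ (∀ s ∈ B, ∃ k, s.IsHomogeneous k) ∧
      FB (sb f) (fun s : B => (s : P5)) := by
  obtain ⟨C, hC, hreg⟩ := exists_regular_comb hd hf
  have hC1 : C⁻¹ * C = 1 := Matrix.nonsing_inv_mul C hC
  have hC2 : C * C⁻¹ = 1 := Matrix.mul_nonsing_inv C hC
  have hgh : ∀ i, (∑ j, C i j • f j).IsHomogeneous d := by
    intro i
    refine MvPolynomial.IsHomogeneous.sum _ _ _ fun j _ => ?_
    rw [MvPolynomial.smul_eq_C_mul]
    have h1 := (MvPolynomial.isHomogeneous_C (Fin 5) (C i j)).mul (hf.hom j)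
    rwa [zero_add] at h1
  have hI := R4_ideal C C⁻¹ hC1 f
  obtain ⟨B, hB1, hB2, hB3, hB4⟩ := exists_linearIndepOn_extension (t := {s : P5 | ∃ k, s.IsHomogeneous k}) hi hG
  have hspan : ∀ s : P5, ∃ c : B →₀ ℂ,
      s - (c.sum fun e a => a • (e : P5)) ∈ Ideal.span (Set.range fun i => ∑ j, C i j • f j) := by
    intro s
    have h1 : (Ideal.Quotient.mk (Ideal.span (Set.range f)) s) ∈
        Submodule.span ℂ (Set.range fun e : B => (Ideal.Quotient.mk (Ideal.span (Set.range f)) (e : P5))) := by
      have h2 : (Set.range fun e : B => (Ideal.Quotient.mk (Ideal.span (Set.range f)) (e : P5)))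
          = (fun s : P5 => (Ideal.Quotient.mk (Ideal.span (Set.range f)) s)) '' B := by
        rw [Set.image_eq_range]
      rw [h2, ← MvPolynomial.sum_homogeneousComponent s, map_sum]
      refine Submodule.sum_mem _ fun k _ => hB3 ?_
      exact ⟨homogeneousComponent k s, ⟨k, homogeneousComponent_isHomogeneous k s⟩, rfl⟩
    obtain ⟨c, hc⟩ := Finsupp.mem_span_range_iff_exists_finsupp.1 h1
    refine ⟨c, ?_⟩
    rw [hI, ← Ideal.Quotient.eq_zero_iff_mem, map_sub, ← hc, Finsupp.sum, Finsupp.sum, map_sum, sub_eq_zero]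
    exact Finset.sum_congr rfl fun e _ => rfl
  have hind : ∀ c : B →₀ ℂ, (c.sum fun e a => a • (e : P5)) ∈
      Ideal.span (Set.range fun i => ∑ j, C i j • f j) → c = 0 := by
    intro c hc
    rw [hI, ← Ideal.Quotient.eq_zero_iff_mem, Finsupp.sum, map_sum] at hc
    have h1 := (linearIndependent_iff.1 (show LinearIndependent ℂ
      (fun e : B => (Ideal.Quotient.mk (Ideal.span (Set.range f)) (e : P5))) from hB4)) c
    apply h1
    rw [Finsupp.linearCombination_apply, Finsupp.sum, ← hc]
    exact Finset.sum_congr rfl fun e _ => rfl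
  refine ⟨B, hB2, fun s hs => hB1 hs, ⟨fun s => ?_, fun c hc => ?_⟩⟩
  · obtain ⟨c, hc⟩ := span_of_homog hd hgh (fun e : B => (e : P5)) (fun e => hB1 e.2) hspan s
    refine ⟨c.mapRange (R4_L C) (map_zero _), ?_⟩
    rw [Finsupp.sum_mapRange_index (by intro e; simp), hc]
    exact Finsupp.sum_congr fun e _ => by rw [R4_sb]
  · have h1 : (c.mapRange (R4_L C⁻¹) (map_zero _)) = 0 := by
      refine ind_of_regular hreg (fun e : B => (e : P5)) hind _ ?_
      rw [Finsupp.sum_mapRange_index (by intro e; simp), ← hc]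
      exact Finsupp.sum_congr fun e _ => by rw [R4_sb, R4_L_comp C C⁻¹ hC1]
    ext1 e
    have h2 := DFunLike.congr_fun h1 e
    rw [Finsupp.mapRange_apply] at h2
    have h3 := R4_L_comp C C⁻¹ hC1 (c e)
    rw [← h3, h2, Finsupp.coe_zero, Pi.zero_apply, map_zero]

end Pool.Agent.Lib.MP_745d3a_ag.PF.PB

/-!
Semilinear projections.

* `FB.exists_pi`: the coordinates are unique (`FB.ind` for the difference), so
  `π s := (coefficient of t i)` is additive and `π (ψ a * s) = a * π s`.
* `exists_pi_one`: `exists_fb` for `G = {1}` (`1` is not in the ideal: all `f i` are homogeneous of degree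
  `d ≥ 1`), then `FB.exists_pi`.
* `exists_pi_form`: `exists_fb` for `G = {1, g}`. Independence modulo `(f)`: if `α + β • g ∈ (f)` then
  the components of degree `0` and `d` are in `(f)`; degree `0`: `α = 0`; degree `d`: the component of degree
  `d` of an element of `(f)` is in the `ℂ`-span of the `f i`, so `β = 0` because `g` is not
  (`1 ≠ g` because the degrees differ and `g ≠ 0`). `π` is the coordinate of `g`. For `h`
  homogeneous of degree `d`: `h = ∑ sb f (c e) * t e`; taking components of degree `d` (all `t e`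
  homogeneous, `sb f` maps degree `n` to degree `d * n`) one may replace `c e` by its
  homogeneous component of degree `(d - deg (t e)) / d`; by uniqueness `c e` is equal to it (if
  `t e ≠ 0`); for `t e = g` the degree is `0`, so `π h` is constant.
-/

open MvPolynomial

namespace Pool.Agent.Lib.MP_745d3a_ag.PF.PB

/-- The sum with coefficients `c` along `ψ`, as an additive map. -/
noncomputable def A2_phi {S S' I : Type*} [CommRing S] [CommRing S'] (ψ : S →+* S') (t : I → S') :
    (I →₀ S) →+ S' :=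
  Finsupp.liftAddHom (fun e => (AddMonoidHom.mulRight (t e)).comp ψ.toAddMonoidHom)

theorem A2_phi_apply {S S' I : Type*} [CommRing S] [CommRing S'] (ψ : S →+* S') (t : I → S')
    (c : I →₀ S) : A2_phi ψ t c = c.sum fun e a => ψ a * t e := by
  simp only [A2_phi, Finsupp.liftAddHom_apply]
  rfl

theorem A2_phi_single {S S' I : Type*} [CommRing S] [CommRing S'] (ψ : S →+* S') (t : I → S')
    (e : I) (a : S) : A2_phi ψ t (Finsupp.single e a) = ψ a * t e := by
  rw [A2_phi_apply, Finsupp.sum_single_index]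
  rw [map_zero, zero_mul]

theorem A2_phi_smul {S S' I : Type*} [CommRing S] [CommRing S'] (ψ : S →+* S') (t : I → S')
    (a : S) (c : I →₀ S) : A2_phi ψ t (a • c) = ψ a * A2_phi ψ t c := by
  rw [A2_phi_apply, A2_phi_apply, Finsupp.sum_smul_index' (fun i => by rw [map_zero, zero_mul]),
    Finsupp.mul_sum]
  refine Finsupp.sum_congr (fun e _ => ?_)
  rw [smul_eq_mul, map_mul, mul_assoc]

/-- The coordinates as an additive equivalence. -/
noncomputable def A2_equiv {S S' I : Type*} [CommRing S] [CommRing S'] {ψ : S →+* S'} {t : I → S'}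
    (h : FB ψ t) : (I →₀ S) ≃+ S' :=
  AddEquiv.ofBijective (A2_phi ψ t) ⟨by
    rw [injective_iff_map_eq_zero]
    intro c hc
    rw [A2_phi_apply] at hc
    exact h.ind c hc, fun s => by
    obtain ⟨c, hc⟩ := h.span s
    exact ⟨c, by rw [A2_phi_apply]; exact hc.symm⟩⟩

theorem A2_equiv_apply {S S' I : Type*} [CommRing S] [CommRing S'] {ψ : S →+* S'} {t : I → S'}
    (h : FB ψ t) (c : I →₀ S) : A2_equiv h c = A2_phi ψ t c := rfl

/-- The coordinate with index `i`. -/
noncomputable def A2_pi {S S' I : Type*} [CommRing S] [CommRing S'] {ψ : S →+* S'} {t : I → S'}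
    (h : FB ψ t) (i : I) : S' →+ S :=
  (Finsupp.applyAddHom i).comp (A2_equiv h).symm.toAddMonoidHom

theorem A2_pi_apply {S S' I : Type*} [CommRing S] [CommRing S'] {ψ : S →+* S'} {t : I → S'}
    (h : FB ψ t) (i : I) (c : I →₀ S) : A2_pi h i (A2_phi ψ t c) = c i := by
  have h1 : (A2_equiv h).symm (A2_phi ψ t c) = c := by
    rw [← A2_equiv_apply h, AddEquiv.symm_apply_apply]
  change ((A2_equiv h).symm (A2_phi ψ t c)) i = c i
  rw [h1]

theorem A2_surj {S S' I : Type*} [CommRing S] [CommRing S'] {ψ : S →+* S'} {t : I → S'}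
    (h : FB ψ t) (s : S') : ∃ c, s = A2_phi ψ t c := by
  obtain ⟨c, hc⟩ := h.span s
  exact ⟨c, by rw [A2_phi_apply]; exact hc⟩

theorem A2_pi_mul {S S' I : Type*} [CommRing S] [CommRing S'] {ψ : S →+* S'} {t : I → S'}
    (h : FB ψ t) (i : I) (a : S) (s : S') : A2_pi h i (ψ a * s) = a * A2_pi h i s := by
  obtain ⟨c, rfl⟩ := A2_surj h s
  rw [← A2_phi_smul, A2_pi_apply, A2_pi_apply]
  rfl

theorem A2_pi_self {S S' I : Type*} [CommRing S] [CommRing S'] {ψ : S →+* S'} {t : I → S'}
    (h : FB ψ t) (i : I) : A2_pi h i (t i) = 1 := by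
  have h1 : t i = A2_phi ψ t (Finsupp.single i 1) := by
    rw [A2_phi_single, map_one, one_mul]
  rw [h1, A2_pi_apply, Finsupp.single_eq_same]

theorem A2_pi_ne {S S' I : Type*} [CommRing S] [CommRing S'] {ψ : S →+* S'} {t : I → S'}
    (h : FB ψ t) (i e : I) (he : e ≠ i) : A2_pi h i (t e) = 0 := by
  classical
  have h1 : t e = A2_phi ψ t (Finsupp.single e 1) := by
    rw [A2_phi_single, map_one, one_mul]
  rw [h1, A2_pi_apply, Finsupp.single_apply, if_neg he]

theorem FB.exists_pi {S S' I : Type*} [CommRing S] [CommRing S'] {ψ : S →+* S'} {t : I → S'}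
    (h : FB ψ t) (i : I) : ∃ π : S' →+ S, (∀ a s, π (ψ a * s) = a * π s) ∧ π (t i) = 1 ∧
      ∀ e, e ≠ i → π (t e) = 0 := by
  exact ⟨A2_pi h i, A2_pi_mul h i, A2_pi_self h i, fun e he => A2_pi_ne h i e he⟩

theorem A2_constantCoeff {d : ℕ} (hd : 1 ≤ d) {g : P5} (hg : g.IsHomogeneous d) :
    constantCoeff g = 0 := by
  rw [constantCoeff_eq]
  refine hg.coeff_eq_zero ?_
  rw [map_zero]
  omega

theorem A2_ideal_constantCoeff {d : ℕ} (hd : 1 ≤ d) {f : Fin 5 → P5} (hf : SM d f) {a : P5}
    (ha : a ∈ Ideal.span (Set.range f)) : constantCoeff a = 0 := by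
  have h1 : Ideal.span (Set.range f) ≤ RingHom.ker (constantCoeff : P5 →+* ℂ) := by
    rw [Ideal.span_le]
    rintro _ ⟨i, rfl⟩
    exact A2_constantCoeff hd (hf.hom i)
  exact h1 ha

theorem A2_one_ne {d : ℕ} (hd : 1 ≤ d) {f : Fin 5 → P5} (hf : SM d f) :
    (Ideal.Quotient.mk (Ideal.span (Set.range f)) (1 : P5)) ≠ 0 := by
  intro h
  rw [Ideal.Quotient.eq_zero_iff_mem] at h
  have := A2_ideal_constantCoeff hd hf h
  rw [map_one] at this
  exact one_ne_zero this

theorem A2_sb_hom {d : ℕ} {f : Fin 5 → P5} (hf : ∀ i, (f i).IsHomogeneous d) {a : P5} {j : ℕ}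
    (ha : a.IsHomogeneous j) : (sb f a).IsHomogeneous (d * j) := by
  rw [sb_apply]
  exact ha.aeval f hf

theorem A2_comp {d : ℕ} (hd : 1 ≤ d) {f : Fin 5 → P5} (hf : ∀ i, (f i).IsHomogeneous d) {t : P5}
    {k : ℕ} (ht : t.IsHomogeneous k) (a : P5) :
    ∃ a' : P5, homogeneousComponent d (sb f a * t) = sb f a' * t ∧
      (k = d → a' = C (coeff 0 a)) ∧ (a = 0 → a' = 0) := by
  classical
  refine ⟨∑ j ∈ (Finset.range (a.totalDegree + 1)).filter (fun j => d * j + k = d),
    homogeneousComponent j a, ?_, ?_, ?_⟩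
  · have h1 : sb f a * t = ∑ j ∈ Finset.range (a.totalDegree + 1),
        sb f (homogeneousComponent j a) * t := by
      rw [← Finset.sum_mul, ← map_sum, sum_homogeneousComponent]
    rw [h1, map_sum, map_sum, Finset.sum_mul, Finset.sum_filter]
    refine Finset.sum_congr rfl (fun j _ => ?_)
    have h2 : (sb f (homogeneousComponent j a) * t).IsHomogeneous (d * j + k) :=
      (A2_sb_hom hf (homogeneousComponent_isHomogeneous j a)).mul ht
    rw [homogeneousComponent_of_mem ((mem_homogeneousSubmodule _ _).2 h2)]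
    by_cases h3 : d = d * j + k
    · rw [if_pos h3, if_pos h3.symm]
    · rw [if_neg h3, if_neg (fun h => h3 h.symm)]
  · intro hk
    have h1 : (Finset.range (a.totalDegree + 1)).filter (fun j => d * j + k = d) = {0} := by
      ext j
      rw [Finset.mem_filter, Finset.mem_range, Finset.mem_singleton, hk]
      constructor
      · rintro ⟨-, h⟩
        have : d * j = 0 := by omega
        rcases Nat.mul_eq_zero.1 this with h | h
        · omega
        · exact h
      · rintro rfl
        exact ⟨Nat.succ_pos _, by omega⟩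
    rw [h1, Finset.sum_singleton, homogeneousComponent_zero]
  · rintro rfl
    refine Finset.sum_eq_zero (fun j _ => ?_)
    rw [map_zero]

theorem A2_ideal_form {d : ℕ} {f : Fin 5 → P5} (hf : ∀ i, (f i).IsHomogeneous d) {g : P5}
    (hg : g.IsHomogeneous d) (h : g ∈ Ideal.span (Set.range f)) :
    g ∈ Submodule.span ℂ (Set.range f) := by
  classical
  obtain ⟨c, hc⟩ := (Ideal.mem_span_range_iff_exists_fun).1 h
  have h1 : ∀ i, homogeneousComponent d (c i * f i) = C (coeff 0 (c i)) * f i := by
    intro i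
    have h2 : c i * f i = ∑ j ∈ Finset.range ((c i).totalDegree + 1),
        homogeneousComponent j (c i) * f i := by
      rw [← Finset.sum_mul, sum_homogeneousComponent]
    rw [h2, map_sum]
    have h3 : ∀ j ∈ Finset.range ((c i).totalDegree + 1),
        homogeneousComponent d (homogeneousComponent j (c i) * f i) =
          if j = 0 then C (coeff 0 (c i)) * f i else 0 := by
      intro j _
      have h4 : (homogeneousComponent j (c i) * f i).IsHomogeneous (j + d) :=
        (homogeneousComponent_isHomogeneous j (c i)).mul (hf i)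
      rw [homogeneousComponent_of_mem ((mem_homogeneousSubmodule _ _).2 h4)]
      by_cases hj : j = 0
      · rw [if_pos hj, if_pos (by omega), hj, homogeneousComponent_zero]
      · rw [if_neg hj, if_neg (by omega)]
    rw [Finset.sum_congr rfl h3, Finset.sum_ite_eq', if_pos (Finset.mem_range.2 (Nat.succ_pos _))]
  have h5 : g = ∑ i, coeff 0 (c i) • f i := by
    rw [← homogeneousComponent_eq_self hg, ← hc, map_sum]
    refine Finset.sum_congr rfl (fun i _ => ?_)
    rw [h1 i, C_mul']
  rw [h5]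
  exact Submodule.sum_mem _ (fun i _ => Submodule.smul_mem _ _ (Submodule.subset_span ⟨i, rfl⟩))

theorem exists_pi_one {d : ℕ} (hd : 1 ≤ d) {f : Fin 5 → P5} (hf : SM d f) :
    ∃ π : P5 →+ P5, (∀ a s, π (sb f a * s) = a * π s) ∧ π 1 = 1 := by
  obtain ⟨B, hGB, hB, hfb⟩ := exists_fb hd hf {1}
    (fun g hg => ⟨0, by rw [Set.mem_singleton_iff.1 hg]; exact isHomogeneous_one _ _⟩)
    ((linearIndepOn_singleton_iff ℂ).2 (A2_one_ne hd hf))
  obtain ⟨π, h1, h2, -⟩ := hfb.exists_pi (⟨1, hGB rfl⟩ : B)
  exact ⟨π, h1, h2⟩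

theorem exists_pi_form {d : ℕ} (hd : 1 ≤ d) {f : Fin 5 → P5} (hf : SM d f) {g : P5}
    (hg : g.IsHomogeneous d) (hgf : g ∉ Submodule.span ℂ (Set.range f)) :
    ∃ π : P5 →+ P5, (∀ a s, π (sb f a * s) = a * π s) ∧ π 1 = 0 ∧ π g = 1 ∧
      ∀ h : P5, h.IsHomogeneous d → ∃ c : ℂ, π h = C c := by
  classical
  have hg0 : g ≠ 0 := by
    rintro rfl
    exact hgf (Submodule.zero_mem _)
  have h1g : (1 : P5) ≠ g := by
    rintro h
    have h1 := A2_constantCoeff hd hg
    rw [← h, map_one] at h1
    exact one_ne_zero h1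
  obtain ⟨B, hGB, hB, hfb⟩ := exists_fb hd hf {1, g}
    (fun s hs => by
      rcases hs with rfl | hs
      · exact ⟨0, isHomogeneous_one _ _⟩
      · rw [Set.mem_singleton_iff.1 hs]
        exact ⟨d, hg⟩)
    ((LinearIndepOn.pair_iff _ h1g).2 (fun α β hab => by
      have h2 : (α • (1 : P5) + β • g) ∈ Ideal.span (Set.range f) := by
        rw [← Ideal.Quotient.eq_zero_iff_mem]
        exact hab
      have h3 := A2_ideal_constantCoeff hd hf h2
      have hα : α = 0 := by
        simp only [map_add, smul_eq_C_mul, map_mul, constantCoeff_C, A2_constantCoeff hd hg,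
          map_one, mul_one, mul_zero, add_zero] at h3
        exact h3
      refine ⟨hα, ?_⟩
      by_contra hβ
      rw [hα, zero_smul, zero_add] at h2
      have h4 : g ∈ Ideal.span (Set.range f) := by
        have h5 : g = C β⁻¹ * (β • g) := by
          rw [C_mul', smul_smul, inv_mul_cancel₀ hβ, one_smul]
        rw [h5]
        exact Ideal.mul_mem_left _ _ h2
      exact hgf (A2_ideal_form hf.hom hg h4)))
  have m1 : (1 : P5) ∈ B := hGB (Set.mem_insert _ _)
  have mg : g ∈ B := hGB (Set.mem_insert_of_mem _ rfl)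
  refine ⟨A2_pi hfb (⟨g, mg⟩ : B), A2_pi_mul hfb _, ?_, ?_, ?_⟩
  · exact A2_pi_ne hfb (⟨g, mg⟩ : B) (⟨1, m1⟩ : B) (fun h => h1g (congrArg Subtype.val h))
  · exact A2_pi_self hfb (⟨g, mg⟩ : B)
  · intro h hh
    obtain ⟨c, hc⟩ := A2_surj hfb h
    have hk : ∀ e : B, ∃ k, (e : P5).IsHomogeneous k := fun e => hB _ e.2
    choose k hk using hk
    have hx := fun e : B => A2_comp hd hf.hom (hk e) (c e)
    choose a' ha1 ha2 ha3 using hx
    let c' : B →₀ P5 := Finsupp.onFinset c.support a' (fun e he => by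
      rw [Finsupp.mem_support_iff]
      intro h0
      exact he (ha3 e h0))
    have hc' : ∀ e, c' e = a' e := fun e => rfl
    have hsub : c'.support ⊆ c.support := Finsupp.support_onFinset_subset
    have e1 : h = A2_phi (sb f) (fun s : B => (s : P5)) c' := by
      rw [A2_phi_apply, Finsupp.sum_of_support_subset _ hsub _
        (fun i _ => by rw [map_zero, zero_mul])]
      conv_lhs => rw [← homogeneousComponent_eq_self hh, hc, A2_phi_apply, Finsupp.sum, map_sum]
      refine Finset.sum_congr rfl (fun e _ => ?_)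
      rw [hc' e]
      exact ha1 e
    have e2 : c = c' := by
      have := hc.symm.trans e1
      exact (A2_equiv hfb).injective this
    have e3 : k ⟨g, mg⟩ = d := (hk ⟨g, mg⟩).inj_right hg hg0
    refine ⟨coeff 0 (c ⟨g, mg⟩), ?_⟩
    rw [hc, A2_pi_apply]
    conv_lhs => rw [e2]
    rw [hc', ha2 ⟨g, mg⟩ e3]

end Pool.Agent.Lib.MP_745d3a_ag.PF.PB
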