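import Pool.Agent.Lib.MP_745d3a_ag.NV.Final
import Pool.Agent.Lib.MP_745d3a_ag.PB.PA

/-!
Extension of scalars along a self-map; derivations of the coefficients; first order deformations.
-/

set_option autoImplicit false
set_option linter.unusedSectionVars false
set_option linter.unusedSimpArgs false
set_option linter.unusedVariables false

/-!
Extension of scalars: projections, injectivity, matrices.

* `BC.exists_proj`: every `e : E` is `∑ i, s i • j (m i)` (`h.gen`, induction on the span). Put
  `π' e = ∑ i, π (s i) • m i`. Well defined: if `∑ i, s i • j (m i) = 0` then by `h.rel` `s = ∑ u_l • (ψ ∘ r_l)`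
  with `∑ i, r_l i • m i = 0`, so `π (s i) = ∑ l, r_l i * π (u_l)` and `∑ i, π (s i) • m i = 0`. (For two
  representations concatenate them, `Fin.append`, one with a minus sign.) Additive by
  concatenation. One may also define `π'` as the additive map induced on the quotient of
  `(F →₀ S')` (`Finsupp.liftAddHom`) by the kernel of the surjection to `E`.
* `BC.inj`: `π' (j m) = π 1 • m = m` for `π` with `π 1 = 1`.
* `BC.gen2`: if `F` is generated by `m₁, m₂` then `E` is generated by `j m₁, j m₂`.
* `bc_of_matrices`: `j` is induced by the `ψ`-semilinear map `(Fin p → S) → E`,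
  `c ↦ ∑ i, ψ (c i) • mk (U i)`; it kills the rows `r j` by `h1` and their combinations, so it is
  defined on the quotient. `gen`: `mk (Pi.single l 1) = mk (∑ i, V l i • U i)` by `h4`, so it is
  `∑ i, V l i • j (mk e_i)`. `rel`: let `∑ i, c i • j (m i) = 0`, `m i = mk (μ i)`, `μ i : Fin p → S`. Then
  `w = ∑ i, c i • ψ(μ i) : Fin p → S'` satisfies `w * U ∈ span (range s)`; multiply by `V`: `w * U * V ∈ span (ψ r)`
  by `h2`, and `w * U * V - w ∈ span (ψ r)` by `h3`, so `w ∈ span (ψ r)`: `w = ∑ u_j • ψ(r j)`.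
  So the vector `(c, -u)` is a syzygy over `S'` of the vectors `ψ(μ i), ψ(r j)` of `S' ^ p`. Here
  flatness of `ψ` is needed: by `FB ψ t` write `c i = ∑ ψ (c_{i,e}) * t e`, `u j = ∑ ψ (u_{j,e}) * t e`;
  independence of the `t e` gives for every `e`: `∑ i, c_{i,e} • μ i = ∑ j, u_{j,e} • r j` in `S ^ p`, so
  `r_e := (c_{i,e})_i` satisfies `∑ i, c_{i,e} • m i = 0` in `F`, and `c = ∑ e, t e • ψ(r_e)`.
-/

open MvPolynomial

namespace Pool.Agent.Lib.MP_745d3a_ag.PF.PB

private lemma C1_aux {S S' F E : Type*} [CommRing S] [CommRing S'] {ψ : S →+* S'}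
    [AddCommGroup F] [Module S F] [AddCommGroup E] [Module S' E] {j : F →+ E} (h : BC ψ j)
    (π : S' →+ S) (hπ : ∀ a s, π (ψ a * s) = a * π s) (k : ℕ) (m : Fin k → F) (c : Fin k → S')
    (hc : ∑ i, c i • j (m i) = 0) : ∑ i, π (c i) • m i = 0 := by
  have key : ∀ v ∈ Submodule.span S' {v : Fin k → S' | ∃ r : Fin k → S, ∑ i, r i • m i = 0 ∧
      v = fun i => ψ (r i)}, ∀ u : S', ∑ i, π (u * v i) • m i = 0 := by
    intro v hv
    induction hv using Submodule.span_induction with
    | mem v hv =>
      obtain ⟨r, hr, rfl⟩ := hv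
      intro u
      have : ∀ i, π (u * ψ (r i)) • m i = π u • (r i • m i) := by
        intro i
        rw [mul_comm, hπ, mul_comm, mul_smul]
      simp only [this]
      rw [← Finset.smul_sum, hr, smul_zero]
    | zero => intro u; simp
    | add v w _ _ hv hw =>
      intro u
      have : ∀ i, π (u * (v + w) i) • m i = π (u * v i) • m i + π (u * w i) • m i := by
        intro i
        rw [Pi.add_apply, mul_add, map_add, add_smul]
      simp only [this]
      rw [Finset.sum_add_distrib, hv u, hw u, add_zero]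
    | smul a v _ hv =>
      intro u
      have := hv (u * a)
      simpa [Pi.smul_apply, smul_eq_mul, mul_assoc] using this
  have := key c (h.rel k m c hc) 1
  simpa using this

theorem BC.exists_proj {S S' F E : Type*} [CommRing S] [CommRing S'] {ψ : S →+* S'}
    [AddCommGroup F] [Module S F] [AddCommGroup E] [Module S' E] {j : F →+ E} (h : BC ψ j)
    (π : S' →+ S) (hπ : ∀ a s, π (ψ a * s) = a * π s) :
    ∃ π' : E →+ F, ∀ (s : S') (m : F), π' (s • j m) = π s • m := by
  classical
  let Q : (F →₀ S') →ₗ[S'] E := Finsupp.linearCombination S' (fun m => j m)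
  have hQ : Function.Surjective Q := by
    rw [← LinearMap.range_eq_top, Finsupp.range_linearCombination]
    exact h.gen
  let Φ : (F →₀ S') →+ F := Finsupp.liftAddHom (fun m =>
    { toFun := fun s => π s • m
      map_zero' := by simp
      map_add' := fun a b => by rw [map_add, add_smul] })
  have hker : ∀ w, Q w = 0 → Φ w = 0 := by
    intro w hw
    let e := w.support.equivFin
    have h1 : ∑ i, w (e.symm i : F) • j (e.symm i : F) = 0 := by
      rw [← hw]
      change _ = Finsupp.linearCombination S' (fun m => j m) w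
      rw [Finsupp.linearCombination_apply, Finsupp.sum, ← Finset.sum_coe_sort w.support]
      exact Equiv.sum_comp e.symm (fun x : w.support => w (x : F) • j (x : F))
    have h2 := C1_aux h π hπ _ (fun i => (e.symm i : F)) (fun i => w (e.symm i : F)) h1
    rw [← h2]
    change Finsupp.liftAddHom _ w = _
    rw [Finsupp.liftAddHom_apply, Finsupp.sum, ← Finset.sum_coe_sort w.support]
    exact (Equiv.sum_comp e.symm (fun x : w.support => π (w (x : F)) • (x : F))).symm
  let π' : E →+ F := AddMonoidHom.liftOfSurjective Q.toAddMonoidHom hQ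
    ⟨Φ, fun w hw => hker w hw⟩
  refine ⟨π', fun s m => ?_⟩
  have h1 : Q (Finsupp.single m s) = s • j m := by
    change Finsupp.linearCombination S' (fun m => j m) _ = _
    rw [Finsupp.linearCombination_single]
  have h2 : π' (Q (Finsupp.single m s)) = Φ (Finsupp.single m s) :=
    AddMonoidHom.liftOfRightInverse_comp_apply Q.toAddMonoidHom _
      (Function.rightInverse_surjInv hQ) ⟨Φ, fun w hw => hker w hw⟩ (Finsupp.single m s)
  rw [← h1, h2]
  change Finsupp.liftAddHom _ _ = _
  rw [Finsupp.liftAddHom_apply_single]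
  rfl

theorem BC.inj {S S' F E : Type*} [CommRing S] [CommRing S'] {ψ : S →+* S'}
    [AddCommGroup F] [Module S F] [AddCommGroup E] [Module S' E] {j : F →+ E} (h : BC ψ j)
    (π : S' →+ S) (hπ : ∀ a s, π (ψ a * s) = a * π s) (h1 : π 1 = 1) :
    Function.Injective j := by
  obtain ⟨π', hπ'⟩ := h.exists_proj π hπ
  have : Function.LeftInverse π' j := by
    intro m
    have := hπ' 1 m
    rwa [one_smul, h1, one_smul] at this
  exact this.injective

theorem BC.gen2 {S S' F E : Type*} [CommRing S] [CommRing S'] {ψ : S →+* S'}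
    [AddCommGroup F] [Module S F] [AddCommGroup E] [Module S' E] {j : F →+ E} (h : BC ψ j)
    (hF : Gen2 S F) : Gen2 S' E := by
  obtain ⟨m₁, m₂, hm⟩ := hF
  refine ⟨j m₁, j m₂, fun e => ?_⟩
  have he : e ∈ Submodule.span S' (Set.range j) := by rw [h.gen]; trivial
  have hle : Submodule.span S' (Set.range j) ≤ Submodule.span S' {j m₁, j m₂} := by
    rw [Submodule.span_le]
    rintro _ ⟨m, rfl⟩
    obtain ⟨a, b, rfl⟩ := hm m
    rw [map_add, h.sl, h.sl]
    exact Submodule.add_mem _
      (Submodule.smul_mem _ _ (Submodule.subset_span (by simp)))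
      (Submodule.smul_mem _ _ (Submodule.subset_span (by simp)))
  obtain ⟨a, b, hab⟩ := Submodule.mem_span_pair.1 (hle he)
  exact ⟨a, b, hab.symm⟩

end Pool.Agent.Lib.MP_745d3a_ag.PF.PB

/-!
Extension of scalars given by matrices: see the docstring of C1.lean (`bc_of_matrices`).
-/

open MvPolynomial

namespace Pool.Agent.Lib.MP_745d3a_ag.PF.PB

noncomputable def C2_T {S S' I : Type*} [CommRing S] [CommRing S'] (ψ : S →+* S') (t : I → S') :
    (I →₀ S) →ₛₗ[ψ] S' where
  toFun c := c.sum fun e a => ψ a * t e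
  map_add' a b := Finsupp.sum_add_index' (by simp) (by intros; simp [add_mul])
  map_smul' a c := by
    rw [Finsupp.sum_smul_index' (by simp)]
    simp [Finsupp.mul_sum, mul_assoc, Finsupp.sum, Finset.mul_sum]

theorem C2_T_apply {S S' I : Type*} [CommRing S] [CommRing S'] (ψ : S →+* S') (t : I → S')
    (c : I →₀ S) : C2_T ψ t c = c.sum fun e a => ψ a * t e := rfl

noncomputable def C2_phi {S S' : Type*} [CommRing S] [CommRing S'] (ψ : S →+* S') {p p' : ℕ}
    (U : Fin p → Fin p' → S') : (Fin p → S) →ₛₗ[ψ] (Fin p' → S') where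
  toFun c := ∑ i, ψ (c i) • U i
  map_add' a b := by simp [add_smul, Finset.sum_add_distrib]
  map_smul' a c := by simp [Finset.smul_sum, mul_smul]

theorem C2_phi_apply {S S' : Type*} [CommRing S] [CommRing S'] (ψ : S →+* S') {p p' : ℕ}
    (U : Fin p → Fin p' → S') (c : Fin p → S) : C2_phi ψ U c = ∑ i, ψ (c i) • U i := rfl

theorem C2_phi_single {S S' : Type*} [CommRing S] [CommRing S'] (ψ : S →+* S') {p p' : ℕ}
    (U : Fin p → Fin p' → S') (i : Fin p) : C2_phi ψ U (Pi.single i 1) = U i := by
  rw [C2_phi_apply, Finset.sum_eq_single i]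
  · simp
  · intro b _ hb
    simp [hb]
  · simp

theorem C2_vec {S' : Type*} [CommRing S'] {p p' : ℕ} (U : Fin p → Fin p' → S') (w : Fin p → S') :
    (∑ i, w i • U i) = fun l => ∑ i, w i * U i l := by
  funext l
  simp [Finset.sum_apply]

/-- flatness: a relation over S' comes from relations over S -/
theorem C2_flat {S S' I : Type*} [CommRing S] [CommRing S'] {ψ : S →+* S'} {t : I → S'}
    (ht : FB ψ t) {p q k : ℕ} (r : Fin q → Fin p → S) (μ : Fin k → Fin p → S) (c : Fin k → S')
    (hw : (fun x => ∑ i, c i * ψ (μ i x)) ∈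
      Submodule.span S' (Set.range fun (j : Fin q) (i : Fin p) => ψ (r j i))) :
    c ∈ Submodule.span S' {v : Fin k → S' | ∃ y : Fin k → S,
      ∑ i, y i • μ i ∈ Submodule.span S (Set.range r) ∧ v = fun i => ψ (y i)} := by
  classical
  rw [Submodule.mem_span_range_iff_exists_fun] at hw
  obtain ⟨u, hu⟩ := hw
  have hc : ∀ i, ∃ C : I →₀ S, c i = C2_T ψ t C := fun i => ht.span (c i)
  have hv : ∀ j, ∃ C : I →₀ S, u j = C2_T ψ t C := fun j => ht.span (u j)
  choose C hC using hc
  choose V hV using hv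
  have h1 : ∀ x, (∑ i, μ i x • C i) - ∑ j, r j x • V j = 0 := by
    intro x
    apply ht.ind
    rw [← C2_T_apply, map_sub, map_sum, map_sum]
    simp only [LinearMap.map_smulₛₗ, ← hC, ← hV, smul_eq_mul]
    have h2 := congrFun hu x
    simp only [Finset.sum_apply, Pi.smul_apply, smul_eq_mul] at h2
    rw [sub_eq_zero]
    simp only [mul_comm (ψ _)]
    exact h2.symm
  have h3 : ∀ e, ∑ i, C i e • μ i = ∑ j, V j e • r j := by
    intro e
    funext x
    have h4 := DFunLike.congr_fun (h1 x) e
    simp only [Finsupp.sub_apply, Finsupp.finsetSum_apply, Finsupp.smul_apply, smul_eq_mul,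
      Finsupp.coe_zero, Pi.zero_apply, sub_eq_zero] at h4
    simp only [Finset.sum_apply, Pi.smul_apply, smul_eq_mul]
    simp only [mul_comm (C _ _), mul_comm (V _ _)]
    exact h4
  have h5 : c = ∑ e ∈ Finset.univ.biUnion (fun i => (C i).support),
      t e • (fun i => ψ (C i e)) := by
    funext i
    rw [hC i, C2_T_apply, Finsupp.sum_of_support_subset (C i)
      (s := Finset.univ.biUnion (fun i => (C i).support))
      (Finset.subset_biUnion_of_mem (fun i => (C i).support) (Finset.mem_univ i)) _ (by simp)]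
    simp only [Finset.sum_apply, Pi.smul_apply, smul_eq_mul, mul_comm]
  rw [h5]
  refine Submodule.sum_mem _ fun e _ => Submodule.smul_mem _ _ (Submodule.subset_span ?_)
  refine ⟨fun i => C i e, ?_, rfl⟩
  rw [h3 e]
  exact Submodule.sum_mem _ fun j _ => Submodule.smul_mem _ _
    (Submodule.subset_span (Set.mem_range_self j))

theorem bc_of_matrices {S S' I : Type*} [CommRing S] [CommRing S'] {ψ : S →+* S'} {t : I → S'}
    (ht : FB ψ t) {p q p' q' : ℕ} (r : Fin q → Fin p → S) (s : Fin q' → Fin p' → S')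
    (U : Fin p → Fin p' → S') (V : Fin p' → Fin p → S')
    (h1 : ∀ j, (fun l => ∑ i, ψ (r j i) * U i l) ∈ Submodule.span S' (Set.range s))
    (h2 : ∀ j, (fun i => ∑ l, s j l * V l i) ∈
      Submodule.span S' (Set.range fun (j : Fin q) (i : Fin p) => ψ (r j i)))
    (h3 : ∀ i, (fun i' => (∑ l, U i l * V l i') - if i = i' then 1 else 0) ∈
      Submodule.span S' (Set.range fun (j : Fin q) (i : Fin p) => ψ (r j i)))
    (h4 : ∀ l, (fun l' => (∑ i, V l i * U i l') - if l = l' then 1 else 0) ∈
      Submodule.span S' (Set.range s)) :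
    ∃ j : ((Fin p → S) ⧸ Submodule.span S (Set.range r)) →+
      ((Fin p' → S') ⧸ Submodule.span S' (Set.range s)), BC ψ j := by
  classical
  have hr : ∀ c ∈ Submodule.span S (Set.range r),
      ((Submodule.span S' (Set.range s)).mkQ.comp (C2_phi ψ U)) c = 0 := by
    intro c hc
    have h := (Submodule.span_le (p := LinearMap.ker
      ((Submodule.span S' (Set.range s)).mkQ.comp (C2_phi ψ U))) (s := Set.range r)).2 (by
        rintro _ ⟨j, rfl⟩
        show ((Submodule.span S' (Set.range s)).mkQ.comp (C2_phi ψ U)) (r j) = 0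
        rw [LinearMap.comp_apply, Submodule.mkQ_apply, Submodule.Quotient.mk_eq_zero,
          C2_phi_apply, C2_vec]
        exact h1 j)
    exact h hc
  have hj : ∀ c : Fin p → S, (Submodule.liftQ (Submodule.span S (Set.range r))
      ((Submodule.span S' (Set.range s)).mkQ.comp (C2_phi ψ U)) hr)
      (Submodule.Quotient.mk c) = Submodule.Quotient.mk (C2_phi ψ U c) := fun c => rfl
  obtain ⟨J, hJ⟩ : ∃ J : ((Fin p → S) ⧸ Submodule.span S (Set.range r)) →ₛₗ[ψ]
      ((Fin p' → S') ⧸ Submodule.span S' (Set.range s)),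
      ∀ c, J (Submodule.Quotient.mk c) = Submodule.Quotient.mk (C2_phi ψ U c) := ⟨_, hj⟩
  refine ⟨J.toAddMonoidHom, ⟨fun a m => J.map_smulₛₗ a m, ?_, ?_⟩⟩
  · rw [eq_top_iff]
    rintro x -
    obtain ⟨w, rfl⟩ := Submodule.Quotient.mk_surjective _ x
    have e1 : w = ∑ l, w l • (Pi.single l (1 : S') : Fin p' → S') := by
      funext l
      simp [Finset.sum_apply, Pi.single_apply]
    rw [e1]
    rw [← Submodule.mkQ_apply, map_sum]
    refine Submodule.sum_mem _ fun l _ => ?_
    rw [map_smul]
    refine Submodule.smul_mem _ _ ?_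
    have e2 : (Submodule.span S' (Set.range s)).mkQ (Pi.single l (1 : S')) =
        ∑ i, V l i • J (Submodule.Quotient.mk (Pi.single i 1)) := by
      simp only [hJ, C2_phi_single]
      have e3 := h4 l
      rw [← Submodule.Quotient.mk_eq_zero, ← Submodule.mkQ_apply] at e3
      have e4 : (fun l' => (∑ i, V l i * U i l') - if l = l' then (1 : S') else 0) =
          (∑ i, V l i • U i) - Pi.single l (1 : S') := by
        funext l'
        simp [Finset.sum_apply, Pi.single_apply, eq_comm]
      rw [e4, map_sub, sub_eq_zero, map_sum] at e3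
      rw [← e3]
      simp only [map_smul, Submodule.mkQ_apply]
    rw [e2]
    exact Submodule.sum_mem _ fun i _ => Submodule.smul_mem _ _
      (Submodule.subset_span ⟨_, rfl⟩)
  · intro k m c hc
    have hμ : ∀ i, ∃ v : Fin p → S, Submodule.Quotient.mk v = m i := fun i =>
      Submodule.Quotient.mk_surjective _ (m i)
    choose μ hμ using hμ
    have g1 : Fintype.linearCombination S' U (fun x => ∑ i, c i * ψ (μ i x)) ∈
        Submodule.span S' (Set.range s) := by
      rw [← Submodule.Quotient.mk_eq_zero, ← hc]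
      have e1 : Fintype.linearCombination S' U (fun x => ∑ i, c i * ψ (μ i x)) =
          ∑ i, c i • C2_phi ψ U (μ i) := by
        simp only [Fintype.linearCombination_apply, C2_phi_apply, Finset.smul_sum,
          Finset.sum_smul, mul_smul]
        rw [Finset.sum_comm]
      rw [e1, ← Submodule.mkQ_apply, map_sum]
      refine Finset.sum_congr rfl fun i _ => ?_
      rw [map_smul, ← hμ i]
      exact congrArg (fun z => c i • z) (hJ (μ i)).symm
    have g2 : ∀ w ∈ Submodule.span S' (Set.range s), Fintype.linearCombination S' V w ∈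
        Submodule.span S' (Set.range fun (j : Fin q) (i : Fin p) => ψ (r j i)) := by
      intro w hw
      have h := (Submodule.span_le (p := Submodule.comap (Fintype.linearCombination S' V)
        (Submodule.span S' (Set.range fun (j : Fin q) (i : Fin p) => ψ (r j i))))
        (s := Set.range s)).2 (by
          rintro _ ⟨j, rfl⟩
          rw [SetLike.mem_coe, Submodule.mem_comap, Fintype.linearCombination_apply, C2_vec]
          exact h2 j)
      exact h hw
    have g3 : ∀ w : Fin p → S', Fintype.linearCombination S' V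
        (Fintype.linearCombination S' U w) - w ∈
        Submodule.span S' (Set.range fun (j : Fin q) (i : Fin p) => ψ (r j i)) := by
      intro w
      have e1 : Fintype.linearCombination S' V (Fintype.linearCombination S' U w) - w =
          ∑ i, w i • (fun i' => (∑ l, U i l * V l i') - if i = i' then (1 : S') else 0) := by
        funext x
        simp only [Fintype.linearCombination_apply, Finset.sum_apply, Pi.smul_apply,
          Pi.sub_apply, smul_eq_mul, Finset.sum_mul, mul_sub, Finset.mul_sum,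
          Finset.sum_sub_distrib, mul_ite, mul_one, mul_zero, Finset.sum_ite_eq',
          Finset.mem_univ, if_true, mul_assoc]
        rw [Finset.sum_comm]
      rw [e1]
      exact Submodule.sum_mem _ fun i _ => Submodule.smul_mem _ _ (h3 i)
    have g4 : (fun x => ∑ i, c i * ψ (μ i x)) ∈
        Submodule.span S' (Set.range fun (j : Fin q) (i : Fin p) => ψ (r j i)) := by
      have e1 := Submodule.sub_mem _ (g2 _ g1) (g3 (fun x => ∑ i, c i * ψ (μ i x)))
      rwa [sub_sub_cancel] at e1
    have g5 := C2_flat ht r μ c g4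
    refine Submodule.span_mono ?_ g5
    rintro v ⟨y, hy, rfl⟩
    refine ⟨y, ?_, rfl⟩
    rw [← Submodule.Quotient.mk_eq_zero, ← Submodule.mkQ_apply, map_sum] at hy
    rw [← hy]
    refine Finset.sum_congr rfl fun i _ => ?_
    rw [map_smul, Submodule.mkQ_apply, hμ i]

end Pool.Agent.Lib.MP_745d3a_ag.PF.PB

/-!
The derivation of the coefficients.

* `exists_cd`: `Dt p = ∑ e ∈ p.support, monomial e (D (coeff e p))`; `coeff` is then clear (`D 0 = 0`),
  additivity by comparing coefficients; the product rule by comparing coefficients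
  (`MvPolynomial.coeff_mul`: finite sums over the antidiagonal, `D` is a derivation).
* `CD.C`, `CD.X`: coefficients.
* `CD.smul`: `Dt (c • p) = D c • p + c • Dt p`.
* `CD.homog`: `Dt` preserves homogeneity.
* `vh_mul`: with `v a = Dt (sb f a) - sb f (Dt a)`: `v (a * b) = sb f a * v b + sb f b * v a`,
  `v (C c) = 0`, `v (X i) = Dt (f i)`.
* `exists_dq`: `Dt` acts on `Fin p → P5` coordinatewise and maps `∑ c j • s j` to
  `∑ Dt (c j) • s j`, so it preserves the span of the rows and acts on the quotient.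
-/

open MvPolynomial

namespace Pool.Agent.Lib.MP_745d3a_ag.PF.PB

/-- the derivation of the coefficients as a function -/
noncomputable def D0_fun (D : Derivation ℤ ℂ ℂ) (p : P5) : P5 :=
  ∑ e ∈ p.support, monomial e (D (coeff e p))

theorem D0_fun_coeff (D : Derivation ℤ ℂ ℂ) (e : Fin 5 →₀ ℕ) (p : P5) :
    coeff e (D0_fun D p) = D (coeff e p) := by
  classical
  unfold D0_fun
  rw [coeff_sum]
  simp only [coeff_monomial]
  rw [Finset.sum_ite_eq' p.support e (fun e => D (coeff e p))]
  split_ifs with h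
  · rfl
  · rw [MvPolynomial.notMem_support_iff.1 h, map_zero]

theorem exists_cd (D : Derivation ℤ ℂ ℂ) : ∃ Dt : P5 →+ P5, CD D Dt := by
  classical
  refine ⟨AddMonoidHom.mk' (D0_fun D) ?_, ?_, ?_⟩
  · intro a b
    ext e
    rw [coeff_add, D0_fun_coeff, D0_fun_coeff, D0_fun_coeff, coeff_add, map_add]
  · intro a b
    simp only [AddMonoidHom.mk'_apply]
    ext e
    rw [D0_fun_coeff, coeff_mul, coeff_add, coeff_mul, coeff_mul, map_sum,
      ← Finset.sum_add_distrib]
    refine Finset.sum_congr rfl fun x _ => ?_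
    rw [Derivation.leibniz, D0_fun_coeff, D0_fun_coeff, smul_eq_mul, smul_eq_mul]
    ring
  · intro e p
    simp only [AddMonoidHom.mk'_apply]
    exact D0_fun_coeff D e p

theorem CD.map_C {D : Derivation ℤ ℂ ℂ} {Dt : P5 →+ P5} (h : CD D Dt) (c : ℂ) :
    Dt (C c) = C (D c) := by
  classical
  ext e
  rw [h.coeff, coeff_C, coeff_C]
  split_ifs
  · rfl
  · rw [map_zero]

theorem CD.map_X {D : Derivation ℤ ℂ ℂ} {Dt : P5 →+ P5} (h : CD D Dt) (i : Fin 5) :
    Dt (X i) = 0 := by
  classical
  ext e
  rw [h.coeff, coeff_X', coeff_zero]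
  split_ifs
  · exact D.map_one_eq_zero
  · rw [map_zero]

theorem CD.homog {D : Derivation ℤ ℂ ℂ} {Dt : P5 →+ P5} (h : CD D Dt) {p : P5} {d : ℕ}
    (hp : p.IsHomogeneous d) : (Dt p).IsHomogeneous d := by
  intro e he
  refine hp ?_
  intro h0
  rw [h.coeff, h0, map_zero] at he
  exact he rfl

theorem vh_mul {D : Derivation ℤ ℂ ℂ} {Dt : P5 →+ P5} (h : CD D Dt) (f : Fin 5 → P5) (a b : P5) :
    Dt (sb f (a * b)) - sb f (Dt (a * b)) =
      sb f a * (Dt (sb f b) - sb f (Dt b)) + sb f b * (Dt (sb f a) - sb f (Dt a)) := by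
  rw [map_mul, h.mul, h.mul, map_add, map_mul, map_mul]
  ring

theorem vh_C {D : Derivation ℤ ℂ ℂ} {Dt : P5 →+ P5} (h : CD D Dt) (f : Fin 5 → P5) (c : ℂ) :
    Dt (sb f (C c)) - sb f (Dt (C c)) = 0 := by
  have e : ∀ z : ℂ, sb f (C z) = C z := fun z => by
    rw [sb_apply, aeval_C]
    rfl
  rw [e, h.map_C, e, sub_self]

theorem exists_dq {D : Derivation ℤ ℂ ℂ} {Dt : P5 →+ P5} (h : CD D Dt) {p q : ℕ}
    (s : Fin q → Fin p → P5) (hs : ∀ j l, Dt (s j l) = 0) :
    ∃ DE : ((Fin p → P5) ⧸ Submodule.span P5 (Set.range s)) →+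
      ((Fin p → P5) ⧸ Submodule.span P5 (Set.range s)),
      ∀ (a : P5) e, DE (a • e) = Dt a • e + a • DE e := by
  have hadd : ∀ x y : Fin p → P5, (fun i => Dt ((x + y) i)) =
      (fun i => Dt (x i)) + fun i => Dt (y i) := by
    intro x y
    funext i
    simp only [Pi.add_apply, map_add]
  have hsmul : ∀ (a : P5) (x : Fin p → P5), (fun i => Dt ((a • x) i)) =
      Dt a • x + a • fun i => Dt (x i) := by
    intro a x
    funext i
    simp only [Pi.add_apply, Pi.smul_apply, smul_eq_mul, h.mul]
  have hspan : ∀ x ∈ Submodule.span P5 (Set.range s),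
      (fun i => Dt (x i)) ∈ Submodule.span P5 (Set.range s) := by
    intro x hx
    induction hx using Submodule.span_induction with
    | mem x hx =>
      obtain ⟨j, rfl⟩ := hx
      have h0 : (fun i => Dt (s j i)) = 0 := funext fun i => hs j i
      rw [h0]
      exact Submodule.zero_mem _
    | zero =>
      have h0 : (fun i => Dt ((0 : Fin p → P5) i)) = 0 := by
        funext i
        simp only [Pi.zero_apply, map_zero]
      rw [h0]
      exact Submodule.zero_mem _
    | add x y _ _ hx hy =>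
      rw [hadd]
      exact Submodule.add_mem _ hx hy
    | smul a x hx' hx =>
      rw [hsmul]
      exact Submodule.add_mem _ (Submodule.smul_mem _ _ hx') (Submodule.smul_mem _ _ hx)
  have hwd : ∀ x y : Fin p → P5,
      (Submodule.Quotient.mk x : (Fin p → P5) ⧸ Submodule.span P5 (Set.range s)) =
        Submodule.Quotient.mk y →
      (Submodule.Quotient.mk (fun i => Dt (x i)) :
        (Fin p → P5) ⧸ Submodule.span P5 (Set.range s)) =
        Submodule.Quotient.mk (fun i => Dt (y i)) := by
    intro x y hxy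
    rw [Submodule.Quotient.eq] at hxy ⊢
    have h1 := hspan _ hxy
    have h2 : (fun i => Dt ((x - y) i)) = (fun i => Dt (x i)) - fun i => Dt (y i) := by
      funext i
      simp only [Pi.sub_apply, map_sub]
    rwa [h2] at h1
  let g : ((Fin p → P5) ⧸ Submodule.span P5 (Set.range s)) →
      ((Fin p → P5) ⧸ Submodule.span P5 (Set.range s)) := fun e =>
    Submodule.Quotient.mk fun i => Dt ((Submodule.Quotient.mk_surjective _ e).choose i)
  have hg : ∀ x : Fin p → P5, g (Submodule.Quotient.mk x) =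
      Submodule.Quotient.mk fun i => Dt (x i) := fun x =>
    hwd _ _ (Submodule.Quotient.mk_surjective _ (Submodule.Quotient.mk x)).choose_spec
  refine ⟨AddMonoidHom.mk' g ?_, ?_⟩
  · intro e e'
    obtain ⟨x, rfl⟩ := Submodule.Quotient.mk_surjective _ e
    obtain ⟨y, rfl⟩ := Submodule.Quotient.mk_surjective _ e'
    rw [← Submodule.Quotient.mk_add, hg, hg, hg, hadd, Submodule.Quotient.mk_add]
  · intro a e
    obtain ⟨x, rfl⟩ := Submodule.Quotient.mk_surjective _ e
    simp only [AddMonoidHom.mk'_apply]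
    rw [← Submodule.Quotient.mk_smul, hg, hg, hsmul, Submodule.Quotient.mk_add,
      Submodule.Quotient.mk_smul, Submodule.Quotient.mk_smul]

end Pool.Agent.Lib.MP_745d3a_ag.PF.PB

/-!
Derivations of the complex numbers.

Let `k = τ.range` (`RingHom.fieldRange`), an algebraically closed subfield (isomorphic to `ℂ`), so `t ∉ k` is
transcendental over `k` (`IsAlgClosed.algebraMap_surjective_of_isIntegral` or
`IsAlgClosed.algebraMap_bijective_of_isIntegral` for `k(t)`; or: a root of a polynomial over `k` that splits in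
`k`). Extend `{t}` to a transcendence basis `B` of `ℂ` over `k`
(`exists_isTranscendenceBasis_superset`-like, for the algebraically independent set `{t}`). Existence
of a derivation `D` of `ℂ` over `k` with `D t = 1`, `D b = 0` for the other `b ∈ B`: `ℂ` is formally
étale over `A = MvPolynomial B k` (localization at the nonzero elements: fraction field, then an
algebraic, hence separable extension: `Algebra.FormallyEtale.of_isLocalization`,
`Algebra.FormallyEtale.of_isSeparable`, `Algebra.FormallyEtale.comp`), so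
`KaehlerDifferential.tensorKaehlerEquivOfFormallyEtale : ℂ ⊗[A] Ω[A⁄k] ≃ Ω[ℂ⁄k]` and `Ω[A⁄k]` is free on the
`dX_b` (`KaehlerDifferential.mvPolynomialBasis`). Or elementary: the derivation `∂/∂t` of the rational
function field extends to algebraic extensions (`Derivation.liftOfSurjective`.. / Zorn).
-/

open MvPolynomial

namespace Pool.Agent.Lib.MP_745d3a_ag.PF.PB

open TensorProduct IntermediateField.algebraAdjoinAdjoin in
theorem H1_field {F E : Type*} [Field F] [Field E] [Algebra F E] [CharZero F] {t : E}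
    (ht : Transcendental F t) : ∃ D : Derivation F E E, D t = 1 := by
  classical
  have h1 : AlgebraicIndepOn F id ({t} : Set E) :=
    algebraicIndependent_unique_type_iff.mpr ht
  obtain ⟨B, hB, hT⟩ := exists_isTranscendenceBasis_superset h1
  have htB : t ∈ B := hB rfl
  let x : B → E := Subtype.val
  have hx : AlgebraicIndependent F x := hT.1
  let S := Algebra.adjoin F (Set.range x)
  let L := IntermediateField.adjoin F (Set.range x)
  have : Algebra.IsAlgebraic L E := hT.isAlgebraic_field
  have : CharZero L := charZero_of_injective_algebraMap (algebraMap F L).injective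
  have : Algebra.IsSeparable L E := inferInstance
  have e1 : Algebra.FormallyEtale L E := Algebra.FormallyEtale.of_isSeparable L E
  have e2 : Algebra.FormallyEtale S L := Algebra.FormallyEtale.of_isLocalization (nonZeroDivisors S)
  have e3 : Algebra.FormallyEtale S E := Algebra.FormallyEtale.comp S L E
  let i : B := ⟨t, htB⟩
  let D0 : Derivation F S E := Derivation.mk'
    ((aeval x).toLinearMap ∘ₗ (pderiv i).toLinearMap ∘ₗ hx.repr.toLinearMap) (by
      intro a b
      have ha : aeval x (hx.repr a) = (a : E) := hx.aeval_repr a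
      have hb : aeval x (hx.repr b) = (b : E) := hx.aeval_repr b
      show aeval x (pderiv i (hx.repr (a * b))) = (a : E) * aeval x (pderiv i (hx.repr b)) +
        (b : E) * aeval x (pderiv i (hx.repr a))
      rw [map_mul, Derivation.leibniz, smul_eq_mul, smul_eq_mul, map_add, map_mul, map_mul, ha, hb])
  let e := KaehlerDifferential.tensorKaehlerEquivOfFormallyEtale F S E
  let l : E ⊗[S] Ω[S⁄F] →ₗ[E] E := D0.liftKaehlerDifferential.liftBaseChange E
  refine ⟨(l ∘ₗ e.symm.toLinearMap).compDer (KaehlerDifferential.D F E), ?_⟩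
  let s : S := ⟨t, Algebra.subset_adjoin ⟨i, rfl⟩⟩
  have hs : algebraMap S E s = t := rfl
  have h2 : e.symm (KaehlerDifferential.D F E t) = 1 ⊗ₜ KaehlerDifferential.D F S s := by
    rw [← hs]
    exact KaehlerDifferential.tensorKaehlerEquivOfFormallyEtale_symm_D_algebraMap F S E s
  have h3 : hx.repr s = X i := by
    have h4 : hx.aevalEquiv (X i) = s := by
      apply Subtype.ext
      have := hx.algebraMap_aevalEquiv (X i)
      rw [aeval_X] at this
      exact this
    rw [← h4]
    exact hx.aevalEquiv.symm_apply_apply (X i)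
  show l (e.symm (KaehlerDifferential.D F E t)) = 1
  rw [h2]
  show (D0.liftKaehlerDifferential.liftBaseChange E) (1 ⊗ₜ KaehlerDifferential.D F S s) = 1
  rw [LinearMap.liftBaseChange_tmul, one_smul, Derivation.liftKaehlerDifferential_comp_D]
  show aeval x (pderiv i (hx.repr s)) = 1
  rw [h3, pderiv_X_self, map_one]

theorem exists_der (τ : ℂ →+* ℂ) {t : ℂ} (ht : t ∉ Set.range τ) :
    ∃ D : Derivation ℤ ℂ ℂ, (∀ c, D (τ c) = 0) ∧ D t ≠ 0 := by
  classical
  let k : Subfield ℂ := τ.fieldRange
  have hk : IsAlgClosed k := IsAlgClosed.of_ringEquiv ℂ k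
    (RingEquiv.ofBijective τ.rangeRestrictField τ.rangeRestrictField_bijective)
  have htr : Transcendental k t := by
    intro hal
    have hi : IsIntegral k t := hal.isIntegral
    have h1 := minpoly.mem_range_of_degree_eq_one k t
      (IsAlgClosed.degree_eq_one_of_irreducible k (minpoly.irreducible hi))
    obtain ⟨y, hy⟩ := h1
    obtain ⟨c, hc⟩ := y.2
    exact ht ⟨c, hc.trans hy⟩
  obtain ⟨D, hD⟩ := H1_field htr
  refine ⟨D.restrictScalars ℤ, fun c => ?_, ?_⟩
  · have h1 : D (algebraMap k ℂ ⟨τ c, ⟨c, rfl⟩⟩) = 0 := D.map_algebraMap _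
    exact h1
  · show D t ≠ 0
    rw [hD]
    exact one_ne_zero
end Pool.Agent.Lib.MP_745d3a_ag.PF.PB

/-!
The theorem on vector fields in terms of operators, for connections which need not be homogeneous.

`𝓜 d := {m | ε m = d • m}` (additive subgroup); `DirectSum.Decomposition 𝓜` from `Diag ε`
(`exists_comp`, `comp_unique`, `eig_indep`; compare the proof of `gm_op` in NV/Tr.lean, which does this for two
gradings); `GradedSMul`: a weighted homogeneous `a` of degree `k` has `E a = k • a`, then
`IsConn`. `bun_isReflexive`, `bun_finrank`, `bun_free_loc` (NV/Tr.lean) for the coordinates `X`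
(`Coord ℂ X`: `aeval X = id`). `δ` is `ℂ`-linear (`D (C c) = 0`). Homogeneous part of `δ`: `δ₀ m := ∑ d,
comp ε d (δ (comp ε d m))` (finite sum over the components of `m`, `exists_comp`; e.g. define it on the
decomposition). For `a` homogeneous of degree `k` (`E a = k • a`) and `m` of degree `d`, `a • m` has
degree `k + d`, and `comp ε (k + d) (D a • m + a • δ m) = D a • m + a • comp ε d (δ m)` because `D a` has
degree `k` (`D` commutes with `E`: `Coord.der_ext`, `D (X i)` is a linear form), `comp_hsmul`. So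
`δ₀ (a • m) = D a • m + a • δ₀ m` for homogeneous `a`, `m`, hence for all. Apply
`GA.no_vector_field` (NV/Final.lean); a basis of two elements gives `Gen2`.
-/

open MvPolynomial

namespace Pool.Agent.Lib.MP_745d3a_ag.PF.PB

private lemma n1_pow {E : Derivation ℂ P5 P5} (hE : ∀ i, E (X i) = X i) (i : Fin 5) (n : ℕ) :
    E (X i ^ n) = (n : ℂ) • (X i : P5) ^ n := by
  induction n with
  | zero => simp
  | succ n ih =>
    rw [pow_succ, Derivation.leibniz, ih, hE i, smul_eq_mul, smul_eq_mul, Nat.cast_add,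
      Nat.cast_one, add_smul, one_smul, mul_smul_comm, mul_comm (X i) (X i ^ n), add_comm]

private lemma n1_prod {E : Derivation ℂ P5 P5} (hE : ∀ i, E (X i) = X i) (ν : Fin 5 → ℕ)
    (s : Finset (Fin 5)) :
    E (∏ i ∈ s, X i ^ ν i) = (∑ i ∈ s, (ν i : ℂ)) • ∏ i ∈ s, (X i : P5) ^ ν i := by
  classical
  induction s using Finset.induction_on with
  | empty => simp
  | insert a s ha ih =>
    rw [Finset.prod_insert ha, Finset.sum_insert ha, Derivation.leibniz, ih, n1_pow hE,
      smul_eq_mul, smul_eq_mul, add_smul, mul_smul_comm, mul_smul_comm,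
      mul_comm (∏ i ∈ s, X i ^ ν i) (X a ^ ν a), add_comm]

private lemma n1_hom {E : Derivation ℂ P5 P5} (hE : ∀ i, E (X i) = X i) {k : ℤ} {p : P5}
    (hp : IsWeightedHomogeneous (fun _ : Fin 5 => (1 : ℤ)) p k) : E p = (k : ℂ) • p := by
  have h1 : p = ∑ ν ∈ p.support, (coeff ν p) • ∏ i, (X i : P5) ^ ν i := by
    conv_lhs => rw [p.as_sum]
    refine Finset.sum_congr rfl fun ν _ => ?_
    rw [monomial_eq, Finsupp.prod_fintype _ _ (by intro i; simp), smul_eq_C_mul]
  have h2 : ∀ ν ∈ p.support, (∑ i, (ν i : ℂ)) = (k : ℂ) := by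
    intro ν hν
    have h3 := hp (mem_support_iff.mp hν)
    rw [Finsupp.weight_apply, Finsupp.sum_fintype _ _ (by intro i; simp)] at h3
    rw [← h3]
    push_cast
    simp
  conv_lhs => rw [h1]
  conv_rhs => rw [h1]
  rw [map_sum, Finset.smul_sum]
  refine Finset.sum_congr rfl fun ν hν => ?_
  rw [Derivation.map_smul, n1_prod hE, h2 ν hν, smul_comm]

/-- The eigenspaces. -/
private def n1Gr {F : Type} [AddCommGroup F] [Module ℂ F] (ε : F →ₗ[ℂ] F) (d : ℤ) :
    AddSubgroup F where
  carrier := {m | ε m = (d : ℂ) • m}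
  add_mem' := by
    intro a b h1 h3
    show ε (a + b) = _
    rw [map_add, show ε a = _ from h1, show ε b = _ from h3, smul_add]
  zero_mem' := by
    show ε 0 = _
    rw [map_zero, smul_zero]
  neg_mem' := by
    intro a h1
    show ε (-a) = _
    rw [map_neg, show ε a = _ from h1, smul_neg]

private lemma n1Gr_mem {F : Type} [AddCommGroup F] [Module ℂ F] {ε : F →ₗ[ℂ] F} {d : ℤ} {m : F} :
    m ∈ n1Gr ε d ↔ ε m = (d : ℂ) • m := Iff.rfl

private lemma n1Gr_internal {F : Type} [AddCommGroup F] [Module ℂ F] {ε : F →ₗ[ℂ] F}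
    (dE : Diag ε) : DirectSum.IsInternal (n1Gr ε) := by
  classical
  constructor
  · rw [injective_iff_map_eq_zero]
    intro z hz
    have hproj : ∀ (g : ℤ) (i : ℤ) (y : F), y ∈ n1Gr ε i →
        compL dE g y = if i = g then y else 0 := by
      intro g i y hy
      show PF.comp ε g y = _
      by_cases h1 : g = i
      · rw [h1, comp_of_eig hy, if_pos rfl]
      · rw [comp_of_ne hy h1, if_neg (fun h3 => h1 h3.symm)]
    ext g
    rw [DirectSum.coeAddMonoidHom_eq_dfinsuppSum, DFinsupp.sum] at hz
    have h1 := congrArg (fun y => compL dE g y) hz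
    simp only [map_sum, map_zero] at h1
    rw [Finset.sum_congr rfl (fun i _ => hproj g i (z i) (z i).2)] at h1
    rw [Finset.sum_ite_eq'] at h1
    by_cases hg : g ∈ DFinsupp.support z
    · rw [if_pos hg] at h1
      rw [h1]
      rfl
    · have h2 : z g = 0 := by simpa using hg
      rw [h2]
      rfl
  · intro m
    have hm : m ∈ (DirectSum.coeAddMonoidHom (n1Gr ε)).range := by
      obtain ⟨s, hs, _⟩ := exists_comp dE m
      rw [hs]
      refine AddSubgroup.sum_mem _ fun n _ => ?_
      exact ⟨DirectSum.of (fun g => n1Gr ε g) n ⟨PF.comp ε n m, comp_eig dE n m⟩,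
        DirectSum.coeAddMonoidHom_of _ _ _⟩
    obtain ⟨z, hz⟩ := hm
    exact ⟨z, hz⟩

theorem nv_op {F : Type} [AddCommGroup F] [Module ℂ F] [Module P5 F] [IsScalarTower ℂ P5 F]
    {ε : F →ₗ[ℂ] F} {E : Derivation ℂ P5 P5} (hE : ∀ i, E (X i) = X i) (cE : IsConn E ε)
    (dE : Diag ε) (hF : Bun (X : Fin 5 → P5) F) (A : Matrix (Fin 5) (Fin 5) ℂ)
    (hA : ∀ c : ℂ, A ≠ c • (1 : Matrix (Fin 5) (Fin 5) ℂ)) (D : Derivation ℂ P5 P5)
    (hD : ∀ i, D (X i) = ∑ j, A i j • (X j : P5)) (δ : F →+ F)
    (hδ : ∀ (a : P5) (m : F), δ (a • m) = D a • m + a • δ m) : Gen2 P5 F := by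
  classical
  have hcX : Coord ℂ (X : Fin 5 → P5) := by
    constructor
    rw [aeval_X_left]
    exact Function.bijective_id
  have : Module.Finite P5 F := hF.fin
  have : Module.IsReflexive P5 F :=
    GA.bun_isReflexive hcX hF (i₁ := 0) (i₂ := 1) (by decide)
  have hrank : Module.finrank P5 F = 2 := GA.bun_finrank hcX hF
  have hfree : ∀ (p : Ideal P5) [p.IsPrime], (∃ i, (X i : P5) ∉ p) →
      Module.Free (Localization.AtPrime p) (LocalizedModule p.primeCompl F) :=
    fun p _ hi => GA.bun_free_loc hcX hF p hi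
  let iD : DirectSum.Decomposition (n1Gr ε) := (n1Gr_internal dE).chooseDecomposition
  have iG : SetLike.GradedSMul (weightedHomogeneousSubmodule ℂ (fun _ : Fin 5 => (1 : ℤ)))
      (n1Gr ε) := by
    constructor
    intro g h p m hp hm
    have h1 := n1_hom hE hp
    have h3 := n1Gr_mem.1 hm
    rw [vadd_eq_add]
    show ε (p • m) = _
    rw [cE, h1, h3, Int.cast_add, add_smul, smul_assoc, smul_comm p (h : ℂ) m]
  -- `δ` commutes with constants
  have hδc : ∀ (c : ℂ) (m : F), δ (c • m) = c • δ m := by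
    intro c m
    rw [← algebraMap_smul P5 c m, hδ, Derivation.map_algebraMap, zero_smul, zero_add,
      algebraMap_smul]
  -- the homogeneous part
  let δ₀ : F →+ F := (DirectSum.toAddMonoid (fun d : ℤ =>
    (((compL dE d).toAddMonoidHom.comp δ).comp (n1Gr ε d).subtype))).comp
      (DirectSum.decomposeAddEquiv (n1Gr ε)).toAddMonoidHom
  have h0 : ∀ d, ∀ m ∈ n1Gr ε d, δ₀ m = PF.comp ε d (δ m) := by
    intro d m hm
    show DirectSum.toAddMonoid _ (DirectSum.decompose (n1Gr ε) m) = _
    rw [DirectSum.decompose_of_mem (n1Gr ε) hm, DirectSum.toAddMonoid_of]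
    rfl
  have hdeg : ∀ d, ∀ m ∈ n1Gr ε d, δ₀ m ∈ n1Gr ε d := by
    intro d m hm
    rw [h0 d m hm]
    exact comp_eig dE d (δ m)
  have hind : ∀ {P : F → Prop}, (∀ d, ∀ m ∈ n1Gr ε d, P m) → P 0 →
      (∀ a b, P a → P b → P (a + b)) → ∀ m, P m := by
    intro P h1 h2 h3 m
    obtain ⟨s, hs, _⟩ := exists_comp dE m
    rw [hs]
    refine Finset.sum_induction _ P h3 h2 fun d _ => h1 d _ (comp_eig dE d m)
  have hE1 : ∀ i, E (X i) = ((1 : ℤ) : ℂ) • (X i : P5) := by
    intro i; rw [hE i, Int.cast_one, one_smul]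
  have hED : ∀ i, E (D (X i)) = ((1 : ℤ) : ℂ) • D (X i) := by
    intro i
    rw [hD i, map_sum, Finset.smul_sum]
    refine Finset.sum_congr rfl fun j _ => ?_
    rw [Derivation.map_smul, hE1 j, smul_comm]
  have hX : ∀ (i : Fin 5) (m : F), δ₀ ((X i : P5) • m) = D (X i) • m + (X i : P5) • δ₀ m := by
    intro i
    refine hind ?_ ?_ ?_
    · intro d m hm
      have hm' : ε m = (d : ℂ) • m := hm
      have h1 : (X i : P5) • m ∈ n1Gr ε (d + 1) := by
        show ε ((X i : P5) • m) = _
        rw [cE, hE1 i, hm', Int.cast_add, add_smul, smul_assoc, smul_comm (X i : P5) (d : ℂ) m,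
          add_comm]
      rw [h0 _ _ h1, h0 _ _ hm, hδ, comp_add dE, comp_hsmul cE dE (hE1 i), comp_hsmul cE dE (hED i),
        comp_of_eig hm']
    · rw [smul_zero, map_zero, smul_zero, smul_zero, add_zero]
    · intro a b ha hb
      rw [smul_add, map_add, ha, hb, map_add, smul_add, smul_add]
      abel
  have hc0 : ∀ (c : ℂ) (m : F), δ₀ (c • m) = c • δ₀ m := by
    intro c
    refine hind ?_ ?_ ?_
    · intro d m hm
      have hm' : ε m = (d : ℂ) • m := hm
      have h1 : c • m ∈ n1Gr ε d := by
        show ε (c • m) = _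
        rw [map_smul, hm', smul_comm]
      rw [h0 _ _ h1, h0 _ _ hm, hδc, comp_smulK dE]
    · rw [smul_zero, map_zero, smul_zero]
    · intro a b ha hb
      rw [smul_add, map_add, ha, hb, map_add, smul_add]
  have hδ₀ : ∀ (f : P5) (m : F), δ₀ (f • m) = D f • m + f • δ₀ m := by
    intro a
    induction a using MvPolynomial.induction_on with
    | C c =>
      intro m
      have h1 : (C c : P5) = algebraMap ℂ _ c := rfl
      rw [h1, algebraMap_smul, algebraMap_smul, hc0, Derivation.map_algebraMap, zero_smul,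
        zero_add]
    | add p q hp hq =>
      intro m
      rw [add_smul, map_add, hp, hq, map_add, add_smul, add_smul]
      abel
    | mul_X p i hp =>
      intro m
      rw [mul_smul, hp, hX, Derivation.leibniz, add_smul, smul_add, mul_smul]
      simp only [smul_eq_mul, mul_smul]
      rw [smul_comm (X i) (D p) m]
      abel
  obtain ⟨b, d, -⟩ := GA.no_vector_field A hA F hrank hfree (n1Gr ε) D hD δ₀ hδ₀ hdeg
  refine ⟨b 0, b 1, fun m => ⟨b.repr m 0, b.repr m 1, ?_⟩⟩
  have h5 := b.sum_repr m
  rw [Fin.sum_univ_two] at h5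
  exact h5.symm

end Pool.Agent.Lib.MP_745d3a_ag.PF.PB

/-!
First order deformations of a self-map which lift to the pull-back.

Notation: `ψ = sb f`, `v a = Dt (ψ a) - ψ (Dt a)`, so `v (X i) = Dt (f i)` (`CD.map_X`), `v (C c) = 0`,
`v (a * b) = ψ a * v b + ψ b * v a` (`vh_mul`).

* `inf_one`: let `g = Dt (f i0)`, homogeneous of degree `d` (`CD.homog`), suppose `g` is not in
  `span ℂ (range f)`. Take `π` by `exists_pi_form`, `π'` by `BC.exists_proj`. `D' a := π (v a)` is a
  `ℂ`-derivation of `P5` (`Derivation.mk'`): `D' (a * b) = a * D' b + b * D' a`, and `π` is `ℂ`-linear because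
  `π (C c * s) = π (ψ (C c) * s) = C c * π s`. `D' (X i) = π (Dt (f i)) = C (c i)` for constants `c i`, `c i0 = 1`.
  `δ' m := π' (DE (j m))`: `DE (j (a • m)) = DE (ψ a • j m) = Dt (ψ a) • j m + ψ a • DE (j m)`, and
  `π' (ψ a • e) = a • π' e` for all `e` (check on `e = s • j m'`, these generate `E` additively), so
  `δ' (a • m) = π (Dt (ψ a)) • m + a • δ' m` and `π (Dt (ψ a)) = π (v a) + π (ψ (Dt a) * 1) = D' a + Dt a * π 1
  = D' a`. Let `j0 ≠ i0`; multiply by `X j0`: the derivation `D'' = X j0 • D'` has `D'' (X i) = c i • X j0`,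
  i.e. the matrix `A i k = if k = j0 then c i else 0`, not scalar because `A i0 j0 = 1`, `i0 ≠ j0`;
  `δ'' = X j0 • δ'`. `nv_op` gives `Gen2 P5 F`, contradiction.
-/

open MvPolynomial

namespace Pool.Agent.Lib.MP_745d3a_ag.PF.PB

section

variable {d : ℕ} {f : Fin 5 → P5} {F E' : Type} [AddCommGroup F] [Module ℂ F] [Module P5 F]
  [IsScalarTower ℂ P5 F] [AddCommGroup E'] [Module P5 E'] {ε : F →ₗ[ℂ] F}
  {E : Derivation ℂ P5 P5} {j : F →+ E'} {D : Derivation ℤ ℂ ℂ} {Dt : P5 →+ P5}

/-- the defect `v`. -/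
noncomputable def I1a_v (f : Fin 5 → P5) (Dt : P5 →+ P5) : P5 →+ P5 :=
  Dt.comp (sb f).toAddMonoidHom - (sb f).toAddMonoidHom.comp Dt

theorem I1a_v_apply (f : Fin 5 → P5) (Dt : P5 →+ P5) (a : P5) :
    I1a_v f Dt a = Dt (sb f a) - sb f (Dt a) := rfl

theorem I1a_v_mul (f : Fin 5 → P5) (hDt : CD D Dt) (a b : P5) :
    I1a_v f Dt (a * b) = sb f a * I1a_v f Dt b + sb f b * I1a_v f Dt a := by
  rw [I1a_v_apply, I1a_v_apply, I1a_v_apply]
  exact vh_mul hDt f a b

/-- the derivation `D'`. -/
noncomputable def I1a_der (π : P5 →+ P5) (hπ : ∀ a s, π (sb f a * s) = a * π s)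
    (hDt : CD D Dt) : Derivation ℂ P5 P5 :=
  Derivation.mk'
    { toFun := fun a => π (I1a_v f Dt a)
      map_add' := fun a b => by rw [map_add, map_add]
      map_smul' := fun c a => by
        have h1 : c • a = C c * a := MvPolynomial.smul_eq_C_mul a c
        have h2 : I1a_v f Dt (C c) = 0 := by
          rw [I1a_v_apply]; exact vh_C hDt f c
        rw [h1, I1a_v_mul f hDt, h2, mul_zero, add_zero, hπ]
        exact (MvPolynomial.smul_eq_C_mul _ c).symm }
    (fun a b => by
      show π (I1a_v f Dt (a * b)) = a • π (I1a_v f Dt b) + b • π (I1a_v f Dt a)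
      rw [I1a_v_mul f hDt, map_add, hπ, hπ, smul_eq_mul, smul_eq_mul])

theorem I1a_der_apply (π : P5 →+ P5) (hπ : ∀ a s, π (sb f a * s) = a * π s)
    (hDt : CD D Dt) (a : P5) : I1a_der π hπ hDt a = π (I1a_v f Dt a) := rfl

theorem I1a_proj_lin (hj : BC (sb f) j) (π : P5 →+ P5)
    (hπ : ∀ a s, π (sb f a * s) = a * π s) (π' : E' →+ F)
    (hπ' : ∀ (s : P5) (m : F), π' (s • j m) = π s • m) (a : P5) (e : E') :
    π' (sb f a • e) = a • π' e := by
  have key : ∀ e ∈ Submodule.span P5 (Set.range j), ∀ t : P5,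
      π' (sb f a • t • e) = a • π' (t • e) := by
    intro e he
    induction he using Submodule.span_induction with
    | mem x hx =>
      obtain ⟨m, rfl⟩ := hx
      intro t
      rw [smul_smul, hπ', hπ', hπ, mul_smul]
    | zero => intro t; simp
    | add x y _ _ hx hy =>
      intro t
      rw [smul_add, smul_add, map_add, map_add, smul_add, hx, hy]
    | smul s x _ hx =>
      intro t
      rw [smul_smul t s x]
      exact hx (t * s)
  have h1 := key e (by rw [hj.gen]; exact Submodule.mem_top) 1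
  rwa [one_smul] at h1

theorem inf_one (hd : 1 ≤ d) (hf : SM d f) (hE : ∀ i, E (X i) = X i) (cE : IsConn E ε)
    (dE : Diag ε) (hF : Bun (X : Fin 5 → P5) F) (hno : ¬ Gen2 P5 F) (hj : BC (sb f) j)
    (hDt : CD D Dt) (DE : E' →+ E') (hDE : ∀ (a : P5) (e : E'), DE (a • e) = Dt a • e + a • DE e)
    (i : Fin 5) : Dt (f i) ∈ Submodule.span ℂ (Set.range f) := by
  by_contra hg
  obtain ⟨π, hπ, hπ1, hπg, hπh⟩ := exists_pi_form hd hf (hDt.homog (hf.hom i)) hg
  obtain ⟨π', hπ'⟩ := hj.exists_proj π hπ
  have hlin := I1a_proj_lin hj π hπ π' hπ'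
  obtain ⟨j0, hj0⟩ := exists_ne i
  have hvX : ∀ k, I1a_v f Dt (X k) = Dt (f k) := by
    intro k
    rw [I1a_v_apply, hDt.map_X, map_zero, sub_zero, sb_apply, aeval_X]
  have hcex : ∀ k, ∃ c : ℂ, I1a_der π hπ hDt (X k) = C c := by
    intro k
    obtain ⟨c, hc⟩ := hπh (Dt (f k)) (hDt.homog (hf.hom k))
    exact ⟨c, by rw [I1a_der_apply, hvX, hc]⟩
  choose c hc using hcex
  have hci : c i = 1 := by
    have h1 : (C (c i) : P5) = C 1 := by
      rw [← hc i, I1a_der_apply, hvX, hπg, map_one]
    exact C_injective _ _ h1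
  have hδ' : ∀ (a : P5) (m : F), π' (DE (j (a • m))) =
      I1a_der π hπ hDt a • m + a • π' (DE (j m)) := by
    intro a m
    have h1 : π (Dt (sb f a)) = I1a_der π hπ hDt a := by
      have h2 : Dt (sb f a) = I1a_v f Dt a + sb f (Dt a) * 1 := by
        rw [I1a_v_apply]; ring
      rw [h2, map_add, hπ, hπ1, mul_zero, add_zero, I1a_der_apply]
    rw [hj.sl, hDE, map_add, hπ', hlin, h1]
  refine hno (nv_op hE cE dE hF (Matrix.of fun k l => if l = j0 then c k else 0) ?_
    ((X j0 : P5) • I1a_der π hπ hDt) ?_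
    (((DistribSMul.toAddMonoidHom F (X j0 : P5)).comp (π'.comp (DE.comp j)))) ?_)
  · intro b hb
    have h1 := congrFun (congrFun hb i) j0
    rw [Matrix.of_apply, if_pos rfl, Matrix.smul_apply, Matrix.one_apply_ne (Ne.symm hj0),
      smul_zero, hci] at h1
    exact one_ne_zero h1
  · intro k
    rw [Derivation.smul_apply, hc k]
    rw [Finset.sum_eq_single j0]
    · rw [Matrix.of_apply, if_pos rfl, smul_eq_mul, MvPolynomial.smul_eq_C_mul, mul_comm]
    · intro l _ hl
      rw [Matrix.of_apply, if_neg hl, zero_smul]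
    · intro h
      exact absurd (Finset.mem_univ _) h
  · intro a m
    show (X j0 : P5) • π' (DE (j (a • m))) = _
    rw [hδ', smul_add, Derivation.smul_apply, smul_smul, smul_comm (X j0 : P5) a, smul_eq_mul]
    rfl

end

end Pool.Agent.Lib.MP_745d3a_ag.PF.PB

/-!
First order deformations of a self-map which lift to the pull-back.

Notation: `ψ = sb f`, `v a = Dt (ψ a) - ψ (Dt a)`, so `v (X i) = Dt (f i)` (`CD.map_X`), `v (C c) = 0`,
`v (a * b) = ψ a * v b + ψ b * v a` (`vh_mul`).

* `inf_two`: by `inf_one` `Dt (f i) = ∑ j, A i j • f j`. Take `π` by `exists_pi_one`.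
  `δ m := π' (DE (j m) - j (DF m))`; `DE (j (a • m)) - j (DF (a • m)) = v a • j m + ψ a • (DE (j m) - j (DF m))`,
  so `δ (a • m) = D₀ a • m + a • δ m` with `D₀ a = π (v a)`, a `ℂ`-derivation, `D₀ (X i) = π (∑ j, A i j • f j) =
  ∑ j, A i j • X j` (`f j = ψ (X j) * 1`). By `nv_op` `A` is scalar.
-/

open MvPolynomial

namespace Pool.Agent.Lib.MP_745d3a_ag.PF.PB

section

variable {d : ℕ} {f : Fin 5 → P5} {F E' : Type} [AddCommGroup F] [Module ℂ F] [Module P5 F]
  [IsScalarTower ℂ P5 F] [AddCommGroup E'] [Module P5 E'] {ε : F →ₗ[ℂ] F}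
  {E : Derivation ℂ P5 P5} {j : F →+ E'} {D : Derivation ℤ ℂ ℂ} {Dt : P5 →+ P5}

/-- The derivation `a ↦ π (v a)`. -/
private theorem I1b_der (hDt : CD D Dt) (π : P5 →+ P5) (hπ : ∀ a s, π (sb f a * s) = a * π s) :
    ∃ D₀ : Derivation ℂ P5 P5, ∀ a, D₀ a = π (Dt (sb f a) - sb f (Dt a)) := by
  refine ⟨Derivation.mk'
    { toFun := fun a => π (Dt (sb f a) - sb f (Dt a))
      map_add' := ?_
      map_smul' := ?_ } ?_, fun a => rfl⟩
  · intro a b
    rw [← map_add π]
    congr 1
    rw [map_add, map_add, map_add, map_add]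
    ring
  · intro c a
    rw [RingHom.id_apply, smul_eq_C_mul, vh_mul hDt, vh_C hDt, mul_zero, add_zero, hπ,
      smul_eq_C_mul]
  · intro a b
    show π (Dt (sb f (a * b)) - sb f (Dt (a * b))) =
      a • π (Dt (sb f b) - sb f (Dt b)) + b • π (Dt (sb f a) - sb f (Dt a))
    rw [vh_mul hDt, map_add, hπ, hπ, smul_eq_mul, smul_eq_mul]

private theorem I1b_semi (hj : BC (sb f) j) (π : P5 →+ P5)
    (hπ : ∀ a s, π (sb f a * s) = a * π s) (π' : E' →+ F)
    (hπ' : ∀ (s : P5) (m : F), π' (s • j m) = π s • m) (a : P5) (e : E') :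
    π' (sb f a • e) = a • π' e := by
  have he : e ∈ Submodule.span P5 (Set.range j) := by
    rw [hj.gen]
    exact Submodule.mem_top
  have key : ∀ s : P5, π' (sb f a • (s • e)) = a • π' (s • e) := by
    induction he using Submodule.span_induction with
    | mem x hx =>
      obtain ⟨m, rfl⟩ := hx
      intro s
      rw [smul_smul, hπ', hπ', hπ, mul_smul]
    | zero =>
      intro s
      rw [smul_zero, smul_zero, map_zero, smul_zero]
    | add x y _ _ hx hy =>
      intro s
      rw [smul_add, smul_add, map_add, hx, hy, map_add, smul_add]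
    | smul t x _ hx =>
      intro s
      rw [smul_smul s t x]
      exact hx (s * t)
  have := key 1
  rwa [one_smul] at this

theorem inf_two (hd : 1 ≤ d) (hf : SM d f) (hE : ∀ i, E (X i) = X i) (cE : IsConn E ε)
    (dE : Diag ε) (hF : Bun (X : Fin 5 → P5) F) (hno : ¬ Gen2 P5 F) (hj : BC (sb f) j)
    (hDt : CD D Dt) (DE : E' →+ E') (hDE : ∀ (a : P5) (e : E'), DE (a • e) = Dt a • e + a • DE e)
    (DF : F →+ F) (hDF : ∀ (a : P5) (m : F), DF (a • m) = Dt a • m + a • DF m) :
    ∃ c : ℂ, ∀ i, Dt (f i) = c • f i := by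
  have h1 : ∀ i, ∃ c : Fin 5 → ℂ, ∑ k, c k • f k = Dt (f i) := fun i =>
    (Submodule.mem_span_range_iff_exists_fun ℂ).1
      (inf_one hd hf hE cE dE hF hno hj hDt DE hDE i)
  choose A hA using h1
  obtain ⟨π, hπ, hπ1⟩ := exists_pi_one hd hf
  obtain ⟨π', hπ'⟩ := hj.exists_proj π hπ
  obtain ⟨D₀, hD₀⟩ := I1b_der (f := f) hDt π hπ
  by_cases hsc : ∃ c : ℂ, (Matrix.of A) = c • (1 : Matrix (Fin 5) (Fin 5) ℂ)
  · obtain ⟨c, hc⟩ := hsc
    refine ⟨c, fun i => ?_⟩
    rw [← hA i]
    have h2 : ∀ k, A i k = if i = k then c else 0 := by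
      intro k
      have h3 := congrFun (congrFun hc i) k
      rw [Matrix.of_apply, Matrix.smul_apply, Matrix.one_apply, smul_eq_mul] at h3
      rw [h3]
      split_ifs <;> simp
    rw [Finset.sum_eq_single i]
    · rw [h2 i, if_pos rfl]
    · intro k _ hk
      rw [h2 k, if_neg (fun h => hk h.symm), zero_smul]
    · intro h
      exact absurd (Finset.mem_univ i) h
  · exfalso
    apply hno
    have hsb : ∀ k, sb f (X k) = f k := by
      intro k
      rw [sb_apply, aeval_X]
    have hDX : ∀ i, D₀ (X i) = ∑ k, (Matrix.of A) i k • (X k : P5) := by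
      intro i
      rw [hD₀, hDt.map_X, map_zero, sub_zero, hsb, ← hA i, map_sum]
      refine Finset.sum_congr rfl (fun k _ => ?_)
      have h2 : A i k • f k = sb f (A i k • (X k : P5)) * 1 := by
        rw [mul_one, smul_eq_C_mul, smul_eq_C_mul, map_mul, hsb, sb_apply, aeval_C]
        rfl
      rw [h2, hπ, hπ1, mul_one, Matrix.of_apply]
    refine nv_op hE cE dE hF (Matrix.of A) (fun c hc => hsc ⟨c, hc⟩) D₀ hDX
      (π'.comp (DE.comp j - j.comp DF)) ?_
    intro a m
    show π' (DE (j (a • m)) - j (DF (a • m))) = D₀ a • m + a • π' (DE (j m) - j (DF m))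
    have h3 : DE (j (a • m)) - j (DF (a • m)) =
        (Dt (sb f a) - sb f (Dt a)) • j m + sb f a • (DE (j m) - j (DF m)) := by
      rw [hj.sl, hDE, hDF, map_add, hj.sl, hj.sl, sub_smul, smul_sub]
      abel
    rw [h3, map_add, hπ', I1b_semi hj π hπ π' hπ', hD₀]

end

end Pool.Agent.Lib.MP_745d3a_ag.PF.PB
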