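import Pool.Agent.Lib.MP_745d3a_ag.NV.Tr
import Pool.Agent.Lib.MP_745d3a_ag.SB.K0
import Pool.Agent.Lib.MP_745d3a_ag.PB.PA
import Pool.Agent.Lib.MP_745d3a_ag.PB.PB

/-!
Descent of bundles along a self-map; extension of the constants.
-/

set_option autoImplicit false
set_option linter.unusedSectionVars false
set_option linter.unusedSimpArgs false
set_option linter.unusedVariables false

/-!
A module is a bundle if its pull-back is one.

`ψ = sb f`, injective (`FB.ind` for `exists_fb` with `G = {1}`, or with any basis).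

* `sb_finite`: `P5` is generated as a module over `ψ (P5)` by the monomials with exponents `< N`
  (`SM.pow_mem`, `span_of_homog`: these monomials span `P5` modulo `(f)`); so `ψ` is finite and
  integral (`RingHom.Finite.to_isIntegral`).
-/

open MvPolynomial

namespace Pool.Agent.Lib.MP_745d3a_ag.PF.PB

private lemma A3a_fin {A B I : Type*} [CommRing A] [CommRing B] (ψ : A →+* B) [Finite I] (t : I → B)
    (h : ∀ s, ∃ c : I →₀ A, s = c.sum fun e a => ψ a * t e) : ψ.Finite := by
  classical
  let _ := ψ.toAlgebra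
  have hfg : (⊤ : Submodule A B).FG := by
    refine Submodule.fg_def.mpr ⟨Set.range t, Set.finite_range t, ?_⟩
    rw [eq_top_iff]
    intro s _
    obtain ⟨c, rfl⟩ := h s
    refine Submodule.sum_mem _ fun e _ => ?_
    have h1 : ψ (c e) * t e = c e • t e := by
      rw [Algebra.smul_def]; rfl
    show ψ (c e) * t e ∈ _
    rw [h1]
    exact Submodule.smul_mem _ _ (Submodule.subset_span ⟨e, rfl⟩)
  exact ⟨hfg⟩

/-- The monomials with exponents less than `N`. -/
private noncomputable def A3a_t (N : ℕ) (e : Fin 5 → Fin N) : P5 :=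
  monomial (Finsupp.equivFunOnFinite.symm fun i => (e i : ℕ)) 1

private lemma A3a_span {f : Fin 5 → P5} (N : ℕ)
    (hN : ∀ i, (X i : P5) ^ N ∈ Ideal.span (Set.range f)) (s : P5) :
    ∃ c : (Fin 5 → Fin N) →₀ ℂ,
      s - (c.sum fun e a => a • A3a_t N e) ∈ Ideal.span (Set.range f) := by
  classical
  induction s using MvPolynomial.induction_on' with
  | monomial u a =>
    by_cases hu : ∀ i, u i < N
    · refine ⟨Finsupp.single (fun i => ⟨u i, hu i⟩) a, ?_⟩
      rw [Finsupp.sum_single_index (by rw [zero_smul])]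
      have h0 : (Finsupp.equivFunOnFinite.symm fun i => u i) = u := by
        ext i
        rfl
      have h1 : a • A3a_t N (fun i => ⟨u i, hu i⟩) = monomial u a := by
        show a • monomial (Finsupp.equivFunOnFinite.symm fun i => u i) (1 : ℂ) = monomial u a
        rw [smul_monomial, smul_eq_mul, mul_one, h0]
      rw [h1, sub_self]
      exact Ideal.zero_mem _
    · push Not at hu
      obtain ⟨i, hi⟩ := hu
      refine ⟨0, ?_⟩
      rw [Finsupp.sum_zero_index, sub_zero]
      have h1 : monomial u a = monomial (u - Finsupp.single i N) a * (X i : P5) ^ N := by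
        rw [X_pow_eq_monomial, monomial_mul, mul_one]
        congr 1
        rw [tsub_add_cancel_of_le]
        rw [Finsupp.single_le_iff]
        exact hi
      rw [h1]
      exact Ideal.mul_mem_left _ _ (hN i)
  | add p q hp hq =>
    obtain ⟨c, hc⟩ := hp
    obtain ⟨c', hc'⟩ := hq
    refine ⟨c + c', ?_⟩
    have h1 : ((c + c').sum fun e a => a • A3a_t N e) =
        (c.sum fun e a => a • A3a_t N e) + c'.sum fun e a => a • A3a_t N e :=
      Finsupp.sum_add_index' (fun _ => zero_smul _ _) (fun _ _ _ => add_smul _ _ _)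
    rw [h1, add_sub_add_comm]
    exact Ideal.add_mem _ hc hc'

section

variable {d : ℕ} {f : Fin 5 → P5} {F E' : Type} [AddCommGroup F] [Module P5 F]
  [AddCommGroup E'] [Module P5 E'] {j : F →+ E'}

theorem sb_finite (hd : 1 ≤ d) (hf : SM d f) : (sb f).Finite := by
  obtain ⟨N, hN⟩ := SM.pow_mem hd hf
  refine A3a_fin (sb f) (A3a_t N) ?_
  refine span_of_homog hd hf.hom (A3a_t N) ?_ (A3a_span N hN)
  intro e
  exact ⟨_, isHomogeneous_monomial _ rfl⟩

theorem sb_injective (hd : 1 ≤ d) (hf : SM d f) : Function.Injective (sb f) := by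
  obtain ⟨π, h1, h2⟩ := exists_pi_one hd hf
  rw [injective_iff_map_eq_zero]
  intro a ha
  have h3 := h1 a 1
  rw [ha, zero_mul, map_zero, h2, mul_one] at h3
  exact h3.symm

end

end Pool.Agent.Lib.MP_745d3a_ag.PF.PB

/-!
A module is a bundle if its pull-back is one.

`ψ = sb f`, injective (`FB.ind` for `exists_fb` with `G = {1}`, or with any basis).

* `relPrime_sb`: let `c ∣ ψ a`, `c ∣ ψ b`: `ψ a = c * α`, `ψ b = c * β`. Then `β * ψ a = α * ψ b`; write `α, β` in the
  basis `t` of `exists_fb`: `a * β_e = b * α_e` for all `e`, so `b ∣ β_e` (coprime, UFD: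
  `IsRelPrime.dvd_of_dvd_mul_left`), `β = ψ b * γ`, `ψ b = c * ψ b * γ`; if `ψ b ≠ 0` then `c * γ = 1`. If
  `b = 0` then `a` is a unit.
-/

open MvPolynomial

namespace Pool.Agent.Lib.MP_745d3a_ag.PF.PB

section

variable {d : ℕ} {f : Fin 5 → P5} {F E' : Type} [AddCommGroup F] [Module P5 F]
  [AddCommGroup E'] [Module P5 E'] {j : F →+ E'}

theorem relPrime_sb (hd : 1 ≤ d) (hf : SM d f) {a b : P5} (h : IsRelPrime a b) :
    IsRelPrime (sb f a) (sb f b) := by
  obtain ⟨B, -, -, hB⟩ := exists_fb hd hf ∅ (by simp) (by simp)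
  have hsmul : ∀ (x : P5) (c : B →₀ P5),
      ((x • c).sum fun e r => sb f r * (e : P5)) =
        sb f x * c.sum fun e r => sb f r * (e : P5) := by
    intro x c
    rw [Finsupp.sum_smul_index (by simp), Finsupp.mul_sum]
    simp only [map_mul, mul_assoc]
  have hsub : ∀ (c c' : B →₀ P5),
      ((c - c').sum fun e r => sb f r * (e : P5)) =
        (c.sum fun e r => sb f r * (e : P5)) - c'.sum fun e r => sb f r * (e : P5) := by
    intro c c'
    refine Finsupp.sum_sub_index ?_
    intro e r r'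
    rw [map_sub, sub_mul]
  have hinj : ∀ x : P5, sb f x = 0 → x = 0 := by
    intro x hx
    obtain ⟨c, hc⟩ := hB.span 1
    have h0 : x • c = 0 := by
      apply hB.ind
      rw [hsmul, hx, zero_mul]
    have hc0 : c ≠ 0 := by
      rintro rfl
      rw [Finsupp.sum_zero_index] at hc
      exact one_ne_zero hc
    rcases smul_eq_zero.1 h0 with h1 | h1
    · exact h1
    · exact absurd h1 hc0
  intro c hca hcb
  obtain ⟨α, hα⟩ := hca
  obtain ⟨β, hβ⟩ := hcb
  by_cases hb : sb f b = 0
  · have hb0 : b = 0 := hinj b hb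
    rw [hb0, isRelPrime_zero_right] at h
    exact isUnit_of_dvd_unit ⟨α, hα⟩ (h.map (sb f))
  · obtain ⟨cα, hcα⟩ := hB.span α
    obtain ⟨cβ, hcβ⟩ := hB.span β
    have key : a • cβ - b • cα = 0 := by
      apply hB.ind
      rw [hsub, hsmul, hsmul, ← hcα, ← hcβ, hα, hβ]
      ring
    have hdvd : ∀ e, b ∣ cβ e := by
      intro e
      have h1 : a * cβ e - b * cα e = 0 := by
        have := DFunLike.congr_fun key e
        simpa using this
      have h2 : b ∣ a * cβ e := ⟨cα e, by linear_combination h1⟩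
      exact h.symm.dvd_of_dvd_mul_left h2
    have hγ : ∃ cγ : B →₀ P5, cβ = b • cγ := by
      choose g hg using hdvd
      refine ⟨Finsupp.onFinset cβ.support (fun e => if cβ e = 0 then 0 else g e) ?_, ?_⟩
      · intro e he
        rw [Finsupp.mem_support_iff]
        intro h0
        simp [h0] at he
      · ext1 e
        simp only [Finsupp.smul_apply, Finsupp.onFinset_apply, smul_eq_mul]
        split_ifs with h0
        · simp [h0]
        · exact hg e
    obtain ⟨cγ, hcγ⟩ := hγ
    have h3 : β = sb f b * cγ.sum fun e r => sb f r * (e : P5) := by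
      rw [hcβ, hcγ, hsmul]
    have h4 : sb f b * (c * cγ.sum fun e r => sb f r * (e : P5)) = sb f b * 1 := by
      rw [mul_one]
      conv_rhs => rw [hβ, h3]
      ring
    exact IsUnit.of_mul_eq_one _ (mul_left_cancel₀ hb h4)

end

end Pool.Agent.Lib.MP_745d3a_ag.PF.PB

/-!
A module is a bundle if its pull-back is one.

`ψ = sb f`, injective (`FB.ind` for `exists_fb` with `G = {1}`, or with any basis).

* `tf_descend`: `a • m = 0` gives `ψ a • j m = 0`; `j` is injective (`BC.inj`, `exists_pi_one`).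
* `ht_descend`: `ψ a • j m = ψ b • j n`, `relPrime_sb`, `hE.ht`: `j m = ψ b • k`; `m = π' (j m) = b • π' k`
  (`BC.exists_proj` for `π` of `exists_pi_one`; `π' (ψ b • e) = b • π' e` for all `e`).
-/

open MvPolynomial

namespace Pool.Agent.Lib.MP_745d3a_ag.PF.PB

section

variable {d : ℕ} {f : Fin 5 → P5} {F E' : Type} [AddCommGroup F] [Module P5 F]
  [AddCommGroup E'] [Module P5 E'] {j : F →+ E'}

theorem tf_descend (hd : 1 ≤ d) (hf : SM d f) (hj : BC (sb f) j)
    (hE : ∀ (a : P5) (m : E'), a • m = 0 → a = 0 ∨ m = 0) (a : P5) (m : F) (h : a • m = 0) :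
    a = 0 ∨ m = 0 := by
  obtain ⟨π, hπ, hπ1⟩ := exists_pi_one hd hf
  have hinj := hj.inj π hπ hπ1
  have h1 : sb f a • j m = 0 := by rw [← hj.sl, h, map_zero]
  rcases hE _ _ h1 with h2 | h2
  · left
    have h3 := hπ a 1
    rw [h2, zero_mul, map_zero, hπ1, mul_one] at h3
    exact h3.symm
  · right
    exact hinj (by rw [h2, map_zero])

theorem ht_descend (hd : 1 ≤ d) (hf : SM d f) (hj : BC (sb f) j)
    (hE : ∀ a b : P5, IsRelPrime a b → ∀ m n : E', a • m = b • n → ∃ k, m = b • k) (a b : P5)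
    (h : IsRelPrime a b) (m n : F) (hmn : a • m = b • n) : ∃ k, m = b • k := by
  obtain ⟨π, hπ, hπ1⟩ := exists_pi_one hd hf
  obtain ⟨π', hπ'⟩ := hj.exists_proj π hπ
  have h1 : sb f a • j m = sb f b • j n := by rw [← hj.sl, ← hj.sl, hmn]
  obtain ⟨k, hk⟩ := hE _ _ (relPrime_sb hd hf h) _ _ h1
  have h2 : ∀ e : E', ∀ s : P5, π' (sb f b • (s • e)) = b • π' (s • e) := by
    intro e
    have he : e ∈ Submodule.span P5 (Set.range j) := by rw [hj.gen]; exact Submodule.mem_top
    induction he using Submodule.span_induction with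
    | mem x hx =>
      obtain ⟨y, rfl⟩ := hx
      intro s
      rw [smul_smul, hπ', hπ', hπ, mul_smul]
    | zero =>
      intro s
      rw [smul_zero, smul_zero, map_zero, smul_zero]
    | add x y _ _ hx hy =>
      intro s
      rw [smul_add, smul_add, map_add, map_add, hx s, hy s, smul_add]
    | smul r x _ hx =>
      intro s
      rw [smul_smul s r x]
      exact hx (s * r)
  refine ⟨π' k, ?_⟩
  have h3 := hπ' 1 m
  rw [one_smul, hπ1, one_smul, hk] at h3
  have h4 := h2 k 1
  rw [one_smul] at h4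
  rw [← h4, h3]

end

end Pool.Agent.Lib.MP_745d3a_ag.PF.PB

/-!
A module is a bundle if its pull-back is one: local freeness.

`ψ = sb f`. Let `p` be prime, `X i0 ∉ p`.
1. There is a prime `P` with `P.comap ψ = p` (`Ideal.exists_ideal_over_prime_of_isIntegral`,
   `sb_finite`, `sb_injective`). `f i0 = ψ (X i0) ∉ P`, so some `X i ∉ P` (`f i0` is homogeneous of degree
   `d ≥ 1`, hence in the ideal of the `X i`).
2. `hE.lf P`: `T ∉ P`, `e₁, e₂` with `T • e ∈ ⟨e₁, e₂⟩` for all `e`, independent.
3. Let `m 1, …, m n` generate `F`; the `j (m i)` generate `E'` (`hj.gen`, `hj.sl`). `T • j (m i) = a i • e₁ + b i • e₂`,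
   `e₁ = ∑ u i • j (m i)`, `e₂ = ∑ w i • j (m i)`; multiply by `T` and compare: `T = ∑ u i * a i`, `0 = ∑ u i * b i`,
   `0 = ∑ w i * a i`, `T = ∑ w i * b i`. So `T ^ 2 = ∑ i k, u i * w k * (a i * b k - b i * a k)` is not in `P`: for some
   `i, k` the element `δ = a i * b k - b i * a k` is not in `P`. `δ • e₁ = T • (b k • j (m i) - b i • j (m k))`, the same
   for `e₂`, so `(δ * T) • E' ⊆ ⟨j (m i), j (m k)⟩`, `T' := δ * T ∉ P`.
4. For every `l`: `T' • j (m l) = α • j (m i) + β • j (m k)`. By `hj.rel` for the triple `m l, m i, m k` the vector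
   `(T', -α, -β)` is a combination of vectors `ψ(r)`, `r` a syzygy of the triple; as `T' ∉ P` one of them has
   `ψ (r 0) ∉ P`, so `r 0 ∉ p` and `r 0 • m l ∈ ⟨m i, m k⟩`. Take `s` the product over `l`.
5. Independence: `a • m i + b • m k = 0` gives `ψ a • j (m i) + ψ b • j (m k) = 0`, multiply by `T`: `ψ a * a i + ψ b * a k = 0`,
   `ψ a * b i + ψ b * b k = 0`, so `δ * ψ a = 0`, `ψ a = 0`, `a = 0`; the same for `b`.
-/

open MvPolynomial

namespace Pool.Agent.Lib.MP_745d3a_ag.PF.PB

private lemma A4_over {R S : Type*} [CommRing R] [CommRing S] [IsDomain S] (φ : R →+* S)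
    (hφ : φ.Finite) (hinj : Function.Injective φ) (p : Ideal R) (hp : p.IsPrime) :
    ∃ Q : Ideal S, Q.IsPrime ∧ Q.comap φ = p := by
  letI := φ.toAlgebra
  haveI : Module.Finite R S := hφ
  haveI : Algebra.IsIntegral R S := inferInstance
  haveI := hp
  have hk : RingHom.ker (algebraMap R S) ≤ p := by
    have h1 : RingHom.ker (algebraMap R S) = ⊥ :=
      (RingHom.injective_iff_ker_eq_bot (algebraMap R S)).1 hinj
    rw [h1]
    exact bot_le
  exact Ideal.exists_ideal_over_prime_of_isIntegral_of_isDomain p hk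

private lemma A4_exists_X {d : ℕ} (hd : 1 ≤ d) (g : P5) (hg : g.IsHomogeneous d) (P : Ideal P5)
    (hgP : g ∉ P) : ∃ i, (X i : P5) ∉ P := by
  by_contra hc
  push Not at hc
  apply hgP
  have h1 : g ∈ Ideal.span ((X : Fin 5 → P5) '' Set.univ) := by
    rw [mem_ideal_span_X_image]
    intro e he
    have h2 := hg (mem_support_iff.1 he)
    by_contra h3
    push Not at h3
    have h4 : e = 0 := by
      ext i
      exact h3 i (Set.mem_univ i)
    rw [h4] at h2
    simp at h2
    omega
  refine (Ideal.span_le.2 ?_) h1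
  rintro _ ⟨i, _, rfl⟩
  exact hc i

private lemma A4_mem {P : Ideal P5} (hP : P.IsPrime) {n : ℕ} (a b u w : Fin n → P5) (T : P5)
    (hT : T ∉ P) (h1 : ∑ i, u i * a i = T) (h2 : ∑ i, u i * b i = 0)
    (h4 : ∑ i, w i * b i = T) (h3 : ∑ i, w i * a i = 0) :
    ∃ i k, a i * b k - b i * a k ∉ P := by
  by_contra hc
  push Not at hc
  have h5 : T * T ∈ P := by
    have h6 : T * T = ∑ i, ∑ k, (u i * w k) * (a i * b k - b i * a k) := by
      have h7 : T * T = (∑ i, u i * a i) * (∑ k, w k * b k) -
          (∑ i, u i * b i) * (∑ k, w k * a k) := by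
        rw [h1, h2, h4]; ring
      rw [h7, Finset.sum_mul_sum, Finset.sum_mul_sum, ← Finset.sum_sub_distrib]
      refine Finset.sum_congr rfl fun i _ => ?_
      rw [← Finset.sum_sub_distrib]
      exact Finset.sum_congr rfl fun k _ => by ring
    rw [h6]
    exact P.sum_mem fun i _ => P.sum_mem fun k _ => P.mul_mem_left _ (hc i k)
  rcases hP.mem_or_mem h5 with h | h <;> exact hT h

theorem lf_descend {d : ℕ} {f : Fin 5 → P5} {F E' : Type} [AddCommGroup F] [Module P5 F]
    [AddCommGroup E'] [Module P5 E'] {j : F →+ E'} (hd : 1 ≤ d) (hf : SM d f)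
    (hj : BC (sb f) j) [Module.Finite P5 F]
    (hE : ∀ P : Ideal P5, P.IsPrime → (∃ i, (X i : P5) ∉ P) → ∃ s, s ∉ P ∧ ∃ m₁ m₂ : E',
      (∀ m, ∃ a b : P5, s • m = a • m₁ + b • m₂) ∧
        ∀ a b : P5, a • m₁ + b • m₂ = 0 → a = 0 ∧ b = 0)
    (p : Ideal P5) (hp : p.IsPrime) (hX : ∃ i, (X i : P5) ∉ p) : ∃ s, s ∉ p ∧ ∃ m₁ m₂ : F,
      (∀ m, ∃ a b : P5, s • m = a • m₁ + b • m₂) ∧
        ∀ a b : P5, a • m₁ + b • m₂ = 0 → a = 0 ∧ b = 0 := by
  classical
  obtain ⟨P, hP, hPp⟩ := A4_over (sb f) (sb_finite hd hf) (sb_injective hd hf) p hp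
  obtain ⟨i0, hi0⟩ := hX
  have hfi : f i0 ∉ P := by
    intro h
    apply hi0
    rw [← hPp, Ideal.mem_comap]
    have : sb f (X i0) = f i0 := by rw [sb_apply, aeval_X]
    rw [this]
    exact h
  obtain ⟨i1, hi1⟩ := A4_exists_X hd (f i0) (hf.hom i0) P hfi
  obtain ⟨T, hT, e₁, e₂, hgen, hind⟩ := hE P hP ⟨i1, hi1⟩
  obtain ⟨n, m, hm⟩ := Module.Finite.exists_fin (R := P5) (M := F)
  have hspan : ∀ e : E', e ∈ Submodule.span P5 (Set.range fun i => j (m i)) := by
    have h1 : Submodule.span P5 (Set.range j) ≤ Submodule.span P5 (Set.range fun i => j (m i)) := by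
      rw [Submodule.span_le]
      rintro _ ⟨x, rfl⟩
      have hx : x ∈ Submodule.span P5 (Set.range m) := by rw [hm]; trivial
      obtain ⟨c, hc⟩ := (Submodule.mem_span_range_iff_exists_fun P5).1 hx
      rw [← hc, map_sum]
      refine Submodule.sum_mem _ fun i _ => ?_
      rw [hj.sl]
      exact Submodule.smul_mem _ _ (Submodule.subset_span ⟨i, rfl⟩)
    intro e
    apply h1
    rw [hj.gen]
    trivial
  choose a b hab using fun i => hgen (j (m i))
  obtain ⟨u, hu⟩ := (Submodule.mem_span_range_iff_exists_fun P5).1 (hspan e₁)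
  obtain ⟨w, hw⟩ := (Submodule.mem_span_range_iff_exists_fun P5).1 (hspan e₂)
  have hcomb : ∀ v : Fin n → P5, T • ∑ i, v i • j (m i) =
      (∑ i, v i * a i) • e₁ + (∑ i, v i * b i) • e₂ := by
    intro v
    rw [Finset.smul_sum, Finset.sum_smul, Finset.sum_smul, ← Finset.sum_add_distrib]
    refine Finset.sum_congr rfl fun i _ => ?_
    rw [smul_comm T (v i), hab i, smul_add, smul_smul, smul_smul]
  have hue := hcomb u
  have hwe := hcomb w
  rw [hu] at hue
  rw [hw] at hwe
  have hu2 := hind (T - ∑ i, u i * a i) (-∑ i, u i * b i) (by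
    rw [sub_smul, neg_smul, hue]; abel)
  have hw2 := hind (-∑ i, w i * a i) (T - ∑ i, w i * b i) (by
    rw [sub_smul, neg_smul, hwe]; abel)
  obtain ⟨i, k, hδ⟩ := A4_mem hP a b u w T hT (sub_eq_zero.1 hu2.1).symm (neg_eq_zero.1 hu2.2)
    (sub_eq_zero.1 hw2.2).symm (neg_eq_zero.1 hw2.1)
  set δ := a i * b k - b i * a k with hδdef
  have hδ1 : δ • e₁ = (T * b k) • j (m i) - (T * b i) • j (m k) := by
    have h1 : (T * b k) • j (m i) = b k • (T • j (m i)) := by rw [smul_smul, mul_comm]
    have h2 : (T * b i) • j (m k) = b i • (T • j (m k)) := by rw [smul_smul, mul_comm]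
    rw [h1, h2, hab i, hab k, hδdef]
    module
  have hδ2 : δ • e₂ = (T * a i) • j (m k) - (T * a k) • j (m i) := by
    have h1 : (T * a i) • j (m k) = a i • (T • j (m k)) := by rw [smul_smul, mul_comm]
    have h2 : (T * a k) • j (m i) = a k • (T • j (m i)) := by rw [smul_smul, mul_comm]
    rw [h1, h2, hab i, hab k, hδdef]
    module
  have hT' : δ * T ∉ P := fun h => (hP.mem_or_mem h).elim hδ hT
  have hall : ∀ e : E', ∃ α β : P5, (δ * T) • e = α • j (m i) + β • j (m k) := by
    intro e
    obtain ⟨x, y, hxy⟩ := hgen e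
    refine ⟨x * (T * b k) - y * (T * a k), y * (T * a i) - x * (T * b i), ?_⟩
    have h1 : (δ * T) • e = x • (δ • e₁) + y • (δ • e₂) := by
      rw [mul_smul, hxy]
      module
    rw [h1, hδ1, hδ2]
    module
  have hl : ∀ l, ∃ s, s ∉ p ∧ ∃ x y : P5, s • m l = x • m i + y • m k := by
    intro l
    obtain ⟨α, β, hαβ⟩ := hall (j (m l))
    have hrel := hj.rel 3 ![m l, m i, m k] ![δ * T, -α, -β] (by
      rw [Fin.sum_univ_three]
      simp only [Matrix.cons_val_zero, Matrix.cons_val_one, Matrix.cons_val]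
      rw [hαβ]
      module)
    have hex : ∃ r : Fin 3 → P5, ∑ i', r i' • (![m l, m i, m k] : Fin 3 → F) i' = 0 ∧
        sb f (r 0) ∉ P := by
      by_contra hc
      push Not at hc
      apply hT'
      have h2 : (Submodule.span P5 {v : Fin 3 → P5 | ∃ r : Fin 3 → P5,
          ∑ i', r i' • (![m l, m i, m k] : Fin 3 → F) i' = 0 ∧ v = fun i' => sb f (r i')}) ≤
          Submodule.comap (LinearMap.proj (R := P5) (φ := fun _ : Fin 3 => P5) 0) P := by
        rw [Submodule.span_le]
        rintro v ⟨r, hr, rfl⟩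
        exact hc r hr
      exact h2 hrel
    obtain ⟨r, hr, hr0⟩ := hex
    refine ⟨r 0, ?_, -r 1, -r 2, ?_⟩
    · rw [← hPp, Ideal.mem_comap]
      exact hr0
    · rw [Fin.sum_univ_three] at hr
      simp only [Matrix.cons_val_zero, Matrix.cons_val_one, Matrix.cons_val] at hr
      have h3 : r 0 • m l = -(r 1 • m i + r 2 • m k) := by
        rw [eq_neg_iff_add_eq_zero, ← add_assoc]
        exact hr
      rw [h3]
      module
  choose s hs x y hxy using hl
  have hs' : ∏ l, s l ∉ p := by
    intro h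
    obtain ⟨l, _, hl⟩ := (hp.prod_mem_iff).1 h
    exact hs l hl
  refine ⟨∏ l, s l, hs', m i, m k, ?_, ?_⟩
  · intro z
    have hz : z ∈ Submodule.span P5 (Set.range m) := by rw [hm]; trivial
    obtain ⟨c, hc⟩ := (Submodule.mem_span_range_iff_exists_fun P5).1 hz
    have h5 : (∏ l, s l) • z ∈ Submodule.span P5 {m i, m k} := by
      rw [← hc, Finset.smul_sum]
      refine Submodule.sum_mem _ fun l _ => ?_
      rw [← Finset.mul_prod_erase Finset.univ s (Finset.mem_univ l)]
      have h6 : (s l * ∏ l' ∈ Finset.univ.erase l, s l') • c l • m l =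
          ((∏ l' ∈ Finset.univ.erase l, s l') * c l) • (s l • m l) := by
        rw [smul_smul, smul_smul]
        congr 1
        ring
      rw [h6, hxy l]
      refine Submodule.smul_mem _ _ (Submodule.add_mem _ (Submodule.smul_mem _ _ ?_)
        (Submodule.smul_mem _ _ ?_))
      · exact Submodule.subset_span (by simp)
      · exact Submodule.subset_span (by simp)
    obtain ⟨α, β, hαβ⟩ := Submodule.mem_span_pair.1 h5
    exact ⟨α, β, hαβ.symm⟩
  · intro α β hαβ
    have h7 : sb f α • j (m i) + sb f β • j (m k) = 0 := by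
      rw [← hj.sl, ← hj.sl, ← map_add, hαβ, map_zero]
    have h8 : (sb f α * a i + sb f β * a k) • e₁ + (sb f α * b i + sb f β * b k) • e₂ = 0 := by
      have h9 : T • (sb f α • j (m i) + sb f β • j (m k)) =
          sb f α • (T • j (m i)) + sb f β • (T • j (m k)) := by module
      rw [h7, smul_zero, hab i, hab k] at h9
      rw [h9]
      module
    obtain ⟨h10, h11⟩ := hind _ _ h8
    have hδ0 : δ ≠ 0 := fun h => hδ (by rw [h]; exact P.zero_mem)
    have h12 : δ * sb f α = 0 := by
      rw [hδdef]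
      linear_combination b k * h10 - a k * h11
    have h13 : δ * sb f β = 0 := by
      rw [hδdef]
      linear_combination a i * h11 - b i * h10
    constructor
    · apply sb_injective hd hf
      rw [map_zero]
      exact (mul_eq_zero.1 h12).resolve_left hδ0
    · apply sb_injective hd hf
      rw [map_zero]
      exact (mul_eq_zero.1 h13).resolve_left hδ0

theorem bun_descend {d : ℕ} {f : Fin 5 → P5} {F E' : Type} [AddCommGroup F] [Module P5 F]
    [AddCommGroup E'] [Module P5 E'] {j : F →+ E'} (hd : 1 ≤ d) (hf : SM d f)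
    (hj : BC (sb f) j) [Module.Finite P5 F] (hE : Bun (X : Fin 5 → P5) E') :
    Bun (X : Fin 5 → P5) F where
  fin := inferInstance
  tf := tf_descend hd hf hj hE.tf
  ht := ht_descend hd hf hj hE.ht
  lf := lf_descend hd hf hj hE.lf

end Pool.Agent.Lib.MP_745d3a_ag.PF.PB

/-!
A bundle is the kernel of a matrix; a basis over the constants of a limit.

* `exists_kernel`: `M` is reflexive (`bun_isReflexive`, NV/Tr.lean, for the coordinates `X`). `Mᵛ = M →ₗ P5` is
  finitely generated by `θ 1, …, θ u` (`Bun.dual'` or Noetherian), with finitely many relations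
  `B v` (rows, `u` columns) generating the relation module. `ι m = (θ i m)_i`. Injective by
  reflexivity. `B ι m = 0` because `∑ i, B v i • θ i = 0`. If `B x = 0` then `θ i ↦ x i` defines a linear map
  `Mᵛ → P5` (well defined because the rows of `B` generate the relations), by reflexivity it is the
  evaluation at some `m`, so `x = ι m`.
-/

open MvPolynomial

namespace Pool.Agent.Lib.MP_745d3a_ag.PF.PB

theorem exists_kernel {M : Type*} [AddCommGroup M] [Module P5 M]
    (hM : Bun (X : Fin 5 → P5) M) : ∃ (u v : ℕ) (ι : M →ₗ[P5] (Fin u → P5))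
      (B : Fin v → Fin u → P5), Function.Injective ι ∧
      ∀ x : Fin u → P5, (∀ j, ∑ i, B j i * x i = 0) ↔ ∃ m, ι m = x := by
  classical
  have hcX : Coord ℂ (X : Fin 5 → P5) := by
    constructor
    rw [aeval_X_left]
    exact Function.bijective_id
  have hrefl : Module.IsReflexive P5 M := GA.bun_isReflexive hcX hM (i₁ := 0) (i₂ := 1) (by decide)
  have hQ : Bun (X : Fin 5 → P5) (M →ₗ[P5] P5) := Bun.dual' hcX hM
  have hfin : Module.Finite P5 (M →ₗ[P5] P5) := hQ.fin
  obtain ⟨u, π, hπ⟩ := Module.Finite.exists_fin' P5 (M →ₗ[P5] P5)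
  obtain ⟨v, B, hB⟩ := Submodule.fg_iff_exists_fin_generating_family.mp
    (IsNoetherian.noetherian (LinearMap.ker π))
  have hsum : ∀ y : Fin u → P5, y = ∑ i, y i • (Pi.single i (1 : P5) : Fin u → P5) := by
    intro y
    funext k
    rw [Finset.sum_apply, Finset.sum_eq_single k]
    · simp
    · intro i _ hik
      simp [Ne.symm hik]
    · intro hk
      exact absurd (Finset.mem_univ k) hk
  have hval : ∀ (y : Fin u → P5) (m : M),
      π y m = ∑ i, y i * π (Pi.single i (1 : P5)) m := by
    intro y m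
    conv_lhs => rw [hsum y]
    rw [map_sum, LinearMap.sum_apply]
    exact Finset.sum_congr rfl fun i _ => by rw [map_smul, LinearMap.smul_apply, smul_eq_mul]
  have hinj : Function.Injective (LinearMap.pi fun i => π (Pi.single i (1 : P5))) := by
    rw [injective_iff_map_eq_zero]
    intro m hm
    have h0 : ∀ i, π (Pi.single i (1 : P5)) m = 0 := fun i => congrFun hm i
    apply (Module.IsReflexive.bijective_dual_eval' (R := P5) (M := M)).injective
    refine LinearMap.ext fun φ => ?_
    obtain ⟨y, rfl⟩ := hπ φ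
    change π y m = π y 0
    rw [map_zero, hval]
    exact Finset.sum_eq_zero fun i _ => by rw [h0, mul_zero]
  refine ⟨u, v, LinearMap.pi fun i => π (Pi.single i (1 : P5)), B, hinj, fun x => ⟨fun hx => ?_, ?_⟩⟩
  · let L : (Fin u → P5) →ₗ[P5] P5 :=
      { toFun := fun y => ∑ i, y i * x i
        map_add' := fun y z => by
          rw [← Finset.sum_add_distrib]
          exact Finset.sum_congr rfl fun i _ => by rw [Pi.add_apply, add_mul]
        map_smul' := fun c y => by
          rw [RingHom.id_apply, smul_eq_mul, Finset.mul_sum]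
          exact Finset.sum_congr rfl fun i _ => by rw [Pi.smul_apply, smul_eq_mul, mul_assoc] }
    have hle : LinearMap.ker π ≤ LinearMap.ker L := by
      rw [← hB, Submodule.span_le]
      rintro _ ⟨j, rfl⟩
      exact hx j
    let e := π.quotKerEquivOfSurjective hπ
    let g : (M →ₗ[P5] P5) →ₗ[P5] P5 := ((LinearMap.ker π).liftQ L hle) ∘ₗ e.symm.toLinearMap
    have hg : ∀ y, g (π y) = ∑ i, y i * x i := by
      intro y
      have h1 : e.symm (π y) = Submodule.Quotient.mk y := by
        rw [LinearEquiv.symm_apply_eq]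
        exact (LinearMap.quotKerEquivOfSurjective_apply_mk π hπ y).symm
      change ((LinearMap.ker π).liftQ L hle) (e.symm (π y)) = _
      rw [h1]
      rfl
    obtain ⟨m, hm⟩ := (Module.IsReflexive.bijective_dual_eval' (R := P5) (M := M)).surjective g
    refine ⟨m, funext fun i => ?_⟩
    change π (Pi.single i (1 : P5)) m = x i
    have h2 : (Module.Dual.eval P5 M m) (π (Pi.single i (1 : P5))) = g (π (Pi.single i (1 : P5))) := by
      rw [hm]
    rw [hg, Finset.sum_eq_single i] at h2
    · rw [Pi.single_eq_same, one_mul] at h2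
      exact h2
    · intro k _ hk
      rw [Pi.single_eq_of_ne hk, zero_mul]
    · intro hi
      exact absurd (Finset.mem_univ i) hi
  · rintro ⟨m, rfl⟩ j
    have h1 : π (B j) = 0 := by
      have h2 : B j ∈ LinearMap.ker π := by
        rw [← hB]
        exact Submodule.subset_span ⟨j, rfl⟩
      exact h2
    have h3 := hval (B j) m
    rw [h1, LinearMap.zero_apply] at h3
    exact h3.symm

end Pool.Agent.Lib.MP_745d3a_ag.PF.PB

/-!
A basis over the constants of a limit.
-/

open MvPolynomial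

namespace Pool.Agent.Lib.MP_745d3a_ag.PF.PB

theorem exists_fb_map (τ : ℂ →+* ℂ) : ∃ (I : Type) (β : I → ℂ) (i0 : I), β i0 = 1 ∧
    FB (MvPolynomial.map τ : P5 →+* P5) (fun e => C (β e)) := by
  classical
  let F : Subfield ℂ := τ.fieldRange
  have h1 : LinearIndepOn F (id : ℂ → ℂ) {(1 : ℂ)} := by
    have := LinearIndepOn.singleton (R := F) (v := (id : ℂ → ℂ)) (i := (1 : ℂ)) one_ne_zero
    exact this
  let b := Module.Basis.extend h1
  let i0 : h1.extend (Set.subset_univ _) := ⟨1, h1.subset_extend _ (Set.mem_singleton _)⟩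
  have hb : ∀ i, b i = (i : ℂ) := fun i => Module.Basis.extend_apply_self h1 i
  have hinv : ∀ f : F, ∃ z, τ z = f := fun f => f.2
  choose g hg using hinv
  refine ⟨h1.extend (Set.subset_univ _), fun i => (i : ℂ), i0, rfl, ?_, ?_⟩
  · have hadd : ∀ p p' : P5, (∃ c : h1.extend (Set.subset_univ _) →₀ P5, p = c.sum fun e a =>
        MvPolynomial.map τ a * C (e : ℂ)) → (∃ c : h1.extend (Set.subset_univ _) →₀ P5,
        p' = c.sum fun e a => MvPolynomial.map τ a * C (e : ℂ)) →
        ∃ c : h1.extend (Set.subset_univ _) →₀ P5, p + p' = c.sum fun e a =>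
        MvPolynomial.map τ a * C (e : ℂ) := by
      rintro p p' ⟨c, hc⟩ ⟨c', hc'⟩
      refine ⟨c + c', ?_⟩
      rw [Finsupp.sum_add_index' (fun e => by rw [map_zero, zero_mul])
        (fun e a a' => by rw [map_add, add_mul]), hc, hc']
    have hmon : ∀ (e : Fin 5 →₀ ℕ) (z : ℂ), ∃ c : h1.extend (Set.subset_univ _) →₀ P5,
        (monomial e z : P5) = c.sum fun e a => MvPolynomial.map τ a * C (e : ℂ) := by
      intro e z
      have hz : (monomial e z : P5) = ∑ i ∈ (b.repr z).support,
          MvPolynomial.map τ (monomial e (g (b.repr z i))) * C (i : ℂ) := by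
        have h2 := b.linearCombination_repr z
        rw [Finsupp.linearCombination_apply, Finsupp.sum] at h2
        conv_lhs => rw [← h2, map_sum]
        refine Finset.sum_congr rfl fun i _ => ?_
        rw [map_monomial, hg, mul_comm, C_mul_monomial, hb, mul_comm (i : ℂ)]
        rfl
      rw [hz]
      refine Finset.sum_induction _ (fun p => ∃ c : h1.extend (Set.subset_univ _) →₀ P5,
        p = c.sum fun e a => MvPolynomial.map τ a * C (e : ℂ)) hadd ⟨0, by simp⟩ ?_
      intro i _
      exact ⟨Finsupp.single i (monomial e (g (b.repr z i))), by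
        rw [Finsupp.sum_single_index (by rw [map_zero, zero_mul])]⟩
    intro s
    rw [s.as_sum]
    exact Finset.sum_induction _ (fun p => ∃ c : h1.extend (Set.subset_univ _) →₀ P5,
        p = c.sum fun e a => MvPolynomial.map τ a * C (e : ℂ)) hadd ⟨0, by simp⟩
        fun e _ => hmon e _
  · intro c hc
    ext i e
    have h2 : ∑ i ∈ c.support, (⟨τ (coeff e (c i)), ⟨_, rfl⟩⟩ : F) • b i = 0 := by
      have h3 := congrArg (coeff e) hc
      rw [Finsupp.sum, coeff_sum, coeff_zero] at h3
      rw [← h3]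
      refine Finset.sum_congr rfl fun i _ => ?_
      rw [mul_comm, coeff_C_mul, coeff_map, hb, mul_comm]
      rfl
    by_cases hi : i ∈ c.support
    · have h4 := linearIndependent_iff'.mp b.linearIndependent c.support _ h2 i hi
      have h5 : τ (coeff e (c i)) = 0 := congrArg Subtype.val h4
      simpa using h5
    · rw [Finsupp.notMem_support_iff.mp hi]
      rfl

end Pool.Agent.Lib.MP_745d3a_ag.PF.PB

/-!
Extension of the constants of a bundle.

`ψ = MvPolynomial.map τ`, `N` the quotient with the relations `ψ (s j l)`, `n i = mk (Pi.single i 1)`.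
Let `ι, B` be given by `exists_kernel` for `M`, `FB ψ t` by `exists_fb_map`.
1. `ι' : N → (Fin u → P5)`, `n i ↦ ψ(ι (m i))`: injective with image the kernel of `ψ(B)`.
2. `tf`: submodule of a free module over a domain. `ht`: coordinatewise.
3. `lf`: with `p = P.comap ψ`.
-/

open MvPolynomial

namespace Pool.Agent.Lib.MP_745d3a_ag.PF.PB

/-- Coordinates with respect to a basis along `ψ`. -/
theorem B2_co {I : Type} {t : I → P5} {ψ : P5 →+* P5} (h : FB ψ t) :
    ∃ co : I → P5 →+ P5, (∀ e a s, co e (ψ a * s) = a * co e s) ∧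
      (∀ s, (∀ e, co e s = 0) → s = 0) ∧
      ∀ s, ∃ S : Finset I, ∀ T : Finset I, S ⊆ T → s = ∑ e ∈ T, ψ (co e s) * t e := by
  classical
  let Φ : (I →₀ P5) →+ P5 :=
    { toFun := fun c => c.sum fun e a => ψ a * t e
      map_zero' := Finsupp.sum_zero_index
      map_add' := fun c c' => by
        apply Finsupp.sum_add_index'
        · intro e; rw [map_zero, zero_mul]
        · intro e a b; rw [map_add, add_mul] }
  have hΦ : ∀ c, Φ c = c.sum fun e a => ψ a * t e := fun c => rfl
  have hbij : Function.Bijective Φ := by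
    refine ⟨(injective_iff_map_eq_zero Φ).2 fun c hc => h.ind c (by rw [← hΦ]; exact hc), ?_⟩
    intro s
    obtain ⟨c, hc⟩ := h.span s
    exact ⟨c, hc.symm⟩
  let co : P5 ≃+ (I →₀ P5) := (AddEquiv.ofBijective Φ hbij).symm
  have hco : ∀ s, Φ (co s) = s := fun s => (AddEquiv.ofBijective Φ hbij).apply_symm_apply s
  have hsm : ∀ (a : P5) (c : I →₀ P5), Φ (a • c) = ψ a * Φ c := by
    intro a c
    rw [hΦ, hΦ, Finsupp.sum_smul_index' (fun e => by rw [map_zero, zero_mul]), Finsupp.mul_sum]
    apply Finsupp.sum_congr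
    intro e he
    rw [smul_eq_mul, map_mul, mul_assoc]
  have hco2 : ∀ a s, co (ψ a * s) = a • co s := by
    intro a s
    apply hbij.1
    rw [hco, hsm, hco]
  refine ⟨fun e => (Finsupp.applyAddHom e).comp co.toAddMonoidHom, ?_, ?_, ?_⟩
  · intro e a s
    change (co (ψ a * s)) e = a * (co s) e
    rw [hco2, Finsupp.smul_apply, smul_eq_mul]
  · intro s hs
    have : co s = 0 := Finsupp.ext fun e => hs e
    rw [← hco s, this, map_zero]
  · intro s
    refine ⟨(co s).support, fun T hT => ?_⟩
    conv_lhs => rw [← hco s, hΦ]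
    rw [Finsupp.sum_of_support_subset _ hT _ (fun e _ => by rw [map_zero, zero_mul])]
    rfl

theorem B2_coT {I : Type} {t : I → P5} {ψ : P5 →+* P5} {co : I → P5 →+ P5}
    (h : ∀ s, ∃ S : Finset I, ∀ T : Finset I, S ⊆ T → s = ∑ e ∈ T, ψ (co e s) * t e)
    {n : ℕ} (x : Fin n → P5) : ∃ T : Finset I, ∀ i, x i = ∑ e ∈ T, ψ (co e (x i)) * t e := by
  classical
  choose S hS using h
  exact ⟨Finset.univ.biUnion fun i => S (x i), fun i =>
    hS (x i) _ (Finset.subset_biUnion_of_mem (fun i => S (x i)) (Finset.mem_univ i))⟩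

theorem bun_tau (τ : ℂ →+* ℂ) {M : Type*} [AddCommGroup M] [Module P5 M]
    (hM : Bun (X : Fin 5 → P5) M) {p q : ℕ} (m : Fin p → M) (s : Fin q → Fin p → P5)
    (hspan : Submodule.span P5 (Set.range m) = ⊤)
    (hker : ∀ c : Fin p → P5, ∑ i, c i • m i = 0 ↔ c ∈ Submodule.span P5 (Set.range s)) :
    Bun (X : Fin 5 → P5) ((Fin p → P5) ⧸ Submodule.span P5
      (Set.range fun (j : Fin q) (i : Fin p) => MvPolynomial.map τ (s j i))) := by
  classical
  obtain ⟨I, β, i0, -, hFB⟩ := exists_fb_map τ
  obtain ⟨co, hco1, hco2, hco3⟩ := B2_co hFB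
  obtain ⟨u, v, ι, B, hinj, hB⟩ := exists_kernel hM
  have hψX : ∀ i, (MvPolynomial.map τ : P5 →+* P5) (X i) = X i := fun i => by rw [map_X]
  generalize (MvPolynomial.map τ : P5 →+* P5) = ψ at hFB hco1 hco3 hψX ⊢
  -- the map
  let g : (Fin p → P5) →ₗ[P5] (Fin u → P5) :=
    { toFun := fun c l => ∑ i, c i * ψ (ι (m i) l)
      map_add' := fun c c' => by
        ext1 l
        simp only [Pi.add_apply, add_mul, Finset.sum_add_distrib]
      map_smul' := fun a c => by
        ext1 l
        simp only [Pi.smul_apply, smul_eq_mul, RingHom.id_apply, Finset.mul_sum, mul_assoc] }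
  have hg : ∀ c l, g c l = ∑ i, c i * ψ (ι (m i) l) := fun c l => rfl
  -- values of `g` on the image of `ψ`
  have hgψ : ∀ (c : Fin p → P5) l, g (fun i => ψ (c i)) l = ψ (ι (∑ i, c i • m i) l) := by
    intro c l
    rw [hg, map_sum, Finset.sum_apply, map_sum]
    refine Finset.sum_congr rfl fun i _ => ?_
    rw [map_smul, Pi.smul_apply, smul_eq_mul, map_mul]
  have hMex : ∀ μ : M, ∃ c : Fin p → P5, ∑ i, c i • m i = μ := by
    intro μ
    have : μ ∈ Submodule.span P5 (Set.range m) := by rw [hspan]; trivial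
    exact (Submodule.mem_span_range_iff_exists_fun P5).1 this
  set N' : Submodule P5 (Fin p → P5) := Submodule.span P5
      (Set.range fun (j : Fin q) (i : Fin p) => ψ (s j i)) with hN'
  have hψN : ∀ c : Fin p → P5, c ∈ Submodule.span P5 (Set.range s) →
      (fun i => ψ (c i)) ∈ N' := by
    intro c hc
    obtain ⟨r, rfl⟩ := (Submodule.mem_span_range_iff_exists_fun P5).1 hc
    have : (fun i => ψ ((∑ j, r j • s j) i)) = ∑ j, ψ (r j) • (fun i => ψ (s j i)) := by
      ext1 i
      rw [Finset.sum_apply, Finset.sum_apply, map_sum]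
      refine Finset.sum_congr rfl fun j _ => ?_
      rw [Pi.smul_apply, Pi.smul_apply, smul_eq_mul, smul_eq_mul, map_mul]
    rw [this]
    exact Submodule.sum_mem _ fun j _ => Submodule.smul_mem _ _ (Submodule.subset_span ⟨j, rfl⟩)
  -- the kernel
  have hgker : LinearMap.ker g = N' := by
    apply le_antisymm
    · intro c hc
      rw [LinearMap.mem_ker] at hc
      have h1 : ∀ e, (fun i => co e (c i)) ∈ Submodule.span P5 (Set.range s) := by
        intro e
        rw [← hker]
        apply hinj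
        rw [map_zero, map_sum]
        ext1 l
        rw [Finset.sum_apply, Pi.zero_apply]
        have h2 := congrFun hc l
        rw [hg, Pi.zero_apply] at h2
        have h3 := congrArg (co e) h2
        rw [map_zero, map_sum] at h3
        rw [← h3]
        refine Finset.sum_congr rfl fun i _ => ?_
        rw [map_smul, Pi.smul_apply, smul_eq_mul, mul_comm (c i), hco1, mul_comm]
      obtain ⟨T, hT⟩ := B2_coT hco3 c
      have h4 : c = ∑ e ∈ T, (C (β e) : P5) • (fun i => ψ (co e (c i))) := by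
        ext1 i
        rw [Finset.sum_apply]
        conv_lhs => rw [hT i]
        refine Finset.sum_congr rfl fun e _ => ?_
        rw [Pi.smul_apply, smul_eq_mul, mul_comm]
      rw [h4]
      exact Submodule.sum_mem _ fun e _ => Submodule.smul_mem _ _ (hψN _ (h1 e))
    · rw [hN', Submodule.span_le]
      rintro _ ⟨j, rfl⟩
      rw [SetLike.mem_coe, LinearMap.mem_ker]
      ext1 l
      rw [hgψ, (hker (s j)).2 (Submodule.subset_span ⟨j, rfl⟩), map_zero, Pi.zero_apply, map_zero]
  -- the image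
  have hgim : ∀ x : Fin u → P5, (∀ j, ∑ i, ψ (B j i) * x i = 0) → ∃ c, g c = x := by
    intro x hx
    have h1 : ∀ e, ∃ c : Fin p → P5, ι (∑ i, c i • m i) = fun l => co e (x l) := by
      intro e
      have h2 : ∀ j, ∑ i, B j i * co e (x i) = 0 := by
        intro j
        have h3 := congrArg (co e) (hx j)
        rw [map_zero, map_sum] at h3
        rw [← h3]
        refine Finset.sum_congr rfl fun i _ => ?_
        rw [hco1]
      obtain ⟨μ, hμ⟩ := (hB fun l => co e (x l)).1 h2
      obtain ⟨c, hc⟩ := hMex μ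
      exact ⟨c, by rw [hc, hμ]⟩
    choose c hc using h1
    obtain ⟨T, hT⟩ := B2_coT hco3 x
    refine ⟨∑ e ∈ T, (C (β e) : P5) • (fun i => ψ (c e i)), ?_⟩
    rw [map_sum]
    ext1 l
    rw [Finset.sum_apply, hT l]
    refine Finset.sum_congr rfl fun e _ => ?_
    rw [map_smul, Pi.smul_apply, hgψ, hc e, smul_eq_mul, mul_comm]
  have hgB : ∀ c j, ∑ i, ψ (B j i) * g c i = 0 := by
    intro c j
    have h1 : ∀ l, ∑ i, ψ (B j i) * ψ (ι (m l) i) = 0 := by
      intro l
      have h2 := (hB (ι (m l))).2 ⟨m l, rfl⟩ j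
      have h3 := congrArg ψ h2
      rw [map_zero, map_sum] at h3
      rw [← h3]
      exact Finset.sum_congr rfl fun i _ => by rw [map_mul]
    have h2 : ∑ i, ψ (B j i) * g c i = ∑ l, c l * ∑ i, ψ (B j i) * ψ (ι (m l) i) := by
      simp only [hg, Finset.mul_sum]
      rw [Finset.sum_comm]
      refine Finset.sum_congr rfl fun l _ => Finset.sum_congr rfl fun i _ => ?_
      ring
    rw [h2]
    exact Finset.sum_eq_zero fun l _ => by rw [h1, mul_zero]
  -- the injection of the quotient
  let G : ((Fin p → P5) ⧸ N') →ₗ[P5] (Fin u → P5) := N'.liftQ g (le_of_eq hgker.symm)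
  have hG : ∀ c, G (Submodule.Quotient.mk c) = g c := fun c => rfl
  have hGinj : Function.Injective G := by
    rw [← LinearMap.ker_eq_bot]
    exact Submodule.ker_liftQ_eq_bot _ _ _ (le_of_eq hgker)
  have hGim : ∀ x : Fin u → P5, (∀ j, ∑ i, ψ (B j i) * x i = 0) → ∃ n, G n = x := by
    intro x hx
    obtain ⟨c, hc⟩ := hgim x hx
    exact ⟨Submodule.Quotient.mk c, by rw [hG, hc]⟩
  refine ⟨inferInstance, ?_, ?_, ?_⟩
  · intro a n hn
    by_cases ha : a = 0
    · exact Or.inl ha
    · right
      apply hGinj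
      rw [map_zero]
      have h1 := congrArg G hn
      rw [map_smul, map_zero] at h1
      exact (smul_eq_zero.1 h1).resolve_left ha
  · intro a b hab n n' hn
    have h1 := congrArg G hn
    rw [map_smul, map_smul] at h1
    have h2 : ∀ i, a * G n i = b * G n' i := fun i => congrFun h1 i
    by_cases hb : b = 0
    · have ha : IsUnit a := by
        rw [hb] at hab
        exact isRelPrime_zero_right.1 hab
      refine ⟨0, ?_⟩
      rw [smul_zero]
      apply hGinj
      rw [map_zero]
      ext1 i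
      have h3 := h2 i
      rw [hb, zero_mul] at h3
      rw [Pi.zero_apply]
      exact (mul_eq_zero.1 h3).resolve_left ha.ne_zero
    · have h3 : ∀ i, ∃ z, G n i = b * z := by
        intro i
        have h4 : b ∣ a * G n i := ⟨_, h2 i⟩
        exact hab.symm.dvd_of_dvd_mul_left h4
      choose z hz using h3
      obtain ⟨k, hk⟩ := hGim z (by
        intro j
        have h5 : b * ∑ i, ψ (B j i) * z i = 0 := by
          obtain ⟨c, rfl⟩ := Submodule.Quotient.mk_surjective _ n
          rw [Finset.mul_sum, ← hgB c j]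
          refine Finset.sum_congr rfl fun i _ => ?_
          rw [← hG, hz i]
          ring
        exact (mul_eq_zero.1 h5).resolve_left hb)
      refine ⟨k, hGinj ?_⟩
      rw [map_smul, hk]
      ext1 i
      rw [hz i, Pi.smul_apply, smul_eq_mul]
  · intro P hP ⟨i, hi⟩
    obtain ⟨s₀, hs₀, m₁, m₂, hgen, hind⟩ := hM.lf (P.comap ψ) (hP.comap ψ)
      ⟨i, by rw [Ideal.mem_comap, hψX]; exact hi⟩
    have hj : ∀ μ : M, ∃ n, G n = fun l => ψ (ι μ l) := by
      intro μ
      obtain ⟨c, hc⟩ := hMex μ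
      refine ⟨Submodule.Quotient.mk fun i => ψ (c i), ?_⟩
      ext1 l
      rw [hG, hgψ, hc]
    obtain ⟨n₁, hn₁⟩ := hj m₁
    obtain ⟨n₂, hn₂⟩ := hj m₂
    refine ⟨ψ s₀, hs₀, n₁, n₂, ?_, ?_⟩
    · intro n
      obtain ⟨c, rfl⟩ := Submodule.Quotient.mk_surjective _ n
      have h1 : ∀ i, ∃ a b : P5, s₀ • m i = a • m₁ + b • m₂ := fun i => hgen (m i)
      choose a b hab using h1
      refine ⟨∑ i, c i * ψ (a i), ∑ i, c i * ψ (b i), hGinj ?_⟩
      ext1 l
      rw [map_smul, map_add, map_smul, map_smul, Pi.add_apply, Pi.smul_apply, Pi.smul_apply,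
        Pi.smul_apply, smul_eq_mul, smul_eq_mul, smul_eq_mul, hn₁, hn₂, hG, hg, Finset.mul_sum,
        Finset.sum_mul, Finset.sum_mul, ← Finset.sum_add_distrib]
      refine Finset.sum_congr rfl fun i _ => ?_
      have h2 : ψ s₀ * ψ (ι (m i) l) = ψ (a i) * ψ (ι m₁ l) + ψ (b i) * ψ (ι m₂ l) := by
        rw [← map_mul, ← map_mul, ← map_mul, ← map_add]
        congr 1
        have h3 := congrFun (congrArg ι (hab i)) l
        rw [map_smul, map_add, map_smul, map_smul] at h3
        exact h3
      calc ψ s₀ * (c i * ψ (ι (m i) l)) = c i * (ψ s₀ * ψ (ι (m i) l)) := by ring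
        _ = c i * (ψ (a i) * ψ (ι m₁ l) + ψ (b i) * ψ (ι m₂ l)) := by rw [h2]
        _ = c i * ψ (a i) * ψ (ι m₁ l) + c i * ψ (b i) * ψ (ι m₂ l) := by ring
    · intro a b hab
      have h1 : ∀ l, a * ψ (ι m₁ l) + b * ψ (ι m₂ l) = 0 := by
        intro l
        have h2 := congrFun (congrArg G hab) l
        rw [map_add, map_smul, map_smul, hn₁, hn₂, map_zero] at h2
        exact h2
      have h3 : ∀ e, co e a = 0 ∧ co e b = 0 := by
        intro e
        apply hind
        apply hinj
        rw [map_add, map_smul, map_smul, map_zero]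
        ext1 l
        rw [Pi.add_apply, Pi.smul_apply, Pi.smul_apply, smul_eq_mul, smul_eq_mul, Pi.zero_apply]
        have h4 := congrArg (co e) (h1 l)
        rw [map_add, map_zero, mul_comm a, mul_comm b, hco1, hco1] at h4
        rw [← h4]
        ring
      exact ⟨hco2 a fun e => (h3 e).1, hco2 b fun e => (h3 e).2⟩

end Pool.Agent.Lib.MP_745d3a_ag.PF.PB

/-!
The number of generators does not change when the constants are extended.

Let `N` be the quotient with the relations `map τ (s j l)`, generated by two elements. Let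
`ev : P5 → ℂ` be the evaluation at `0` (constant coefficient). Applying `ev` to the
coordinates: `ℂ ^ p / ⟨ev (map τ (s j))⟩` is generated over `ℂ` by two elements (images of the two
generators), so the matrix `τ (ev (s j l))` has rank at least `p - 2`
(`ev (map τ a) = τ (ev a)`). The rank of a matrix does not change under the embedding `τ` of fields
(`Matrix.rank_map`-like; or: a family of vectors which is independent over `ℂ` stays
independent after applying `τ`). So `ℂ ^ p / ⟨ev (s j)⟩` has dimension at most two: there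
are `v₁, v₂ ∈ ℂ ^ p` which together with the `ev (s j)` span `ℂ ^ p`. Then the two elements
`∑ i, C (v₁ i) • m i`, `∑ i, C (v₂ i) • m i` generate `M` modulo `Ideal.span (range X) • ⊤`: for `c : Fin p → P5` write
`ev c = α v₁ + β v₂ + ∑ γ j ev (s j)`, so `c - α v₁ - β v₂ - ∑ γ j s j` has coordinates in the ideal of
the `X i`. `exists_hom_gen` (PFMod.lean) with `r = 2`.
-/

open MvPolynomial

namespace Pool.Agent.Lib.MP_745d3a_ag.PF.PB

private lemma B3_lin (τ : ℂ →+* ℂ) {p q : ℕ} (w : Fin q → Fin p → ℂ) (u₁ u₂ : Fin p → ℂ)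
    (hu : ∀ c : Fin p → ℂ, ∃ α β : ℂ, c - α • u₁ - β • u₂ ∈
      Submodule.span ℂ (Set.range fun (j : Fin q) (i : Fin p) => τ (w j i))) :
    ∃ v₁ v₂ : Fin p → ℂ, ∀ c : Fin p → ℂ, ∃ α β : ℂ, c - α • v₁ - β • v₂ ∈
      Submodule.span ℂ (Set.range w) := by
  classical
  set wt : Fin q → Fin p → ℂ := fun j i => τ (w j i) with hwt
  obtain ⟨κ, a, ha, hspan, hind⟩ := exists_linearIndependent' ℂ wt
  have : Finite κ := Finite.of_injective a ha
  have : Fintype κ := Fintype.ofFinite κ
  have hind2 : LinearIndependent ℂ (w ∘ a) := by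
    rw [Fintype.linearIndependent_iff] at hind ⊢
    intro g hg k
    have h1 := hind (fun k => τ (g k)) (by
      funext i
      have h2 := congrFun hg i
      simp only [Finset.sum_apply, Pi.smul_apply, smul_eq_mul, Function.comp_apply,
        Pi.zero_apply] at h2 ⊢
      have h3 := congrArg τ h2
      rw [map_sum, map_zero] at h3
      rw [← h3]
      exact Finset.sum_congr rfl fun k _ => by rw [map_mul])
    exact (map_eq_zero τ).mp (h1 k)
  have hc1 : Fintype.card κ ≤ Module.finrank ℂ (Submodule.span ℂ (Set.range w)) := by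
    rw [← finrank_span_eq_card hind2]
    apply Submodule.finrank_mono
    apply Submodule.span_mono
    rintro _ ⟨k, rfl⟩
    exact ⟨a k, rfl⟩
  have hc2 : Module.finrank ℂ (Submodule.span ℂ (Set.range wt)) = Fintype.card κ := by
    rw [← hspan, finrank_span_eq_card hind]
  have htop : (⊤ : Submodule ℂ (Fin p → ℂ)) ≤
      Submodule.span ℂ (Set.range ![u₁, u₂]) ⊔ Submodule.span ℂ (Set.range wt) := by
    intro c _
    obtain ⟨α, β, h⟩ := hu c
    have h1 : c = (α • u₁ + β • u₂) + (c - α • u₁ - β • u₂) := by abel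
    rw [h1]
    refine Submodule.add_mem_sup ?_ h
    exact Submodule.add_mem _ (Submodule.smul_mem _ _ (Submodule.subset_span ⟨0, rfl⟩))
      (Submodule.smul_mem _ _ (Submodule.subset_span ⟨1, rfl⟩))
  have hp : p ≤ 2 + Fintype.card κ := by
    have h1 := Submodule.finrank_mono htop
    rw [finrank_top, Module.finrank_fin_fun] at h1
    refine h1.trans ((Submodule.finrank_add_le_finrank_add_finrank _ _).trans ?_)
    rw [hc2]
    refine Nat.add_le_add_right ?_ _
    refine (finrank_range_le_card (R := ℂ) ![u₁, u₂]).trans ?_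
    simp
  have hQ : Module.finrank ℂ ((Fin p → ℂ) ⧸ Submodule.span ℂ (Set.range w)) ≤ 2 := by
    have h1 := Submodule.finrank_quotient_add_finrank (Submodule.span ℂ (Set.range w))
    rw [Module.finrank_fin_fun] at h1
    omega
  obtain ⟨q₁, q₂, hq⟩ : ∃ q₁ q₂ : (Fin p → ℂ) ⧸ Submodule.span ℂ (Set.range w),
      ∀ x, ∃ α β : ℂ, x = α • q₁ + β • q₂ := by
    obtain ⟨r, hr⟩ : ∃ r, Module.finrank ℂ ((Fin p → ℂ) ⧸ Submodule.span ℂ (Set.range w)) = r :=
      ⟨_, rfl⟩
    rw [hr] at hQ
    interval_cases r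
    · have b := Module.finBasisOfFinrankEq ℂ _ hr
      refine ⟨0, 0, fun x => ⟨0, 0, ?_⟩⟩
      rw [← b.sum_repr x]
      simp
    · have b := Module.finBasisOfFinrankEq ℂ _ hr
      refine ⟨b 0, 0, fun x => ⟨b.repr x 0, 0, ?_⟩⟩
      conv_lhs => rw [← b.sum_repr x]
      simp
    · have b := Module.finBasisOfFinrankEq ℂ _ hr
      refine ⟨b 0, b 1, fun x => ⟨b.repr x 0, b.repr x 1, ?_⟩⟩
      conv_lhs => rw [← b.sum_repr x]
      rw [Fin.sum_univ_two]
  obtain ⟨v₁, rfl⟩ := Submodule.mkQ_surjective _ q₁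
  obtain ⟨v₂, rfl⟩ := Submodule.mkQ_surjective _ q₂
  refine ⟨v₁, v₂, fun c => ?_⟩
  obtain ⟨α, β, h⟩ := hq (Submodule.mkQ _ c)
  refine ⟨α, β, ?_⟩
  rw [← Submodule.Quotient.mk_eq_zero, ← Submodule.mkQ_apply, map_sub, map_sub, map_smul, map_smul, h]
  abel

private lemma B3_coord : PF.Coord ℂ (X : Fin 5 → P5) := ⟨by
  have : (aeval X : P5 →ₐ[ℂ] P5) = AlgHom.id ℂ P5 := by ext i; simp
  rw [this]; exact Function.bijective_id⟩

private lemma B3_mem (a : P5) (h : constantCoeff a = 0) : a ∈ Ideal.span (Set.range (X : Fin 5 → P5)) := by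
  obtain ⟨c, hc⟩ := sub_const_mem B3_coord a
  have h1 : ∀ b ∈ Ideal.span (Set.range (X : Fin 5 → P5)), constantCoeff b = 0 := by
    intro b hb
    have : Ideal.span (Set.range (X : Fin 5 → P5)) ≤ RingHom.ker (constantCoeff : P5 →+* ℂ) := by
      rw [Ideal.span_le]
      rintro _ ⟨i, rfl⟩
      simp [RingHom.mem_ker]
    exact this hb
  have h2 := h1 _ hc
  rw [map_sub, h, zero_sub, neg_eq_zero, MvPolynomial.algebraMap_eq, constantCoeff_C] at h2
  rwa [h2, map_zero, sub_zero] at hc

/-- The constant coefficients of the elements of the span. -/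
private lemma B3_ev {p q : ℕ} (t : Fin q → Fin p → P5) (c : Fin p → P5)
    (hc : c ∈ Submodule.span P5 (Set.range t)) :
    (fun i => constantCoeff (c i)) ∈
      Submodule.span ℂ (Set.range fun (j : Fin q) (i : Fin p) => constantCoeff (t j i)) := by
  obtain ⟨g, rfl⟩ := (Submodule.mem_span_range_iff_exists_fun P5).mp hc
  refine (Submodule.mem_span_range_iff_exists_fun ℂ).mpr ⟨fun j => constantCoeff (g j), ?_⟩
  funext i
  simp only [Finset.sum_apply, Pi.smul_apply, smul_eq_mul, map_sum, map_mul]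

theorem gen2_tau (τ : ℂ →+* ℂ) {M : Type*} [AddCommGroup M] [Module ℂ M] [Module P5 M]
    [IsScalarTower ℂ P5 M] {ε : M →ₗ[ℂ] M} {E : Derivation ℂ P5 P5} (hE : ∀ i, E (X i) = X i)
    (cE : IsConn E ε) (dE : Diag ε) [Module.Finite P5 M] {p q : ℕ} (m : Fin p → M)
    (s : Fin q → Fin p → P5) (hspan : Submodule.span P5 (Set.range m) = ⊤)
    (hker : ∀ c : Fin p → P5, ∑ i, c i • m i = 0 ↔ c ∈ Submodule.span P5 (Set.range s))
    (h : Gen2 P5 ((Fin p → P5) ⧸ Submodule.span P5
      (Set.range fun (j : Fin q) (i : Fin p) => MvPolynomial.map τ (s j i)))) : Gen2 P5 M := by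
  classical
  obtain ⟨n₁, n₂, hn⟩ := h
  obtain ⟨u₁, rfl⟩ := Submodule.mkQ_surjective _ n₁
  obtain ⟨u₂, rfl⟩ := Submodule.mkQ_surjective _ n₂
  have hu : ∀ c : Fin p → ℂ, ∃ α β : ℂ, c - α • (fun i => constantCoeff (u₁ i)) -
      β • (fun i => constantCoeff (u₂ i)) ∈
      Submodule.span ℂ (Set.range fun (j : Fin q) (i : Fin p) => τ (constantCoeff (s j i))) := by
    intro c
    obtain ⟨a, b, hab⟩ := hn (Submodule.mkQ _ fun i => C (c i))
    refine ⟨constantCoeff a, constantCoeff b, ?_⟩
    have h1 : (fun i => C (c i)) - a • u₁ - b • u₂ ∈ Submodule.span P5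
      (Set.range fun (j : Fin q) (i : Fin p) => MvPolynomial.map τ (s j i)) := by
      rw [← Submodule.Quotient.mk_eq_zero, ← Submodule.mkQ_apply, map_sub, map_sub, map_smul,
        map_smul, hab]
      abel
    have h2 := B3_ev _ _ h1
    have h3 : (fun i => constantCoeff (((fun i => C (c i)) - a • u₁ - b • u₂ : Fin p → P5) i)) =
        c - constantCoeff a • (fun i => constantCoeff (u₁ i)) -
          constantCoeff b • (fun i => constantCoeff (u₂ i)) := by
      funext i
      simp
    have h4 : (fun (j : Fin q) (i : Fin p) => constantCoeff (MvPolynomial.map τ (s j i))) =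
        fun (j : Fin q) (i : Fin p) => τ (constantCoeff (s j i)) := by
      funext j i
      rw [constantCoeff_map]
    rw [h3, h4] at h2
    exact h2
  obtain ⟨v₁, v₂, hv⟩ := B3_lin τ (fun j i => constantCoeff (s j i)) _ _ hu
  obtain ⟨g, -, hg⟩ := exists_hom_gen B3_coord hE cE dE 2
    ![∑ i, (C (v₁ i) : P5) • m i, ∑ i, (C (v₂ i) : P5) • m i] (by
      intro v
      have hvtop : v ∈ Submodule.span P5 (Set.range m) := by rw [hspan]; trivial
      obtain ⟨c, rfl⟩ := (Submodule.mem_span_range_iff_exists_fun P5).mp hvtop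
      obtain ⟨α, β, hαβ⟩ := hv fun i => constantCoeff (c i)
      obtain ⟨γ, hγ⟩ := (Submodule.mem_span_range_iff_exists_fun ℂ).mp hαβ
      set z : Fin p → P5 := fun i => c i - C α * C (v₁ i) - C β * C (v₂ i) - ∑ j, C (γ j) * s j i
        with hz
      have hz0 : ∀ i, constantCoeff (z i) = 0 := by
        intro i
        have h1 := congrFun hγ i
        simp only [Finset.sum_apply, Pi.smul_apply, Pi.sub_apply, smul_eq_mul] at h1
        simp only [hz, map_sub, map_mul, map_sum, constantCoeff_C]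
        rw [← h1]
        ring
      have hs0 : ∑ i, (∑ j, C (γ j) * s j i) • m i = 0 := by
        rw [hker]
        refine (Submodule.mem_span_range_iff_exists_fun P5).mpr ⟨fun j => C (γ j), ?_⟩
        funext i
        simp only [Finset.sum_apply, Pi.smul_apply, smul_eq_mul]
      have h5 : ∑ i, c i • m i = ((C α : P5) • ∑ i, (C (v₁ i) : P5) • m i) +
          ((C β : P5) • ∑ i, (C (v₂ i) : P5) • m i) + ∑ i, z i • m i := by
        have h6 : ∑ i, z i • m i = ∑ i, c i • m i - ((C α : P5) • ∑ i, (C (v₁ i) : P5) • m i) -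
            ((C β : P5) • ∑ i, (C (v₂ i) : P5) • m i) - ∑ i, (∑ j, C (γ j) * s j i) • m i := by
          simp only [hz, sub_smul, Finset.sum_sub_distrib, Finset.smul_sum, smul_smul]
        rw [h6, hs0]
        abel
      rw [h5]
      refine Submodule.add_mem_sup ?_ ?_
      · exact Submodule.add_mem _ (Submodule.smul_mem _ _ (Submodule.subset_span ⟨0, rfl⟩))
          (Submodule.smul_mem _ _ (Submodule.subset_span ⟨1, rfl⟩))
      · exact Submodule.sum_mem _ fun i _ =>
          Submodule.smul_mem_smul (B3_mem _ (hz0 i)) Submodule.mem_top)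
  refine ⟨g 0, g 1, fun x => ?_⟩
  have hx : x ∈ Submodule.span P5 (Set.range g) := by rw [hg]; trivial
  obtain ⟨c, rfl⟩ := (Submodule.mem_span_range_iff_exists_fun P5).mp hx
  exact ⟨c 0, c 1, by rw [Fin.sum_univ_two]⟩

end Pool.Agent.Lib.MP_745d3a_ag.PF.PB

/-!
The grading of a module given by homogeneous relations.

`ε' c i = E (c i) + (a i : ℂ) • c i` on `Fin p → P5` (`ℂ`-linear). For `r j` with homogeneous entries of
degree `b j - a i`: `E (r j i) = ((b j - a i : ℤ) : ℂ) • r j i` (sum of monomials; the same as `euler_hom` in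
SB/K0.lean, which may be imported), so `ε' (r j) = (b j : ℂ) • r j` and `ε' (c • r j) = E c • r j + b j • c • r j`:
`ε'` preserves the span and acts on the quotient. `IsConn`: clear. `Diag`: every element of the
quotient is a sum of classes of `Pi.single i (g)` with `g` homogeneous (`E g = n • g`), which are
eigenvectors with eigenvalue `n + a i`; sums of such: as `D1P_add`, `D1P_sum` in PFBun.lean.
-/

open MvPolynomial

namespace Pool.Agent.Lib.MP_745d3a_ag.PF.PB

section sums

variable {K V : Type*} [Field K] [CharZero K] [AddCommGroup V] [Module K V]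

private def Q1P (T : V →ₗ[K] V) (v : V) : Prop :=
  ∃ (s : Finset ℤ) (f : ℤ → V), (∀ d, T (f d) = (d : K) • f d) ∧ v = ∑ d ∈ s, f d

private lemma Q1P_eig {T : V →ₗ[K] V} {v : V} {d : ℤ} (h : T v = (d : K) • v) : Q1P T v := by
  classical
  refine ⟨{d}, fun e => if e = d then v else 0, fun e => ?_, by simp⟩
  by_cases he : e = d
  · subst he; simp only [if_true]; exact h
  · simp only [he, if_false, map_zero, smul_zero]

private lemma Q1P_zero {T : V →ₗ[K] V} : Q1P T 0 :=
  ⟨∅, fun _ => 0, fun d => by rw [map_zero, smul_zero], by simp⟩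

private lemma Q1P_add {T : V →ₗ[K] V} {v w : V} (hv : Q1P T v) (hw : Q1P T w) :
    Q1P T (v + w) := by
  classical
  obtain ⟨s, f, hf, rfl⟩ := hv
  obtain ⟨t, g, hg, rfl⟩ := hw
  refine ⟨s ∪ t, fun d => (if d ∈ s then f d else 0) + (if d ∈ t then g d else 0), ?_, ?_⟩
  · intro d
    rw [map_add, smul_add]
    congr 1
    · by_cases hd : d ∈ s
      · simp only [hd, if_true]; exact hf d
      · simp only [hd, if_false, map_zero, smul_zero]
    · by_cases hd : d ∈ t
      · simp only [hd, if_true]; exact hg d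
      · simp only [hd, if_false, map_zero, smul_zero]
  · rw [Finset.sum_add_distrib]
    congr 1
    · rw [Finset.sum_ite_mem, Finset.union_inter_cancel_left]
    · rw [Finset.sum_ite_mem, Finset.union_inter_cancel_right]

private lemma Q1P_sum {T : V →ₗ[K] V} {α : Type*} (s : Finset α) (f : α → V)
    (h : ∀ a ∈ s, Q1P T (f a)) : Q1P T (∑ a ∈ s, f a) :=
  Finset.sum_induction f (Q1P T) (fun _ _ => Q1P_add) Q1P_zero h

end sums

/-- The operator on the free module. -/
private noncomputable def Q1_op (E : Derivation ℂ P5 P5) {p : ℕ} (a : Fin p → ℤ) :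
    (Fin p → P5) →ₗ[ℂ] (Fin p → P5) :=
  LinearMap.pi fun i => (E : P5 →ₗ[ℂ] P5) ∘ₗ LinearMap.proj i + (a i : ℂ) • LinearMap.proj i

private lemma Q1_op_apply (E : Derivation ℂ P5 P5) {p : ℕ} (a : Fin p → ℤ) (c : Fin p → P5) (i : Fin p) :
    Q1_op E a c i = E (c i) + (a i : ℂ) • c i := rfl

private lemma Q1_op_smul (E : Derivation ℂ P5 P5) {p : ℕ} (a : Fin p → ℤ) (g : P5) (c : Fin p → P5) :
    Q1_op E a (g • c) = E g • c + g • Q1_op E a c := by
  funext i
  rw [Q1_op_apply, Pi.add_apply, Pi.smul_apply, Pi.smul_apply, Pi.smul_apply, Q1_op_apply, smul_eq_mul,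
    smul_eq_mul, smul_eq_mul, Derivation.leibniz, smul_eq_mul, smul_eq_mul, mul_add, mul_smul_comm]
  ring

private lemma Q1_op_rel {E : Derivation ℂ P5 P5} (hE : ∀ i, E (X i) = X i) {p : ℕ} (a : Fin p → ℤ)
    (b : ℤ) (r : Fin p → P5) (hr : HV a b r) : Q1_op E a r = (b : ℂ) • r := by
  funext i
  rw [Q1_op_apply, Pi.smul_apply, SB.euler_hom hE (hr i), ← add_smul, ← Int.cast_add, sub_add_cancel]

private lemma Q1_op_mem {E : Derivation ℂ P5 P5} (hE : ∀ i, E (X i) = X i) {p q : ℕ} (a : Fin p → ℤ)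
    (b : Fin q → ℤ) (r : Fin q → Fin p → P5) (hr : ∀ j, HV a (b j) (r j)) (v : Fin p → P5)
    (hv : v ∈ Submodule.span P5 (Set.range r)) : Q1_op E a v ∈ Submodule.span P5 (Set.range r) := by
  induction hv using Submodule.span_induction with
  | mem x hx =>
    obtain ⟨j, rfl⟩ := hx
    rw [Q1_op_rel hE a (b j) (r j) (hr j)]
    have h1 : ((b j : ℂ) • r j : Fin p → P5) = (C (b j : ℂ) : P5) • r j := by
      funext i
      rw [Pi.smul_apply, Pi.smul_apply, smul_eq_mul, C_mul']
    rw [h1]
    exact Submodule.smul_mem _ _ (Submodule.subset_span ⟨j, rfl⟩)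
  | zero => rw [map_zero]; exact Submodule.zero_mem _
  | add x y _ _ hx hy => rw [map_add]; exact Submodule.add_mem _ hx hy
  | smul g x hx ih =>
    rw [Q1_op_smul]
    exact Submodule.add_mem _ (Submodule.smul_mem _ _ hx) (Submodule.smul_mem _ _ ih)

theorem exists_eps {E : Derivation ℂ P5 P5} (hE : ∀ i, E (X i) = X i) {p q : ℕ} (a : Fin p → ℤ)
    (b : Fin q → ℤ) (r : Fin q → Fin p → P5) (hr : ∀ j, HV a (b j) (r j)) :
    ∃ ε : ((Fin p → P5) ⧸ Submodule.span P5 (Set.range r)) →ₗ[ℂ]
      ((Fin p → P5) ⧸ Submodule.span P5 (Set.range r)), IsConn E ε ∧ Diag ε := by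
  classical
  obtain ⟨W, hW⟩ : ∃ W, W = Submodule.span P5 (Set.range r) := ⟨_, rfl⟩
  rw [← hW]
  have hop : ∀ v ∈ W, Q1_op E a v ∈ W := by
    intro v hv
    rw [hW] at hv ⊢
    exact Q1_op_mem hE a b r hr v hv
  obtain ⟨ε, hε⟩ : ∃ ε : ((Fin p → P5) ⧸ W) →ₗ[ℂ] ((Fin p → P5) ⧸ W),
      ∀ v, ε (Submodule.Quotient.mk v) = Submodule.Quotient.mk (Q1_op E a v) := by
    refine ⟨(Submodule.Quotient.restrictScalarsEquiv ℂ W).toLinearMap ∘ₗ
      ((W.restrictScalars ℂ).mapQ (W.restrictScalars ℂ) (Q1_op E a) fun v hv => hop v hv) ∘ₗ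
      (Submodule.Quotient.restrictScalarsEquiv ℂ W).symm.toLinearMap, fun v => rfl⟩
  refine ⟨ε, ?_, ?_⟩
  · intro g m
    obtain ⟨v, rfl⟩ := Submodule.Quotient.mk_surjective W m
    rw [← Submodule.Quotient.mk_smul, hε, hε, Q1_op_smul, Submodule.Quotient.mk_add,
      Submodule.Quotient.mk_smul, Submodule.Quotient.mk_smul]
  · have hx : Coord ℂ (X : Fin 5 → P5) := ⟨by rw [aeval_X_left]; exact Function.bijective_id⟩
    have hEu : IsEuler (X : Fin 5 → P5) E := hE
    intro m
    obtain ⟨v, rfl⟩ := Submodule.Quotient.mk_surjective W m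
    have hv : v = ∑ i, Pi.single i (v i) := by
      funext k
      rw [Finset.sum_apply]
      simp [Pi.single_apply]
    show Q1P ε _
    rw [hv]
    have h1 : (Submodule.Quotient.mk (∑ i, Pi.single i (v i)) : (Fin p → P5) ⧸ W) =
        ∑ i, Submodule.Quotient.mk (Pi.single i (v i)) := map_sum W.mkQ _ _
    rw [h1]
    refine Q1P_sum _ _ fun i _ => ?_
    obtain ⟨t, g, hg, hvi⟩ := euler_diag hx hEu (v i)
    have h2 : (Pi.single i (v i) : Fin p → P5) = ∑ d ∈ t, Pi.single i (g d) := by
      conv_lhs => rw [hvi]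
      funext k
      rw [Finset.sum_apply]
      by_cases hk : k = i
      · subst hk; simp
      · simp [Pi.single_eq_of_ne hk]
    have h3 : (Submodule.Quotient.mk (∑ d ∈ t, Pi.single i (g d)) : (Fin p → P5) ⧸ W) =
        ∑ d ∈ t, Submodule.Quotient.mk (Pi.single i (g d)) := map_sum W.mkQ _ _
    rw [h2, h3]
    refine Q1P_sum _ _ fun d _ => ?_
    refine Q1P_eig (d := d + a i) ?_
    have h4 : Q1_op E a (Pi.single i (g d)) = ((d + a i : ℤ) : ℂ) • (Pi.single i (g d) : Fin p → P5) := by
      funext k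
      rw [Q1_op_apply, Pi.smul_apply]
      by_cases hk : k = i
      · subst hk
        rw [Pi.single_eq_same]
        have h5 : E (g d) = (d : ℂ) • g d := hg d
        rw [h5, Int.cast_add, add_smul]
      · rw [Pi.single_eq_of_ne hk, map_zero, smul_zero, smul_zero, add_zero]
    rw [hε, h4]
    rfl

end Pool.Agent.Lib.MP_745d3a_ag.PF.PB

/-!
Eigenvectors of the Euler derivation are homogeneous.
-/

open MvPolynomial

namespace Pool.Agent.Lib.MP_745d3a_ag.PF.PB

private lemma K1_monomial {E : Derivation ℂ P5 P5} (hE : ∀ i, E (X i) = X i) (e : Fin 5 →₀ ℕ)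
    (c : ℂ) : E (monomial e c) = ((∑ i, e i : ℕ) : ℂ) • (monomial e c : P5) := by
  have key : ∀ (e : Fin 5 →₀ ℕ), E (monomial e 1) = ((∑ i, e i : ℕ) : ℂ) • (monomial e 1 : P5) := by
    intro e
    induction e using Finsupp.induction_linear with
    | zero =>
      have h1 : (monomial (0 : Fin 5 →₀ ℕ) (1 : ℂ) : P5) = 1 := rfl
      rw [h1, Derivation.map_one_eq_zero]
      simp
    | add f g hf hg =>
      have h1 : (monomial (f + g) (1 : ℂ) : P5) = monomial f 1 * monomial g 1 := by
        rw [monomial_mul, one_mul]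
      rw [h1, Derivation.leibniz, hf, hg, smul_eq_mul, smul_eq_mul, mul_smul_comm, mul_smul_comm,
        mul_comm (monomial g 1 : P5), ← add_smul]
      congr 1
      simp only [Finsupp.add_apply, Finset.sum_add_distrib]
      push_cast
      ring
    | single i n =>
      have h1 : (monomial (Finsupp.single i n) (1 : ℂ) : P5) = X i ^ n := by
        rw [X_pow_eq_monomial]
      have h2 : (∑ j, (Finsupp.single i n : Fin 5 →₀ ℕ) j : ℕ) = n := by
        simp [Finsupp.single_apply]
      rw [h1, h2, Derivation.leibniz_pow, hE]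
      cases n with
      | zero => simp
      | succ n =>
        rw [Nat.add_sub_cancel, smul_eq_mul, ← pow_succ, Nat.cast_smul_eq_nsmul]
  have h1 : (monomial e c : P5) = c • monomial e 1 := by rw [smul_monomial, smul_eq_mul, mul_one]
  rw [h1, E.map_smul, key, smul_comm]

theorem eig_hom {E : Derivation ℂ P5 P5} (hE : ∀ i, E (X i) = X i) {r : P5} {k : ℤ}
    (h : E r = (k : ℂ) • r) : IsWeightedHomogeneous (fun _ : Fin 5 => (1 : ℤ)) r k := by
  intro e he
  have h1 : coeff e (E r) = ((∑ i, e i : ℕ) : ℂ) * coeff e r := by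
    conv_lhs => rw [r.as_sum, map_sum]
    simp only [K1_monomial hE, coeff_sum, coeff_smul, coeff_monomial, smul_eq_mul]
    rw [Finset.sum_eq_single e]
    · simp
    · intro f _ hf
      simp [hf]
    · intro h
      rw [MvPolynomial.notMem_support_iff.mp h]
      simp
  rw [h, coeff_smul, smul_eq_mul] at h1
  have h2 := mul_right_cancel₀ he h1
  rw [Finsupp.weight_apply, Finsupp.sum_fintype _ _ (by simp)]
  have h3 : (k : ℤ) = ((∑ i, e i : ℕ) : ℤ) := by exact_mod_cast h2
  rw [h3]
  push_cast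
  simp

end Pool.Agent.Lib.MP_745d3a_ag.PF.PB
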