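import Pool.Agent.Lib.MP_745d3a_ag.Graded
import Pool.Agent.Lib.MP_745d3a_ag.PB.PA
import Pool.Agent.Lib.MP_745d3a_ag.PB.PB
import Pool.Agent.Lib.MP_745d3a_ag.PB.PC

/-!
Limits of sequences of self-maps and pull-backs.
-/

set_option autoImplicit false
set_option linter.unusedSectionVars false
set_option linter.unusedSimpArgs false
set_option linter.unusedVariables false

/-!
The ultrapower of the complex numbers.

* `exists_lim`: `U = Filter.hyperfilter ℕ`. `L = Filter.Germ (U : Filter ℕ) ℂ` is a field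
  (Order/Filter/FilterProduct.lean, `Filter.Germ.instField`) of characteristic zero. It is algebraically
  closed: a monic polynomial over `L` of degree `n ≥ 1` is the germ of a sequence of monic polynomials of
  degree `n`; choose roots `z k` of the `k`-th one (`IsAlgClosed.exists_root`); the germ of `z` is a root
  (`IsAlgClosed.of_exists_root`). Its cardinality is the continuum (`ℕ → ℂ` surjects to it, `ℂ` embeds by
  constants), so there is a ring isomorphism `L ≃+* ℂ`
  (`IsAlgClosed.ringEquiv_of_equiv_of_charZero`, FieldTheory/IsAlgClosed/Classification.lean). `θ` is the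
  composition `(ℕ → ℂ) → L → ℂ` (`Filter.Germ.coeRingHom`-like). `zero`: `Filter.Germ.coe_eq`. `free`: complements
  of finite sets are in the hyperfilter (`Filter.compl_mem_hyperfilter_of_finite`).
-/

open MvPolynomial

namespace Pool.Agent.Lib.MP_745d3a_ag.PF.PB

private theorem G1a_isAlgClosed (U : Ultrafilter ℕ) :
    IsAlgClosed (Filter.Germ (U : Filter ℕ) ℂ) := by
  classical
  refine IsAlgClosed.of_exists_root _ ?_
  intro p hm hi
  have hq : Function.Surjective (Filter.Germ.coeRingHom (R := ℂ) (U : Filter ℕ)) := by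
    intro x
    induction x using Filter.Germ.inductionOn with
    | h f => exact ⟨f, rfl⟩
  choose a ha using fun i => hq (p.coeff i)
  set n := p.natDegree with hn
  have hn1 : n ≠ 0 := by
    have := Polynomial.natDegree_pos_iff_degree_pos.2 (Polynomial.degree_pos_of_irreducible hi)
    omega
  have hroot : ∀ k : ℕ, ∃ z : ℂ, z ^ n + ∑ i ∈ Finset.range n, a i k * z ^ i = 0 := by
    intro k
    set r : Polynomial ℂ := ∑ i ∈ Finset.range n, Polynomial.C (a i k) * Polynomial.X ^ i with hr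
    have hrd : r.degree < (n : WithBot ℕ) := by
      rw [hr]
      refine Polynomial.mem_degreeLT.1 (Submodule.sum_mem _ fun i hi' => Polynomial.mem_degreeLT.2 ?_)
      refine lt_of_le_of_lt (Polynomial.degree_C_mul_X_pow_le i _) ?_
      exact_mod_cast Finset.mem_range.1 hi'
    have hd : (Polynomial.X ^ n + r).degree ≠ 0 := by
      rw [Polynomial.degree_add_eq_left_of_degree_lt (by rwa [Polynomial.degree_X_pow]),
        Polynomial.degree_X_pow]
      exact_mod_cast hn1
    obtain ⟨z, hz⟩ := IsAlgClosed.exists_root _ hd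
    refine ⟨z, ?_⟩
    rw [Polynomial.IsRoot.def, Polynomial.eval_add, hr, Polynomial.eval_finsetSum] at hz
    simpa using hz
  choose z hz using hroot
  refine ⟨Filter.Germ.coeRingHom (U : Filter ℕ) z, ?_⟩
  have hfun : z ^ n + ∑ i ∈ Finset.range n, a i * z ^ i = 0 := by
    funext k
    have := hz k
    simpa [Finset.sum_apply] using this
  have h2 := congrArg (Filter.Germ.coeRingHom (U : Filter ℕ)) hfun
  rw [map_add, map_pow, map_sum, map_zero] at h2
  rw [Polynomial.eval_eq_sum_range, Finset.sum_range_succ, ← hn]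
  have hc : p.coeff n = 1 := hm.coeff_natDegree
  rw [hc, one_mul, add_comm, ← h2]
  congr 1
  refine Finset.sum_congr rfl fun i _ => ?_
  rw [map_mul, map_pow, ha i]

theorem exists_lim : ∃ (U : Ultrafilter ℕ) (θ : (ℕ → ℂ) →+* ℂ), Lim U θ := by
  classical
  set U : Ultrafilter ℕ := Filter.hyperfilter ℕ with hU
  have hq : Function.Surjective (Filter.Germ.coeRingHom (R := ℂ) (U : Filter ℕ)) := by
    intro x
    induction x using Filter.Germ.inductionOn with
    | h f => exact ⟨f, rfl⟩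
  have : IsAlgClosed (Filter.Germ (U : Filter ℕ) ℂ) := G1a_isAlgClosed U
  set c : ℂ →+* Filter.Germ (U : Filter ℕ) ℂ :=
    (Filter.Germ.coeRingHom (U : Filter ℕ)).comp (Pi.constRingHom ℕ ℂ) with hc
  have hcinj : Function.Injective c := c.injective
  have : CharZero (Filter.Germ (U : Filter ℕ) ℂ) := charZero_of_injective_ringHom hcinj
  have hcard : Cardinal.mk (Filter.Germ (U : Filter ℕ) ℂ) = Cardinal.continuum := by
    apply le_antisymm
    · refine (Cardinal.mk_le_of_surjective hq).trans ?_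
      rw [← Cardinal.power_def, Cardinal.mk_complex, Cardinal.mk_nat,
        Cardinal.continuum_power_aleph0]
    · rw [← Cardinal.mk_complex]
      exact Cardinal.mk_le_of_injective hcinj
  obtain ⟨e⟩ := IsAlgClosed.ringEquiv_of_equiv_of_charZero
    (K := Filter.Germ (U : Filter ℕ) ℂ) (L := ℂ)
    (by rw [hcard]; exact Cardinal.aleph0_lt_continuum)
    (Cardinal.eq.1 (hcard.trans Cardinal.mk_complex.symm))
  refine ⟨U, e.toRingHom.comp (Filter.Germ.coeRingHom (U : Filter ℕ)), ?_, ?_, ?_⟩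
  · exact e.surjective.comp hq
  · intro z
    have h1 : (e.toRingHom.comp (Filter.Germ.coeRingHom (U : Filter ℕ))) z
        = e ((Filter.Germ.coeRingHom (U : Filter ℕ)) z) := rfl
    rw [h1, map_eq_zero_iff e e.injective]
    exact Filter.Germ.coe_eq (f := z) (g := 0)
  · intro s hs
    exact Filter.compl_mem_hyperfilter_of_finite hs

end Pool.Agent.Lib.MP_745d3a_ag.PF.PB

/-!
The ultrapower of the complex numbers.

* `Lim.not_range`: `θ z = τ c = θ (fun _ => c)` gives `z n = c` for almost all `n`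
  (`zero` for the difference), but `{n | z n = c}` has at most one element, so its complement is
  in `U`: contradiction (`U` is a proper filter).
-/

open MvPolynomial

namespace Pool.Agent.Lib.MP_745d3a_ag.PF.PB

theorem Lim.not_range {U : Ultrafilter ℕ} {θ : (ℕ → ℂ) →+* ℂ} (hL : Lim U θ) {z : ℕ → ℂ}
    (hz : Function.Injective z) : θ z ∉ Set.range (tau θ) := by
  rintro ⟨c, hc⟩
  have h1 : θ (z - fun _ => c) = 0 := by
    rw [map_sub, sub_eq_zero]
    exact hc.symm
  have h2 := (hL.zero _).1 h1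
  have h3 : {n : ℕ | z n = c} ∈ (U : Filter ℕ) := by
    filter_upwards [h2] with n hn
    have h4 : z n - c = 0 := hn
    exact sub_eq_zero.1 h4
  have h5 : ({n : ℕ | z n = c}).Finite := by
    apply Set.Subsingleton.finite
    intro a ha b hb
    exact hz ((show z a = c from ha).trans (show z b = c from hb).symm)
  have h6 := hL.free _ h5
  exact (Ultrafilter.compl_mem_iff_notMem.1 h6) h3

end Pool.Agent.Lib.MP_745d3a_ag.PF.PB

/-!
Limits of sequences of polynomials of bounded degree.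

Everything by comparison of coefficients (`MvPolynomial.ext`).
* `exists_th`: `p = ∑ e with degree ≤ B, monomial e (θ (fun n => coeff e (u n)))` (finitely many `e`: e.g.
  the finite set of `e` with `e i ≤ B`, `Finset.Iic` in `Fin 5 →₀ ℕ`); for other `e` all `coeff e (u n)` are zero
  (`MvPolynomial.coeff_eq_zero_of_totalDegree_lt`) and `θ 0 = 0`.
* `IsTh.mul`: `coeff_mul` is a sum over the finite set `Finset.antidiagonal e`, which does not depend on
  `n`; `θ` is a ring homomorphism (`map_sum`, the sum of functions is pointwise: `Finset.sum_apply`).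
* `IsTh.const`: `coeff_map`.
-/

open MvPolynomial

namespace Pool.Agent.Lib.MP_745d3a_ag.PF.PB

section

variable {θ : (ℕ → ℂ) →+* ℂ} {u v : ℕ → P5} {p p' : P5}

theorem exists_th (θ : (ℕ → ℂ) →+* ℂ) (hu : Bdd u) : ∃ p, IsTh θ u p := by
  classical
  obtain ⟨B, hB⟩ := hu
  let T : Finset (Fin 5 →₀ ℕ) := Finset.Iic (Finsupp.equivFunOnFinite.symm fun _ => B)
  refine ⟨∑ e ∈ T, monomial e (θ fun n => coeff e (u n)), fun e => ?_⟩
  rw [coeff_sum]
  simp only [coeff_monomial]
  rw [Finset.sum_ite_eq']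
  split_ifs with h
  · rfl
  · have h0 : (fun n => coeff e (u n)) = 0 := by
      funext n
      refine coeff_eq_zero_of_totalDegree_lt ?_
      by_contra hlt
      rw [not_lt] at hlt
      refine h ?_
      simp only [T, Finset.mem_Iic]
      intro i
      have h1 : e i ≤ ∑ j ∈ e.support, e j := by
        by_cases hi : i ∈ e.support
        · exact Finset.single_le_sum (f := fun j => e j) (fun j _ => Nat.zero_le _) hi
        · rw [Finsupp.notMem_support_iff] at hi
          omega
      have h2 : e i ≤ B := h1.trans (hlt.trans (hB n))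
      simpa using h2
    rw [h0, map_zero]

theorem IsTh.unique (h : IsTh θ u p) (h' : IsTh θ u p') : p = p' := by
  ext e
  rw [h e, h' e]

theorem IsTh.add (h : IsTh θ u p) (h' : IsTh θ v p') : IsTh θ (fun n => u n + v n) (p + p') := by
  intro e
  rw [coeff_add, h e, h' e, ← map_add]
  congr 1

theorem IsTh.sub (h : IsTh θ u p) (h' : IsTh θ v p') : IsTh θ (fun n => u n - v n) (p - p') := by
  intro e
  rw [coeff_sub, h e, h' e, ← map_sub]
  congr 1

theorem IsTh.mul (h : IsTh θ u p) (h' : IsTh θ v p') : IsTh θ (fun n => u n * v n) (p * p') := by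
  classical
  intro e
  rw [coeff_mul]
  have h1 : ∀ x ∈ Finset.HasAntidiagonal.antidiagonal e, coeff x.1 p * coeff x.2 p' =
      θ (fun n => coeff x.1 (u n) * coeff x.2 (v n)) := by
    intro x _
    rw [h x.1, h' x.2, ← map_mul]
    rfl
  rw [Finset.sum_congr rfl h1, ← map_sum]
  congr 1
  funext n
  rw [Finset.sum_apply, coeff_mul]

theorem IsTh.sum {ι : Type*} (s : Finset ι) (u : ι → ℕ → P5) (p : ι → P5)
    (h : ∀ i ∈ s, IsTh θ (u i) (p i)) : IsTh θ (fun n => ∑ i ∈ s, u i n) (∑ i ∈ s, p i) := by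
  intro e
  rw [coeff_sum, Finset.sum_congr rfl fun i hi => h i hi e, ← map_sum]
  congr 1
  funext n
  rw [Finset.sum_apply, coeff_sum]

theorem IsTh.C (z : ℕ → ℂ) : IsTh θ (fun n => MvPolynomial.C (z n)) (MvPolynomial.C (θ z)) := by
  classical
  intro e
  simp only [coeff_C]
  split_ifs with h
  · rfl
  · exact (map_zero θ).symm

theorem IsTh.const (p : P5) : IsTh θ (fun _ => p) (MvPolynomial.map (tau θ) p) := by
  intro e
  rw [coeff_map]
  rfl

theorem IsTh.one : IsTh θ (fun _ => 1) 1 := by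
  have h := IsTh.const (θ := θ) (1 : P5)
  rwa [map_one] at h

theorem IsTh.zero : IsTh θ (fun _ => 0) 0 := by
  have h := IsTh.const (θ := θ) (0 : P5)
  rwa [map_zero] at h

end

end Pool.Agent.Lib.MP_745d3a_ag.PF.PB

/-!
Sequences of polynomials of bounded degree.

* `Bdd.mul`, `Bdd.sum`: `totalDegree_mul`, `totalDegree_finset_sum`; the maximum of finitely many bounds.
* `Bdd.sb`: the degree of `aeval f r` is at most `(degree of r) * (largest degree of the f i)`: write `r` as the
  sum of its monomials (`MvPolynomial.aeval_def`, `eval₂_eq'`, `totalDegree_finset_sum`,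
  `totalDegree_finset_prod`, `totalDegree_pow`).
-/

open MvPolynomial

namespace Pool.Agent.Lib.MP_745d3a_ag.PF.PB

section

variable {θ : (ℕ → ℂ) →+* ℂ} {u v : ℕ → P5} {p p' : P5}

theorem Bdd.mul (h : Bdd u) (h' : Bdd v) : Bdd (fun n => u n * v n) := by
  obtain ⟨B, hB⟩ := h
  obtain ⟨B', hB'⟩ := h'
  exact ⟨B + B', fun n => (totalDegree_mul _ _).trans (add_le_add (hB n) (hB' n))⟩

theorem Bdd.sum {ι : Type*} (s : Finset ι) (u : ι → ℕ → P5) (h : ∀ i ∈ s, Bdd (u i)) :
    Bdd (fun n => ∑ i ∈ s, u i n) := by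
  classical
  induction s using Finset.induction_on with
  | empty => exact ⟨0, fun n => by beta_reduce; rw [Finset.sum_empty, totalDegree_zero]⟩
  | insert a s ha ih =>
    obtain ⟨B, hB⟩ := h a (Finset.mem_insert_self a s)
    obtain ⟨B', hB'⟩ := ih fun i hi => h i (Finset.mem_insert_of_mem hi)
    refine ⟨max B B', fun n => ?_⟩
    beta_reduce
    rw [Finset.sum_insert ha]
    exact (totalDegree_add _ _).trans (max_le_max (hB n) (hB' n))

theorem Bdd.sb {f : ℕ → Fin 5 → P5} (hf : ∀ i, Bdd fun n => f n i) (hu : Bdd u) :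
    Bdd (fun n => sb (f n) (u n)) := by
  choose b hb using hf
  obtain ⟨B, hB⟩ := hu
  refine ⟨B * ∑ i, b i, fun n => ?_⟩
  beta_reduce
  rw [sb_apply, aeval_def, eval₂_eq']
  refine (totalDegree_finsetSum _ _).trans (Finset.sup_le fun e he => ?_)
  refine (totalDegree_mul _ _).trans ?_
  have h1 : ((algebraMap ℂ P5) (coeff e (u n))).totalDegree = 0 := totalDegree_C _
  rw [h1, zero_add]
  refine (totalDegree_finsetProd _ _).trans ?_
  have h2 : ∀ i ∈ (Finset.univ : Finset (Fin 5)), (f n i ^ e i).totalDegree ≤ e i * ∑ j, b j := by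
    intro i _
    refine (totalDegree_pow _ _).trans (Nat.mul_le_mul_left _ ((hb i n).trans ?_))
    exact Finset.single_le_sum (f := b) (fun _ _ => Nat.zero_le _) (Finset.mem_univ i)
  refine (Finset.sum_le_sum h2).trans ?_
  rw [← Finset.sum_mul]
  refine Nat.mul_le_mul_right _ (le_trans (le_of_eq ?_) ((le_totalDegree he).trans (hB n)))
  rw [Finsupp.sum_fintype _ _ fun _ => rfl]

end

end Pool.Agent.Lib.MP_745d3a_ag.PF.PB

/-!
Limits and substitution.

`IsTh.sb`: let `Λ` be the finite set of exponents `e` with all `e i ≤ B` (`Finset.Iic`), `B` a bound for the degree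
of all `u n`. `u n = ∑ e ∈ Λ, C (coeff e (u n)) * ∏ i, X i ^ e i`, so
`sb (f n) (u n) = ∑ e ∈ Λ, C (coeff e (u n)) * ∏ i, (f n i) ^ e i`, and the same for `p`, `f'` (the coefficients of
`p` outside `Λ` vanish, because they are `θ 0`); apply `IsTh.sum`, `IsTh.mul`, `IsTh.C` and (by induction, from
`IsTh.mul`, `IsTh.one`) powers and products.
-/

open MvPolynomial

namespace Pool.Agent.Lib.MP_745d3a_ag.PF.PB

section

variable {θ : (ℕ → ℂ) →+* ℂ} {u v : ℕ → P5} {p p' : P5}

theorem G2c_pow (h : IsTh θ u p) (k : ℕ) : IsTh θ (fun n => u n ^ k) (p ^ k) := by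
  induction k with
  | zero =>
    simp only [pow_zero]
    exact IsTh.one
  | succ k ih =>
    simp only [pow_succ]
    exact IsTh.mul ih h

theorem G2c_prod {ι : Type*} (s : Finset ι) (u : ι → ℕ → P5) (p : ι → P5)
    (h : ∀ i ∈ s, IsTh θ (u i) (p i)) : IsTh θ (fun n => ∏ i ∈ s, u i n) (∏ i ∈ s, p i) := by
  classical
  induction s using Finset.induction_on with
  | empty =>
    simp only [Finset.prod_empty]
    exact IsTh.one
  | insert a s ha ih =>
    simp only [Finset.prod_insert ha]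
    exact IsTh.mul (h a (Finset.mem_insert_self a s)) (ih fun i hi => h i (Finset.mem_insert_of_mem hi))

theorem G2c_expand (f : Fin 5 → P5) (q : P5) (Λ : Finset (Fin 5 →₀ ℕ)) (h : ∀ e, e ∉ Λ → coeff e q = 0) :
    sb f q = ∑ e ∈ Λ, MvPolynomial.C (coeff e q) * ∏ i, f i ^ e i := by
  rw [sb_apply, aeval_def, eval₂_eq']
  refine Finset.sum_subset ?_ ?_
  · intro e he
    by_contra hn
    exact (mem_support_iff.1 he) (h e hn)
  · intro e _ he
    rw [notMem_support_iff.1 he, map_zero, zero_mul]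

theorem G2c_mem {B : ℕ} {q : P5} (hq : q.totalDegree ≤ B) (e : Fin 5 →₀ ℕ)
    (he : e ∉ Finset.Iic (Finsupp.equivFunOnFinite.symm fun _ : Fin 5 => B)) : coeff e q = 0 := by
  by_contra hne
  refine he (Finset.mem_Iic.2 fun i => ?_)
  have h1 := (le_totalDegree (mem_support_iff.2 hne)).trans hq
  rw [Finsupp.sum_fintype _ _ fun _ => rfl] at h1
  have h2 : e i ≤ ∑ i, e i := Finset.single_le_sum (f := fun i => e i) (fun _ _ => Nat.zero_le _) (Finset.mem_univ i)
  exact h2.trans h1

theorem IsTh.sb {f : ℕ → Fin 5 → P5} {f' : Fin 5 → P5} (hu : Bdd u)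
    (hf : ∀ i, IsTh θ (fun n => f n i) (f' i)) (h : IsTh θ u p) :
    IsTh θ (fun n => sb (f n) (u n)) (sb f' p) := by
  obtain ⟨B, hB⟩ := hu
  have h1 : ∀ n, PB.sb (f n) (u n) = ∑ e ∈ Finset.Iic (Finsupp.equivFunOnFinite.symm fun _ : Fin 5 => B),
      MvPolynomial.C (coeff e (u n)) * ∏ i, f n i ^ e i := fun n =>
    G2c_expand (f n) (u n) _ fun e he => G2c_mem (hB n) e he
  have h2 : PB.sb f' p = ∑ e ∈ Finset.Iic (Finsupp.equivFunOnFinite.symm fun _ : Fin 5 => B),
      MvPolynomial.C (coeff e p) * ∏ i, f' i ^ e i := by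
    refine G2c_expand f' p _ fun e he => ?_
    rw [h e]
    have h3 : (fun n => coeff e (u n)) = 0 := by
      funext n
      exact G2c_mem (hB n) e he
    rw [h3, map_zero]
  rw [h2]
  simp only [h1]
  refine IsTh.sum _ (fun e n => MvPolynomial.C (coeff e (u n)) * ∏ i, f n i ^ e i) _ fun e _ => ?_
  rw [h e]
  exact IsTh.mul (IsTh.C fun n => coeff e (u n)) (G2c_prod Finset.univ (fun i n => f n i ^ e i) _
    fun i _ => G2c_pow (hf i) (e i))

end

end Pool.Agent.Lib.MP_745d3a_ag.PF.PB

/-!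
Limits of self-maps.

* `IsTh.homog`, `IsTh.wh`: a coefficient of `p` at a monomial of another degree is `θ 0 = 0`.
* `IsTh.ev`: `eval (fun i => θ (z i)) p = θ (fun n => eval (fun i => z i n) (u n))` for `Bdd u`:
  `MvPolynomial.eval_eq'`-like; write `u n` as a sum over the fixed finite set of the exponents with
  all `e i ≤ B`.
* `sm_th`: forms: `IsTh.homog`. Let `ζ` be a common zero of the `f' i`, `ζ i = θ (z i)` (`hL.surj`). By
  `IsTh.ev` and `hL.zero` for almost all `n` all `f n i` vanish at `(z i n)_i`, so `z i n = 0` for all `i`, and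
  `ζ i = θ (z i) = 0` (`hL.zero`).
-/

open MvPolynomial

namespace Pool.Agent.Lib.MP_745d3a_ag.PF.PB

section

variable {U : Ultrafilter ℕ} {θ : (ℕ → ℂ) →+* ℂ} {u : ℕ → P5} {p : P5}

theorem IsTh.homog {e : ℕ} (hu : ∀ n, (u n).IsHomogeneous e) (h : IsTh θ u p) :
    p.IsHomogeneous e := by
  intro d hd
  by_contra hne
  apply hd
  rw [h d]
  have h0 : (fun n => coeff d (u n)) = 0 := funext fun n => by
    by_contra hc
    exact hne (hu n hc)
  rw [h0, map_zero]

theorem IsTh.wh {k : ℤ} (hu : ∀ n, IsWeightedHomogeneous (fun _ : Fin 5 => (1 : ℤ)) (u n) k)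
    (h : IsTh θ u p) : IsWeightedHomogeneous (fun _ : Fin 5 => (1 : ℤ)) p k := by
  intro d hd
  by_contra hne
  apply hd
  rw [h d]
  have h0 : (fun n => coeff d (u n)) = 0 := funext fun n => by
    by_contra hc
    exact hne (hu n hc)
  rw [h0, map_zero]

private theorem G3_eval (S : Finset (Fin 5 →₀ ℕ)) (q : P5) (hq : ∀ e, e ∉ S → coeff e q = 0)
    (z : Fin 5 → ℂ) : eval z q = ∑ e ∈ S, coeff e q * ∏ i, z i ^ e i := by
  rw [eval_eq']
  apply Finset.sum_subset
  · intro e he
    by_contra h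
    exact (mem_support_iff.1 he) (hq e h)
  · intro e _ he
    rw [notMem_support_iff.1 he, zero_mul]

private theorem G3_big (B : ℕ) (q : P5) (hq : q.totalDegree ≤ B) (e : Fin 5 →₀ ℕ)
    (he : e ∉ Finset.Iic (Finsupp.equivFunOnFinite.symm (fun _ : Fin 5 => B))) :
    coeff e q = 0 := by
  by_contra h
  apply he
  rw [Finset.mem_Iic]
  intro i
  have h1 := le_totalDegree (mem_support_iff.2 h)
  have h2 : e i ≤ e.sum fun _ a => a := by
    rw [Finsupp.sum_fintype _ _ (fun _ => rfl)]
    exact Finset.single_le_sum (f := fun i => e i) (fun _ _ => Nat.zero_le _) (Finset.mem_univ i)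
  exact h2.trans (h1.trans hq)

theorem IsTh.ev (hu : Bdd u) (h : IsTh θ u p) (z : Fin 5 → ℕ → ℂ) :
    eval (fun i => θ (z i)) p = θ (fun n => eval (fun i => z i n) (u n)) := by
  obtain ⟨B, hB⟩ := hu
  have h1 : ∀ e, e ∉ Finset.Iic (Finsupp.equivFunOnFinite.symm (fun _ : Fin 5 => B)) →
      coeff e p = 0 := by
    intro e he
    rw [h e]
    have h0 : (fun n => coeff e (u n)) = 0 := funext fun n => G3_big B (u n) (hB n) e he
    rw [h0, map_zero]
  rw [G3_eval _ p h1]
  have h2 : (fun n => eval (fun i => z i n) (u n)) =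
      ∑ e ∈ Finset.Iic (Finsupp.equivFunOnFinite.symm (fun _ : Fin 5 => B)),
        (fun n => coeff e (u n)) * ∏ i, z i ^ e i := by
    funext n
    rw [G3_eval _ (u n) (fun e he => G3_big B (u n) (hB n) e he), Finset.sum_apply]
    refine Finset.sum_congr rfl fun e _ => ?_
    simp only [Pi.mul_apply, Finset.prod_apply, Pi.pow_apply]
  rw [h2, map_sum]
  refine Finset.sum_congr rfl fun e _ => ?_
  rw [map_mul, map_prod, h e]
  simp only [map_pow]

theorem sm_th (hL : Lim U θ) {d : ℕ} {f : ℕ → Fin 5 → P5} {f' : Fin 5 → P5}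
    (hf : ∀ n, SM d (f n)) (h : ∀ i, IsTh θ (fun n => f n i) (f' i)) : SM d f' := by
  refine ⟨fun i => (h i).homog fun n => (hf n).hom i, fun ζ hζ => ?_⟩
  choose z hz using fun i => hL.surj (ζ i)
  have hz' : (fun i => θ (z i)) = ζ := funext hz
  have h1 : ∀ i, ∀ᶠ n in (U : Filter ℕ), eval (fun j => z j n) (f n i) = 0 := by
    intro i
    rw [← hL.zero (fun n => eval (fun j => z j n) (f n i)),
      ← (h i).ev ⟨d, fun n => ((hf n).hom i).totalDegree_le⟩ z, hz']
    exact hζ i
  have h2 : ∀ᶠ n in (U : Filter ℕ), ∀ i, eval (fun j => z j n) (f n i) = 0 :=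
    Filter.eventually_all.2 h1
  funext i
  rw [← hz i, Pi.zero_apply, hL.zero]
  filter_upwards [h2] with n hn
  exact congrFun ((hf n).nz _ hn) i

end

end Pool.Agent.Lib.MP_745d3a_ag.PF.PB

/-!
Homogeneous coefficients.

* `wh_deg`: a weighted homogeneous polynomial of degree `k` (all weights one) has total degree at
  most `k.toNat` (all its monomials have degree `k`; if `k < 0` it is zero).
* `wh_comp`: for `v ∈ Fin p → P5` with homogeneous entries in the span of homogeneous rows: write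
  `v = ∑ w j • R j` and replace every `w j` by its homogeneous component of degree `δ - b j` (zero if this is
  negative): comparing the components of degree `δ - a i` of the `i`-th coordinates
  (`MvPolynomial.weightedHomogeneousComponent` or `homogeneousComponent` for natural degrees; a
  convenient tool: the additive projection `pr k : P5 → P5` to the component of degree `k : ℤ`, with
  `pr (k + l) (a * g) = pr k a * g` for `g` homogeneous of degree `l`).
-/

open MvPolynomial

namespace Pool.Agent.Lib.MP_745d3a_ag.PF.PB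

theorem Z0a_mul (k l : ℤ) (a g : P5)
    (hg : IsWeightedHomogeneous (fun _ : Fin 5 => (1 : ℤ)) g l) :
    weightedHomogeneousComponent (fun _ : Fin 5 => (1 : ℤ)) (k + l) (a * g)
      = weightedHomogeneousComponent (fun _ : Fin 5 => (1 : ℤ)) k a * g := by
  classical
  ext e
  rw [coeff_weightedHomogeneousComponent, coeff_mul, coeff_mul]
  have key : ∀ x ∈ Finset.HasAntidiagonal.antidiagonal e,
      coeff x.1 (weightedHomogeneousComponent (fun _ : Fin 5 => (1 : ℤ)) k a) * coeff x.2 g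
        = if Finsupp.weight (fun _ : Fin 5 => (1 : ℤ)) e = k + l then coeff x.1 a * coeff x.2 g
          else 0 := by
    intro x hx
    have hx' := Finset.HasAntidiagonal.mem_antidiagonal.1 hx
    rw [coeff_weightedHomogeneousComponent]
    by_cases h0 : coeff x.2 g = 0
    · rw [h0]
      simp
    · have h1 := hg h0
      have h2 : Finsupp.weight (fun _ : Fin 5 => (1 : ℤ)) e
          = Finsupp.weight (fun _ : Fin 5 => (1 : ℤ)) x.1 + l := by
        rw [← hx', map_add, h1]
      rw [h2]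
      by_cases h3 : Finsupp.weight (fun _ : Fin 5 => (1 : ℤ)) x.1 = k
      · rw [if_pos h3, if_pos (by rw [h3])]
      · rw [if_neg h3, if_neg (fun h4 => h3 (add_right_cancel h4)), zero_mul]
  rw [Finset.sum_congr rfl key]
  split_ifs
  · rfl
  · exact Finset.sum_const_zero.symm

theorem Z0a_self (k : ℤ) (g : P5) (hg : IsWeightedHomogeneous (fun _ : Fin 5 => (1 : ℤ)) g k) :
    weightedHomogeneousComponent (fun _ : Fin 5 => (1 : ℤ)) k g = g := by
  ext e
  rw [coeff_weightedHomogeneousComponent]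
  split_ifs with h
  · rfl
  · by_contra h0
    exact h (hg (Ne.symm h0))

theorem wh_deg {w : P5} {k : ℤ} (h : IsWeightedHomogeneous (fun _ : Fin 5 => (1 : ℤ)) w k) :
    w.totalDegree ≤ k.toNat := by
  unfold totalDegree
  refine Finset.sup_le fun e he => ?_
  have h1 := h (mem_support_iff.1 he)
  rw [Finsupp.weight_apply] at h1
  have h2 : (e.sum fun _ n => n • (1 : ℤ)) = ((e.sum fun _ n => n : ℕ) : ℤ) := by
    unfold Finsupp.sum
    push_cast
    exact Finset.sum_congr rfl fun i _ => by simp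
  rw [h2] at h1
  omega

theorem wh_comp {p q : ℕ} (a : Fin p → ℤ) (b : Fin q → ℤ) (R : Fin q → Fin p → P5)
    (hR : ∀ j, HV a (b j) (R j)) {δ : ℤ} {v : Fin p → P5} (hv : HV a δ v)
    (h : v ∈ Submodule.span P5 (Set.range R)) :
    ∃ w : Fin q → P5, (∀ j, IsWeightedHomogeneous (fun _ : Fin 5 => (1 : ℤ)) (w j) (δ - b j)) ∧
      v = ∑ j, w j • R j := by
  obtain ⟨w, hw⟩ := (Submodule.mem_span_range_iff_exists_fun P5).1 h
  refine ⟨fun j => weightedHomogeneousComponent (fun _ : Fin 5 => (1 : ℤ)) (δ - b j) (w j),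
    fun j => weightedHomogeneousComponent_isWeightedHomogeneous _ _, ?_⟩
  funext i
  rw [Finset.sum_apply]
  have h1 : v i = ∑ j, w j * R j i := by
    rw [← hw, Finset.sum_apply]
    rfl
  have h2 := Z0a_self _ _ (hv i)
  rw [h1, map_sum] at h2
  rw [h1, ← h2]
  refine Finset.sum_congr rfl fun j _ => ?_
  have h3 := Z0a_mul (δ - b j) (b j - a i) (w j) (R j i) (hR j i)
  have e : δ - b j + (b j - a i) = δ - a i := by ring
  rw [e] at h3
  rw [h3]
  rfl

end Pool.Agent.Lib.MP_745d3a_ag.PF.PB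

/-!
Homogeneous coefficients.

* `hom_comb`: `m = ∑ u l • e l`; project to the component of degree `δ` of `M` (`DirectSum.decompose`): for
  homogeneous `u` of degree `k` and `e l ∈ 𝓜 (α l)` one has `u • e l ∈ 𝓜 (k + α l)` (`GradedSMul`), so replace
  `u l` by its component of degree `δ - α l`.
-/

open MvPolynomial

namespace Pool.Agent.Lib.MP_745d3a_ag.PF.PB

private theorem Z0b_comp_sum {M : Type*} [AddCommGroup M] [Module P5 M] (𝓜 : ℤ → AddSubgroup M)
    [DirectSum.Decomposition 𝓜] (h : ℤ) {ι : Type*} (s : Finset ι) (f : ι → M) :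
    Pool.Agent.Lib.MP_745d3a_ag.comp 𝓜 h (∑ l ∈ s, f l) =
      ∑ l ∈ s, Pool.Agent.Lib.MP_745d3a_ag.comp 𝓜 h (f l) := by
  classical
  induction s using Finset.induction_on with
  | empty =>
    rw [Finset.sum_empty, Finset.sum_empty]
    exact Pool.Agent.Lib.MP_745d3a_ag.comp_zero 𝓜 h
  | insert a s ha ih =>
    rw [Finset.sum_insert ha, Finset.sum_insert ha, Pool.Agent.Lib.MP_745d3a_ag.comp_add, ih]

theorem hom_comb {M : Type*} [AddCommGroup M] [Module P5 M] (𝓜 : ℤ → AddSubgroup M)
    [DirectSum.Decomposition 𝓜]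
    [SetLike.GradedSMul (weightedHomogeneousSubmodule ℂ (fun _ : Fin 5 => (1 : ℤ))) 𝓜]
    {p : ℕ} (α : Fin p → ℤ) (e : Fin p → M) (he : ∀ l, e l ∈ 𝓜 (α l))
    (hspan : Submodule.span P5 (Set.range e) = ⊤) {δ : ℤ} {m : M} (hm : m ∈ 𝓜 δ) :
    ∃ u : Fin p → P5, (∀ l, IsWeightedHomogeneous (fun _ : Fin 5 => (1 : ℤ)) (u l) (δ - α l)) ∧
      m = ∑ l, u l • e l := by
  have h1 : m ∈ Submodule.span P5 (Set.range e) := by rw [hspan]; exact Submodule.mem_top
  obtain ⟨u, hu⟩ := (Submodule.mem_span_range_iff_exists_fun P5).mp h1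
  refine ⟨fun l => weightedHomogeneousComponent (fun _ : Fin 5 => (1 : ℤ)) (δ - α l) (u l),
    fun l => weightedHomogeneousComponent_isWeightedHomogeneous _ _, ?_⟩
  have h2 := Pool.Agent.Lib.MP_745d3a_ag.comp_same 𝓜 hm
  rw [← h2, ← hu, Z0b_comp_sum]
  refine Finset.sum_congr rfl (fun l _ => ?_)
  exact Pool.Agent.Lib.MP_745d3a_ag.comp_smul (fun _ : Fin 5 => (1 : ℤ)) 𝓜 (he l) (u l) δ

end Pool.Agent.Lib.MP_745d3a_ag.PF.PB

/-!
Substitution of forms.

A weighted homogeneous `g` of degree `c` is zero or `c = n` is a natural number and all monomials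
of `g` have degree `n`; `sb f` of such a monomial is a constant times a product of `n` forms of degree `d`
(`IsWeightedHomogeneous.prod`/`mul`/`pow`, `MvPolynomial.IsHomogeneous` for weights `1`).
-/

open MvPolynomial

namespace Pool.Agent.Lib.MP_745d3a_ag.PF.PB

private lemma Z1a_weight (e : Fin 5 →₀ ℕ) :
    Finsupp.weight (fun _ : Fin 5 => (1 : ℤ)) e = ((Finsupp.weight (1 : Fin 5 → ℕ) e : ℕ) : ℤ) := by
  rw [Finsupp.weight_apply, Finsupp.weight_apply, Finsupp.sum, Finsupp.sum]
  simp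

private lemma Z1a_weight' (e : Fin 5 →₀ ℕ) :
    Finsupp.weight (fun _ : Fin 5 => (1 : ℤ)) e = ∑ i, (e i : ℤ) := by
  rw [Finsupp.weight_apply, Finsupp.sum_fintype]
  · simp
  · simp

private lemma Z1a_pow {p : P5} {c : ℤ}
    (h : IsWeightedHomogeneous (fun _ : Fin 5 => (1 : ℤ)) p c) (n : ℕ) :
    IsWeightedHomogeneous (fun _ : Fin 5 => (1 : ℤ)) (p ^ n) (n * c) := by
  induction n with
  | zero =>
    have := isWeightedHomogeneous_one ℂ (fun _ : Fin 5 => (1 : ℤ))
    simpa using this
  | succ n ih =>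
    have := ih.mul h
    rw [pow_succ]
    convert this using 1
    push_cast
    ring

theorem rhom {d : ℕ} {f : Fin 5 → P5} (hf : ∀ i, (f i).IsHomogeneous d) {g : P5} {c : ℤ}
    (hg : IsWeightedHomogeneous (fun _ : Fin 5 => (1 : ℤ)) g c) :
    IsWeightedHomogeneous (fun _ : Fin 5 => (1 : ℤ)) (sb f g) (d * c) := by
  have hf' : ∀ i, IsWeightedHomogeneous (fun _ : Fin 5 => (1 : ℤ)) (f i) (d : ℤ) := by
    intro i e he
    rw [Z1a_weight]
    exact_mod_cast hf i he
  rw [sb_apply, aeval_def, eval₂_eq']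
  rw [← mem_weightedHomogeneousSubmodule]
  refine Submodule.sum_mem _ fun e he => ?_
  rw [mem_weightedHomogeneousSubmodule]
  have hc : ∑ i, (e i : ℤ) = c := by
    rw [← Z1a_weight']
    exact hg (mem_support_iff.1 he)
  have h1 : IsWeightedHomogeneous (fun _ : Fin 5 => (1 : ℤ)) (∏ i, f i ^ e i)
      (∑ i, ((e i : ℤ) * (d : ℤ))) :=
    IsWeightedHomogeneous.prod _ _ _ fun i _ => Z1a_pow (hf' i) (e i)
  have h2 : IsWeightedHomogeneous (fun _ : Fin 5 => (1 : ℤ))
      (algebraMap ℂ P5 (coeff e g)) (0 : ℤ) :=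
    isWeightedHomogeneous_C _ _
  have h3 := h2.mul h1
  convert h3 using 1
  rw [zero_add, ← Finset.sum_mul, hc, mul_comm]

end Pool.Agent.Lib.MP_745d3a_ag.PF.PB

/-!
The matrices of a pull-back, with bounded degrees.

`e : Fin p' → M`, `e l ∈ 𝓜 (α l)`, relations `s j` homogeneous of degree `β j` (`HV α (β j) (s j)`). Let `n i` be the
generators of the pull-back, `n i ∈ 𝓜 (γ i)`, `γ i = d * a i + k`, `R j i = sb f (r j i)`, homogeneous: `HV γ (d * b j + k) (R j)`,
because `sb f` maps weighted homogeneous polynomials of degree `c` to weighted homogeneous polynomials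
of degree `d * c` (`rhom`: sum of monomials; a product of `c` forms of degree `d`).
`hom_comb`: `n i = ∑ l, U i l • e l`, `U i l` of degree `γ i - α l`; `e l = ∑ i, V l i • n i`, `V l i` of degree `α l - γ i`.
(1) `∑ i, R j i • n i = 0`, so `(∑ i, R j i * U i l)_l` is a relation of the `e l`, homogeneous of degree
    `d * b j + k`: by `hker` it is in the span of the `s j'`, by `wh_comp` with homogeneous coefficients `W1`.
(2) the same for `(∑ l, s j l * V l i)_i`, a relation of the `n i` of degree `β j`.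
(3) `(∑ l, U i l * V l i' - δ_{i i'})_{i'}` is a relation of the `n i'` of degree `γ i`.
(4) `(∑ i, V l i * U i l' - δ_{l l'})_{l'}` is a relation of the `e l'` of degree `α l`.
All degrees are bounded by the sum of the absolute values of all the numbers `γ i, α l, β j, d * b j + k`
and their differences; by `wh_deg` this bounds the total degrees. `B` may be any number which is at
least all the finitely many `(..).toNat`, e.g. the sum of all of them.
-/

open MvPolynomial

namespace Pool.Agent.Lib.MP_745d3a_ag.PF.PB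

private lemma Z1b_le {x y : ℕ} (F : Fin x → Fin y → ℕ) (i : Fin x) (l : Fin y) :
    F i l ≤ ∑ i, ∑ l, F i l :=
  (Finset.single_le_sum (f := fun l => F i l) (fun _ _ => Nat.zero_le _) (Finset.mem_univ l)).trans
    (Finset.single_le_sum (f := fun i => ∑ l, F i l) (fun _ _ => Nat.zero_le _) (Finset.mem_univ i))

private lemma Z1b_comb {M : Type*} [AddCommGroup M] [Module P5 M] {x y : ℕ} (A : Fin x → P5)
    (Bm : Fin x → Fin y → P5) (u : Fin x → M) (t : Fin y → M) (hu : ∀ i, u i = ∑ l, Bm i l • t l) :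
    ∑ l, (∑ i, A i * Bm i l) • t l = ∑ i, A i • u i := by
  calc ∑ l, (∑ i, A i * Bm i l) • t l = ∑ l, ∑ i, (A i * Bm i l) • t l :=
        Finset.sum_congr rfl fun l _ => Finset.sum_smul
    _ = ∑ i, ∑ l, (A i * Bm i l) • t l := Finset.sum_comm
    _ = ∑ i, A i • u i := by
        refine Finset.sum_congr rfl fun i _ => ?_
        rw [hu i, Finset.smul_sum]
        exact Finset.sum_congr rfl fun l _ => mul_smul _ _ _

private lemma Z1b_hv {x y : ℕ} (γ : Fin x → ℤ) (α : Fin y → ℤ) (δ : ℤ) (A : Fin x → P5)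
    (Bm : Fin x → Fin y → P5) (hA : HV γ δ A)
    (hB : ∀ i l, IsWeightedHomogeneous (fun _ : Fin 5 => (1 : ℤ)) (Bm i l) (γ i - α l)) :
    HV α δ (fun l => ∑ i, A i * Bm i l) := by
  intro l
  refine IsWeightedHomogeneous.sum _ _ _ fun i _ => ?_
  have h := (hA i).mul (hB i l)
  have e : δ - γ i + (γ i - α l) = δ - α l := by ring
  rwa [e] at h

private lemma Z1b_one {x : ℕ} (γ : Fin x → ℤ) (i : Fin x) :
    HV γ (γ i) (fun i' => if i = i' then (1 : P5) else 0) := by
  intro i'
  by_cases h : i = i'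
  · subst h
    simp only [if_true, sub_self]
    exact isWeightedHomogeneous_one _ _
  · simp only [if_neg h]
    exact isWeightedHomogeneous_zero _ _ _

private lemma Z1b_sub {x : ℕ} {γ : Fin x → ℤ} {δ : ℤ} {v w : Fin x → P5} (hv : HV γ δ v)
    (hw : HV γ δ w) : HV γ δ (fun i => v i - w i) := fun i =>
  Submodule.sub_mem (weightedHomogeneousSubmodule ℂ (fun _ : Fin 5 => (1 : ℤ)) (δ - γ i)) (hv i) (hw i)

private lemma Z1b_onesum {M : Type*} [AddCommGroup M] [Module P5 M] {x : ℕ} (t : Fin x → M)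
    (i : Fin x) : ∑ i', (if i = i' then (1 : P5) else 0) • t i' = t i := by
  rw [Finset.sum_eq_single i]
  · rw [if_pos rfl, one_smul]
  · intro b _ hb
    rw [if_neg (Ne.symm hb), zero_smul]
  · intro h
    exact absurd (Finset.mem_univ i) h

private lemma Z1b_at {x y : ℕ} {c : Fin y → P5} {w : Fin x → P5} {s : Fin x → Fin y → P5}
    (h : c = ∑ j, w j • s j) (l : Fin y) : c l = ∑ j, w j * s j l := by
  rw [h, Finset.sum_apply]
  exact Finset.sum_congr rfl fun j _ => by rw [Pi.smul_apply, smul_eq_mul]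

theorem matrices {M : Type*} [AddCommGroup M] [Module P5 M] (𝓜 : ℤ → AddSubgroup M)
    [DirectSum.Decomposition 𝓜]
    [SetLike.GradedSMul (weightedHomogeneousSubmodule ℂ (fun _ : Fin 5 => (1 : ℤ))) 𝓜]
    {p' q' : ℕ} (α : Fin p' → ℤ) (β : Fin q' → ℤ) (e : Fin p' → M) (s : Fin q' → Fin p' → P5)
    (he : ∀ l, e l ∈ 𝓜 (α l)) (hs : ∀ j, HV α (β j) (s j))
    (hspan : Submodule.span P5 (Set.range e) = ⊤)
    (hker : ∀ c : Fin p' → P5, ∑ l, c l • e l = 0 ↔ c ∈ Submodule.span P5 (Set.range s))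
    (d : ℕ) (k : ℤ) {p q : ℕ} (a : Fin p → ℤ) (b : Fin q → ℤ) :
    ∃ B : ℕ, ∀ (f : Fin 5 → P5) (r : Fin q → Fin p → P5), SM d f → PullBack 𝓜 d k a b f r →
      ∃ (Um : Fin p → Fin p' → P5) (Vm : Fin p' → Fin p → P5) (W1 : Fin q → Fin q' → P5)
        (W2 : Fin q' → Fin q → P5) (W3 : Fin p → Fin q → P5) (W4 : Fin p' → Fin q' → P5),
        (∀ i l, (Um i l).totalDegree ≤ B) ∧ (∀ l i, (Vm l i).totalDegree ≤ B) ∧
        (∀ j j', (W1 j j').totalDegree ≤ B) ∧ (∀ j j', (W2 j j').totalDegree ≤ B) ∧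
        (∀ i j, (W3 i j).totalDegree ≤ B) ∧ (∀ l j, (W4 l j).totalDegree ≤ B) ∧
        (∀ j l, ∑ i, sb f (r j i) * Um i l = ∑ j', W1 j j' * s j' l) ∧
        (∀ j i, ∑ l, s j l * Vm l i = ∑ j', W2 j j' * sb f (r j' i)) ∧
        (∀ i i', (∑ l, Um i l * Vm l i') - (if i = i' then 1 else 0) =
          ∑ j, W3 i j * sb f (r j i')) ∧
        (∀ l l', (∑ i, Vm l i * Um i l') - (if l = l' then 1 else 0) = ∑ j, W4 l j * s j l') := by
  obtain ⟨γ, hγ⟩ : ∃ γ : Fin p → ℤ, ∀ i, γ i = d * a i + k := ⟨_, fun _ => rfl⟩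
  obtain ⟨ρ, hρ⟩ : ∃ ρ : Fin q → ℤ, ∀ j, ρ j = d * b j + k := ⟨_, fun _ => rfl⟩
  refine ⟨(∑ i, ∑ l, (γ i - α l).toNat) + (∑ l, ∑ i, (α l - γ i).toNat)
    + (∑ j, ∑ j', (ρ j - β j').toNat) + (∑ j, ∑ j', (β j - ρ j').toNat)
    + (∑ i, ∑ j, (γ i - ρ j).toNat) + (∑ l, ∑ j, (α l - β j).toNat), ?_⟩
  intro f r hf hPB
  obtain ⟨hr, n, hn, hns, hnk⟩ := hPB
  have hn' : ∀ i, n i ∈ 𝓜 (γ i) := fun i => by rw [hγ]; exact hn i
  have hR : ∀ j, HV γ (ρ j) (fun i => sb f (r j i)) := by
    intro j i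
    have h := rhom hf.hom (hr j i)
    have e : (d : ℤ) * (b j - a i) = ρ j - γ i := by rw [hγ, hρ]; ring
    rwa [e] at h
  have hU := fun i => hom_comb 𝓜 α e he hspan (hn' i)
  choose U hUd hUe using hU
  have hV := fun l => hom_comb 𝓜 γ n hn' hns (he l)
  choose V hVd hVe using hV
  have hRz : ∀ j, ∑ i, sb f (r j i) • n i = 0 := fun j =>
    (hnk _).2 (Submodule.subset_span ⟨j, rfl⟩)
  have hsz : ∀ j, ∑ l, s j l • e l = 0 := fun j => (hker _).2 (Submodule.subset_span ⟨j, rfl⟩)
  -- (1)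
  have h1 : ∀ j, ∃ w : Fin q' → P5,
      (∀ j', IsWeightedHomogeneous (fun _ : Fin 5 => (1 : ℤ)) (w j') (ρ j - β j')) ∧
      (fun l => ∑ i, sb f (r j i) * U i l) = ∑ j', w j' • s j' := by
    intro j
    refine wh_comp α β s hs (Z1b_hv γ α (ρ j) _ U (hR j) hUd) ?_
    rw [← hker, Z1b_comb _ U n e hUe]
    exact hRz j
  choose W1 hW1d hW1e using h1
  -- (2)
  have h2 : ∀ j, ∃ w : Fin q → P5,
      (∀ j', IsWeightedHomogeneous (fun _ : Fin 5 => (1 : ℤ)) (w j') (β j - ρ j')) ∧
      (fun i => ∑ l, s j l * V l i) = ∑ j', w j' • (fun i => sb f (r j' i)) := by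
    intro j
    refine wh_comp γ ρ (fun j' i => sb f (r j' i)) hR (Z1b_hv α γ (β j) _ V (hs j) hVd) ?_
    rw [← hnk, Z1b_comb _ V e n hVe]
    exact hsz j
  choose W2 hW2d hW2e using h2
  -- (3)
  have h3 : ∀ i, ∃ w : Fin q → P5,
      (∀ j', IsWeightedHomogeneous (fun _ : Fin 5 => (1 : ℤ)) (w j') (γ i - ρ j')) ∧
      (fun i' => (∑ l, U i l * V l i') - (if i = i' then 1 else 0)) =
        ∑ j', w j' • (fun i => sb f (r j' i)) := by
    intro i
    refine wh_comp γ ρ (fun j' i => sb f (r j' i)) hR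
      (Z1b_sub (Z1b_hv α γ (γ i) (U i) V (hUd i) hVd) (Z1b_one γ i)) ?_
    rw [← hnk]
    simp only [sub_smul]
    rw [Finset.sum_sub_distrib, Z1b_comb _ V e n hVe, Z1b_onesum, ← hUe i, sub_self]
  choose W3 hW3d hW3e using h3
  -- (4)
  have h4 : ∀ l, ∃ w : Fin q' → P5,
      (∀ j', IsWeightedHomogeneous (fun _ : Fin 5 => (1 : ℤ)) (w j') (α l - β j')) ∧
      (fun l' => (∑ i, V l i * U i l') - (if l = l' then 1 else 0)) = ∑ j', w j' • s j' := by
    intro l
    refine wh_comp α β s hs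
      (Z1b_sub (Z1b_hv γ α (α l) (V l) U (hVd l) hUd) (Z1b_one α l)) ?_
    rw [← hker]
    simp only [sub_smul]
    rw [Finset.sum_sub_distrib, Z1b_comb _ U n e hUe, Z1b_onesum, ← hVe l, sub_self]
  choose W4 hW4d hW4e using h4
  refine ⟨U, V, W1, W2, W3, W4, ?_, ?_, ?_, ?_, ?_, ?_, ?_, ?_, ?_, ?_⟩
  · intro i l
    have h := Z1b_le (fun i l => (γ i - α l).toNat) i l
    have h' := wh_deg (hUd i l)
    omega
  · intro l i
    have h := Z1b_le (fun l i => (α l - γ i).toNat) l i
    have h' := wh_deg (hVd l i)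
    omega
  · intro j j'
    have h := Z1b_le (fun j j' => (ρ j - β j').toNat) j j'
    have h' := wh_deg (hW1d j j')
    omega
  · intro j j'
    have h := Z1b_le (fun j j' => (β j - ρ j').toNat) j j'
    have h' := wh_deg (hW2d j j')
    omega
  · intro i j
    have h := Z1b_le (fun i j => (γ i - ρ j).toNat) i j
    have h' := wh_deg (hW3d i j)
    omega
  · intro l j
    have h := Z1b_le (fun l j => (α l - β j).toNat) l j
    have h' := wh_deg (hW4d l j)
    omega
  · intro j l
    exact Z1b_at (hW1e j) l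
  · intro j i
    exact Z1b_at (hW2e j) i
  · intro i i'
    exact Z1b_at (hW3e i) i'
  · intro l l'
    exact Z1b_at (hW4e l) l'

end Pool.Agent.Lib.MP_745d3a_ag.PF.PB

/-!
Limits of pull-backs.

Let `B` be given by `matrices`; for every `n` choose the matrices `Um n`, …, `W4 n`. All their entries
are bounded sequences; `r n j i` too (weighted homogeneous of degree `b j - a i`: `wh_deg`), and `f n i`
(homogeneous of degree `d`). Let `f'`, `r'`, `U'`, `V'`, `W1'`, … be limits (`exists_th`). `sm_th`: `SM d f'`.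
The identities pass to the limit by `IsTh.sum`, `IsTh.mul`, `IsTh.sb`, `IsTh.const`, `IsTh.unique`
(the constant sequence `s j l` has the limit `map (tau θ) (s j l)`). Sums `∑ j, W j * s' j` are in the span
of the rows. `FB (sb f') t` by `exists_fb` with `G = ∅` (or `{1}`), then `bc_of_matrices`.
`hwh`: `IsTh.wh`.
-/

open MvPolynomial

namespace Pool.Agent.Lib.MP_745d3a_ag.PF.PB

/-- A combination of the rows is in their span. -/
lemma comb_mem {S : Type*} [CommRing S] {p q : ℕ} (R : Fin q → Fin p → S) (w : Fin q → S)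
    (v : Fin p → S) (h : ∀ l, v l = ∑ j, w j * R j l) :
    v ∈ Submodule.span S (Set.range R) := by
  have hv : v = ∑ j, w j • R j := by
    funext l
    rw [h l, Finset.sum_apply]
    exact Finset.sum_congr rfl fun j _ => by rw [Pi.smul_apply, smul_eq_mul]
  rw [hv]
  exact Submodule.sum_mem _ fun j _ => Submodule.smul_mem _ _ (Submodule.subset_span ⟨j, rfl⟩)

/-- Limits of matrices of bounded degree. -/
lemma exists_th2 (θ : (ℕ → ℂ) →+* ℂ) {m n : ℕ} (u : ℕ → Fin m → Fin n → P5) (B : ℕ)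
    (hB : ∀ k i j, (u k i j).totalDegree ≤ B) :
    ∃ p : Fin m → Fin n → P5, ∀ i j, IsTh θ (fun k => u k i j) (p i j) := by
  have h : ∀ i j, ∃ p, IsTh θ (fun k => u k i j) p := fun i j =>
    exists_th θ ⟨B, fun k => hB k i j⟩
  choose p hp using h
  exact ⟨p, hp⟩

theorem limit {M : Type*} [AddCommGroup M] [Module P5 M] (𝓜 : ℤ → AddSubgroup M)
    [DirectSum.Decomposition 𝓜]
    [SetLike.GradedSMul (weightedHomogeneousSubmodule ℂ (fun _ : Fin 5 => (1 : ℤ))) 𝓜]
    {p' q' : ℕ} (α : Fin p' → ℤ) (β : Fin q' → ℤ) (e : Fin p' → M) (s : Fin q' → Fin p' → P5)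
    (he : ∀ l, e l ∈ 𝓜 (α l)) (hs : ∀ j, HV α (β j) (s j))
    (hspan : Submodule.span P5 (Set.range e) = ⊤)
    (hker : ∀ c : Fin p' → P5, ∑ l, c l • e l = 0 ↔ c ∈ Submodule.span P5 (Set.range s))
    {d : ℕ} (hd : 1 ≤ d) (k : ℤ) {p q : ℕ} (a : Fin p → ℤ) (b : Fin q → ℤ)
    (f : ℕ → Fin 5 → P5) (r : ℕ → Fin q → Fin p → P5) (hf : ∀ n, SM d (f n))
    (hpb : ∀ n, PullBack 𝓜 d k a b (f n) (r n)) {U : Ultrafilter ℕ} {θ : (ℕ → ℂ) →+* ℂ}
    (hL : Lim U θ) :
    ∃ (f' : Fin 5 → P5) (r' : Fin q → Fin p → P5), SM d f' ∧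
      (∀ i, IsTh θ (fun n => f n i) (f' i)) ∧ (∀ j i, IsTh θ (fun n => r n j i) (r' j i)) ∧
      (∀ j, HV a (b j) (r' j)) ∧
      ∃ j : ((Fin p → P5) ⧸ Submodule.span P5 (Set.range r')) →+
        ((Fin p' → P5) ⧸ Submodule.span P5
          (Set.range fun (j : Fin q') (l : Fin p') => MvPolynomial.map (tau θ) (s j l))),
        BC (sb f') j := by
  obtain ⟨B, hB⟩ := matrices 𝓜 α β e s he hs hspan hker d k a b
  choose Um Vm W1 W2 W3 W4 hU hV hW1 hW2 hW3 hW4 e1 e2 e3 e4 using
    fun n => hB (f n) (r n) (hf n) (hpb n)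
  -- the limits
  have hfb : ∀ i, Bdd fun n => f n i := fun i => ⟨d, fun n => ((hf n).hom i).totalDegree_le⟩
  have hrb : ∀ j i, Bdd fun n => r n j i := fun j i =>
    ⟨(b j - a i).toNat, fun n => wh_deg ((hpb n).1 j i)⟩
  have hf1 : ∀ i, ∃ p, IsTh θ (fun n => f n i) p := fun i => exists_th θ (hfb i)
  choose f' hf' using hf1
  have hr1 : ∀ j i, ∃ p, IsTh θ (fun n => r n j i) p := fun j i => exists_th θ (hrb j i)
  choose r' hr' using hr1
  obtain ⟨U', hU'⟩ := exists_th2 θ Um B hU
  obtain ⟨V', hV'⟩ := exists_th2 θ Vm B hV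
  obtain ⟨X1, hX1⟩ := exists_th2 θ W1 B hW1
  obtain ⟨X2, hX2⟩ := exists_th2 θ W2 B hW2
  obtain ⟨X3, hX3⟩ := exists_th2 θ W3 B hW3
  obtain ⟨X4, hX4⟩ := exists_th2 θ W4 B hW4
  have hsm : SM d f' := sm_th hL hf hf'
  have hwh : ∀ j, HV a (b j) (r' j) := fun j i => IsTh.wh (fun n => (hpb n).1 j i) (hr' j i)
  have hsb : ∀ j i, IsTh θ (fun n => sb (f n) (r n j i)) (sb f' (r' j i)) := fun j i =>
    IsTh.sb (hrb j i) hf' (hr' j i)
  have hsc : ∀ j l, IsTh θ (fun _ => s j l) (MvPolynomial.map (tau θ) (s j l)) := fun j l =>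
    IsTh.const _
  have hone : ∀ {P : Prop} [Decidable P], IsTh θ (fun _ => if P then (1 : P5) else 0)
      (if P then (1 : P5) else 0) := by
    intro P _
    by_cases hP : P
    · simp only [if_pos hP]; exact IsTh.one
    · simp only [if_neg hP]; exact IsTh.zero
  -- the identities in the limit
  have i1 : ∀ j l, ∑ i, sb f' (r' j i) * U' i l =
      ∑ j', X1 j j' * MvPolynomial.map (tau θ) (s j' l) := by
    intro j l
    have hl : IsTh θ (fun n => ∑ i, sb (f n) (r n j i) * Um n i l)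
        (∑ i, sb f' (r' j i) * U' i l) :=
      IsTh.sum Finset.univ (fun i n => sb (f n) (r n j i) * Um n i l)
        (fun i => sb f' (r' j i) * U' i l) fun i _ => (hsb j i).mul (hU' i l)
    have hr : IsTh θ (fun n => ∑ j', W1 n j j' * s j' l)
        (∑ j', X1 j j' * MvPolynomial.map (tau θ) (s j' l)) :=
      IsTh.sum Finset.univ (fun j' n => W1 n j j' * s j' l)
        (fun j' => X1 j j' * MvPolynomial.map (tau θ) (s j' l))
        fun j' _ => (hX1 j j').mul (hsc j' l)
    have he : (fun n => ∑ i, sb (f n) (r n j i) * Um n i l) =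
        fun n => ∑ j', W1 n j j' * s j' l := funext fun n => e1 n j l
    rw [he] at hl
    exact hl.unique hr
  have i2 : ∀ j i, ∑ l, MvPolynomial.map (tau θ) (s j l) * V' l i =
      ∑ j', X2 j j' * sb f' (r' j' i) := by
    intro j i
    have hl : IsTh θ (fun n => ∑ l, s j l * Vm n l i)
        (∑ l, MvPolynomial.map (tau θ) (s j l) * V' l i) :=
      IsTh.sum Finset.univ (fun l n => s j l * Vm n l i)
        (fun l => MvPolynomial.map (tau θ) (s j l) * V' l i)
        fun l _ => (hsc j l).mul (hV' l i)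
    have hr : IsTh θ (fun n => ∑ j', W2 n j j' * sb (f n) (r n j' i))
        (∑ j', X2 j j' * sb f' (r' j' i)) :=
      IsTh.sum Finset.univ (fun j' n => W2 n j j' * sb (f n) (r n j' i))
        (fun j' => X2 j j' * sb f' (r' j' i))
        fun j' _ => (hX2 j j').mul (hsb j' i)
    have he : (fun n => ∑ l, s j l * Vm n l i) =
        fun n => ∑ j', W2 n j j' * sb (f n) (r n j' i) := funext fun n => e2 n j i
    rw [he] at hl
    exact hl.unique hr
  have i3 : ∀ i i', (∑ l, U' i l * V' l i') - (if i = i' then 1 else 0) =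
      ∑ j, X3 i j * sb f' (r' j i') := by
    intro i i'
    have hl : IsTh θ (fun n => (∑ l, Um n i l * Vm n l i') - (if i = i' then (1 : P5) else 0))
        ((∑ l, U' i l * V' l i') - (if i = i' then 1 else 0)) :=
      (IsTh.sum Finset.univ (fun l n => Um n i l * Vm n l i')
        (fun l => U' i l * V' l i') fun l _ => (hU' i l).mul (hV' l i')).sub hone
    have hr : IsTh θ (fun n => ∑ j, W3 n i j * sb (f n) (r n j i'))
        (∑ j, X3 i j * sb f' (r' j i')) :=
      IsTh.sum Finset.univ (fun j n => W3 n i j * sb (f n) (r n j i'))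
        (fun j => X3 i j * sb f' (r' j i'))
        fun j _ => (hX3 i j).mul (hsb j i')
    have he : (fun n => (∑ l, Um n i l * Vm n l i') - (if i = i' then (1 : P5) else 0)) =
        fun n => ∑ j, W3 n i j * sb (f n) (r n j i') := funext fun n => e3 n i i'
    rw [he] at hl
    exact hl.unique hr
  have i4 : ∀ l l', (∑ i, V' l i * U' i l') - (if l = l' then 1 else 0) =
      ∑ j, X4 l j * MvPolynomial.map (tau θ) (s j l') := by
    intro l l'
    have hl : IsTh θ (fun n => (∑ i, Vm n l i * Um n i l') - (if l = l' then (1 : P5) else 0))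
        ((∑ i, V' l i * U' i l') - (if l = l' then 1 else 0)) :=
      (IsTh.sum Finset.univ (fun i n => Vm n l i * Um n i l')
        (fun i => V' l i * U' i l') fun i _ => (hV' l i).mul (hU' i l')).sub hone
    have hr : IsTh θ (fun n => ∑ j, W4 n l j * s j l')
        (∑ j, X4 l j * MvPolynomial.map (tau θ) (s j l')) :=
      IsTh.sum Finset.univ (fun j n => W4 n l j * s j l')
        (fun j => X4 l j * MvPolynomial.map (tau θ) (s j l'))
        fun j _ => (hX4 l j).mul (hsc j l')
    have he : (fun n => (∑ i, Vm n l i * Um n i l') - (if l = l' then (1 : P5) else 0)) =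
        fun n => ∑ j, W4 n l j * s j l' := funext fun n => e4 n l l'
    rw [he] at hl
    exact hl.unique hr
  -- the extension of scalars
  obtain ⟨T, -, -, hT⟩ := exists_fb hd hsm (∅ : Set P5) (fun g hg => absurd hg (by simp))
    (linearIndepOn_empty _ _)
  refine ⟨f', r', hsm, hf', hr', hwh, ?_⟩
  exact bc_of_matrices hT r' (fun (j : Fin q') (l : Fin p') => MvPolynomial.map (tau θ) (s j l))
    U' V' (fun j => comb_mem _ (X1 j) _ fun l => i1 j l)
    (fun j => comb_mem _ (X2 j) _ fun i => i2 j i)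
    (fun i => comb_mem _ (X3 i) _ fun i' => i3 i i')
    (fun l => comb_mem _ (X4 l) _ fun l' => i4 l l')

end Pool.Agent.Lib.MP_745d3a_ag.PF.PB
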