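import Pool.Agent.Lib.MP_745d3a_ag.SB.J0b
import Pool.Agent.Lib.MP_745d3a_ag.SB.P1
import Pool.Agent.Lib.MP_745d3a_ag.PB.PA
import Pool.Agent.Lib.MP_745d3a_ag.PB.PB
import Pool.Agent.Lib.MP_745d3a_ag.PB.PC
import Pool.Agent.Lib.MP_745d3a_ag.PB.PD

/-!
A rank two bundle which does not split is a pull-back in only finitely many ways.
-/

set_option autoImplicit false
set_option linter.unusedSectionVars false
set_option linter.unusedSimpArgs false
set_option linter.unusedVariables false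

/-!
Linear combinations of the forms of a self-map; pivots.

* `SM.ind`: `∑ c i • f i = sb f (∑ c i • X i)` and `sb f` is injective (`sb_injective`).
* `SM.lin`: if all `∑ j, C k j • f j` vanish at `z` then so do all `f j` (multiply by `C⁻¹`).
* `PullBack.lin`: `r' j i = sb (fun k => ∑ l, C⁻¹ k l • X l) (r j i)`, homogeneous of the same degree
  (substitution of linear forms, monomials) and `sb (C f) (r' j i) = sb f (r j i)` (both sides are
  algebra homomorphisms applied to `r j i`; `MvPolynomial.algHom_ext`): the same `n i`.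
-/

open MvPolynomial

namespace Pool.Agent.Lib.MP_745d3a_ag.PF.PB

theorem SM.ind {d : ℕ} (hd : 1 ≤ d) {f : Fin 5 → P5} (hf : SM d f) : LinearIndependent ℂ f := by
  rw [Fintype.linearIndependent_iff]
  intro g hg i
  have h1 : sb f (∑ i, g i • (X i : P5)) = 0 := by
    rw [sb_apply, map_sum]
    simpa using hg
  have h2 : (∑ i, g i • (X i : P5)) = 0 := by
    apply sb_injective hd hf
    rw [h1, map_zero]
  have h3 := congrArg (coeff (Finsupp.single i 1)) h2
  rw [coeff_sum] at h3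
  simpa [coeff_smul, coeff_X', Finsupp.single_left_inj] using h3

theorem SM.lin {d : ℕ} {f : Fin 5 → P5} (hf : SM d f) {A : Matrix (Fin 5) (Fin 5) ℂ}
    (hA : IsUnit A.det) : SM d fun k => ∑ j, A k j • f j := by
  refine ⟨fun i => ?_, fun z hz => ?_⟩
  · refine IsHomogeneous.sum _ _ _ fun j _ => ?_
    rw [smul_eq_C_mul]
    simpa using (isHomogeneous_C (Fin 5) (A i j)).mul (hf.hom j)
  · apply hf.nz z
    have h1 : A.mulVec (fun j => eval z (f j)) = 0 := by
      funext k
      have := hz k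
      simp only [map_sum, smul_eval] at this
      simpa [Matrix.mulVec, dotProduct] using this
    have h2 : (fun j => eval z (f j)) = 0 := by
      have h3 : A⁻¹.mulVec (A.mulVec (fun j => eval z (f j))) = 0 := by
        rw [h1, Matrix.mulVec_zero]
      rwa [Matrix.mulVec_mulVec, Matrix.nonsing_inv_mul A hA, Matrix.one_mulVec] at h3
    intro i
    exact congrFun h2 i

private lemma E1a_hom {L : Fin 5 → P5}
    (hL : ∀ k, IsWeightedHomogeneous (fun _ : Fin 5 => (1 : ℤ)) (L k) 1) {p : P5} {m : ℤ}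
    (hp : IsWeightedHomogeneous (fun _ : Fin 5 => (1 : ℤ)) p m) :
    IsWeightedHomogeneous (fun _ : Fin 5 => (1 : ℤ)) (sb L p) m := by
  rw [sb_apply, aeval_def, eval₂_eq']
  refine IsWeightedHomogeneous.sum _ _ _ fun e he => ?_
  have h1 : Finsupp.weight (fun _ : Fin 5 => (1 : ℤ)) e = m := hp (mem_support_iff.mp he)
  have h2 : IsWeightedHomogeneous (fun _ : Fin 5 => (1 : ℤ)) (∏ i, L i ^ e i) m := by
    have h3 : m = ∑ i : Fin 5, (e i) • (1 : ℤ) := by
      rw [← h1, Finsupp.weight_apply, Finsupp.sum_fintype]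
      intro i
      simp
    rw [h3]
    exact IsWeightedHomogeneous.prod _ _ _ fun i _ => (hL i).pow (e i)
  have h4 : (algebraMap ℂ P5) (coeff e p) = C (coeff e p) := rfl
  rw [h4]
  have h5 := (isWeightedHomogeneous_C (fun _ : Fin 5 => (1 : ℤ)) (coeff e p)).mul h2
  rwa [zero_add] at h5

theorem PullBack.lin {M : Type*} [AddCommGroup M] [Module P5 M] {𝓜 : ℤ → AddSubgroup M} {d : ℕ}
    {k : ℤ} {p q : ℕ} {a : Fin p → ℤ} {b : Fin q → ℤ} {f : Fin 5 → P5} {r : Fin q → Fin p → P5}
    (h : PullBack 𝓜 d k a b f r) {A : Matrix (Fin 5) (Fin 5) ℂ} (hA : IsUnit A.det) :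
    ∃ r', PullBack 𝓜 d k a b (fun k => ∑ j, A k j • f j) r' := by
  obtain ⟨hr, n, hn, hsp, hrel⟩ := h
  set L : Fin 5 → P5 := fun k => ∑ l, A⁻¹ k l • (X l : P5) with hLdef
  have hL : ∀ k, IsWeightedHomogeneous (fun _ : Fin 5 => (1 : ℤ)) (L k) 1 := by
    intro k
    refine IsWeightedHomogeneous.sum _ _ _ fun l _ => ?_
    rw [smul_eq_C_mul]
    have := (isWeightedHomogeneous_C (fun _ : Fin 5 => (1 : ℤ)) (A⁻¹ k l)).mul
      (isWeightedHomogeneous_X ℂ (fun _ : Fin 5 => (1 : ℤ)) l)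
    simpa using this
  have hcomp : ∀ s : P5, sb (fun k => ∑ j, A k j • f j) (sb L s) = sb f s := by
    intro s
    have h1 : ((aeval (fun k => ∑ j, A k j • f j) : P5 →ₐ[ℂ] P5).comp
        (aeval L : P5 →ₐ[ℂ] P5)) = (aeval f : P5 →ₐ[ℂ] P5) := by
      apply MvPolynomial.algHom_ext
      intro i
      rw [AlgHom.comp_apply, aeval_X, aeval_X]
      simp only [hLdef, map_sum, map_smul, aeval_X, Finset.smul_sum, smul_smul]
      rw [Finset.sum_comm]
      simp only [← Finset.sum_smul]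
      have h2 : ∀ j, ∑ l, A⁻¹ i l * A l j = (1 : Matrix (Fin 5) (Fin 5) ℂ) i j := by
        intro j
        rw [← Matrix.mul_apply, Matrix.nonsing_inv_mul A hA]
      simp only [h2, Matrix.one_apply]
      simp
    exact congrArg (fun φ : P5 →ₐ[ℂ] P5 => φ s) h1
  refine ⟨fun j i => sb L (r j i), fun j i => E1a_hom hL (hr j i), n, hn, hsp, fun c => ?_⟩
  rw [hrel c]
  simp only [hcomp]

end Pool.Agent.Lib.MP_745d3a_ag.PF.PB

/-!
Linear combinations of the forms of a self-map; pivots.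

* `PullBack.scale`: `c ≠ 0`; `n' i = c ^ (a i) • n i` (`zpow`); `sb (c • f) (r j i) = c ^ (b j - a i) • sb f (r j i)` (if
  `r j i ≠ 0` its degree `b j - a i` is a natural number; sum of monomials). `x` is a relation of
  the `n' i` iff `(c ^ (a i) • x i)` is a relation of the `n i`, i.e. in the span of the rows
  `R j = (sb f (r j i))_i`, iff `x` is in the span of the rows `(c ^ (- a i) • R j i)_i =
  c ^ (- b j) • (sb (c • f) (r j i))_i`. `n' i ∈ 𝓜 _`: `c • m = C c • m`, `GradedSMul` for the constant polynomial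
  of degree `0`.
-/

open MvPolynomial

namespace Pool.Agent.Lib.MP_745d3a_ag.PF.PB

/-- Substituting `c • f` for `f` multiplies a form of degree `m` by `c ^ m`. -/
private lemma E1b_sb {f : Fin 5 → P5} {c : ℂ} (hc : c ≠ 0) {p : P5} {m : ℤ}
    (hp : IsWeightedHomogeneous (fun _ : Fin 5 => (1 : ℤ)) p m) :
    sb (fun i => c • f i) p = C (c ^ m) * sb f p := by
  rw [sb_apply, sb_apply, aeval_def, aeval_def, eval₂_eq', eval₂_eq', Finset.mul_sum]
  refine Finset.sum_congr rfl fun e he => ?_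
  have h1 : Finsupp.weight (fun _ : Fin 5 => (1 : ℤ)) e = m := hp (mem_support_iff.1 he)
  have h2 : ((∑ i, e i : ℕ) : ℤ) = m := by
    rw [← h1, Finsupp.weight_apply, Finsupp.sum_fintype _ _ (by simp)]
    simp
  have h3 : ∏ i, (c • f i) ^ e i = C (c ^ m) * ∏ i, f i ^ e i := by
    have h4 : ∀ i, (c • f i) ^ e i = C (c ^ e i) * f i ^ e i := by
      intro i
      rw [smul_eq_C_mul, mul_pow, C_pow]
    rw [Finset.prod_congr rfl fun i _ => h4 i, Finset.prod_mul_distrib, ← map_prod,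
      Finset.prod_pow_eq_pow_sum, ← h2, zpow_natCast]
  rw [h3]
  ring

/-- Multiplication of the coordinates by the `u i`. -/
private noncomputable def E1b_dg {p : ℕ} (u : Fin p → P5) : (Fin p → P5) →ₗ[P5] (Fin p → P5) :=
  LinearMap.pi fun i => u i • LinearMap.proj i

private lemma E1b_dg_apply {p : ℕ} (u x : Fin p → P5) (i : Fin p) :
    E1b_dg u x i = u i * x i := by
  simp [E1b_dg]

theorem PullBack.scale {M : Type*} [AddCommGroup M] [Module P5 M] {𝓜 : ℤ → AddSubgroup M}
    [SetLike.GradedSMul (weightedHomogeneousSubmodule ℂ (fun _ : Fin 5 => (1 : ℤ))) 𝓜] {d : ℕ}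
    {k : ℤ} {p q : ℕ} {a : Fin p → ℤ} {b : Fin q → ℤ} {f : Fin 5 → P5} {r : Fin q → Fin p → P5}
    (h : PullBack 𝓜 d k a b f r) {c : ℂ} (hc : c ≠ 0) :
    PullBack 𝓜 d k a b (fun i => c • f i) r := by
  obtain ⟨hr, n, hn, hspan, hrel⟩ := h
  have hz : ∀ z : ℤ, (C (c ^ z) : P5) * C (c ^ (-z)) = 1 := by
    intro z
    rw [← C_mul, ← zpow_add₀ hc]
    simp
  have hz' : ∀ z : ℤ, (C (c ^ (-z)) : P5) * C (c ^ z) = 1 := by
    intro z
    rw [mul_comm, hz]
  refine ⟨hr, fun i => (C (c ^ a i) : P5) • n i, ?_, ?_, ?_⟩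
  · intro i
    have h1 : (C (c ^ a i) : P5) ∈
        weightedHomogeneousSubmodule ℂ (fun _ : Fin 5 => (1 : ℤ)) (0 : ℤ) :=
      isWeightedHomogeneous_C _ _
    have h2 := SetLike.GradedSMul.smul_mem h1 (hn i)
    rwa [vadd_eq_add, zero_add] at h2
  · rw [eq_top_iff, ← hspan, Submodule.span_le]
    rintro _ ⟨i, rfl⟩
    have h1 : n i = (C (c ^ (-(a i))) : P5) • ((C (c ^ a i) : P5) • n i) := by
      rw [smul_smul, hz', one_smul]
    rw [h1]
    exact Submodule.smul_mem _ _ (Submodule.subset_span ⟨i, rfl⟩)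
  · intro x
    have hrow : ∀ j i, sb (fun i => c • f i) (r j i) = C (c ^ (b j - a i)) * sb f (r j i) :=
      fun j i => E1b_sb hc (hr j i)
    have h1 : ∑ i, x i • (C (c ^ a i) : P5) • n i =
        ∑ i, (E1b_dg (fun i => C (c ^ a i)) x) i • n i := by
      refine Finset.sum_congr rfl fun i _ => ?_
      rw [smul_smul, E1b_dg_apply, mul_comm]
    rw [h1, hrel]
    constructor
    · intro hx
      have hle : Submodule.span P5 (Set.range fun (j : Fin q) (i : Fin p) => sb f (r j i)) ≤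
          (Submodule.span P5 (Set.range fun (j : Fin q) (i : Fin p) =>
            sb (fun i => c • f i) (r j i))).comap (E1b_dg (fun i => C (c ^ (-(a i))))) := by
        rw [Submodule.span_le]
        rintro _ ⟨j, rfl⟩
        rw [SetLike.mem_coe, Submodule.mem_comap]
        have h2 : E1b_dg (fun i => C (c ^ (-(a i)))) (fun i => sb f (r j i)) =
            (C (c ^ (-(b j))) : P5) • (fun i => sb (fun i => c • f i) (r j i)) := by
          funext i
          rw [E1b_dg_apply, Pi.smul_apply, smul_eq_mul, hrow, ← mul_assoc, ← C_mul,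
            ← zpow_add₀ hc]
          congr 3
          ring
        rw [h2]
        exact Submodule.smul_mem _ _ (Submodule.subset_span ⟨j, rfl⟩)
      have h3 := hle hx
      rw [Submodule.mem_comap] at h3
      have h4 : E1b_dg (fun i => C (c ^ (-(a i)))) (E1b_dg (fun i => C (c ^ a i)) x) = x := by
        funext i
        rw [E1b_dg_apply, E1b_dg_apply, ← mul_assoc, hz', one_mul]
      rwa [h4] at h3
    · intro hx
      have hle : Submodule.span P5 (Set.range fun (j : Fin q) (i : Fin p) =>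
            sb (fun i => c • f i) (r j i)) ≤
          (Submodule.span P5 (Set.range fun (j : Fin q) (i : Fin p) =>
            sb f (r j i))).comap (E1b_dg (fun i => C (c ^ a i))) := by
        rw [Submodule.span_le]
        rintro _ ⟨j, rfl⟩
        rw [SetLike.mem_coe, Submodule.mem_comap]
        have h2 : E1b_dg (fun i => C (c ^ a i)) (fun i => sb (fun i => c • f i) (r j i)) =
            (C (c ^ b j) : P5) • (fun i => sb f (r j i)) := by
          funext i
          rw [E1b_dg_apply, Pi.smul_apply, smul_eq_mul, hrow, ← mul_assoc, ← C_mul,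
            ← zpow_add₀ hc]
          congr 3
          ring
        rw [h2]
        exact Submodule.smul_mem _ _ (Submodule.subset_span ⟨j, rfl⟩)
      exact hle hx

end Pool.Agent.Lib.MP_745d3a_ag.PF.PB

/-!
Pivots; sequences with an injective coordinate.

* `exists_pivot`: the functionals `coeff e`, `e` of degree `d`, separate the points of the space `V`
  spanned by the `f i` (dimension 5), so they span its dual; choose five which form a basis of
  the dual (e.g. `exists_linearIndependent` / `Module.Basis.ofSpan`-like: a spanning family contains a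
  basis; or row reduction of the `5 × n` matrix of coefficients: a matrix of rank 5 has an invertible
  `5 × 5` submatrix); `e` is this family and `A` the inverse of the matrix `coeff (e i) (f j)` (or
  its transpose).
-/

open MvPolynomial

namespace Pool.Agent.Lib.MP_745d3a_ag.PF.PB

theorem exists_pivot {d : ℕ} {f : Fin 5 → P5} (hf : ∀ i, (f i).IsHomogeneous d)
    (hi : LinearIndependent ℂ f) : ∃ (A : Matrix (Fin 5) (Fin 5) ℂ) (e : Fin 5 → (Fin 5 →₀ ℕ)),
      IsUnit A.det ∧ (∀ i, ∑ l, e i l = d) ∧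
        ∀ i k, coeff (e i) (∑ j, A k j • f j) = if i = k then 1 else 0 := by
  classical
  set w : {e : Fin 5 →₀ ℕ // ∑ l, e l = d} → (Fin 5 → ℂ) := fun e j => coeff e.1 (f j) with hw
  have hspan : Submodule.span ℂ (Set.range w) = ⊤ := by
    by_contra h
    obtain ⟨φ, hφ0, hφ⟩ := Submodule.exists_le_ker_of_lt_top _ (lt_top_iff_ne_top.2 h)
    apply hφ0
    have hφe : ∀ x : Fin 5 → ℂ, φ x = ∑ j, x j * φ (Pi.single j 1) := by
      intro x
      conv_lhs => rw [← Finset.univ_sum_single x]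
      rw [map_sum]
      refine Finset.sum_congr rfl fun j _ => ?_
      have h1 : (Pi.single j (x j) : Fin 5 → ℂ) = x j • Pi.single j 1 := by
        rw [← Pi.single_smul]
        simp
      rw [h1, map_smul, smul_eq_mul]
    have hz : ∑ j, φ (Pi.single j 1) • f j = 0 := by
      ext e
      rw [coeff_sum, coeff_zero]
      by_cases he : ∑ l, e l = d
      · have h2 : φ (w ⟨e, he⟩) = 0 := hφ (Submodule.subset_span ⟨_, rfl⟩)
        rw [hφe] at h2
        rw [← h2]
        refine Finset.sum_congr rfl fun j _ => ?_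
        rw [coeff_smul, smul_eq_mul, mul_comm]
      · refine Finset.sum_eq_zero fun j _ => ?_
        rw [coeff_smul, (hf j).coeff_eq_zero, smul_zero]
        intro h3
        apply he
        rw [← h3, Finsupp.degree_eq_sum]
    have h4 := Fintype.linearIndependent_iff.1 hi _ hz
    apply LinearMap.ext
    intro x
    rw [hφe, LinearMap.zero_apply]
    exact Finset.sum_eq_zero fun j _ => by rw [h4 j, mul_zero]
  obtain ⟨b, hb1, hb2, hb3⟩ := exists_linearIndependent ℂ (Set.range w)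
  let B : Module.Basis b ℂ (Fin 5 → ℂ) := Module.Basis.mk hb3 (by
    rw [Subtype.range_coe, hb2, hspan])
  haveI : Finite b := hb3.finite
  haveI := Fintype.ofFinite b
  have hcard : Fintype.card b = 5 := by
    rw [← Module.finrank_eq_card_basis B]
    simp
  let σ : Fin 5 ≃ b := (finCongr hcard.symm).trans (Fintype.equivFin b).symm
  have hex : ∀ i, ∃ e : {e : Fin 5 →₀ ℕ // ∑ l, e l = d}, w e = (σ i : Fin 5 → ℂ) :=
    fun i => hb1 (σ i).2
  choose e he using hex
  have hli : LinearIndependent ℂ (fun i => w (e i)) := by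
    have h5 : (fun i => w (e i)) = (fun x : b => (x : Fin 5 → ℂ)) ∘ σ := by
      funext i
      exact he i
    rw [h5]
    exact hb3.comp _ σ.injective
  let M : Matrix (Fin 5) (Fin 5) ℂ := Matrix.of fun i => w (e i)
  have hM : IsUnit M := Matrix.linearIndependent_rows_iff_isUnit.1 hli
  have hMd : IsUnit M.det := (Matrix.isUnit_iff_isUnit_det M).1 hM
  refine ⟨(M⁻¹).transpose, fun i => (e i).1, ?_, fun i => (e i).2, fun i k => ?_⟩
  · rw [Matrix.det_transpose]
    exact (Matrix.isUnit_nonsing_inv_det_iff).2 hMd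
  · rw [coeff_sum]
    have h6 : (M * M⁻¹) i k = if i = k then 1 else 0 := by
      rw [Matrix.mul_nonsing_inv _ hMd, Matrix.one_apply]
    rw [← h6, Matrix.mul_apply]
    refine Finset.sum_congr rfl fun j _ => ?_
    rw [coeff_smul, smul_eq_mul, mul_comm]
    rfl

end Pool.Agent.Lib.MP_745d3a_ag.PF.PB

/-!
Pivots; sequences with an injective coordinate.

* `exists_coord_seq`: let `Λ` be the finite type of pairs `(e, i)`, `e` of degree `d` (all `e l ≤ d`),
  `i : Fin 5`. `f ↦ (coeff e (f i))_{(e,i)}` is injective on `T` (a form of degree `d` is determined by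
  these coefficients), so the image in `Λ → ℂ` is infinite, so one of the coordinates takes
  infinitely many values on `T` (`Set.Finite.pi`: otherwise the image is in a finite product). Choose
  an injective sequence of values (`Set.Infinite.natEmbedding`) and preimages.
-/

open MvPolynomial

namespace Pool.Agent.Lib.MP_745d3a_ag.PF.PB

theorem exists_coord_seq {d : ℕ} (T : Set (Fin 5 → P5)) (hT : T.Infinite)
    (hh : ∀ f ∈ T, ∀ i, (f i).IsHomogeneous d) : ∃ (e0 : Fin 5 →₀ ℕ) (i0 : Fin 5)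
      (f : ℕ → Fin 5 → P5), (∀ n, f n ∈ T) ∧ Function.Injective fun n => coeff e0 (f n i0) := by
  classical
  obtain ⟨e0, i0, hinf⟩ : ∃ (e0 : Fin 5 →₀ ℕ) (i0 : Fin 5),
      ((fun f : Fin 5 → P5 => coeff e0 (f i0)) '' T).Infinite := by
    by_contra hcon
    have hfin : ∀ e i, ((fun f : Fin 5 → P5 => coeff e (f i)) '' T).Finite := fun e i => by
      by_contra h
      exact hcon ⟨e, i, h⟩
    apply hT
    let S : Finset (Fin 5 →₀ ℕ) := Finset.finsuppAntidiag Finset.univ d
    let Φ : (Fin 5 → P5) → (Fin 5 × S → ℂ) := fun f p => coeff p.2.1 (f p.1)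
    have hinj : Set.InjOn Φ T := by
      intro f hf g hg h
      funext i
      ext e
      by_cases he : e ∈ S
      · exact congrFun h (i, ⟨e, he⟩)
      · have hne : e.degree ≠ d := by
          intro hd
          apply he
          rw [Finset.mem_finsuppAntidiag]
          refine ⟨?_, Finset.subset_univ _⟩
          rw [← hd, Finsupp.degree_eq_sum]
        rw [(hh f hf i).coeff_eq_zero hne, (hh g hg i).coeff_eq_zero hne]
    refine Set.Finite.of_finite_image
      (Set.Finite.subset (Set.Finite.pi' (fun p : Fin 5 × S => hfin p.2.1 p.1)) ?_) hinj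
    rintro _ ⟨f, hf, rfl⟩ p
    exact ⟨f, hf, rfl⟩
  let u := Set.Infinite.natEmbedding _ hinf
  choose f hf1 hf2 using fun n => (u n).2
  refine ⟨e0, i0, f, hf1, fun m n hmn => ?_⟩
  have h : ((u m : _) : ℂ) = (u n : _) := by
    rw [← hf2 m, ← hf2 n]
    exact hmn
  exact u.injective (Subtype.ext h)

end Pool.Agent.Lib.MP_745d3a_ag.PF.PB

/-!
Infinite families of pull-backs.
-/

open MvPolynomial

namespace Pool.Agent.Lib.MP_745d3a_ag.PF.PB

theorem core {M : Type*} [AddCommGroup M] [Module ℂ M] [Module P5 M] [IsScalarTower ℂ P5 M]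
    (𝓜 : ℤ → AddSubgroup M) [DirectSum.Decomposition 𝓜]
    [SetLike.GradedSMul (weightedHomogeneousSubmodule ℂ (fun _ : Fin 5 => (1 : ℤ))) 𝓜]
    (hM : Bun (X : Fin 5 → P5) M) (hno : ¬ Gen2 P5 M)
    {d : ℕ} (hd : 1 ≤ d) (k : ℤ) {p q : ℕ} (a : Fin p → ℤ) (b : Fin q → ℤ)
    (f : ℕ → Fin 5 → P5) (r : ℕ → Fin q → Fin p → P5) (hf : ∀ n, SM d (f n))
    (hpb : ∀ n, PullBack 𝓜 d k a b (f n) (r n)) (e0 : Fin 5 →₀ ℕ) (i0 : Fin 5)
    (hinj : Function.Injective fun n => coeff e0 (f n i0)) :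
    ∃ (θ : (ℕ → ℂ) →+* ℂ) (D : Derivation ℤ ℂ ℂ) (Dt : P5 →+ P5) (f' : Fin 5 → P5),
      CD D Dt ∧ (∀ i, IsTh θ (fun n => f n i) (f' i)) ∧ (∀ c, D (tau θ c) = 0) ∧
      D (coeff e0 (f' i0)) ≠ 0 ∧ (∀ i, Dt (f' i) ∈ Submodule.span ℂ (Set.range f')) ∧
      ((∃ r0, ∀ n, r n = r0) → ∃ c : ℂ, ∀ i, Dt (f' i) = c • f' i) := by
  classical
  obtain ⟨ε, hε⟩ := exists_gradOp (K := ℂ) 𝓜
  let E : Derivation ℂ P5 P5 := mkDerivation ℂ X
  have hE : ∀ i, E (X i) = X i := fun i => mkDerivation_X ℂ _ i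
  have hx : Coord ℂ (X : Fin 5 → P5) := ⟨by
    rw [aeval_X_left]; exact Function.bijective_id⟩
  have cE : IsConn E ε := gradOp_conn hε hE
  have dE : Diag ε := gradOp_diag hε
  have : Module.Finite P5 M := hM.fin
  obtain ⟨p', q', m, s, α, β, P⟩ := SB.exists_prs hx hE cE dE
  have hm : ∀ l, m l ∈ 𝓜 (α l) := fun l => SB.mem_of_grad 𝓜 hε (P.hm l)
  have hs : ∀ j, HV α (β j) (s j) := fun j l => eig_hom hE (P.hr j l)
  obtain ⟨U, θ, hL⟩ := exists_lim
  obtain ⟨f', r', hf', hth, hthr, hr', j, hj⟩ :=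
    limit 𝓜 α β m s hm hs P.span P.ker hd k a b f r hf hpb hL
  have ht : coeff e0 (f' i0) ∉ Set.range (tau θ) := by
    rw [hth i0 e0]
    exact hL.not_range hinj
  obtain ⟨D, hD, hDt⟩ := exists_der (tau θ) ht
  obtain ⟨Dt, hDD⟩ := exists_cd D
  have hE' := bun_tau (tau θ) hM m s P.span P.ker
  have hF := bun_descend hd hf' hj hE'
  obtain ⟨ε', cE', dE'⟩ := exists_eps hE a b r' hr'
  have hno' : ¬ Gen2 P5 ((Fin p → P5) ⧸ Submodule.span P5 (Set.range r')) := by
    intro h
    exact hno (gen2_tau (tau θ) hE cE dE m s P.span P.ker (hj.gen2 h))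
  have hDmap : ∀ x : P5, Dt (MvPolynomial.map (tau θ) x) = 0 := by
    intro x
    ext e
    rw [hDD.coeff, coeff_map, hD, coeff_zero]
  obtain ⟨DE, hDE⟩ := exists_dq hDD (fun (j : Fin q') (l : Fin p') =>
    MvPolynomial.map (tau θ) (s j l)) (fun j l => hDmap _)
  refine ⟨θ, D, Dt, f', hDD, hth, hD, hDt, fun i => ?_, fun ⟨r0, hr0⟩ => ?_⟩
  · exact inf_one hd hf' hE cE' dE' hF hno' hj hDD DE hDE i
  · have h1 : ∀ j i, r' j i = MvPolynomial.map (tau θ) (r0 j i) := by
      intro j i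
      refine (hthr j i).unique ?_
      have h2 : (fun n => r n j i) = fun _ => r0 j i := by
        funext n
        rw [hr0 n]
      rw [h2]
      exact IsTh.const _
    obtain ⟨DF, hDF⟩ := exists_dq hDD r' (fun j i => by rw [h1, hDmap])
    exact inf_two hd hf' hE cE' dE' hF hno' hj hDD DE hDE DF hDF

end Pool.Agent.Lib.MP_745d3a_ag.PF.PB

/-!
A rank two bundle on projective four-space which does not split is a pull-back in only finitely
many ways.
-/

open MvPolynomial

namespace Pool.Agent.Lib.MP_745d3a_ag.PF.PB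

section

variable {M : Type*} [AddCommGroup M] [Module ℂ M] [Module P5 M] [IsScalarTower ℂ P5 M]
    (𝓜 : ℤ → AddSubgroup M) [DirectSum.Decomposition 𝓜]
    [SetLike.GradedSMul (weightedHomogeneousSubmodule ℂ (fun _ : Fin 5 => (1 : ℤ))) 𝓜]
    (hM : Bun (X : Fin 5 → P5) M) (hno : ¬ Gen2 P5 M)
    {d : ℕ} (hd : 1 ≤ d) (k : ℤ) {p q : ℕ} (a : Fin p → ℤ) (b : Fin q → ℤ)

include hM hno hd

/-- The set of forms with given pivots is finite. -/
theorem finite_pivot (e : Fin 5 → (Fin 5 →₀ ℕ)) :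
    {f : Fin 5 → P5 | SM d f ∧ (∃ r, PullBack 𝓜 d k a b f r) ∧
      ∀ i k, coeff (e i) (f k) = if i = k then 1 else 0}.Finite := by
  classical
  by_contra hinf
  obtain ⟨e0, i0, f, hfT, hinj⟩ := exists_coord_seq (d := d) _ hinf (fun f hf i => hf.1.hom i)
  choose r hr using fun n => (hfT n).2.1
  obtain ⟨θ, D, Dt, f', hDD, hth, hD, hne, hsp, -⟩ := core 𝓜 hM hno hd k a b f r
    (fun n => (hfT n).1) hr e0 i0 hinj
  have hδ : ∀ i k, coeff (e i) (f' k) = if i = k then 1 else 0 := by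
    intro i k
    rw [hth k (e i)]
    have h1 : (fun n => coeff (e i) (f n k)) = if i = k then 1 else 0 := by
      funext n
      rw [(hfT n).2.2 i k]
      split_ifs <;> rfl
    rw [h1]
    split_ifs
    · exact map_one θ
    · exact map_zero θ
  have hD01 : ∀ i k, D (coeff (e i) (f' k)) = 0 := by
    intro i k
    rw [hδ]
    split_ifs
    · exact D.map_one_eq_zero
    · exact map_zero D
  have hz : Dt (f' i0) = 0 := by
    obtain ⟨c, hc⟩ := (Submodule.mem_span_range_iff_exists_fun ℂ).mp (hsp i0)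
    have hc0 : ∀ i, c i = 0 := by
      intro i
      have h1 := congrArg (coeff (e i)) hc
      rw [hDD.coeff, hD01, coeff_sum] at h1
      simpa [coeff_smul, hδ] using h1
    rw [← hc]
    exact Finset.sum_eq_zero fun i _ => by rw [hc0, zero_smul]
  apply hne
  rw [← hDD.coeff, hz, coeff_zero]

/-- The set of forms with one coefficient equal to one is finite, for a given matrix. -/
theorem finite_norm (r0 : Fin q → Fin p → P5) (e : Fin 5 →₀ ℕ) (i : Fin 5) :
    {f : Fin 5 → P5 | SM d f ∧ PullBack 𝓜 d k a b f r0 ∧ coeff e (f i) = 1}.Finite := by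
  classical
  by_contra hinf
  obtain ⟨e0, i0, f, hfT, hinj⟩ := exists_coord_seq (d := d) _ hinf (fun f hf i => hf.1.hom i)
  obtain ⟨θ, D, Dt, f', hDD, hth, hD, hne, -, hc⟩ := core 𝓜 hM hno hd k a b f (fun _ => r0)
    (fun n => (hfT n).1) (fun n => (hfT n).2.1) e0 i0 hinj
  obtain ⟨c, hc⟩ := hc ⟨r0, fun _ => rfl⟩
  have h1 : coeff e (f' i) = 1 := by
    rw [hth i e]
    have h1 : (fun n => coeff e (f n i)) = 1 := by
      funext n
      rw [(hfT n).2.2]
      rfl
    rw [h1, map_one]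
  have hc0 : c = 0 := by
    have h2 := congrArg (coeff e) (hc i)
    rw [hDD.coeff, h1, coeff_smul, h1, D.map_one_eq_zero, smul_eq_mul, mul_one] at h2
    exact h2.symm
  apply hne
  rw [← hDD.coeff, hc, hc0, zero_smul, coeff_zero]

omit hM hno in
/-- The monomials of a given degree are finite in number. -/
lemma finite_deg : {e : Fin 5 →₀ ℕ | ∑ l, e l = d}.Finite := by
  refine Set.Finite.subset (Set.finite_Iic (Finsupp.equivFunOnFinite.symm fun _ => d)) ?_
  intro e he
  rw [Set.mem_Iic, Finsupp.le_def]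
  intro l
  have h1 : e l ≤ ∑ l, e l := Finset.single_le_sum (fun _ _ => Nat.zero_le _) (Finset.mem_univ l)
  rw [Set.mem_setOf_eq] at he
  rw [he] at h1
  exact h1

theorem main_one : {W : Submodule ℂ P5 | ∃ (f : Fin 5 → P5) (r : Fin q → Fin p → P5), SM d f ∧
    PullBack 𝓜 d k a b f r ∧ W = Submodule.span ℂ (Set.range f)}.Finite := by
  classical
  have hfin : (Set.pi Set.univ fun _ : Fin 5 => {e : Fin 5 →₀ ℕ | ∑ l, e l = d}).Finite :=
    Set.Finite.pi fun _ => finite_deg hd
  refine Set.Finite.subset (hfin.biUnion (t := fun e => (fun f : Fin 5 → P5 =>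
    Submodule.span ℂ (Set.range f)) '' {f : Fin 5 → P5 | SM d f ∧
      (∃ r, PullBack 𝓜 d k a b f r) ∧ ∀ i k, coeff (e i) (f k) = if i = k then 1 else 0})
    (fun e _ => (finite_pivot 𝓜 hM hno hd k a b e).image _)) ?_
  rintro W ⟨f, r, hf, hr, rfl⟩
  obtain ⟨A, e, hA, he, hδ⟩ := exists_pivot hf.hom (hf.ind hd)
  obtain ⟨r', hr'⟩ := hr.lin hA
  rw [Set.mem_iUnion₂]
  refine ⟨e, Set.mem_univ_pi.mpr he, fun k => ∑ j, A k j • f j, ⟨hf.lin hA, ⟨r', hr'⟩, hδ⟩, ?_⟩
  refine le_antisymm (Submodule.span_le.mpr ?_) (Submodule.span_le.mpr ?_)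
  · rintro _ ⟨k, rfl⟩
    exact Submodule.sum_mem _ fun j _ => Submodule.smul_mem _ _ (Submodule.subset_span ⟨j, rfl⟩)
  · rintro _ ⟨l, rfl⟩
    have h1 : f l = ∑ k, A⁻¹ l k • ∑ j, A k j • f j := by
      simp only [Finset.smul_sum, smul_smul]
      rw [Finset.sum_comm]
      simp only [← Finset.sum_smul]
      have h2 : ∀ j, ∑ k, A⁻¹ l k * A k j = (1 : Matrix (Fin 5) (Fin 5) ℂ) l j := by
        intro j
        rw [← Matrix.mul_apply, Matrix.nonsing_inv_mul _ hA]
      simp only [h2, Matrix.one_apply, ite_smul, one_smul, zero_smul, Finset.sum_ite_eq,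
        Finset.mem_univ, if_true]
    show f l ∈ _
    rw [h1]
    exact Submodule.sum_mem _ fun k _ => Submodule.smul_mem _ _ (Submodule.subset_span ⟨k, rfl⟩)

theorem main_two (r0 : Fin q → Fin p → P5) : {W : Submodule ℂ (Fin 5 → P5) |
    ∃ f : Fin 5 → P5, SM d f ∧ PullBack 𝓜 d k a b f r0 ∧ W = Submodule.span ℂ {f}}.Finite := by
  classical
  have hfin : ({e : Fin 5 →₀ ℕ | ∑ l, e l = d} ×ˢ (Set.univ : Set (Fin 5))).Finite :=
    (finite_deg hd).prod Set.finite_univ
  refine Set.Finite.subset (hfin.biUnion (t := fun e => (fun f : Fin 5 → P5 =>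
    Submodule.span ℂ ({f} : Set (Fin 5 → P5))) '' {f : Fin 5 → P5 | SM d f ∧
      PullBack 𝓜 d k a b f r0 ∧ coeff e.1 (f e.2) = 1})
    (fun e _ => (finite_norm 𝓜 hM hno hd k a b r0 e.1 e.2).image _)) ?_
  rintro W ⟨f, hf, hr, rfl⟩
  have hne : f 0 ≠ 0 := (hf.ind hd).ne_zero 0
  obtain ⟨e, he⟩ := MvPolynomial.ne_zero_iff.mp hne
  have hdeg : ∑ l, e l = d := by
    have h1 := hf.hom 0 he
    rw [← h1, Finsupp.weight_apply, Finsupp.sum_fintype _ _ (by simp)]
    simp
  rw [Set.mem_iUnion₂]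
  refine ⟨(e, 0), ⟨hdeg, Set.mem_univ _⟩, fun i => (coeff e (f 0))⁻¹ • f i, ⟨?_,
    hr.scale (inv_ne_zero he), ?_⟩, ?_⟩
  · refine ⟨fun i e' he' => hf.hom i fun h0 => he' (by rw [coeff_smul, h0, smul_zero]),
      fun z hz => hf.nz z fun i => ?_⟩
    have h1 := hz i
    rw [smul_eval] at h1
    exact (mul_eq_zero.mp h1).resolve_left (inv_ne_zero he)
  · show coeff e ((coeff e (f 0))⁻¹ • f 0) = 1
    rw [coeff_smul, smul_eq_mul, inv_mul_cancel₀ he]
  · show Submodule.span ℂ {(coeff e (f 0))⁻¹ • f} = _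
    exact Submodule.span_singleton_smul_eq (IsUnit.mk0 _ (inv_ne_zero he)) f

end

section

variable (M : Type*) [AddCommGroup M] [Module (MvPolynomial (Fin 5) ℂ) M]
  [Module.Finite (MvPolynomial (Fin 5) ℂ) M] [Module.IsReflexive (MvPolynomial (Fin 5) ℂ) M]
  (hrank : Module.finrank (MvPolynomial (Fin 5) ℂ) M = 2)
  (hfree : ∀ (p : Ideal (MvPolynomial (Fin 5) ℂ)) [p.IsPrime],
    (∃ i, (X i : MvPolynomial (Fin 5) ℂ) ∉ p) →
      Module.Free (Localization.AtPrime p) (LocalizedModule p.primeCompl M))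
  (𝓜 : ℤ → AddSubgroup M) [DirectSum.Decomposition 𝓜]
  [SetLike.GradedSMul (weightedHomogeneousSubmodule ℂ (fun _ : Fin 5 => (1 : ℤ))) 𝓜]
  (hno : ¬ ∃ (b : Module.Basis (Fin 2) (MvPolynomial (Fin 5) ℂ) M) (d : Fin 2 → ℤ),
    ∀ k, b k ∈ 𝓜 (d k))

include hrank hfree hno

theorem main {d : ℕ} (hd : 1 ≤ d) (k : ℤ) {p q : ℕ} (a : Fin p → ℤ) (b : Fin q → ℤ) :
    {W : Submodule ℂ P5 | ∃ (f : Fin 5 → P5) (r : Fin q → Fin p → P5), SM d f ∧
      PullBack 𝓜 d k a b f r ∧ W = Submodule.span ℂ (Set.range f)}.Finite ∧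
    ∀ r0 : Fin q → Fin p → P5, {W : Submodule ℂ (Fin 5 → P5) | ∃ f : Fin 5 → P5, SM d f ∧
      PullBack 𝓜 d k a b f r0 ∧ W = Submodule.span ℂ {f}}.Finite := by
  classical
  letI _j : Module ℂ M := Module.compHom M (algebraMap ℂ (MvPolynomial (Fin 5) ℂ))
  have _i : IsScalarTower ℂ (MvPolynomial (Fin 5) ℂ) M := ⟨fun a p m => by
    rw [Algebra.smul_def, mul_smul]; rfl⟩
  have hx : Coord ℂ (X : Fin 5 → P5) := ⟨by
    rw [aeval_X_left]; exact Function.bijective_id⟩
  have hM : Bun (X : Fin 5 → P5) M := by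
    have h1 := bun_of_reflexive hrank hfree (fun i => Pi.single i 1)
    have h2 : (fun i => linForm ℂ (Pi.single i (1 : ℂ))) = (X : Fin 5 → P5) := by
      funext i
      rw [linForm_apply]
      simp [Pi.single_apply]
    rwa [h2] at h1
  have hno' : ¬ Gen2 P5 M := by
    rintro ⟨m₁, m₂, hm⟩
    apply hno
    refine exists_hom_basis (ω := fun _ => (1 : ℤ)) (δ := AddMonoidHom.id ℤ) (fun _ => rfl) ?_
      hrank
    have hind := hM.gen2_indep hx m₁ m₂ hm
    have hli : LinearIndependent (MvPolynomial (Fin 5) ℂ) ![m₁, m₂] := by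
      rw [LinearIndependent.pair_iff]
      exact hind
    have hsp : ⊤ ≤ Submodule.span (MvPolynomial (Fin 5) ℂ) (Set.range ![m₁, m₂]) := by
      intro m _
      rw [Matrix.range_cons, Matrix.range_cons, Matrix.range_empty, Set.union_empty,
        ← Set.insert_eq]
      obtain ⟨a, e, he⟩ := hm m
      exact Submodule.mem_span_pair.mpr ⟨a, e, he.symm⟩
    exact Module.Free.of_basis (Module.Basis.mk hli hsp)
  exact ⟨main_one 𝓜 hM hno' hd k a b, fun r0 => main_two 𝓜 hM hno' hd k a b r0⟩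

end

end Pool.Agent.Lib.MP_745d3a_ag.PF.PB
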