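import Pool.Agent.Lib.MP_745d3a_ag.PB.Cube

/-!
Linear algebra at a point and the numerical relations of a monad.
-/

set_option autoImplicit false

section

open MvPolynomial Matrix

namespace Pool.Agent.Lib.MP_745d3a_ag.PB

variable {K : Type*} [Field K] {l m n : Type*} [Fintype l] [Fintype m] [Fintype n]

lemma ker_of_rank (A : Matrix l m K) (B : Matrix m n K) (hAB : A * B = 0)
    (h : A.rank + B.rank = Fintype.card m) (y : m → K) (hy : A *ᵥ y = 0) :
    ∃ x, B *ᵥ x = y := by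
  classical
  have hle : LinearMap.range B.mulVecLin ≤ LinearMap.ker A.mulVecLin := by
    rintro _ ⟨x, rfl⟩
    rw [LinearMap.mem_ker, Matrix.mulVecLin_apply, Matrix.mulVecLin_apply, Matrix.mulVec_mulVec,
      hAB, Matrix.zero_mulVec]
  have hr := LinearMap.finrank_range_add_finrank_ker A.mulVecLin
  rw [Module.finrank_fintype_fun_eq_card] at hr
  have hfin : Module.finrank K (LinearMap.range B.mulVecLin)
      = Module.finrank K (LinearMap.ker A.mulVecLin) := by
    have h1 : A.rank = Module.finrank K (LinearMap.range A.mulVecLin) := rfl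
    have h2 : B.rank = Module.finrank K (LinearMap.range B.mulVecLin) := rfl
    omega
  have heq := Submodule.eq_of_le_of_finrank_eq hle hfin
  have hy' : y ∈ LinearMap.range B.mulVecLin := by
    rw [heq, LinearMap.mem_ker, Matrix.mulVecLin_apply]; exact hy
  obtain ⟨x, hx⟩ := hy'
  exact ⟨x, by rw [← hx, Matrix.mulVecLin_apply]⟩

lemma inj_of_rank (A : Matrix l m K) (h : A.rank = Fintype.card m) (y : m → K)
    (hy : A *ᵥ y = 0) : y = 0 := by
  classical
  have hr := LinearMap.finrank_range_add_finrank_ker A.mulVecLin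
  rw [Module.finrank_fintype_fun_eq_card] at hr
  have h1 : A.rank = Module.finrank K (LinearMap.range A.mulVecLin) := rfl
  have h2 : Module.finrank K (LinearMap.ker A.mulVecLin) = 0 := by omega
  have h3 : LinearMap.ker A.mulVecLin = ⊥ := Submodule.finrank_eq_zero.mp h2
  have h4 : y ∈ LinearMap.ker A.mulVecLin := by
    rw [LinearMap.mem_ker, Matrix.mulVecLin_apply]; exact hy
  rw [h3] at h4
  exact (Submodule.mem_bot K).mp h4

lemma surj_of_rank (A : Matrix l m K) (h : A.rank = Fintype.card l) (y : l → K) :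
    ∃ x, A *ᵥ x = y := by
  classical
  have h1 : A.rank = Module.finrank K (LinearMap.range A.mulVecLin) := rfl
  have h2 : LinearMap.range A.mulVecLin = ⊤ := by
    apply Submodule.eq_top_of_finrank_eq
    rw [← h1, h, Module.finrank_fintype_fun_eq_card]
  obtain ⟨x, hx⟩ := LinearMap.range_eq_top.mp h2 y
  exact ⟨x, by rw [← hx, Matrix.mulVecLin_apply]⟩

lemma surj_transpose_of_rank (A : Matrix l m K) (h : A.rank = Fintype.card m) (y : m → K) :
    ∃ x, Aᵀ *ᵥ x = y := by
  apply surj_of_rank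
  rw [Matrix.rank_transpose, h]

lemma exists_ginv [DecidableEq l] [DecidableEq m] (A : Matrix l m K) :
    ∃ B : Matrix m l K, A * B * A = A := by
  set f := A.mulVecLin with hf
  obtain ⟨r, hr⟩ := LinearMap.exists_rightInverse_of_surjective f.rangeRestrict
    (LinearMap.range_rangeRestrict f)
  obtain ⟨pr, hpr⟩ := (LinearMap.range f).subtype.exists_leftInverse_of_injective
    (LinearMap.range f).ker_subtype
  refine ⟨LinearMap.toMatrix' (r ∘ₗ pr), ?_⟩
  apply Matrix.mulVec_injective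
  funext x
  have h1 : ∀ w, (LinearMap.toMatrix' (r ∘ₗ pr)) *ᵥ w = r (pr w) := by
    intro w
    rw [LinearMap.toMatrix'_mulVec]; rfl
  rw [← Matrix.mulVec_mulVec, ← Matrix.mulVec_mulVec, h1]
  have h2 : pr (A *ᵥ x) = f.rangeRestrict x := by
    have := LinearMap.congr_fun hpr (f.rangeRestrict x)
    exact this
  rw [h2]
  have h3 : f.rangeRestrict (r (f.rangeRestrict x)) = f.rangeRestrict x :=
    LinearMap.congr_fun hr (f.rangeRestrict x)
  have h4 := congrArg Subtype.val h3
  exact h4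

end Pool.Agent.Lib.MP_745d3a_ag.PB

end

section

open MvPolynomial Matrix

namespace Pool.Agent.Lib.MP_745d3a_ag.PB

variable {K : Type*} [Field K] {α β : Type*} [Fintype α] [Fintype β] [DecidableEq α]
  [DecidableEq β]

omit [DecidableEq α] [DecidableEq β] in
private lemma Ma_rank (g : Matrix α β K) (f : Matrix β α K) (hgf : g * f = 0)
    (hker : ∀ y, g *ᵥ y = 0 → ∃ x, f *ᵥ x = y) :
    g.rank + f.rank = Fintype.card β := by
  have h1 := LinearMap.finrank_range_add_finrank_ker g.mulVecLin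
  rw [Module.finrank_fintype_fun_eq_card] at h1
  have h2 : LinearMap.ker g.mulVecLin = LinearMap.range f.mulVecLin := by
    ext y
    rw [LinearMap.mem_ker, LinearMap.mem_range]
    constructor
    · intro hy
      exact hker y hy
    · rintro ⟨x, rfl⟩
      simp only [Matrix.mulVecLin_apply, Matrix.mulVec_mulVec, hgf, Matrix.zero_mulVec]
  rw [h2] at h1
  exact h1

private lemma Ma_factor (P : Matrix α α K) (hP : P.rank = 2) :
    ∃ (A : Matrix α (Fin 2) K) (B : Matrix (Fin 2) α K), A * B = P ∧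
      (∀ f : Matrix β α K, f * P = 0 → f * A = 0) ∧
      (∀ g : Matrix α β K, P * g = 0 → B * g = 0) := by
  have h2 : Module.finrank K (LinearMap.range P.toLin') = 2 := by
    rw [← hP]; rfl
  let b := Module.finBasisOfFinrankEq K (LinearMap.range P.toLin') h2
  refine ⟨LinearMap.toMatrix' ((LinearMap.range P.toLin').subtype ∘ₗ
      (b.equivFun.symm : (Fin 2 → K) →ₗ[K] LinearMap.range P.toLin')),
    LinearMap.toMatrix' ((b.equivFun : LinearMap.range P.toLin' →ₗ[K] (Fin 2 → K)) ∘ₗ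
      P.toLin'.rangeRestrict), ?_, ?_, ?_⟩
  · rw [← LinearMap.toMatrix'_comp]
    conv_rhs => rw [← LinearMap.toMatrix'_toLin' P]
    congr 1
    apply LinearMap.ext
    intro x
    show ((b.equivFun.symm (b.equivFun (P.toLin'.rangeRestrict x)) :
      LinearMap.range P.toLin') : α → K) = P.toLin' x
    rw [LinearEquiv.symm_apply_apply]
    rfl
  · intro f hf
    have h3 : f.toLin' ∘ₗ ((LinearMap.range P.toLin').subtype ∘ₗ
        (b.equivFun.symm : (Fin 2 → K) →ₗ[K] LinearMap.range P.toLin')) = 0 := by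
      apply LinearMap.ext
      intro t
      obtain ⟨y, hy⟩ := (b.equivFun.symm t).2
      show f.toLin' ((b.equivFun.symm t : LinearMap.range P.toLin') : α → K) = 0
      rw [← hy, Matrix.toLin'_apply, Matrix.toLin'_apply, Matrix.mulVec_mulVec, hf,
        Matrix.zero_mulVec]
    conv_lhs => rw [← LinearMap.toMatrix'_toLin' f]
    rw [← LinearMap.toMatrix'_comp, h3, map_zero]
  · intro g hg
    have h3 : ((b.equivFun : LinearMap.range P.toLin' →ₗ[K] (Fin 2 → K)) ∘ₗ
        P.toLin'.rangeRestrict) ∘ₗ g.toLin' = 0 := by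
      apply LinearMap.ext
      intro t
      have h4 : P.toLin'.rangeRestrict (g.toLin' t) = 0 := by
        apply Subtype.ext
        show P.toLin' (g.toLin' t) = 0
        rw [Matrix.toLin'_apply, Matrix.toLin'_apply, Matrix.mulVec_mulVec, hg,
          Matrix.zero_mulVec]
      show b.equivFun (P.toLin'.rangeRestrict (g.toLin' t)) = 0
      rw [h4, map_zero]
    conv_lhs => rw [← LinearMap.toMatrix'_toLin' g]
    rw [← LinearMap.toMatrix'_comp, h3, map_zero]

lemma split_pt (g : Matrix α β K) (f : Matrix β α K) (hfg : f * g = 0) (hgf : g * f = 0)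
    (hker : ∀ y, g *ᵥ y = 0 → ∃ x, f *ᵥ x = y)
    (h2 : Fintype.card α = Fintype.card β + 2) :
    Two ob (fromBlocks 0 g f 0) := by
  obtain ⟨F, hF⟩ := exists_ginv f
  obtain ⟨G₀, hG₀⟩ := exists_ginv g
  obtain ⟨G, hG⟩ : ∃ G, G = G₀ * (1 - F * f) := ⟨_, rfl⟩
  have hGg : g * G * g = g := by
    rw [hG, Matrix.mul_sub, Matrix.mul_one, Matrix.mul_sub, Matrix.sub_mul, hG₀]
    have : g * (G₀ * (F * f)) * g = 0 := by
      simp only [Matrix.mul_assoc, hfg, Matrix.mul_zero]
    rw [this, sub_zero]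
  have hFf : F * f * (F * f) = F * f := by
    rw [Matrix.mul_assoc, ← Matrix.mul_assoc f F f, hF]
  have hGF : G * (F * f) = 0 := by
    rw [hG, Matrix.mul_assoc, Matrix.sub_mul, Matrix.one_mul, hFf, sub_self, Matrix.mul_zero]
  obtain ⟨P, hP⟩ : ∃ P, P = 1 - g * G - F * f := ⟨_, rfl⟩
  have hfP : f * P = 0 := by
    rw [hP, Matrix.mul_sub, Matrix.mul_sub, Matrix.mul_one, ← Matrix.mul_assoc, hfg,
      Matrix.zero_mul, ← Matrix.mul_assoc, hF, sub_zero, sub_self]
  have hPg : P * g = 0 := by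
    rw [hP, Matrix.sub_mul, Matrix.sub_mul, Matrix.one_mul, hGg, Matrix.mul_assoc, hfg,
      Matrix.mul_zero, sub_self, sub_zero]
  have hPF : P * (F * f) = 0 := by
    rw [hP, Matrix.sub_mul, Matrix.sub_mul, Matrix.one_mul, hFf, Matrix.mul_assoc g, hGF,
      Matrix.mul_zero, sub_zero, sub_self]
  have hrk := Ma_rank g f hgf hker
  have hrF : (F * f).rank = f.rank := by
    apply le_antisymm (Matrix.rank_mul_le_right F f)
    calc f.rank = (f * (F * f)).rank := by rw [← Matrix.mul_assoc, hF]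
      _ ≤ (F * f).rank := Matrix.rank_mul_le_right f (F * f)
  have hkerP : LinearMap.ker P.mulVecLin =
      LinearMap.range g.mulVecLin ⊔ LinearMap.range (F * f).mulVecLin := by
    apply le_antisymm
    · intro x hx
      rw [LinearMap.mem_ker, Matrix.mulVecLin_apply, hP, Matrix.sub_mulVec, Matrix.sub_mulVec,
        Matrix.one_mulVec, sub_sub, sub_eq_zero] at hx
      rw [hx]
      refine Submodule.add_mem_sup ?_ ?_
      · exact ⟨G *ᵥ x, by rw [Matrix.mulVecLin_apply, Matrix.mulVec_mulVec]⟩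
      · exact ⟨x, rfl⟩
    · rw [sup_le_iff]
      constructor
      · rintro _ ⟨y, rfl⟩
        rw [LinearMap.mem_ker, Matrix.mulVecLin_apply, Matrix.mulVecLin_apply,
          Matrix.mulVec_mulVec, hPg, Matrix.zero_mulVec]
      · rintro _ ⟨y, rfl⟩
        rw [LinearMap.mem_ker, Matrix.mulVecLin_apply, Matrix.mulVecLin_apply,
          Matrix.mulVec_mulVec, hPF, Matrix.zero_mulVec]
  have hinf : LinearMap.range g.mulVecLin ⊓ LinearMap.range (F * f).mulVecLin = ⊥ := by
    rw [Submodule.eq_bot_iff]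
    rintro x ⟨⟨u, hu⟩, ⟨w, hw⟩⟩
    rw [Matrix.mulVecLin_apply] at hu hw
    have h3 : (g * G) *ᵥ x = x := by
      rw [← hu, Matrix.mulVec_mulVec, hGg]
    have h4 : (g * G) *ᵥ x = 0 := by
      rw [← hw, Matrix.mulVec_mulVec, Matrix.mul_assoc, hGF, Matrix.mul_zero,
        Matrix.zero_mulVec]
    rw [← h3, h4]
  have hPr : P.rank = 2 := by
    have h3 := LinearMap.finrank_range_add_finrank_ker P.mulVecLin
    rw [Module.finrank_fintype_fun_eq_card] at h3
    have h4 := Submodule.finrank_sup_add_finrank_inf_eq (LinearMap.range g.mulVecLin)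
      (LinearMap.range (F * f).mulVecLin)
    rw [hinf, finrank_bot, add_zero, ← hkerP] at h4
    have h5 : Module.finrank K (LinearMap.range g.mulVecLin) = g.rank := rfl
    have h6 : Module.finrank K (LinearMap.range (F * f).mulVecLin) = (F * f).rank := rfl
    have h7 : Module.finrank K (LinearMap.range P.mulVecLin) = P.rank := rfl
    rw [h5, h6, hrF] at h4
    rw [h7] at h3
    omega
  obtain ⟨A, B, hAB, hA, hB⟩ := Ma_factor (β := β) P hPr
  have hL : f * (F * (1 - G * g)) + G * g = 1 := by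
    have h3 : f * (F * (1 - G * g)) = 1 - G * g := by
      apply Matrix.ext_of_mulVec_single
      intro j
      have h4 : g *ᵥ ((1 - G * g) *ᵥ Pi.single j 1) = 0 := by
        rw [Matrix.mulVec_mulVec, Matrix.mul_sub, Matrix.mul_one, ← Matrix.mul_assoc, hGg,
          sub_self, Matrix.zero_mulVec]
      obtain ⟨x, hx⟩ := hker _ h4
      rw [← Matrix.mulVec_mulVec, ← Matrix.mulVec_mulVec, ← hx, Matrix.mulVec_mulVec,
        Matrix.mulVec_mulVec, hF]
    rw [h3, sub_add_cancel]
  have hU : g * G + F * (1 - G * g) * f = 1 - P := by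
    rw [Matrix.mul_sub, Matrix.mul_one, Matrix.sub_mul, Matrix.mul_assoc F (G * g),
      Matrix.mul_assoc G g, hgf, Matrix.mul_zero, Matrix.mul_zero, sub_zero, hP]
    abel
  refine ⟨fromBlocks 0 (F * (1 - G * g)) G 0, fromRows A 0, fromCols B 0, ?_, ?_, ?_, ?_, ?_⟩
  · intro i j hij
    rcases i with i | i <;> rcases j with j | j
    · exact absurd rfl hij
    · simp [ob]
    · simp [ob]
    · exact absurd rfl hij
  · intro t i hi
    rcases i with i | i
    · rfl
    · exact absurd rfl hi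
  · rw [Matrix.fromBlocks_mul_fromRows, hA f hfP]
    simp
  · rw [Matrix.fromCols_mul_fromBlocks, hB g hPg]
    simp
  · rw [Matrix.fromBlocks_multiply, Matrix.fromBlocks_multiply, Matrix.fromBlocks_add,
      Matrix.fromRows_mul_fromCols, ← Matrix.fromBlocks_one,
      sub_eq_add_neg (fromBlocks _ _ _ _) (fromBlocks _ _ _ _),
      Matrix.fromBlocks_neg, Matrix.fromBlocks_add]
    congr 1
    · rw [Matrix.zero_mul, zero_add, zero_add, hU, hAB, sub_eq_add_neg]
    · simp
    · simp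
    · rw [Matrix.zero_mul, add_zero, add_zero, hL]
      simp

end Pool.Agent.Lib.MP_745d3a_ag.PB

end

section

open MvPolynomial Matrix

namespace Pool.Agent.Lib.MP_745d3a_ag.PB

namespace PureMonad

variable {K : Type*} [Field K] {n b₁ b₂ r p q e : ℕ} (W : PureMonad K n b₁ b₂ r p q e)

lemma gm_fm : W.gm * W.fm = 0 := by
  ext1 i j
  rw [Matrix.mul_apply, Fintype.sum_sum_type, Fintype.sum_sum_type]
  rcases i with a | c
  · rcases j with a' | c'
    · simp [gm, fm]
    · have h := congrFun (congrFun W.XY a) c'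
      rw [Matrix.mul_apply] at h
      simpa [gm, fm] using h
  · rcases j with a' | c' <;> simp [gm, fm]

lemma fm_gm : W.fm * W.gm = 0 := by
  have h1 : W.Y * (W.Z * cst W.U) = 0 := by
    rw [← Matrix.mul_assoc, W.YZ, Matrix.zero_mul]
  have h2 : (cst W.U)ᵀ * (W.Z * cst W.U) = 0 := by
    rw [← Matrix.mul_assoc, W.isotropic]
  ext1 i j
  rw [Matrix.mul_apply, Fintype.sum_sum_type]
  rcases i with (b | t) | t
  · rcases j with (b' | t') | t'
    · simp [gm, fm]
    · simp [gm, fm]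
    · have h := congrFun (congrFun h1 b) t'
      rw [Matrix.mul_apply] at h
      simpa [gm, fm] using h
  · rcases j with (b' | t') | t'
    · simp [gm, fm]
    · simp [gm, fm]
    · have h := congrFun (congrFun h2 t) t'
      rw [Matrix.mul_apply] at h
      simpa [gm, fm] using h
  · rcases j with (b' | t') | t' <;> simp [gm, fm]

lemma fm_gm_exact (v : Fin 5 → K) (hv : v ≠ 0) (y : Od b₁ r → K)
    (hy : ev v W.gm *ᵥ y = 0) : ∃ x, ev v W.fm *ᵥ x = y := by
  have hX : ev v W.X *ᵥ (fun b => y (.inl (.inl b))) = 0 := by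
    ext1 a
    have h := congrFun hy (.inl a)
    simp only [Matrix.mulVec, dotProduct, Fintype.sum_sum_type, ev_apply, gm] at h ⊢
    simpa using h
  have hZ : (ev v W.Z * W.U) *ᵥ (fun t => y (.inr t)) = 0 := by
    ext1 c
    have h := congrFun hy (.inr c)
    have e : ev v (W.Z * cst W.U) = ev v W.Z * W.U := by rw [ev_mul, ev_cst]
    rw [← e]
    simp only [Matrix.mulVec, dotProduct, Fintype.sum_sum_type, ev_apply, gm] at h ⊢
    simpa using h
  have hw := inj_of_rank _ (by rw [W.rankZU v hv, Fintype.card_fin]) _ hZ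
  obtain ⟨y0, hy0⟩ := ker_of_rank (ev v W.X) (ev v W.Y) (by rw [← ev_mul, W.XY, ev_zero])
    (by rw [W.rankX v hv, W.rankY v hv, Fintype.card_fin]) _ hX
  obtain ⟨t, ht⟩ := surj_transpose_of_rank (ev v W.Z * W.U)
    (by rw [W.rankZU v hv, Fintype.card_fin]) (W.Uᵀ *ᵥ y0 - fun t => y (.inl (.inr t)))
  have hsk : (ev v W.Z)ᵀ = - ev v W.Z := by
    rw [← ev_transpose, W.skew, ev_neg]
  have hUt : W.Uᵀ *ᵥ (y0 + ev v W.Z *ᵥ t) = fun t => y (.inl (.inr t)) := by
    rw [Matrix.transpose_mul, hsk, Matrix.mul_neg, Matrix.neg_mulVec, ← Matrix.mulVec_mulVec,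
      neg_eq_iff_eq_neg] at ht
    rw [Matrix.mulVec_add, ht]
    abel
  have hYt : ev v W.Y *ᵥ (y0 + ev v W.Z *ᵥ t) = fun b => y (.inl (.inl b)) := by
    rw [Matrix.mulVec_add, hy0, Matrix.mulVec_mulVec, ← ev_mul, W.YZ, ev_zero,
      Matrix.zero_mulVec, add_zero]
  refine ⟨Sum.elim 0 (y0 + ev v W.Z *ᵥ t), ?_⟩
  ext1 o
  rcases o with (b | t') | t'
  · rw [← congrFun hYt b]
    simp [Matrix.mulVec, dotProduct, fm]
  · have e := congrFun hUt t'
    rw [← e]
    simp [Matrix.mulVec, dotProduct, fm]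
  · have e := congrFun hw t'
    rw [e]
    simp [Matrix.mulVec, dotProduct, fm]

end PureMonad

end Pool.Agent.Lib.MP_745d3a_ag.PB

end

section

open MvPolynomial Matrix

namespace Pool.Agent.Lib.MP_745d3a_ag.PB

namespace PureMonad

variable {K : Type*} [Field K] {n b₁ b₂ r p q e : ℕ} (W : PureMonad K n b₁ b₂ r p q e)

private lemma Na_dl_sq : W.dl * W.dl = 0 := by
  ext1 i j
  rw [Matrix.mul_apply]
  rcases i with a | b | c <;> rcases j with a' | b' | c' <;>
    simp only [dl, Fintype.sum_sum_type, zero_mul, mul_zero, Finset.sum_const_zero, add_zero,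
      zero_add, Matrix.zero_apply]
  have h := congrFun (congrFun W.XY a) c'
  rw [Matrix.mul_apply] at h
  exact h

private lemma Na_dl_mid : W.dl * W.mid = 0 := by
  ext1 i j
  rw [Matrix.mul_apply]
  rcases i with a | b | c <;> rcases j with a' | b' | c' <;>
    simp only [dl, mid, Fintype.sum_sum_type, zero_mul, mul_zero, Finset.sum_const_zero, add_zero,
      zero_add, Matrix.zero_apply]
  have h := congrFun (congrFun W.YZ b) c'
  rw [Matrix.mul_apply] at h
  exact h

private lemma Na_ZYt : W.Z * W.Yᵀ = 0 := by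
  have h : (W.Y * W.Zᵀ)ᵀ = 0 := by
    rw [W.skew, Matrix.mul_neg, W.YZ, neg_zero, Matrix.transpose_zero]
  rw [Matrix.transpose_mul, Matrix.transpose_transpose] at h
  exact h

private lemma Na_mid_dl : W.mid * W.dlᵀ = 0 := by
  ext1 i j
  rw [Matrix.mul_apply]
  rcases i with a | b | c <;> rcases j with a' | b' | c' <;>
    simp only [dl, mid, Matrix.transpose_apply, Fintype.sum_sum_type, zero_mul, mul_zero,
      Finset.sum_const_zero, add_zero, zero_add, Matrix.zero_apply]
  have h := congrFun (congrFun (Na_ZYt W) c) b'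
  rw [Matrix.mul_apply] at h
  exact h

lemma bd_sq : W.bd * W.bd = 0 := by
  have h4 : W.dlᵀ * W.dlᵀ = 0 := by
    rw [← Matrix.transpose_mul, Na_dl_sq, Matrix.transpose_zero]
  rw [bd, Matrix.fromBlocks_multiply, Na_dl_sq, Na_dl_mid, Na_mid_dl, h4]
  simp only [Matrix.mul_zero, Matrix.zero_mul, add_zero]
  exact Matrix.fromBlocks_zero

private lemma Na_mv (v : Fin 5 → K) (w : G n b₁ b₂ → K) :
    (∀ a, (ev v W.bd *ᵥ w) (.inl (.inl a)) =
      (ev v W.X *ᵥ fun b => w (.inl (.inr (.inl b)))) a) ∧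
    (∀ b, (ev v W.bd *ᵥ w) (.inl (.inr (.inl b))) =
      (ev v W.Y *ᵥ fun c => w (.inl (.inr (.inr c)))) b) ∧
    (∀ c, (ev v W.bd *ᵥ w) (.inl (.inr (.inr c))) =
      (ev v W.Z *ᵥ fun c' => w (.inr (.inr (.inr c')))) c) ∧
    (∀ a, (ev v W.bd *ᵥ w) (.inr (.inl a)) = 0) ∧
    (∀ b, (ev v W.bd *ᵥ w) (.inr (.inr (.inl b))) =
      ((ev v W.X)ᵀ *ᵥ fun a => w (.inr (.inl a))) b) ∧
    (∀ c, (ev v W.bd *ᵥ w) (.inr (.inr (.inr c))) =
      ((ev v W.Y)ᵀ *ᵥ fun b => w (.inr (.inr (.inl b)))) c) := by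
  refine ⟨fun a => ?_, fun b => ?_, fun c => ?_, fun a => ?_, fun b => ?_, fun c => ?_⟩ <;>
    simp only [Matrix.mulVec, dotProduct, bd, dl, mid, ev_apply, Matrix.fromBlocks_apply₁₁,
      Matrix.fromBlocks_apply₁₂, Matrix.fromBlocks_apply₂₁, Matrix.fromBlocks_apply₂₂,
      Matrix.transpose_apply, Fintype.sum_sum_type, map_zero, zero_mul, Finset.sum_const_zero,
      add_zero, zero_add, Matrix.zero_apply]

lemma bd_exact (v : Fin 5 → K) (hv : v ≠ 0) (z : G n b₁ b₂ → K) (hz : ev v W.bd *ᵥ z = 0) :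
    ∃ w, ev v W.bd *ᵥ w = z := by
  obtain ⟨m0, m1, m2, m5, m4, m3⟩ := Na_mv W v z
  rw [hz] at m0 m1 m2 m5 m4 m3
  have e1 : (ev v W.X *ᵥ fun b => z (.inl (.inr (.inl b)))) = 0 := funext fun a => (m0 a).symm
  have e2 : (ev v W.Y *ᵥ fun c => z (.inl (.inr (.inr c)))) = 0 := funext fun a => (m1 a).symm
  have e3 : (ev v W.Z *ᵥ fun c => z (.inr (.inr (.inr c)))) = 0 := funext fun a => (m2 a).symm
  have e5 : ((ev v W.X)ᵀ *ᵥ fun a => z (.inr (.inl a))) = 0 := funext fun a => (m4 a).symm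
  have e4 : ((ev v W.Y)ᵀ *ᵥ fun b => z (.inr (.inr (.inl b)))) = 0 :=
    funext fun a => (m3 a).symm
  have rX := W.rankX v hv
  have rY := W.rankY v hv
  have rYZ := W.rankYZ v hv
  have hXY : ev v W.X * ev v W.Y = 0 := by rw [← ev_mul, W.XY, ev_zero]
  have hYZ : ev v W.Y * ev v W.Z = 0 := by rw [← ev_mul, W.YZ, ev_zero]
  have hZY : ev v W.Z * (ev v W.Y)ᵀ = 0 := by
    rw [← ev_transpose, ← ev_mul, Na_ZYt, ev_zero]
  have hYX : (ev v W.Y)ᵀ * (ev v W.X)ᵀ = 0 := by
    rw [← Matrix.transpose_mul, hXY, Matrix.transpose_zero]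
  obtain ⟨w1, h1⟩ := surj_of_rank (ev v W.X) (by rw [rX, Fintype.card_fin])
    (fun a => z (.inl (.inl a)))
  obtain ⟨w2, h2⟩ := ker_of_rank (ev v W.X) (ev v W.Y) hXY
    (by rw [Fintype.card_fin]; omega) _ e1
  obtain ⟨w3, h3⟩ := ker_of_rank (ev v W.Y) (ev v W.Z) hYZ
    (by rw [Fintype.card_fin]; omega) _ e2
  obtain ⟨w4, h4⟩ := ker_of_rank (ev v W.Z) (ev v W.Y)ᵀ hZY
    (by rw [Matrix.rank_transpose, Fintype.card_fin]; omega) _ e3
  obtain ⟨w5, h5⟩ := ker_of_rank (ev v W.Y)ᵀ (ev v W.X)ᵀ hYX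
    (by rw [Matrix.rank_transpose, Matrix.rank_transpose, Fintype.card_fin]; omega) _ e4
  have h6 := inj_of_rank (ev v W.X)ᵀ (by rw [Matrix.rank_transpose, rX, Fintype.card_fin]) _ e5
  refine ⟨Sum.elim (Sum.elim 0 (Sum.elim w1 w2)) (Sum.elim w5 (Sum.elim w4 w3)), ?_⟩
  obtain ⟨k0, k1, k2, k5, k4, k3⟩ := Na_mv W v
    (Sum.elim (Sum.elim 0 (Sum.elim w1 w2)) (Sum.elim w5 (Sum.elim w4 w3)))
  ext i
  rcases i with (a | b | c) | (a | b | c)
  · rw [k0]; exact congrFun h1 a
  · rw [k1]; exact congrFun h2 b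
  · rw [k2]; exact congrFun h3 c
  · rw [k5]; exact (congrFun h6 a).symm
  · rw [k4]; exact congrFun h5 b
  · rw [k3]; exact congrFun h4 c

private lemma Na_entries (P : G n b₁ b₂ → G n b₁ b₂ → Prop)
    (hX : ∀ a b, P (.inl (.inl a)) (.inl (.inr (.inl b))))
    (hY : ∀ b c, P (.inl (.inr (.inl b))) (.inl (.inr (.inr c))))
    (hZ : ∀ c c', P (.inl (.inr (.inr c))) (.inr (.inr (.inr c'))))
    (hYt : ∀ c b, P (.inr (.inr (.inr c))) (.inr (.inr (.inl b))))
    (hXt : ∀ b a, P (.inr (.inr (.inl b))) (.inr (.inl a)))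
    (i j : G n b₁ b₂) (h : W.bd i j ≠ 0) : P i j := by
  rcases i with (a | b | c) | (a | b | c) <;> rcases j with (a' | b' | c') | (a' | b' | c') <;>
    first
      | exact hX _ _
      | exact hY _ _
      | exact hZ _ _
      | exact hYt _ _
      | exact hXt _ _
      | exact absurd rfl h

lemma bd_degZero : DegZero (dg n b₁ b₂ p q e) W.bd := by
  have hp := W.hp
  have hpq := W.hpq
  have hqe := W.hqe
  intro i j h
  refine Na_entries W (fun i j => ∃ k, dg n b₁ b₂ p q e i + k = dg n b₁ b₂ p q e j ∧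
    (W.bd i j).IsHomogeneous k) ?_ ?_ ?_ ?_ ?_ i j h
  · intro a b
    exact ⟨p, by simp only [dg]; omega, W.degX a b⟩
  · intro b c
    exact ⟨q - p, by simp only [dg]; omega, W.degY b c⟩
  · intro c c'
    exact ⟨e - 2 * q, by simp only [dg]; omega, W.degZ c c'⟩
  · intro c b
    exact ⟨q - p, by simp only [dg]; omega, W.degY b c⟩
  · intro b a
    exact ⟨p, by simp only [dg]; omega, W.degX a b⟩

lemma bd_odd : Odd' (od n b₁ b₂) W.bd := by
  intro i j h
  refine Na_entries W (fun i j => od n b₁ b₂ i ≠ od n b₁ b₂ j) ?_ ?_ ?_ ?_ ?_ i j h <;>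
    intro a b <;> simp [od]

lemma bd_hdg (i j : G n b₁ b₂) (h : W.bd i j ≠ 0) :
    hdg n b₁ b₂ i + 1 = hdg n b₁ b₂ j := by
  refine Na_entries W (fun i j => hdg n b₁ b₂ i + 1 = hdg n b₁ b₂ j) ?_ ?_ ?_ ?_ ?_ i j h <;>
    intro a b <;> rfl

end PureMonad

end Pool.Agent.Lib.MP_745d3a_ag.PB

end

section

open MvPolynomial Matrix

namespace Pool.Agent.Lib.MP_745d3a_ag.PB

namespace PureMonad

variable {K : Type*} [Field K] {n b₁ b₂ r p q e : ℕ} (W : PureMonad K n b₁ b₂ r p q e)

include W in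
lemma rel_a : b₂ + n = b₁ + 2 * r + 2 := by
  have hv : (fun _ => 1 : Fin 5 → K) ≠ 0 := fun h => one_ne_zero (congrFun h 0)
  have h1 := W.rankY _ hv
  have h2 := W.rankYZ _ hv
  have h3 := W.rankZ _ hv
  omega

include W in
lemma Nb1_sum [IsAlgClosed K] [CharZero K] (P : Polynomial K) (hP : P.natDegree ≤ 4) :
    (n : K) * P.eval 0 - b₁ * P.eval (p : K) + b₂ * P.eval (q : K) - n * P.eval (e : K)
      + b₁ * P.eval ((e : K) - p) - b₂ * P.eval ((e : K) - q) = 0 := by
  have hD2 : W.bd * W.bd = 0 := W.bd_sq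
  have h := HS (od n b₁ b₂) (dg n b₁ b₂ p q e) W.bd (1 : Matrix (G n b₁ b₂) (G n b₁ b₂) K)
    W.bd_degZero W.bd_odd
    (by
      intro i j hij
      have : i = j := by
        by_contra hne
        exact hij (Matrix.one_apply_ne hne)
      subst this
      exact ⟨rfl, rfl⟩)
    (by simp) (by simp) hD2
    (by
      intro v hv
      obtain ⟨s, hs⟩ := exists_homotopy_matrix (ev v W.bd)
        (by rw [← ev_mul, hD2, ev_zero]) (W.bd_exact v hv)
      exact ⟨s, by rw [hs, Matrix.mul_one]⟩)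
    P hP
  have hpe : p ≤ e := by
    have := W.hpq
    have := W.hqe
    omega
  have hqe' : q ≤ e := by
    have := W.hqe
    omega
  simp only [Fintype.sum_sum_type, od, dg, Matrix.one_apply_eq, sg_false, sg_true,
    Finset.sum_const, Finset.card_univ, Fintype.card_fin, nsmul_eq_mul, Nat.cast_sub hpe,
    Nat.cast_sub hqe', Nat.cast_zero] at h
  linear_combination h

include W in
lemma rel_bc [IsAlgClosed K] [CharZero K] :
    (n : ℤ) * e + b₂ * (e - 2 * q) = b₁ * (e - 2 * p) ∧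
    (n : ℤ) * e ^ 3 + b₂ * (e - 2 * q) ^ 3 = b₁ * (e - 2 * p) ^ 3 := by
  have h2 : (2 : K) ≠ 0 := two_ne_zero
  have key : ∀ k : ℕ, k ≤ 4 → ((Polynomial.C (2 : K) * Polynomial.X
      - Polynomial.C (e : K)) ^ k).natDegree ≤ 4 := by
    intro k hk
    refine (Polynomial.natDegree_pow_le).trans ?_
    have : (Polynomial.C (2 : K) * Polynomial.X - Polynomial.C (e : K)).natDegree ≤ 1 := by
      refine (Polynomial.natDegree_sub_le _ _).trans ?_
      rw [Polynomial.natDegree_C]
      exact max_le ((Polynomial.natDegree_C_mul_le _ _).trans Polynomial.natDegree_X_le)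
        (Nat.zero_le _)
    nlinarith
  have e1 := W.Nb1_sum ((Polynomial.C (2 : K) * Polynomial.X - Polynomial.C (e : K)) ^ 1)
    (key 1 (by norm_num))
  have e3 := W.Nb1_sum ((Polynomial.C (2 : K) * Polynomial.X - Polynomial.C (e : K)) ^ 3)
    (key 3 (by norm_num))
  simp only [Polynomial.eval_pow, Polynomial.eval_sub, Polynomial.eval_mul, Polynomial.eval_C,
    Polynomial.eval_X] at e1 e3
  constructor
  · have : ((((n : ℤ) * e + b₂ * (e - 2 * q) : ℤ)) : K) = ((b₁ * (e - 2 * p) : ℤ) : K) := by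
      push_cast
      apply mul_left_cancel₀ h2
      linear_combination -e1
    exact Int.cast_injective this
  · have : ((((n : ℤ) * e ^ 3 + b₂ * (e - 2 * q) ^ 3 : ℤ)) : K)
        = ((b₁ * (e - 2 * p) ^ 3 : ℤ) : K) := by
      push_cast
      apply mul_left_cancel₀ h2
      linear_combination -e3
    exact Int.cast_injective this

end PureMonad

end Pool.Agent.Lib.MP_745d3a_ag.PB

end

section

open MvPolynomial Matrix

namespace Pool.Agent.Lib.MP_745d3a_ag.PB

namespace PureMonad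

variable {K : Type*} [Field K] {n b₁ b₂ r p q e : ℕ} (W : PureMonad K n b₁ b₂ r p q e)

lemma bd'_degZero : DegZero (dg' n b₁ b₂ r p q e) W.bd' := by
  have hp := W.hp
  have hpq := W.hpq
  have hqe := W.hqe
  rintro ((a | c) | ((b | t) | t)) ((a' | c') | ((b' | t') | t')) hij <;>
    simp only [bd', fromBlocks_apply₁₁, fromBlocks_apply₁₂, fromBlocks_apply₂₁,
      fromBlocks_apply₂₂, Matrix.zero_apply, gm, fm, ne_eq, not_true_eq_false] at hij ⊢
  · exact ⟨p, by simp [dg'], W.degX a b'⟩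
  · refine ⟨e - 2 * q, by simp only [dg']; omega, ?_⟩
    rw [Matrix.mul_apply]
    refine IsHomogeneous.sum _ _ _ fun j _ => ?_
    have := (W.degZ c j).mul (isHomogeneous_C (Fin 5) (W.U j t'))
    simpa using this
  · exact ⟨q - p, by simp only [dg']; omega, W.degY b c'⟩
  · exact ⟨0, by simp [dg'], isHomogeneous_C (Fin 5) _⟩

lemma bd'_odd : Odd' ob W.bd' := by
  rintro (i | i) (j | j) hij
  · simp [bd'] at hij
  · simp [ob]
  · simp [ob]
  · simp [bd'] at hij

lemma bd'_sq : W.bd' * W.bd' = 0 := by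
  rw [bd', fromBlocks_multiply]
  simp [W.gm_fm, W.fm_gm]

lemma bd'_two (v : Fin 5 → K) (hv : v ≠ 0) : Two ob (ev v W.bd') := by
  have h : ev v W.bd' = fromBlocks 0 (ev v W.gm) (ev v W.fm) 0 := by
    ext i j
    rcases i with i | i <;> rcases j with j | j <;> simp [bd']
  rw [h]
  have ha := W.rel_a
  refine split_pt _ _ ?_ ?_ (W.fm_gm_exact v hv) ?_
  · rw [← ev_mul, W.fm_gm, ev_zero]
  · rw [← ev_mul, W.gm_fm, ev_zero]
  · simp only [Fintype.card_sum, Fintype.card_fin]
    omega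

include W in
lemma rel_d [IsAlgClosed K] [CharZero K] :
    ((n : ℤ) * e ^ 2 - b₁ * (e - 2 * p) ^ 2 + (b₂ - 2 * r) * (e - 2 * q) ^ 2) ^ 2
      = 2 * (n * e ^ 4 - b₁ * (e - 2 * p) ^ 4 + (b₂ - 2 * r) * (e - 2 * q) ^ 4) := by
  have hqe := W.hqe
  have ha : (b₂ : K) + n = b₁ + 2 * r + 2 := by exact_mod_cast W.rel_a
  have hb : (n : K) * e + b₂ * (e - 2 * q) = b₁ * (e - 2 * p) := by
    exact_mod_cast congrArg (Int.cast : ℤ → K) W.rel_bc.1
  have hc : ((e - q : ℕ) : K) = e - q := Nat.cast_sub (by omega)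
  have key := quartic (K := K) ob (dg' n b₁ b₂ r p q e) (e : K)
    (fun P hP => lam3 ob (dg' n b₁ b₂ r p q e) W.bd' W.bd'_degZero W.bd'_odd W.bd'_sq
      W.bd'_two P hP) ?_ ?_
  · simp only [Fintype.sum_sum_type, ob, dg', sg_false, sg_true, Finset.sum_const,
      Finset.card_univ, Fintype.card_fin, nsmul_eq_mul, hc, Nat.cast_zero] at key
    have h2 : (((n : ℤ) * e ^ 2 - b₁ * (e - 2 * p) ^ 2 + (b₂ - 2 * r) * (e - 2 * q) ^ 2) ^ 2 : ℤ)
        = ((2 * (n * e ^ 4 - b₁ * (e - 2 * p) ^ 4 + (b₂ - 2 * r) * (e - 2 * q) ^ 4) : ℤ) : K) := by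
      push_cast
      linear_combination (-1 : K) * key
    exact_mod_cast h2
  · simp only [Fintype.sum_sum_type, ob, sg_false, sg_true, Finset.sum_const,
      Finset.card_univ, Fintype.card_sum, Fintype.card_fin, nsmul_eq_mul, Nat.cast_add]
    linear_combination ha
  · simp only [Fintype.sum_sum_type, ob, dg', sg_false, sg_true, Finset.sum_const,
      Finset.card_univ, Fintype.card_fin, nsmul_eq_mul, hc, Nat.cast_zero]
    linear_combination (-1 : K) * hb

end PureMonad

end Pool.Agent.Lib.MP_745d3a_ag.PB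

end
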